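import Mathlib

/-! MP_24a659_al, S00967. Basic definitions. See paper 716.
Positions are 0-indexed: `s i` is the pair which leads from position `i` to position `i+1`. -/

set_option autoImplicit false

namespace NF

/-! ### The free algebra -/

/-- monomials: words in `x = false`, `y = true` -/
abbrev Mon := FreeMonoid Bool

/-- the free associative algebra; its elements are used as elements and as functionals -/
abbrev F := MonoidAlgebra ℚ Mon

/-- the monomial `m` -/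
noncomputable abbrev mono (m : Mon) : F := MonoidAlgebra.single m (1 : ℚ)

/-- a monomial from a list of letters -/
def ofL (l : List Bool) : Mon := FreeMonoid.ofList l

/-- the coefficient of `m` as a linear map -/
noncomputable def cf (m : Mon) : F →ₗ[ℚ] ℚ :=
  (Finsupp.lapply m) ∘ₗ (MonoidAlgebra.coeffLinearEquiv ℚ (S := ℚ) (M := Mon)).toLinearMap

/-- linear extension of a function given on monomials -/
noncomputable def lext {M : Type} [AddCommGroup M] [Module ℚ M] (g : Mon → M) : F →ₗ[ℚ] M :=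
  (Finsupp.linearCombination ℚ g) ∘ₗ
    (MonoidAlgebra.coeffLinearEquiv ℚ (S := ℚ) (M := Mon)).toLinearMap

/-- the pairing `pair Z X = Σ_m X_m Z_m`; `Z` is the element, `X` is the functional -/
noncomputable def pair (Z : F) : F →ₗ[ℚ] ℚ := lext (fun m => cf m Z)

/-- the constant coefficient -/
noncomputable def eps : F →ₗ[ℚ] ℚ := cf 1

/-- the span of a set of monomials -/
noncomputable def sub (S : Set Mon) : Submodule ℚ F := Submodule.span ℚ (mono '' S)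

/-- monomials of length at most `k` -/
noncomputable def Fk (k : ℕ) : Submodule ℚ F := sub {m | m.toList.length ≤ k}

/-- `1` and the monomials which end with `y` -/
noncomputable def EY : Submodule ℚ F := sub {m | m = 1 ∨ ∃ m', m = m' * FreeMonoid.of true}

/-- `1` and the monomials which start with `x` -/
noncomputable def SX : Submodule ℚ F := sub {m | m = 1 ∨ ∃ m', m = FreeMonoid.of false * m'}

/-- the four blocks `xy, xxy, xyy, xxyy` -/
def blocks : Set Mon :=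
  {ofL [false, true], ofL [false, false, true], ofL [false, true, true],
    ofL [false, false, true, true]}

/-- the span of the products of blocks -/
noncomputable def P1 : Submodule ℚ F := sub (Submonoid.closure blocks : Set Mon)

/-- left contraction by `Z`: for a monomial `m`, the sum over the cuts `m = u r` of `Z_u r`;
adjoint of the left multiplication by `Z` -/
noncomputable def lcon (Z : F) : F →ₗ[ℚ] F :=
  lext (fun m => ∑ i ∈ Finset.range (m.toList.length + 1),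
    cf (ofL (m.toList.take i)) Z • mono (ofL (m.toList.drop i)))

/-- right contraction by `Z`: for a monomial `m`, the sum over the cuts `m = l u` of `Z_u l`;
adjoint of the right multiplication by `Z` -/
noncomputable def rcon (Z : F) : F →ₗ[ℚ] F :=
  lext (fun m => ∑ i ∈ Finset.range (m.toList.length + 1),
    cf (ofL (m.toList.drop i)) Z • mono (ofL (m.toList.take i)))

/-! ### Words in pairs, matrix entries -/

noncomputable def X : F := mono (FreeMonoid.of false)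
noncomputable def Y : F := mono (FreeMonoid.of true)

/-- `a(a-1)/2` -/
def ch2 (a : ℤ) : ℚ := (a : ℚ) * ((a : ℚ) - 1) / 2

/-- `(1+x)^a (1+y)^b` modulo `x^3, y^3` -/
noncomputable def E (g : ℤ × ℤ) : F :=
  (1 + (g.1 : ℚ) • X + ch2 g.1 • (X * X)) * (1 + (g.2 : ℚ) • Y + ch2 g.2 • (Y * Y))

/-- sequences of pairs -/
abbrev Sq := ℕ → ℤ × ℤ

/-- all the exponents are non zero -/
def nz (s : Sq) : Prop := ∀ i, (s i).1 ≠ 0 ∧ (s i).2 ≠ 0

/-- the product of `E (s i)`, `p ≤ i < p + k` -/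
noncomputable def Wn (s : Sq) (p : ℕ) : ℕ → F
  | 0 => 1
  | k + 1 => Wn s p k * E (s (p + k))

/-- the product of `E (s i)`, `p ≤ i < q` -/
noncomputable def W (s : Sq) (p q : ℕ) : F := Wn s p (q - p)

/-- the matrix entry `X_(p → q)` -/
noncomputable def ent (s : Sq) (p q : ℕ) : F →ₗ[ℚ] ℚ :=
  if q < p then 0 else if q = p then eps else pair (W s p q) - pair (W s p (q - 1))

/-- the row vector `ψ X` -/
noncomputable def act (s : Sq) (X : F) (ψ : ℕ → ℚ) : ℕ → ℚ :=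
  fun q => ∑ p ∈ Finset.range (q + 1), ψ p * ent s p q X

/-- the column vector `X ρ`, positions `0..n` -/
noncomputable def coact (s : Sq) (n : ℕ) (X : F) (ρ : ℕ → ℚ) : ℕ → ℚ :=
  fun p => ∑ q ∈ Finset.Icc p n, ent s p q X * ρ q

/-- the pairing of rows and columns, positions `0..n` -/
def bil (n : ℕ) (ψ ρ : ℕ → ℚ) : ℚ := ∑ p ∈ Finset.range (n + 1), ψ p * ρ p

/-- the row vector at position `p` -/
def dl (p : ℕ) : ℕ → ℚ := fun q => if q = p then 1 else 0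

/-- the constant column on `0..n` -/
def one (n : ℕ) : ℕ → ℚ := fun q => if q ≤ n then 1 else 0

/-- `a` is the first position of the support of `ψ` -/
def IsMn (ψ : ℕ → ℚ) (a : ℕ) : Prop := ψ a ≠ 0 ∧ ∀ p, p < a → ψ p = 0

/-- `a` is the last position `≤ n` of the support of `ρ` -/
def IsMx (n : ℕ) (ρ : ℕ → ℚ) (a : ℕ) : Prop := a ≤ n ∧ ρ a ≠ 0 ∧ ∀ q, a < q → q ≤ n → ρ q = 0

/-! ### Killers -/

/-- `V` is visible from `p` to `q` -/
def Vis (V : Submodule ℚ F) (s : Sq) (p q : ℕ) : Prop := ∃ J ∈ V, ent s p q J ≠ 0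

/-- `k` successive visible killers between `p` and `q` -/
def Fits (V : Submodule ℚ F) (s : Sq) : ℕ → ℕ → ℕ → Prop
  | 0, p, q => p ≤ q
  | k + 1, p, q => ∃ p1 q1, p ≤ p1 ∧ Vis V s p1 q1 ∧ Fits V s k q1 q

/-- elements of `P1` all whose non zero entries have room for `k` killers -/
def KS (V : Submodule ℚ F) (k : ℕ) : Submodule ℚ F where
  carrier := {X | X ∈ P1 ∧ ∀ s, nz s → ∀ p q, ent s p q X ≠ 0 → Fits V s k p q}
  zero_mem' := ⟨P1.zero_mem, fun s _ p q h => absurd (map_zero _) h⟩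
  add_mem' := by
    rintro a b ⟨ha, ha'⟩ ⟨hb, hb'⟩
    refine ⟨P1.add_mem ha hb, fun s hs p q h => ?_⟩
    by_cases h1 : ent s p q a = 0
    · by_cases h2 : ent s p q b = 0
      · exact absurd (by rw [map_add, h1, h2, add_zero]) h
      · exact hb' s hs p q h2
    · exact ha' s hs p q h1
  smul_mem' := by
    rintro c a ⟨ha, ha'⟩
    refine ⟨P1.smul_mem c ha, fun s hs p q h => ha' s hs p q (fun h0 => h ?_)⟩
    rw [map_smul, h0, smul_zero]

/-! ### Tame sets -/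

/-- tame sets of elements: the coefficients are polynomials in parameters -/
def Tame (S : Set F) : Prop :=
  ∃ (d : ℕ) (P : Mon → MvPolynomial (Fin d) ℚ), ∀ Z ∈ S, ∃ θ : Fin d → ℚ,
    ∀ m, cf m Z = MvPolynomial.eval θ (P m)

/-- the words in which no `c+1` successive killers are visible -/
def thinE (V : Submodule ℚ F) (c : ℕ) : Set F :=
  {Z | ∃ s p q, nz s ∧ p ≤ q ∧ ¬ Fits V s (c + 1) p q ∧ Z = W s p q}

/-- the replacement property, simultaneous for two words -/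
def Repl (S : Set F) (C : Submodule ℚ F) (k B : ℕ) : Prop :=
  ∀ Z ∈ S, ∀ Z' ∈ S, ∀ X ∈ C, ∃ X' ∈ C ⊓ Fk B, ∀ Θ ∈ Fk k, ∀ Λ ∈ Fk k,
    pair Z (Θ * X' * Λ) = pair Z (Θ * X * Λ) ∧ pair Z' (Θ * X' * Λ) = pair Z' (Θ * X * Λ)

/-! ### Gap spaces, packages -/

/-- `X_0 J_1 X_1 ... J_t X_t`, `t = j`, gaps in `C`, killers in `V` -/
noncomputable def Gp (C V : Submodule ℚ F) (j : ℕ) : Submodule ℚ F := C * (V * C) ^ j

noncomputable def Gap (C V : Submodule ℚ F) (B : ℕ) : Submodule ℚ F := ⨆ j, Gp (C ⊓ Fk B) V j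

noncomputable def Gap0 (C V : Submodule ℚ F) (B : ℕ) : Submodule ℚ F :=
  ⨆ j : ℕ, V * ((C ⊓ Fk B) * V) ^ j

/-- the rows `ψ u`, `u ∈ U`, and `δ` -/
def Lft (s : Sq) (U : Submodule ℚ F) : Submodule ℚ (ℕ → ℚ) :=
  Submodule.span ℚ ({ψ | ∃ u ∈ U, ∃ ψ0, ψ = act s u ψ0} ∪ {dl 0})

/-- the columns `u ρ`, `u ∈ U`, and `one` -/
def Rgt (s : Sq) (n : ℕ) (U : Submodule ℚ F) : Submodule ℚ (ℕ → ℚ) :=
  Submodule.span ℚ ({ρ | ∃ u ∈ U, ∃ ρ0, ρ = coact s n u ρ0} ∪ {one n})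

/-- the rows `ψ J`, `J ∈ V`, and `δ Z`, `|Z| ≤ k` -/
def LK (s : Sq) (V : Submodule ℚ F) (k : ℕ) : Submodule ℚ (ℕ → ℚ) :=
  Submodule.span ℚ ({ψ | ∃ J ∈ V, ∃ ψ0, ψ = act s J ψ0} ∪
    {ψ | ∃ Z ∈ P1 ⊓ Fk k, ψ = act s Z (dl 0)})

/-- the columns `J ρ`, `J ∈ V`, and `Z one`, `|Z| ≤ k` -/
def RK (s : Sq) (n : ℕ) (V : Submodule ℚ F) (k : ℕ) : Submodule ℚ (ℕ → ℚ) :=
  Submodule.span ℚ ({ρ | ∃ J ∈ V, ∃ ρ0, ρ = coact s n J ρ0} ∪
    {ρ | ∃ Z ∈ P1 ⊓ Fk k, ρ = coact s n Z (one n)})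

/-- packages -/
structure Pkg (C U V : Submodule ℚ F) : Prop where
  C_le : C ≤ P1
  U_le : U ≤ P1
  V_le : V ≤ P1
  one_mem : (1 : F) ∈ C
  V_bdd : ∃ l, V ≤ Fk l
  V_eps : ∀ J ∈ V, eps J = 0
  V_PU : V ≤ P1 * U
  V_UP : V ≤ U * P1
  A : ∀ s n, nz s → ∀ ψ ∈ Lft s U, ∀ ρ ∈ Rgt s n U, ∀ a a', IsMn ψ a → IsMx n ρ a' → a ≤ a' →
    ∃ X ∈ C, bil n (act s X ψ) ρ ≠ 0
  RG : ∀ s n, nz s → ∀ ψ ∈ Lft s U, ∀ ρ ∈ Rgt s n U, ∀ a a', IsMn ψ a → IsMx n ρ a' → a ≤ a' →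
    ∀ s' n', nz s' → ∀ ψ' ∈ Lft s' U, ∀ ρ' ∈ Rgt s' n' U, ∀ b b', IsMn ψ' b → IsMx n' ρ' b' →
    (∀ X ∈ C, bil n (act s X ψ) ρ = bil n' (act s' X ψ') ρ') →
    b' = b + (a' - a) ∧ ∀ j, j < a' - a → s (a + j) = s' (b + j)
  E : ∀ s, nz s → ∀ p q, p < q → ∃ X ∈ C, eps X = 0 ∧ pair (W s p q) X ≠ 0
  N : Tame (thinE V 0)

/-! ### Section 6, abstract part: functions of `m` variables with values in an algebra -/

section Abs

variable {A : Type} [Ring A] [Algebra ℚ A]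

/-- the right bracket `f(v) Y z - Σ_k f(v; v_k ↦ z) Y v_k` -/
def brR {m : ℕ} (f : (Fin m → A) → A) (v : Fin m → A) (Y z : A) : A :=
  f v * Y * z - ∑ k, f (Function.update v k z) * Y * v k

/-- the left bracket `z Y f(v) - Σ_k v_k Y f(v; v_k ↦ z)` -/
def brL {m : ℕ} (f : (Fin m → A) → A) (v : Fin m → A) (Y z : A) : A :=
  z * Y * f v - ∑ k, v k * Y * f (Function.update v k z)

/-- `D_t f` : `u ↦ Σ_k f (u_k ↦ u_k t)` -/
def Dop {m : ℕ} (t : A) (f : (Fin m → A) → A) : (Fin m → A) → A :=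
  fun u => ∑ k, f (Function.update u k (u k * t))

/-- iterated derivatives of `f`, with the total degree -/
inductive Der {m : ℕ} (S : Submodule ℚ A) (f : (Fin m → A) → A) : ℕ → ((Fin m → A) → A) → Prop
  | base : Der S f 0 f
  | step {e r : ℕ} {g : (Fin m → A) → A} {t : A} : Der S f e g → t ∈ S ^ (r + 1) →
      Der S f (e + (r + 1)) (Dop t g)

/-- the abstract setting of Section 6: `Fl` is the length filtration, `Z` the elements which
vanish on the word considered, `V` the killers -/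
structure Ctx (P C D V Z : Submodule ℚ A) (Fl : ℕ → Submodule ℚ A) : Prop where
  one_C : (1 : A) ∈ C
  D_le : D ≤ C
  CDC : C * D * C ≤ C
  DCD : D * C * D ≤ D
  V_le : V ≤ D
  C_le : C ≤ P
  P_mul : P * P ≤ P
  PZ : P * Z ≤ Z
  ZP : Z * P ≤ Z
  one_F : (1 : A) ∈ Fl 0
  F_mono : Monotone Fl
  F_mul : ∀ i j, Fl i * Fl j ≤ Fl (i + j)

/-- the right relation in context: between two killers the right bracket vanishes -/
def RelP (C D V Z : Submodule ℚ A) (Fl : ℕ → Submodule ℚ A) (L : ℕ) {m : ℕ}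
    (f : (Fin m → A) → A) : Prop :=
  ∀ J ∈ V, ∀ c ∈ C ⊓ Fl L, ∀ v : Fin m → A, (∀ k, v k ∈ D ⊓ Fl L) → ∀ Y ∈ C ⊓ Fl L,
    ∀ z ∈ D ⊓ Fl L, ∀ c' ∈ C ⊓ Fl L, ∀ J' ∈ V, J * c * brR f v Y z * (c' * J') ∈ Z

/-- the left relation in context -/
def RelQ (C D V Z : Submodule ℚ A) (Fl : ℕ → Submodule ℚ A) (L : ℕ) {m : ℕ}
    (f : (Fin m → A) → A) : Prop :=
  ∀ J ∈ V, ∀ c ∈ C ⊓ Fl L, ∀ v : Fin m → A, (∀ k, v k ∈ D ⊓ Fl L) → ∀ Y ∈ C ⊓ Fl L,
    ∀ z ∈ D ⊓ Fl L, ∀ c' ∈ C ⊓ Fl L, ∀ J' ∈ V, J * c * brL f v Y z * (c' * J') ∈ Z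

/-- `f` is a sum of terms `a u_k b` in each variable, with admissible `a`, `b` -/
def Slot (C D : Submodule ℚ A) (Fl : ℕ → Submodule ℚ A) (κ : ℕ) {m : ℕ}
    (f : (Fin m → A) → A) : Prop :=
  ∀ (l : ℕ) (u : Fin m → A), (∀ k, u k ∈ D ⊓ Fl l) → ∀ k : Fin m, ∃ (n : ℕ) (a b : Fin n → A),
    (∀ i, a i ∈ (D * C) ⊓ Fl (m * l + κ)) ∧ (∀ i, b i ∈ (C * D) ⊓ Fl (m * l + κ)) ∧
    ∀ x, f (Function.update u k x) = ∑ i, a i * x * b i

/-- the values of `f` -/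
def Val (D : Submodule ℚ A) (Fl : ℕ → Submodule ℚ A) (κ : ℕ) {m : ℕ}
    (f : (Fin m → A) → A) : Prop :=
  ∀ (l : ℕ) (u : Fin m → A), (∀ k, u k ∈ D ⊓ Fl l) → f u ∈ D ⊓ Fl (m * l + κ)

/-- the terms of the Cayley-Hamilton formula, total degree `K` -/
def TT {m : ℕ} (S : Submodule ℚ A) (f : (Fin m → A) → A) (K : ℕ) (u : Fin m → A) (Y z : A) :
    Submodule ℚ A :=
  Submodule.span ℚ {x | ∃ (e r l : ℕ) (g : (Fin m → A) → A) (t μ : A), Der S f e g ∧
    t ∈ S ^ (r + 1) ∧ μ ∈ S ^ l ∧ e + (r + 1) + l = K ∧ x = Dop t g u * Y * z * μ}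

end Abs

/-! ### Section 6 and 7, killers of rank `m` -/

/-- the elements of `P1` which vanish on the word `s`, positions `0..n` -/
def Zn (s : Sq) (n : ℕ) : Submodule ℚ F where
  carrier := {X | X ∈ P1 ∧ ∀ p q, q ≤ n → ent s p q X = 0}
  zero_mem' := ⟨P1.zero_mem, fun _ _ _ => map_zero _⟩
  add_mem' := by
    rintro a b ⟨ha, ha'⟩ ⟨hb, hb'⟩
    exact ⟨P1.add_mem ha hb, fun p q h => by rw [map_add, ha' p q h, hb' p q h, add_zero]⟩
  smul_mem' := by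
    rintro c a ⟨ha, ha'⟩
    exact ⟨P1.smul_mem c ha, fun p q h => by rw [map_smul, ha' p q h, smul_zero]⟩

/-- base spaces -/
structure Base (Cb Db : Submodule ℚ F) : Prop where
  one_C : (1 : F) ∈ Cb
  D_le : Db ≤ Cb
  CDC : Cb * Db * Cb ≤ Cb
  DCD : Db * Cb * Db ≤ Db
  C_le : Cb ≤ P1

/-- killers of rank `m` over `(Cb, Db)`: `V` is spanned by values of functions of the set `R` -/
structure Rk (m l : ℕ) (Cb Db U V : Submodule ℚ F) (R : Set ((Fin m → F) → F)) : Prop where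
  V_le : V ≤ Db
  V_len : V ≤ Fk l
  gen : V ≤ Submodule.span ℚ {x | x ∈ V ∧ ∃ f ∈ R, ∃ u : Fin m → F,
    (∀ k, u k ∈ Db ⊓ Fk l) ∧ x = f u}
  slot : ∀ f ∈ R, Slot Cb Db Fk l f
  val : ∀ f ∈ R, Val Db Fk l f
  PU : ∀ f ∈ R, ∀ u : Fin m → F, (∀ k, u k ∈ Db) → f u ∈ P1 * U
  UP : ∀ f ∈ R, ∀ u : Fin m → F, (∀ k, u k ∈ Db) → f u ∈ U * P1
  cont : ∀ f ∈ R, ∀ G : ℕ → Submodule ℚ F, (∀ i j, G i * G j ≤ G (i + j)) → P1 ≤ G 0 →
    ∀ (e : Fin m → ℕ) (u : Fin m → F), (∀ k, u k ∈ G (e k)) → f u ∈ G (∑ k, e k)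
  alt : ∀ f ∈ R, ∀ (d : ℕ) (φ : F →ₐ[ℚ] Matrix (Fin d) (Fin d) ℚ),
    ∃ g : Matrix (Fin d) (Fin d) ℚ [⋀^Fin m]→ₗ[ℚ] Matrix (Fin d) (Fin d) ℚ,
      ∀ u : Fin m → F, φ (f u) = g (fun k => φ (u k))

/-- the span of the brackets of functions of `R` between two elements of `V` -/
noncomputable def Wp {m : ℕ} (Cb Db V : Submodule ℚ F) (R : Set ((Fin m → F) → F)) (L : ℕ) :
    Submodule ℚ F :=
  Submodule.span ℚ {x | ∃ J ∈ V, ∃ J' ∈ V, ∃ f ∈ R, ∃ c ∈ Cb ⊓ Fk L, ∃ c' ∈ Cb ⊓ Fk L,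
    ∃ Y ∈ Cb ⊓ Fk L, ∃ z ∈ Db ⊓ Fk L, ∃ v : Fin m → F, (∀ k, v k ∈ Db ⊓ Fk L) ∧
    (x = J * c * brR f v Y z * (c' * J') ∨ x = J * c * brL f v Y z * (c' * J'))}

/-- the functions of rank `m + 1` -/
def Rp {m : ℕ} (Cb U' : Submodule ℚ F) (R : Set ((Fin m → F) → F)) (L : ℕ) :
    Set ((Fin (m + 1) → F) → F) :=
  {g | ∃ J ∈ U', ∃ J' ∈ U', ∃ f ∈ R, ∃ c ∈ Cb ⊓ Fk L, ∃ c' ∈ Cb ⊓ Fk L, ∃ Y ∈ Cb ⊓ Fk L,
    (g = (fun w => J * c * brR f (fun k => w k.castSucc) Y (w (Fin.last m)) * (c' * J')) ∨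
     g = (fun w => J * c * brL f (fun k => w k.castSucc) Y (w (Fin.last m)) * (c' * J')))}

/-- the elements of `P1` which vanish in every representation of dimension `d` -/
def TD (d : ℕ) : Submodule ℚ F where
  carrier := {X | X ∈ P1 ∧ ∀ φ : F →ₐ[ℚ] Matrix (Fin d) (Fin d) ℚ, φ X = 0}
  zero_mem' := ⟨P1.zero_mem, fun φ => map_zero φ⟩
  add_mem' := by
    rintro a b ⟨ha, ha'⟩ ⟨hb, hb'⟩
    exact ⟨P1.add_mem ha hb, fun φ => by rw [map_add, ha' φ, hb' φ, add_zero]⟩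
  smul_mem' := by
    rintro c a ⟨ha, ha'⟩
    exact ⟨P1.smul_mem c ha, fun φ => by rw [map_smul, ha' φ, smul_zero]⟩

/-- products of short elements of `P1` and of killers of all representations of dimension `d` -/
noncomputable def KD (d B : ℕ) : Submodule ℚ F := Gap P1 (TD d ⊓ Fk B) B

end NF
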