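import Pool.Agent.Lib.MP_24a659_al.Cap2
import Pool.Agent.Lib.MP_24a659_al.Defs

section

/-!
MP_24a659_al, paper 716, Section 6 in abstract form, part 3: the Cayley-Hamilton relation.
-/

set_option autoImplicit false

namespace Pool.MP_24a659_al.Cap

open Function

section sym

variable {A : Type*} [Ring A] {ι : Type*} [DecidableEq ι]

/-- sum over all orders of the product of `c i`, `i ∈ S` (for `n = S.card`). -/
def symS (c : ι → A) : ℕ → Finset ι → A
  | 0, _ => 1
  | n + 1, S => ∑ j ∈ S, symS c n (S.erase j) * c j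

theorem symS_congr (c c' : ι → A) : ∀ (n : ℕ) (S : Finset ι), (∀ i ∈ S, c i = c' i) →
    symS c n S = symS c' n S := by
  intro n
  induction n with
  | zero => intro S _; rfl
  | succ n ih =>
    intro S h
    simp only [symS]
    refine Finset.sum_congr rfl (fun j hj => ?_)
    rw [ih (S.erase j) (fun i hi => h i (Finset.mem_of_mem_erase hi)), h j hj]

theorem symS_map {κ : Type*} [DecidableEq κ] (e : ι ↪ κ) (c : κ → A) :
    ∀ (n : ℕ) (S : Finset ι), symS c n (S.map e) = symS (fun i => c (e i)) n S := by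
  intro n
  induction n with
  | zero => intro S; rfl
  | succ n ih =>
    intro S
    simp only [symS]
    rw [Finset.sum_map]
    refine Finset.sum_congr rfl (fun j _ => ?_)
    rw [← Finset.map_erase, ih]

end sym

section inj

variable {A : Type*} [Ring A] {ι : Type*} [DecidableEq ι] [Fintype ι] {m : ℕ}

/-- `u` modified by `c` along the partial assignment `τ` -/
def uτ (c : ι → A) (u : Fin m → A) (τ : Fin m → Option ι) : Fin m → A :=
  fun k => u k * (τ k).elim 1 c

/-- assignments which are injective and hit exactly the elements of `S` -/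
def AdmP (S : Finset ι) (τ : Fin m → Option ι) : Prop :=
  (∀ s : ι, s ∈ S ↔ ∃ k, τ k = some s) ∧ (∀ k k' s, τ k = some s → τ k' = some s → k = k')

open Classical in
/-- the finite set of admissible assignments -/
noncomputable def Adm (S : Finset ι) : Finset (Fin m → Option ι) :=
  Finset.univ.filter (fun τ => AdmP S τ)

omit [DecidableEq ι] in
theorem mem_Adm {S : Finset ι} {τ : Fin m → Option ι} : τ ∈ Adm S ↔ AdmP S τ := by
  classical
  simp [Adm]

/-- `Inj_S f` -/
noncomputable def Inj (c : ι → A) (S : Finset ι) (f : (Fin m → A) → A) (u : Fin m → A) : A :=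
  ∑ τ ∈ Adm S, f (uτ c u τ)

/-- `Q_S` without sign -/
noncomputable def QQ (c : ι → A) (S : Finset ι) (f : (Fin m → A) → A) (u : Fin m → A)
    (Y z : A) : A :=
  ∑ k, ∑ τ ∈ (Adm S).filter (fun τ => τ k = none), f (update (uτ c u τ) k z) * Y * u k

/-- the basic bijection -/
theorem sum_Adm_some {M : Type*} [AddCommMonoid M] (S : Finset ι) (j : ι) (hj : j ∈ S)
    (k : Fin m) (G : (Fin m → Option ι) → M) :
    ∑ τ ∈ (Adm S).filter (fun τ => τ k = some j), G τ
      = ∑ τ ∈ (Adm (S.erase j)).filter (fun τ => τ k = none), G (update τ k (some j)) := by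
  refine Finset.sum_bij' (fun τ _ => update τ k none) (fun τ _ => update τ k (some j))
    ?_ ?_ ?_ ?_ ?_
  · intro τ hτ
    rw [Finset.mem_filter, mem_Adm] at hτ ⊢
    obtain ⟨⟨h1, h2⟩, h3⟩ := hτ
    refine ⟨⟨fun s => ?_, fun a a' s ha ha' => ?_⟩, by simp⟩
    · rw [Finset.mem_erase, h1]
      constructor
      · rintro ⟨hs, a, ha⟩
        refine ⟨a, ?_⟩
        have : a ≠ k := by
          rintro rfl
          rw [h3] at ha
          exact hs (Option.some.inj ha).symm
        rw [update_of_ne this]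
        exact ha
      · rintro ⟨a, ha⟩
        by_cases hak : a = k
        · subst hak; simp at ha
        · rw [update_of_ne hak] at ha
          refine ⟨?_, a, ha⟩
          rintro rfl
          exact hak (h2 a k s ha h3)
    · by_cases hak : a = k
      · subst hak; simp at ha
      · by_cases hak' : a' = k
        · subst hak'; simp at ha'
        · rw [update_of_ne hak] at ha
          rw [update_of_ne hak'] at ha'
          exact h2 a a' s ha ha'
  · intro τ hτ
    rw [Finset.mem_filter, mem_Adm] at hτ ⊢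
    obtain ⟨⟨h1, h2⟩, h3⟩ := hτ
    have hnj : ∀ a, τ a ≠ some j := by
      intro a ha
      have := (h1 j).2 ⟨a, ha⟩
      simp at this
    refine ⟨⟨fun s => ?_, fun a a' s ha ha' => ?_⟩, by simp⟩
    · constructor
      · intro hs
        by_cases hsj : s = j
        · subst hsj; exact ⟨k, by simp⟩
        · obtain ⟨a, ha⟩ := (h1 s).1 (Finset.mem_erase.2 ⟨hsj, hs⟩)
          refine ⟨a, ?_⟩
          have : a ≠ k := by
            rintro rfl
            rw [h3] at ha
            simp at ha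
          rw [update_of_ne this]
          exact ha
      · rintro ⟨a, ha⟩
        by_cases hak : a = k
        · subst hak
          rw [update_self] at ha
          rw [← Option.some.inj ha]
          exact hj
        · rw [update_of_ne hak] at ha
          exact Finset.mem_of_mem_erase ((h1 s).2 ⟨a, ha⟩)
    · by_cases hak : a = k
      · subst hak
        rw [update_self] at ha
        by_cases hak' : a' = a
        · exact hak'.symm
        · rw [update_of_ne hak'] at ha'
          rw [← ha] at ha'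
          exact absurd ha' (hnj a')
      · rw [update_of_ne hak] at ha
        by_cases hak' : a' = k
        · subst hak'
          rw [update_self] at ha'
          rw [← ha'] at ha
          exact absurd ha (hnj a)
        · rw [update_of_ne hak'] at ha'
          exact h2 a a' s ha ha'
  · intro τ hτ
    rw [Finset.mem_filter] at hτ
    simp only [update_idem]
    rw [← hτ.2, update_eq_self]
  · intro τ hτ
    rw [Finset.mem_filter] at hτ
    simp only [update_idem]
    rw [← hτ.2, update_eq_self]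
  · intro τ hτ
    rw [Finset.mem_filter] at hτ
    simp only [update_idem]
    rw [← hτ.2, update_eq_self]

/-- split an admissible sum according to the value at `k` -/
theorem sum_Adm_split {M : Type*} [AddCommMonoid M] (S : Finset ι) (k : Fin m)
    (G : (Fin m → Option ι) → M) :
    ∑ τ ∈ Adm S, G τ = ∑ τ ∈ (Adm S).filter (fun τ => τ k = none), G τ
      + ∑ j ∈ S, ∑ τ ∈ (Adm S).filter (fun τ => τ k = some j), G τ := by
  classical
  rw [← Finset.sum_filter_add_sum_filter_not (Adm S) (fun τ => τ k = none)]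
  congr 1
  rw [← Finset.sum_biUnion]
  · refine Finset.sum_congr ?_ (fun _ _ => rfl)
    ext τ
    simp only [Finset.mem_filter, Finset.mem_biUnion]
    constructor
    · rintro ⟨h1, h2⟩
      obtain ⟨s, hs⟩ := Option.ne_none_iff_exists'.1 h2
      exact ⟨s, ((mem_Adm.1 h1).1 s).2 ⟨k, hs⟩, h1, hs⟩
    · rintro ⟨s, _, h1, hs⟩
      exact ⟨h1, by rw [hs]; simp⟩
  · intro i _ j _ hij
    rw [Function.onFun, Finset.disjoint_left]
    intro τ h1 h2
    rw [Finset.mem_filter] at h1 h2
    exact hij (Option.some.inj (h1.2.symm.trans h2.2))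

omit [DecidableEq ι] [Fintype ι] in
theorem update_uτ (c : ι → A) (u : Fin m → A) (τ : Fin m → Option ι) (k : Fin m)
    (o : Option ι) (z : A) :
    update (uτ c u (update τ k o)) k z = update (uτ c u τ) k z := by
  funext i
  by_cases h : i = k
  · subst h; simp
  · rw [update_of_ne h, update_of_ne h]
    simp only [uτ]
    rw [update_of_ne h]

/-- the expansion of `Σ_τ Rel` -/
theorem sum_RR (c : ι → A) (S : Finset ι) (f : (Fin m → A) → A) (u : Fin m → A) (Y z : A) :
    ∑ τ ∈ Adm S, RR f (uτ c u τ) Y z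
      = Inj c S f u * Y * z - QQ c S f u Y z - ∑ j ∈ S, QQ c (S.erase j) f u Y z * c j := by
  have h1 : ∑ τ ∈ Adm S, ∑ k, f (update (uτ c u τ) k z) * Y * uτ c u τ k
      = QQ c S f u Y z + ∑ j ∈ S, QQ c (S.erase j) f u Y z * c j := by
    rw [Finset.sum_comm]
    simp only [QQ]
    simp_rw [Finset.sum_mul]
    rw [Finset.sum_comm (s := S), ← Finset.sum_add_distrib]
    refine Finset.sum_congr rfl (fun k _ => ?_)
    rw [sum_Adm_split S k]
    congr 1
    · refine Finset.sum_congr rfl (fun τ hτ => ?_)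
      rw [Finset.mem_filter] at hτ
      have : uτ c u τ k = u k := by simp [uτ, hτ.2]
      rw [this]
    · refine Finset.sum_congr rfl (fun j hj => ?_)
      rw [sum_Adm_some S j hj k]
      refine Finset.sum_congr rfl (fun τ hτ => ?_)
      rw [update_uτ]
      have : uτ c u (update τ k (some j)) k = u k * c j := by simp [uτ]
      rw [this]
      simp only [mul_assoc]
  simp only [RR, Finset.sum_sub_distrib, h1, Inj, Finset.sum_mul]
  abel

theorem Adm_unique {S : Finset ι} {τ : Fin m → Option ι} (h : τ ∈ Adm S) {s : ι} (hs : s ∈ S) :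
    ∃ k, τ k = some s ∧ ∀ k', τ k' = some s → k' = k := by
  rw [mem_Adm] at h
  obtain ⟨k, hk⟩ := (h.1 s).1 hs
  exact ⟨k, hk, fun k' hk' => h.2 k' k s hk' hk⟩

theorem sum_Adm_once {M : Type*} [AddCommMonoid M] (S : Finset ι) (s : ι) (hs : s ∈ S)
    (G : (Fin m → Option ι) → M) :
    ∑ k : Fin m, ∑ τ ∈ (Adm S).filter (fun τ => τ k = some s), G τ = ∑ τ ∈ Adm S, G τ := by
  simp_rw [Finset.sum_filter]
  rw [Finset.sum_comm]
  refine Finset.sum_congr rfl (fun τ hτ => ?_)
  obtain ⟨k, hk, hk'⟩ := Adm_unique hτ hs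
  rw [Finset.sum_eq_single k]
  · rw [if_pos hk]
  · intro b _ hb
    rw [if_neg (fun h => hb (hk' b h))]
  · intro h; exact absurd (Finset.mem_univ k) h

/-- recursion for `Inj` -/
theorem Dop_Inj (c : ι → A) (S : Finset ι) (s₀ : ι) (hs₀ : s₀ ∉ S) (f : (Fin m → A) → A)
    (u : Fin m → A) :
    Dop (c s₀) (Inj c S f) u = Inj c (insert s₀ S) f u
      + ∑ s ∈ S, Inj (update c s (c s₀ * c s)) S f u := by
  have e1 : ∀ k : Fin m, Inj c S f (update u k (u k * c s₀))
      = ∑ τ ∈ (Adm (insert s₀ S)).filter (fun τ => τ k = some s₀), f (uτ c u τ)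
        + ∑ s ∈ S, ∑ τ ∈ (Adm S).filter (fun τ => τ k = some s),
            f (uτ (update c s (c s₀ * c s)) u τ) := by
    intro k
    unfold Inj
    rw [sum_Adm_split S k]
    congr 1
    · rw [sum_Adm_some (insert s₀ S) s₀ (Finset.mem_insert_self _ _) k,
        Finset.erase_insert hs₀]
      refine Finset.sum_congr rfl (fun τ hτ => ?_)
      rw [Finset.mem_filter] at hτ
      congr 1
      funext i
      by_cases h : i = k
      · subst h
        simp [uτ, hτ.2]
      · simp only [uτ]
        rw [update_of_ne h, update_of_ne h]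
    · refine Finset.sum_congr rfl (fun s hs => Finset.sum_congr rfl (fun τ hτ => ?_))
      rw [Finset.mem_filter, mem_Adm] at hτ
      congr 1
      funext i
      by_cases h : i = k
      · subst h
        simp [uτ, hτ.2, mul_assoc]
      · simp only [uτ]
        rw [update_of_ne h]
        congr 1
        rcases hi : τ i with _ | s'
        · rfl
        · have : s' ≠ s := by
            rintro rfl
            exact h (hτ.1.2 i k s' hi hτ.2)
          simp [update_of_ne this]
  simp only [Dop]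
  simp_rw [e1]
  rw [Finset.sum_add_distrib, sum_Adm_once _ _ (Finset.mem_insert_self _ _), Finset.sum_comm]
  simp only [Inj]
  congr 1
  refine Finset.sum_congr rfl (fun s hs => ?_)
  rw [sum_Adm_once _ _ hs]

theorem Adm_empty : (Adm (∅ : Finset ι) : Finset (Fin m → Option ι)) = {fun _ => none} := by
  ext τ
  rw [mem_Adm, Finset.mem_singleton]
  constructor
  · rintro ⟨h1, _⟩
    funext k
    by_contra h
    obtain ⟨s, hs⟩ := Option.ne_none_iff_exists'.1 h
    have := (h1 s).2 ⟨k, hs⟩
    simp at this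
  · rintro rfl
    exact ⟨fun s => by simp, fun k k' s h => by simp at h⟩

theorem Inj_empty (c : ι → A) (f : (Fin m → A) → A) : Inj c ∅ f = f := by
  funext u
  rw [Inj, Adm_empty, Finset.sum_singleton]
  congr 1
  funext k
  simp [uτ]

theorem QQ_empty (c : ι → A) (f : (Fin m → A) → A) (u : Fin m → A) (Y z : A) :
    QQ c ∅ f u Y z = ∑ k, f (update u k z) * Y * u k := by
  unfold QQ
  refine Finset.sum_congr rfl (fun k _ => ?_)
  rw [Adm_empty]
  have h1 : (({fun _ => none} : Finset (Fin m → Option ι)).filter (fun τ => τ k = none))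
      = {fun _ => none} := by
    ext τ
    simp only [Finset.mem_filter, Finset.mem_singleton]
    constructor
    · rintro ⟨h, _⟩; exact h
    · rintro rfl; exact ⟨rfl, rfl⟩
  rw [h1, Finset.sum_singleton]
  have h2 : uτ c u (fun _ => none) = u := by
    funext k
    simp [uτ]
  rw [h2]

theorem QQ_full (c : ι → A) (S : Finset ι) (hS : S.card = m) (f : (Fin m → A) → A)
    (u : Fin m → A) (Y z : A) : QQ c S f u Y z = 0 := by
  unfold QQ
  refine Finset.sum_eq_zero (fun k _ => ?_)
  have : (Adm S).filter (fun τ : Fin m → Option ι => τ k = none) = ∅ := by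
    rw [Finset.filter_eq_empty_iff]
    intro τ hτ hk
    have h1 : ∀ s : S, ∃ k', τ k' = some s.1 := fun s => ((mem_Adm.1 hτ).1 s.1).1 s.2
    choose g hg using h1
    have hinj : Function.Injective g := by
      intro s s' h
      have h2 := hg s
      rw [h, hg s'] at h2
      exact Subtype.ext (Option.some.inj h2).symm
    have hsurj : Function.Surjective g := by
      have hb := (Fintype.bijective_iff_injective_and_card g).2 ⟨hinj, by simp [hS]⟩
      exact hb.2
    obtain ⟨s, hs⟩ := hsurj k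
    have := hg s
    rw [hs, hk] at this
    simp at this
  rw [this, Finset.sum_empty]

end inj

section CH

variable {A : Type*} [Ring A] [Algebra ℚ A]

/-- iterated `D` operators of `f`, by elements of powers of `a`, of total degree `e` -/
inductive IterD (a : Submodule ℚ A) {m : ℕ} (f : (Fin m → A) → A) :
    ℕ → ((Fin m → A) → A) → Prop
  | base : IterD a f 0 f
  | step {e : ℕ} {g : (Fin m → A) → A} {i : ℕ} {t : A} :
      IterD a f e g → 1 ≤ i → t ∈ a ^ i → IterD a f (e + i) (Dop t g)

/-- the space spanned by the iterated `D` operators of degree `e` -/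
def DS (a : Submodule ℚ A) {m : ℕ} (f : (Fin m → A) → A) (e : ℕ) :
    Submodule ℚ ((Fin m → A) → A) := Submodule.span ℚ {g | IterD a f e g}

/-- `Dop t` as a linear map on functions -/
def DopL {m : ℕ} (t : A) : ((Fin m → A) → A) →ₗ[ℚ] ((Fin m → A) → A) where
  toFun := Dop t
  map_add' f g := by
    funext u
    simp [Dop, Finset.sum_add_distrib]
  map_smul' r f := by
    funext u
    simp [Dop, Finset.smul_sum]

theorem Dop_mem_DS {a : Submodule ℚ A} {m : ℕ} {f g : (Fin m → A) → A} {e i : ℕ} {t : A}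
    (hg : g ∈ DS a f e) (hi : 1 ≤ i) (ht : t ∈ a ^ i) : Dop t g ∈ DS a f (e + i) := by
  have h : DS a f e ≤ (DS a f (e + i)).comap (DopL t) := by
    unfold DS
    rw [Submodule.span_le]
    intro g hg
    exact Submodule.subset_span (IterD.step hg hi ht)
  exact h hg

variable {ι : Type*} [DecidableEq ι] [Fintype ι]

theorem Inj_mem_DS {a : Submodule ℚ A} {m : ℕ} {f : (Fin m → A) → A} (S : Finset ι) :
    ∀ (c : ι → A) (d : ι → ℕ), (∀ s ∈ S, 1 ≤ d s) → (∀ s ∈ S, c s ∈ a ^ d s) →
      Inj c S f ∈ DS a f (∑ s ∈ S, d s) := by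
  induction S using Finset.induction_on with
  | empty =>
    intro c d _ _
    rw [Inj_empty, Finset.sum_empty]
    exact Submodule.subset_span IterD.base
  | insert s₀ S hs₀ ih =>
    intro c d hd hc
    have h1 : Inj c (insert s₀ S) f = Dop (c s₀) (Inj c S f)
        - ∑ s ∈ S, Inj (update c s (c s₀ * c s)) S f := by
      funext u
      have := Dop_Inj c S s₀ hs₀ f u
      rw [Pi.sub_apply, Finset.sum_apply, this]
      abel
    rw [h1, Finset.sum_insert hs₀, add_comm]
    refine Submodule.sub_mem _ ?_ (Submodule.sum_mem _ (fun s hs => ?_))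
    · exact Dop_mem_DS (ih c d (fun s hs => hd s (Finset.mem_insert_of_mem hs))
        (fun s hs => hc s (Finset.mem_insert_of_mem hs)))
        (hd s₀ (Finset.mem_insert_self _ _)) (hc s₀ (Finset.mem_insert_self _ _))
    · have h2 := ih (update c s (c s₀ * c s)) (update d s (d s₀ + d s)) ?_ ?_
      · have h3 : ∑ s' ∈ S, update d s (d s₀ + d s) s' = ∑ s' ∈ S, d s' + d s₀ := by
          rw [Finset.sum_update_of_mem hs, ← Finset.add_sum_erase S d hs,
            ← Finset.erase_eq]
          omega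
        rw [h3] at h2
        exact h2
      · intro s' hs'
        by_cases h : s' = s
        · subst h
          rw [update_self]
          have := hd s' (Finset.mem_insert_of_mem hs')
          omega
        · rw [update_of_ne h]
          exact hd s' (Finset.mem_insert_of_mem hs')
      · intro s' hs'
        by_cases h : s' = s
        · subst h
          rw [update_self, update_self, pow_add]
          exact Submodule.mul_mem_mul (hc s₀ (Finset.mem_insert_self _ _))
            (hc s' (Finset.mem_insert_of_mem hs'))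
        · rw [update_of_ne h, update_of_ne h]
          exact hc s' (Finset.mem_insert_of_mem hs')

/-- The space of the terms on the right side of the Cayley-Hamilton relation. -/
def TT (a : Submodule ℚ A) {m : ℕ} (f : (Fin m → A) → A) (u : Fin m → A) (Y z : A) (N : ℕ) :
    Submodule ℚ A :=
  Submodule.span ℚ {x | ∃ (e j : ℕ) (g : (Fin m → A) → A) (mu : A), IterD a f e g ∧ 1 ≤ e ∧
    mu ∈ a ^ j ∧ e + j = N ∧ x = g u * Y * z * mu}

theorem TT_mul {a : Submodule ℚ A} {m : ℕ} {f : (Fin m → A) → A} {u : Fin m → A} {Y z : A}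
    {N i : ℕ} {x t : A} (hx : x ∈ TT a f u Y z N) (ht : t ∈ a ^ i) :
    x * t ∈ TT a f u Y z (N + i) := by
  have h : TT a f u Y z N ≤ (TT a f u Y z (N + i)).comap (LinearMap.mulRight ℚ t) := by
    unfold TT
    rw [Submodule.span_le]
    rintro _ ⟨e, j, g, mu, h1, h2, h3, h4, rfl⟩
    refine Submodule.subset_span ⟨e, j + i, g, mu * t, h1, h2, ?_, by omega, ?_⟩
    · rw [pow_add]
      exact Submodule.mul_mem_mul h3 ht
    · simp [mul_assoc]
  exact h hx

theorem Inj_mem_TT {a : Submodule ℚ A} {m : ℕ} {f : (Fin m → A) → A} {S : Finset ι}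
    (hS : S.Nonempty) (c : ι → A) (d : ι → ℕ) (hd : ∀ s ∈ S, 1 ≤ d s)
    (hc : ∀ s ∈ S, c s ∈ a ^ d s) (u : Fin m → A) (Y z : A) :
    Inj c S f u * Y * z ∈ TT a f u Y z (∑ s ∈ S, d s) := by
  have h1 := Inj_mem_DS (f := f) S c d hd hc
  have hpos : 1 ≤ ∑ s ∈ S, d s := by
    obtain ⟨s, hs⟩ := hS
    exact le_trans (hd s hs) (Finset.single_le_sum (f := d) (fun _ _ => Nat.zero_le _) hs)
  set N := ∑ s ∈ S, d s with hN
  clear_value N
  revert h1
  generalize Inj c S f = g
  intro h1
  unfold DS at h1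
  refine Submodule.span_induction (p := fun g _ => g u * Y * z ∈ TT a f u Y z N)
    ?_ ?_ ?_ ?_ h1
  · intro g hg
    exact Submodule.subset_span ⟨N, 0, g, 1, hg, hpos,
      by rw [pow_zero]; exact Submodule.mem_one.2 ⟨1, map_one _⟩, by simp, by simp⟩
  · simp
  · intro g g' _ _ h h'
    have := Submodule.add_mem _ h h'
    simpa [add_mul] using this
  · intro r g _ h
    have := Submodule.smul_mem _ r h
    simpa using this

theorem Base.Mul_pow (S : Base A) {α : ℕ} {a : Submodule ℚ A} (ha : ∀ x ∈ a, S.Mul α x) :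
    ∀ (i : ℕ) (x : A), x ∈ a ^ i → S.Mul (i * α) x := by
  have hadd : ∀ (b : ℕ) (x y : A), S.Mul b x → S.Mul b y → S.Mul b (x + y) := by
    intro b x y hx hy
    refine ⟨fun l c hc => ?_, fun l c hc => ?_⟩
    · rw [add_mul]; exact Submodule.add_mem _ (hx.1 l c hc) (hy.1 l c hc)
    · rw [mul_add]; exact Submodule.add_mem _ (hx.2 l c hc) (hy.2 l c hc)
  intro i
  induction i with
  | zero =>
    intro x hx
    rw [pow_zero, Submodule.mem_one] at hx
    obtain ⟨r, rfl⟩ := hx
    refine ⟨fun l c hc => ?_, fun l c hc => ?_⟩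
    · rw [← Algebra.smul_def]
      simpa using Submodule.smul_mem _ r hc
    · rw [← Algebra.commutes, ← Algebra.smul_def]
      simpa using Submodule.smul_mem _ r hc
  | succ i ih =>
    intro x hx
    rw [pow_succ] at hx
    refine Submodule.mul_induction_on hx (fun p hp q hq => ?_) (fun x y => hadd _ x y)
    have := S.Mul_mul (ih p hp) (ha q hq)
    exact S.Mul_mono (by ring_nf; omega) this

/-- CAYLEY-HAMILTON, general step. -/
theorem Base.CH_aux (B : Base A) {α : ℕ} {a : Submodule ℚ A} (ha : ∀ x ∈ a, B.Mul α x)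
    {m : ℕ} {f : (Fin m → A) → A} (c : ι → A) (d : ι → ℕ) :
    ∀ (n : ℕ) (S : Finset ι) (_ : S.card = n) (_ : ∀ s ∈ S, 1 ≤ d s)
      (_ : ∀ s ∈ S, c s ∈ a ^ d s) (l : ℕ) (_ : B.RelR (l + (∑ s ∈ S, d s) * α) f)
      (u : Fin m → A) (_ : ∀ k, u k ∈ B.D l) (Y : A) (_ : Y ∈ B.C l) (z : A) (_ : z ∈ B.D l),
      f u * Y * z * symS c n S - (-1 : ℤ) ^ n • QQ c S f u Y z
        ∈ TT a f u Y z (∑ s ∈ S, d s) ⊔ B.Ctx l := by
  intro n
  induction n with
  | zero =>
    intro S hcard hd hc l hf u hu Y hY z hz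
    rw [Finset.card_eq_zero] at hcard
    subst hcard
    refine Submodule.mem_sup_right ?_
    have h1 := hf u (fun k => B.monoD (by omega) (hu k)) Y (B.monoC (by omega) hY) z
      (B.monoD (by omega) hz)
    have h2 : f u * Y * z * symS c 0 ∅ - (-1 : ℤ) ^ 0 • QQ c ∅ f u Y z = RR f u Y z := by
      rw [QQ_empty]
      simp [symS, RR]
    rw [h2]
    exact B.Ctx_anti (by omega) h1
  | succ n ih =>
    intro S hcard hd hc l hf u hu Y hY z hz
    have hne : S.Nonempty := by
      rw [← Finset.card_pos]; omega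
    set N := ∑ s ∈ S, d s with hN
    -- step 1
    have e1 : ∀ j ∈ S, (f u * Y * z * symS c n (S.erase j)
        - (-1 : ℤ) ^ n • QQ c (S.erase j) f u Y z) * c j ∈ TT a f u Y z N ⊔ B.Ctx l := by
      intro j hj
      have hNj : (∑ s ∈ S.erase j, d s) + d j = N := by
        rw [hN, Finset.sum_erase_add _ _ hj]
      have hM := B.Mul_pow ha (d j) (c j) (hc j hj)
      have h1 := ih (S.erase j) (by rw [Finset.card_erase_of_mem hj, hcard]; omega)
        (fun s hs => hd s (Finset.mem_of_mem_erase hs))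
        (fun s hs => hc s (Finset.mem_of_mem_erase hs)) (l + d j * α) (by
          refine B.RelR_mono ?_ hf
          rw [← hNj]
          ring_nf
          omega) u (fun k => B.monoD (by omega) (hu k)) Y (B.monoC (by omega) hY) z
            (B.monoD (by omega) hz)
      rw [Submodule.mem_sup] at h1
      obtain ⟨p, hp, q, hq, hpq⟩ := h1
      rw [← hpq, add_mul]
      refine Submodule.add_mem _ (Submodule.mem_sup_left ?_) (Submodule.mem_sup_right ?_)
      · rw [← hNj]
        exact TT_mul hp (hc j hj)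
      · exact B.mul_right_Ctx hM.1 hq
    have e2 := Submodule.sum_mem _ e1
    -- step 2
    have e3 : ∑ τ ∈ Adm S, RR f (uτ c u τ) Y z ∈ B.Ctx l := by
      refine Submodule.sum_mem _ (fun τ hτ => ?_)
      refine B.Ctx_anti (by omega) (hf _ (fun k => ?_) Y (B.monoC (by omega) hY) z
        (B.monoD (by omega) hz))
      rcases hk : τ k with _ | s
      · have : uτ c u τ k = u k := by simp [uτ, hk]
        rw [this]
        exact B.monoD (by omega) (hu k)
      · have hs : s ∈ S := ((mem_Adm.1 hτ).1 s).2 ⟨k, hk⟩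
        have h4 : uτ c u τ k = u k * c s := by simp [uτ, hk]
        rw [h4]
        have hM := B.Mul_pow ha (d s) (c s) (hc s hs)
        have h5 : d s ≤ N := Finset.single_le_sum (f := d) (fun _ _ => Nat.zero_le _) hs
        exact B.monoD (Nat.add_le_add_left (Nat.mul_le_mul_right _ h5) _) (hM.2 l _ (hu k))
    rw [sum_RR] at e3
    have e4 := Inj_mem_TT (f := f) hne c d hd hc u Y z
    have e5 : f u * Y * z * symS c (n + 1) S - (-1 : ℤ) ^ (n + 1) • QQ c S f u Y z
        = ∑ j ∈ S, (f u * Y * z * symS c n (S.erase j)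
          - (-1 : ℤ) ^ n • QQ c (S.erase j) f u Y z) * c j
          - (-1 : ℤ) ^ n • (Inj c S f u * Y * z - QQ c S f u Y z
            - ∑ j ∈ S, QQ c (S.erase j) f u Y z * c j)
          + (-1 : ℤ) ^ n • (Inj c S f u * Y * z) := by
      simp only [symS, Finset.mul_sum, sub_mul, Finset.sum_sub_distrib, smul_sub,
        Finset.smul_sum, smul_mul_assoc, mul_assoc]
      rw [pow_succ]
      simp only [mul_neg, mul_one, neg_smul]
      abel
    rw [e5]
    refine Submodule.add_mem _ (Submodule.sub_mem _ e2 ?_) ?_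
    · exact (TT a f u Y z N ⊔ B.Ctx l).smul_of_tower_mem _ (Submodule.mem_sup_right e3)
    · exact (TT a f u Y z N ⊔ B.Ctx l).smul_of_tower_mem _ (Submodule.mem_sup_left e4)

/-- CAYLEY-HAMILTON. -/
theorem Base.CH (B : Base A) {α : ℕ} {a : Submodule ℚ A} (ha : ∀ x ∈ a, B.Mul α x)
    {m : ℕ} {f : (Fin m → A) → A} (c : ι → A) (d : ι → ℕ)
    (S : Finset ι) (hS : S.card = m) (hd : ∀ s ∈ S, 1 ≤ d s)
    (hc : ∀ s ∈ S, c s ∈ a ^ d s) (l : ℕ) (hf : B.RelR (l + (∑ s ∈ S, d s) * α) f)
    (u : Fin m → A) (hu : ∀ k, u k ∈ B.D l) (Y : A) (hY : Y ∈ B.C l) (z : A) (hz : z ∈ B.D l) :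
    f u * Y * z * symS c m S ∈ TT a f u Y z (∑ s ∈ S, d s) ⊔ B.Ctx l := by
  have h := B.CH_aux ha c d m S hS hd hc l hf u hu Y hY z hz
  rwa [QQ_full c S hS, smul_zero, sub_zero] at h

end CH

end Pool.MP_24a659_al.Cap
end

section

/-!
MP_24a659_al, paper 716, Section 6 in abstract form, part 4: Nagata-Higman.
-/

set_option autoImplicit false

namespace Pool.MP_24a659_al.Cap

open Function

section sy

variable {A : Type*} [Ring A] {ι : Type*} [DecidableEq ι]

/-- the symmetric sum over a finite set -/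
def sy (c : ι → A) (S : Finset ι) : A := symS c S.card S

theorem sy_empty (c : ι → A) : sy c ∅ = 1 := rfl

theorem sy_rec (c : ι → A) (S : Finset ι) :
    sy c S = (if S = ∅ then 1 else 0) + ∑ j ∈ S, sy c (S.erase j) * c j := by
  by_cases h : S = ∅
  · subst h; simp [sy_empty]
  · rw [if_neg h, zero_add]
    have h1 : 0 < S.card := Finset.card_pos.2 (Finset.nonempty_iff_ne_empty.2 h)
    obtain ⟨n, hn⟩ : ∃ n, S.card = n + 1 := ⟨S.card - 1, by omega⟩
    unfold sy
    rw [hn]
    simp only [symS]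
    refine Finset.sum_congr rfl (fun j hj => ?_)
    rw [Finset.card_erase_of_mem hj, hn, Nat.add_sub_cancel]

theorem sdiff_erase_eq {S I : Finset ι} {j : ι} : (S \ I).erase j = (S.erase j) \ I := by
  ext x
  simp only [Finset.mem_erase, Finset.mem_sdiff]
  tauto

/-- insertion of an element -/
theorem sum_powerset_ins (c : ι → A) (v : A) (S : Finset ι) :
    ∑ I ∈ S.powerset, sy c I * v * sy c (S \ I)
      = sy c S * v + ∑ j ∈ S, (∑ I ∈ (S.erase j).powerset, sy c I * v * sy c ((S.erase j) \ I))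
          * c j := by
  have h1 : ∀ I ∈ S.powerset, sy c I * v * sy c (S \ I)
      = (if I = S then sy c S * v else 0)
        + ∑ j ∈ S \ I, sy c I * v * sy c ((S.erase j) \ I) * c j := by
    intro I hI
    rw [Finset.mem_powerset] at hI
    rw [sy_rec c (S \ I)]
    have h2 : (S \ I = ∅) ↔ I = S := by
      rw [Finset.sdiff_eq_empty_iff_subset]
      exact ⟨fun h => Finset.Subset.antisymm hI h, fun h => h ▸ le_rfl⟩
    rw [mul_add, Finset.mul_sum]
    congr 1
    · by_cases h : I = S
      · rw [if_pos (h2.2 h), if_pos h, mul_one, h]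
      · rw [if_neg (fun h' => h (h2.1 h')), if_neg h, mul_zero]
    · refine Finset.sum_congr rfl (fun j _ => ?_)
      rw [sdiff_erase_eq]
      simp only [mul_assoc]
  rw [Finset.sum_congr rfl h1, Finset.sum_add_distrib]
  congr 1
  · rw [Finset.sum_ite_eq' , if_pos (Finset.mem_powerset_self S)]
  · simp_rw [Finset.sum_mul]
    apply Finset.sum_comm'
    intro I j
    simp only [Finset.mem_powerset, Finset.mem_sdiff]
    constructor
    · rintro ⟨h3, h4, h5⟩
      refine ⟨fun x hx => Finset.mem_erase.2 ⟨?_, h3 hx⟩, h4⟩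
      rintro rfl
      exact h5 hx
    · rintro ⟨h3, h4⟩
      refine ⟨fun x hx => Finset.mem_of_mem_erase (h3 hx), h4, fun h5 => ?_⟩
      have := h3 h5
      simp at this

theorem insertNone_erase_some (S : Finset ι) (j : ι) :
    (Finset.insertNone S).erase (some j) = Finset.insertNone (S.erase j) := by
  ext x
  rcases x with _ | x
  · simp
  · simp [Finset.mem_erase]

theorem insertNone_erase_none (S : Finset ι) :
    (Finset.insertNone S).erase none = S.map Embedding.some := by
  ext x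
  rcases x with _ | x
  · simp
  · simp

/-- (S1) -/
theorem sy_insertNone (c : Option ι → A) : ∀ (n : ℕ) (S : Finset ι), S.card = n →
    sy c (Finset.insertNone S)
      = ∑ I ∈ S.powerset, sy (fun i => c (some i)) I * c none * sy (fun i => c (some i)) (S \ I)
    := by
  intro n
  induction n with
  | zero =>
    intro S hS
    rw [Finset.card_eq_zero] at hS
    subst hS
    rw [sy_rec, if_neg (by simp [Finset.insertNone]), zero_add]
    simp [sy_empty, Finset.insertNone]
  | succ n ih =>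
    intro S hS
    rw [sy_rec, if_neg, zero_add, Finset.sum_insertNone, sum_powerset_ins]
    · congr 1
      · rw [insertNone_erase_none]
        congr 1
        unfold sy
        rw [symS_map, Finset.card_map]
        rfl
      · refine Finset.sum_congr rfl (fun j hj => ?_)
        rw [insertNone_erase_some, ih (S.erase j) (by rw [Finset.card_erase_of_mem hj]; omega)]
    · intro h
      have : none ∈ Finset.insertNone S := by simp
      rw [h] at this
      simp at this

/-- (S2) -/
theorem sum_powerset_sy (c : ι → A) : ∀ (n : ℕ) (S : Finset ι), S.card = n →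
    ∑ I ∈ S.powerset, sy c I * sy c (S \ I) = (n + 1) • sy c S := by
  intro n
  induction n with
  | zero =>
    intro S hS
    rw [Finset.card_eq_zero] at hS
    subst hS
    simp [sy_empty]
  | succ n ih =>
    intro S hS
    have h1 := sum_powerset_ins c 1 S
    simp only [mul_one] at h1
    rw [h1]
    have h2 : ∀ j ∈ S, (∑ I ∈ (S.erase j).powerset, sy c I * sy c ((S.erase j) \ I)) * c j
        = (n + 1) • (sy c (S.erase j) * c j) := by
      intro j hj
      rw [ih (S.erase j) (by rw [Finset.card_erase_of_mem hj]; omega), smul_mul_assoc]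
    rw [Finset.sum_congr rfl h2, ← Finset.smul_sum]
    have h3 := sy_rec c S
    rw [if_neg (by rintro rfl; simp at hS), zero_add] at h3
    rw [← h3, add_smul (n + 1) 1, one_smul, add_comm]

end sy

section NH

variable {A : Type*} [Ring A] [Algebra ℚ A]

theorem sy_mem {a : Submodule ℚ A} {ι : Type*} [DecidableEq ι] (c : ι → A) (d : ι → ℕ)
    (hc : ∀ i, c i ∈ a ^ d i) : ∀ (n : ℕ) (S : Finset ι), S.card = n →
    sy c S ∈ a ^ (∑ i ∈ S, d i) := by
  intro n
  induction n with
  | zero =>
    intro S hS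
    rw [Finset.card_eq_zero] at hS
    subst hS
    rw [sy_empty, Finset.sum_empty, pow_zero]
    exact Submodule.mem_one.2 ⟨1, map_one _⟩
  | succ n ih =>
    intro S hS
    rw [sy_rec, if_neg (by rintro rfl; simp at hS), zero_add]
    refine Submodule.sum_mem _ (fun j hj => ?_)
    rw [← Finset.sum_erase_add _ _ hj, pow_add]
    exact Submodule.mul_mem_mul (ih _ (by rw [Finset.card_erase_of_mem hj]; omega)) (hc j)

/-- `H_m(N)`: the span of the `b Sym_m(w) d` of total degree `N`. -/
def HS (a : Submodule ℚ A) (m N : ℕ) : Submodule ℚ A :=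
  Submodule.span ℚ {x | ∃ (i j : ℕ) (b d : A) (w : Fin m → A) (e : Fin m → ℕ),
    b ∈ a ^ i ∧ d ∈ a ^ j ∧ (∀ k, 1 ≤ e k) ∧ (∀ k, w k ∈ a ^ (e k)) ∧
      i + ∑ k, e k + j = N ∧ x = b * symS w m Finset.univ * d}

theorem HS_mul_left {a : Submodule ℚ A} {m N i : ℕ} {b x : A} (hb : b ∈ a ^ i)
    (hx : x ∈ HS a m N) : b * x ∈ HS a m (i + N) := by
  have h : HS a m N ≤ (HS a m (i + N)).comap (LinearMap.mulLeft ℚ b) := by
    unfold HS
    rw [Submodule.span_le]
    rintro _ ⟨i', j, b', d, w, e, h1, h2, h3, h4, h5, rfl⟩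
    refine Submodule.subset_span ⟨i + i', j, b * b', d, w, e, ?_, h2, h3, h4, by omega, ?_⟩
    · rw [pow_add]
      exact Submodule.mul_mem_mul hb h1
    · simp [mul_assoc]
  exact h hx

theorem HS_mul_right {a : Submodule ℚ A} {m N i : ℕ} {b x : A} (hb : b ∈ a ^ i)
    (hx : x ∈ HS a m N) : x * b ∈ HS a m (N + i) := by
  have h : HS a m N ≤ (HS a m (N + i)).comap (LinearMap.mulRight ℚ b) := by
    unfold HS
    rw [Submodule.span_le]
    rintro _ ⟨i', j, b', d, w, e, h1, h2, h3, h4, h5, rfl⟩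
    refine Submodule.subset_span ⟨i', j + i, b', d * b, w, e, h1, ?_, h3, h4, by omega, ?_⟩
    · rw [pow_add]
      exact Submodule.mul_mem_mul h2 hb
    · simp [mul_assoc]
  exact h hx

theorem HS_option {a : Submodule ℚ A} {m : ℕ} (w : Option (Fin m) → A) (e : Option (Fin m) → ℕ)
    (he : ∀ k, 1 ≤ e k) (hw : ∀ k, w k ∈ a ^ e k) :
    sy w (Finset.insertNone Finset.univ) ∈ HS a (m + 1) (∑ k, e (some k) + e none) := by
  have h0 : Finset.insertNone (Finset.univ : Finset (Fin m)) = Finset.univ := by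
    ext x
    rcases x with _ | x <;> simp
  have h1 : sy w (Finset.insertNone Finset.univ)
      = symS (fun i => w (finSuccEquiv m i)) (m + 1) Finset.univ := by
    have h2 := symS_map (finSuccEquiv m).toEmbedding w (m + 1) Finset.univ
    rw [Finset.map_univ_equiv] at h2
    have h3 : (fun i => w ((finSuccEquiv m).toEmbedding i)) = fun i => w (finSuccEquiv m i) := rfl
    rw [h3] at h2
    rw [← h2, h0]
    unfold sy
    simp
  rw [h1]
  refine Submodule.subset_span ⟨0, 0, 1, 1, fun i => w (finSuccEquiv m i),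
    fun i => e (finSuccEquiv m i), ?_, ?_, fun k => he _, fun k => hw _, ?_, by simp⟩
  · rw [pow_zero]; exact Submodule.mem_one.2 ⟨1, map_one _⟩
  · rw [pow_zero]; exact Submodule.mem_one.2 ⟨1, map_one _⟩
  · rw [(finSuccEquiv m).sum_comp e, Fintype.sum_option]
    omega

/-- HIGMAN's identity. -/
theorem higman {a : Submodule ℚ A} {m : ℕ} (x y : Fin m → A) (ex ey : Fin m → ℕ)
    (hex : ∀ k, 1 ≤ ex k) (hey : ∀ k, 1 ≤ ey k) (hx : ∀ k, x k ∈ a ^ ex k)
    (hy : ∀ k, y k ∈ a ^ ey k) {z : A} {ez : ℕ} (hez : 1 ≤ ez) (hz : z ∈ a ^ ez) :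
    sy x Finset.univ * z * sy y Finset.univ ∈ HS a (m + 1) (∑ k, ex k + ez + ∑ k, ey k) := by
  set N := ∑ k, ex k + ez + ∑ k, ey k with hN
  have hsx : ∀ I : Finset (Fin m), sy x I ∈ a ^ (∑ i ∈ I, ex i) :=
    fun I => sy_mem x ex hx _ I rfl
  have hsy : ∀ I : Finset (Fin m), sy y I ∈ a ^ (∑ i ∈ I, ey i) :=
    fun I => sy_mem y ey hy _ I rfl
  -- the sum W
  have hW : ∑ J ∈ (Finset.univ : Finset (Fin m)).powerset,
      (∑ I ∈ (Finset.univ : Finset (Fin m)).powerset,
        sy x I * (z * sy y J) * sy x (Finset.univ \ I)) * sy y (Finset.univ \ J) ∈ HS a (m + 1) N := by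
    refine Submodule.sum_mem _ (fun J _ => ?_)
    have h1 := sy_insertNone (fun o : Option (Fin m) => o.elim (z * sy y J) x) m Finset.univ
      (by simp)
    simp only [Option.elim_some, Option.elim_none] at h1
    rw [← h1]
    have h2 := HS_option (a := a) (fun o : Option (Fin m) => o.elim (z * sy y J) x)
      (fun o : Option (Fin m) => o.elim (ez + ∑ i ∈ J, ey i) ex)
      (by
        rintro (_ | k)
        · simp only [Option.elim_none]; omega
        · exact hex k)
      (by
        rintro (_ | k)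
        · simp only [Option.elim_none, pow_add]
          exact Submodule.mul_mem_mul hz (hsy J)
        · exact hx k)
    simp only [Option.elim_some, Option.elim_none] at h2
    have h3 := HS_mul_right (hsy (Finset.univ \ J)) h2
    have h4 : ∑ k, ex k + (ez + ∑ i ∈ J, ey i) + ∑ i ∈ Finset.univ \ J, ey i = N := by
      have := Finset.sum_sdiff (f := ey) (Finset.subset_univ J)
      omega
    rw [h4] at h3
    exact h3
  -- rearrangement
  have hR : ∑ J ∈ (Finset.univ : Finset (Fin m)).powerset,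
      (∑ I ∈ (Finset.univ : Finset (Fin m)).powerset,
        sy x I * (z * sy y J) * sy x (Finset.univ \ I)) * sy y (Finset.univ \ J)
      = ∑ I ∈ (Finset.univ : Finset (Fin m)).powerset, sy x I * z *
        (∑ J ∈ (Finset.univ : Finset (Fin m)).powerset,
          sy y J * sy x (Finset.univ \ I) * sy y (Finset.univ \ J)) := by
    simp_rw [Finset.sum_mul, Finset.mul_sum]
    rw [Finset.sum_comm]
    simp only [mul_assoc]
  rw [hR] at hW
  have hmem : (Finset.univ : Finset (Fin m)) ∈ (Finset.univ : Finset (Fin m)).powerset := by simp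
  rw [← Finset.add_sum_erase _ _ hmem] at hW
  have hrest : ∑ I ∈ ((Finset.univ : Finset (Fin m)).powerset).erase Finset.univ, sy x I * z *
        (∑ J ∈ (Finset.univ : Finset (Fin m)).powerset,
          sy y J * sy x (Finset.univ \ I) * sy y (Finset.univ \ J)) ∈ HS a (m + 1) N := by
    refine Submodule.sum_mem _ (fun I hI => ?_)
    rw [Finset.mem_erase] at hI
    have h1 := sy_insertNone (fun o : Option (Fin m) => o.elim (sy x (Finset.univ \ I)) y) m
      Finset.univ (by simp)
    simp only [Option.elim_some, Option.elim_none] at h1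
    rw [← h1]
    have hpos : 1 ≤ ∑ i ∈ Finset.univ \ I, ex i := by
      have hne : (Finset.univ \ I).Nonempty := by
        rw [Finset.nonempty_iff_ne_empty]
        intro h
        rw [Finset.sdiff_eq_empty_iff_subset] at h
        exact hI.1 (Finset.eq_univ_of_forall (fun i => h (Finset.mem_univ i)))
      obtain ⟨s, hs⟩ := hne
      exact le_trans (hex s) (Finset.single_le_sum (f := ex) (fun _ _ => Nat.zero_le _) hs)
    have h2 := HS_option (a := a) (fun o : Option (Fin m) => o.elim (sy x (Finset.univ \ I)) y)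
      (fun o : Option (Fin m) => o.elim (∑ i ∈ Finset.univ \ I, ex i) ey)
      (by
        rintro (_ | k)
        · exact hpos
        · exact hey k)
      (by
        rintro (_ | k)
        · exact hsx _
        · exact hy k)
    simp only [Option.elim_some, Option.elim_none] at h2
    have h3 : sy x I * z ∈ a ^ (∑ i ∈ I, ex i + ez) := by
      rw [pow_add]
      exact Submodule.mul_mem_mul (hsx I) hz
    have h4 := HS_mul_left h3 h2
    have h5 : ∑ i ∈ I, ex i + ez + (∑ k, ey k + ∑ i ∈ Finset.univ \ I, ex i) = N := by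
      have := Finset.sum_sdiff (f := ex) (Finset.subset_univ I)
      omega
    rw [h5] at h4
    exact h4
  have h6 := (Submodule.add_mem_iff_left _ hrest).1 hW
  have h7 : ∑ J ∈ (Finset.univ : Finset (Fin m)).powerset,
          sy y J * sy x (Finset.univ \ Finset.univ) * sy y (Finset.univ \ J)
      = (m + 1) • sy y Finset.univ := by
    rw [← sum_powerset_sy y m Finset.univ (by simp)]
    refine Finset.sum_congr rfl (fun J _ => ?_)
    rw [Finset.sdiff_self, sy_empty, mul_one]
  rw [h7, mul_smul_comm] at h6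
  have h8 := (HS a (m + 1) N).smul_mem ((1 : ℚ) / ((m : ℚ) + 1)) h6
  have h9 : ((1 : ℚ) / ((m : ℚ) + 1)) • ((m + 1) • (sy x Finset.univ * z * sy y Finset.univ))
      = sy x Finset.univ * z * sy y Finset.univ := by
    rw [← Nat.cast_smul_eq_nsmul ℚ, smul_smul]
    have : ((1 : ℚ) / ((m : ℚ) + 1)) * (((m + 1 : ℕ) : ℚ)) = 1 := by
      push_cast
      have : (m : ℚ) + 1 ≠ 0 := by positivity
      field_simp
    rw [this, one_smul]
  rw [h9] at h8
  exact h8

/-- `nh m = 2 ^ m - 1` -/
def nh : ℕ → ℕ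
  | 0 => 0
  | m + 1 => nh m + 1 + nh m

/-- NAGATA-HIGMAN. -/
theorem nagata_higman (a : Submodule ℚ A) : ∀ m : ℕ, a ^ (nh m) ≤ HS a m (nh m) := by
  intro m
  induction m with
  | zero =>
    intro x hx
    refine Submodule.subset_span ⟨0, 0, x, 1, Fin.elim0, Fin.elim0, hx, ?_, fun k => k.elim0,
      fun k => k.elim0, by simp [nh], by simp [symS]⟩
    rw [pow_zero]; exact Submodule.mem_one.2 ⟨1, map_one _⟩
  | succ m ih =>
    intro x hx
    have h1 : a ^ nh (m + 1) = a ^ nh m * a ^ 1 * a ^ nh m := by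
      rw [← pow_add, ← pow_add]
      rfl
    rw [h1] at hx
    have key : ∀ p ∈ HS a m (nh m), ∀ z ∈ a ^ 1, ∀ q ∈ HS a m (nh m),
        p * z * q ∈ HS a (m + 1) (nh (m + 1)) := by
      intro p hp z hz q hq
      unfold HS at hp
      refine Submodule.span_induction (p := fun p _ => p * z * q ∈ HS a (m + 1) (nh (m + 1)))
        ?_ ?_ ?_ ?_ hp
      · rintro _ ⟨i, j, b, d, w, e, h1, h2, h3, h4, h5, rfl⟩
        unfold HS at hq
        refine Submodule.span_induction
          (p := fun q _ => b * symS w m Finset.univ * d * z * q ∈ HS a (m + 1) (nh (m + 1)))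
          ?_ ?_ ?_ ?_ hq
        · rintro _ ⟨i', j', b', d', w', e', h1', h2', h3', h4', h5', rfl⟩
          have h6 : d * z * b' ∈ a ^ (j + 1 + i') := by
            rw [pow_add, pow_add]
            exact Submodule.mul_mem_mul (Submodule.mul_mem_mul h2 hz) h1'
          have h7 := higman w w' e e' h3 h3' h4 h4' (z := d * z * b') (by omega) h6
          have h8 := HS_mul_right h2' (HS_mul_left h1 h7)
          have h9 : i + (∑ k, e k + (j + 1 + i') + ∑ k, e' k) + j' = nh (m + 1) := by
            simp only [nh]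
            omega
          rw [h9] at h8
          have h10 : ∀ c : Fin m → A, sy c Finset.univ = symS c m Finset.univ := by
            intro c; unfold sy; simp
          rw [h10, h10] at h8
          have h11 : b * symS w m Finset.univ * d * z * (b' * symS w' m Finset.univ * d')
              = b * (symS w m Finset.univ * (d * z * b') * symS w' m Finset.univ) * d' := by
            simp only [mul_assoc]
          rw [h11]
          exact h8
        · simp
        · intro q q' _ _ h h'
          rw [mul_add]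
          exact Submodule.add_mem _ h h'
        · intro r q _ h
          rw [mul_smul_comm]
          exact Submodule.smul_mem _ r h
      · simp
      · intro q q' _ _ h h'
        rw [add_mul, add_mul]
        exact Submodule.add_mem _ h h'
      · intro r q _ h
        rw [smul_mul_assoc, smul_mul_assoc]
        exact Submodule.smul_mem _ r h
    refine Submodule.mul_induction_on hx (fun pz hpz q hq => ?_)
      (fun x y hx hy => Submodule.add_mem _ hx hy)
    refine Submodule.mul_induction_on hpz (fun p hp z hz => ?_) (fun x y hx hy => ?_)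
    · exact key p (ih hp) z hz q (ih hq)
    · rw [add_mul]
      exact Submodule.add_mem _ hx hy

/-- CAYLEY-HAMILTON with NAGATA-HIGMAN. -/
theorem Base.CHNH (B : Base A) {α : ℕ} {a : Submodule ℚ A} (ha : ∀ x ∈ a, B.Mul α x)
    {m : ℕ} {f : (Fin m → A) → A} (l : ℕ) (hf : B.RelR (l + nh m * α) f)
    (u : Fin m → A) (hu : ∀ k, u k ∈ B.D l) (Y : A) (hY : Y ∈ B.C l) (z : A) (hz : z ∈ B.D l)
    (x : A) (hx : x ∈ a ^ nh m) :
    f u * Y * z * x ∈ TT a f u Y z (nh m) ⊔ B.Ctx l := by
  have h1 := nagata_higman a m hx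
  unfold HS at h1
  refine Submodule.span_induction (p := fun x _ => f u * Y * z * x ∈ TT a f u Y z (nh m) ⊔ B.Ctx l)
    ?_ ?_ ?_ ?_ h1
  · rintro _ ⟨i, j, b, d, w, e, h1, h2, h3, h4, h5, rfl⟩
    have hMb := B.Mul_pow ha i b h1
    have hMd := B.Mul_pow ha j d h2
    have h6 := B.CH ha w e Finset.univ (by simp) (fun s _ => h3 s) (fun s _ => h4 s)
      (l + (i + j) * α) (by
        refine B.RelR_mono ?_ hf
        rw [← h5]
        ring_nf
        omega) u (fun k => B.monoD (by omega) (hu k)) Y (B.monoC (by omega) hY) (z * b)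
        (B.monoD (by ring_nf; omega) (hMb.2 l z hz))
    rw [Submodule.mem_sup] at h6
    obtain ⟨p, hp, q, hq, hpq⟩ := h6
    have h7 : f u * Y * z * (b * symS w m Finset.univ * d)
        = f u * Y * (z * b) * symS w m Finset.univ * d := by simp only [mul_assoc]
    rw [h7, ← hpq, add_mul]
    refine Submodule.add_mem _ (Submodule.mem_sup_left ?_) (Submodule.mem_sup_right ?_)
    · have h8 := TT_mul hp h2
      have h9 : TT a f u Y (z * b) (∑ k, e k + j) ≤ TT a f u Y z (nh m) := by
        unfold TT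
        rw [Submodule.span_le]
        rintro _ ⟨e', j', g, mu, h1', h2', h3', h4', rfl⟩
        refine Submodule.subset_span ⟨e', i + j', g, b * mu, h1', h2', ?_, by omega, ?_⟩
        · rw [pow_add]
          exact Submodule.mul_mem_mul h1 h3'
        · simp only [mul_assoc]
      exact h9 h8
    · refine B.Ctx_anti (l' := l + i * α) (by omega) (B.mul_right_Ctx hMd.1 ?_)
      refine B.Ctx_anti ?_ hq
      ring_nf
      omega
  · simp
  · intro x y _ _ h h'
    rw [mul_add]
    exact Submodule.add_mem _ h h'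
  · intro r x _ h
    rw [mul_smul_comm]
    exact Submodule.smul_mem _ r h

end NH

end Pool.MP_24a659_al.Cap
end

section

/-!
MP_24a659_al, paper 716, Section 6 in abstract form, part 5: exchange along a gap chain.
-/

set_option autoImplicit false

namespace Pool.MP_24a659_al.Cap

open Function

variable {A : Type*} [Ring A] [Algebra ℚ A]

/-- Products `X₀ J₁ X₁ ⋯ J_t X_t` with `X_i ∈ G`, `J_i ∈ V`. -/
inductive GapW (G : Set A) (V : Set A) : ℕ → A → Prop
  | base {X : A} : X ∈ G → GapW G V 0 X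
  | step {t : ℕ} {X J Y : A} : X ∈ G → J ∈ V → GapW G V t Y → GapW G V (t + 1) (X * J * Y)

theorem Base.GapW_mem_P (S : Base A) {G : Set A} {l : ℕ} (hG : ∀ X ∈ G, X ∈ S.C l) {t : ℕ}
    {Y : A} (hY : GapW G S.V t Y) : Y ∈ S.P := by
  induction hY with
  | base h => exact S.C_le_P _ _ (hG _ h)
  | step h1 h2 _ ih =>
    exact S.P.mul_mem (S.P.mul_mem (S.C_le_P _ _ (hG _ h1)) (S.V_le_P _ h2)) ih

/-- `c f(u) X ∈ C`. -/
def Base.Mid (S : Base A) (l b : ℕ) {m : ℕ} (f : (Fin m → A) → A) : Prop :=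
  ∀ u : Fin m → A, (∀ k, u k ∈ S.D l) → ∀ j j' : ℕ, ∀ c ∈ S.C j, ∀ X ∈ S.C j',
    c * f u * X ∈ S.C (j + j' + b)

theorem Base.Mid_mono (S : Base A) {l l' b b' : ℕ} (h : l ≤ l') (hb : b ≤ b') {m : ℕ}
    {f : (Fin m → A) → A} (hf : S.Mid l' b f) : S.Mid l b' f := fun u hu j j' c hc X hX =>
  S.monoC (by omega) (hf u (fun k => S.monoD h (hu k)) j j' c hc X hX)

theorem Base.Mid_cap (S : Base A) {l b₀ β b₁ : ℕ} {m : ℕ} {y : Fin (m + 2) → A}
    (hy : S.Good b₀ β b₁ y) : S.Mid l (b₀ + b₁ + (m + 1) * (l + β)) (cap y) := by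
  intro u hu j j' c hc X hX
  unfold cap
  rw [Finset.mul_sum, Finset.sum_mul]
  refine Submodule.sum_mem _ (fun σ _ => ?_)
  rw [mul_smul_comm, smul_mul_assoc]
  refine (S.C _).smul_of_tower_mem _ ?_
  rw [mono_succ]
  have h1 := S.mono_SR (l := l) (β := β) (b₁ := b₁) (fun i => y i.succ) (fun i => (u ∘ σ) i.succ)
    (fun i hi => hy.inner _ (Fin.succ_ne_zero i)
      (by rw [← Fin.succ_last]; exact fun h => hi (Fin.succ_injective _ h)))
    (by rw [Fin.succ_last]; exact hy.right) (fun i => hu _) j' X hX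
  have h2 := S.CDC (hy.left j c hc) (hu (σ 0)) h1
  have h3 : c * (y 0 * (u ∘ σ) 0 * mono (fun i => y i.succ) fun i => (u ∘ σ) i.succ) * X
      = c * y 0 * u (σ 0) * ((mono (fun i => y i.succ) fun i => (u ∘ σ) i.succ) * X) := by
    simp only [mul_assoc, comp_apply]
  rw [h3]
  refine S.monoC ?_ h2
  ring_nf
  omega

theorem Base.Mid_Dop (S : Base A) {l α b : ℕ} {a : A} (ha : S.Mul α a) {m : ℕ}
    {f : (Fin m → A) → A} (hf : S.Mid (l + α) b f) : S.Mid l b (Dop a f) := by
  intro u hu j j' c hc X hX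
  unfold Dop
  rw [Finset.mul_sum, Finset.sum_mul]
  refine Submodule.sum_mem _ (fun k _ => ?_)
  refine hf _ (fun i => ?_) j j' c hc X hX
  by_cases h : i = k
  · subst h
    rw [update_self]
    exact ha.2 l _ (hu i)
  · rw [update_of_ne h]
    exact S.monoD (by omega) (hu i)

section iter

variable {a : Submodule ℚ A} {α : ℕ}

theorem Base.IterD_RelR (S : Base A) (ha : ∀ x ∈ a, S.Mul α x) {m : ℕ}
    {f g : (Fin m → A) → A} {e : ℕ} (h : IterD a f e g) :
    ∀ l : ℕ, S.RelR (l + e * α) f → S.RelR l g := by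
  induction h with
  | base => intro l h; simpa using h
  | @step e g i t _ hi ht ih =>
    intro l hf
    have h2 := S.Mul_pow ha i t ht
    refine S.RelR_Dop h2 (ih (l + i * α) ?_)
    have : l + i * α + e * α = l + (e + i) * α := by ring
    rwa [this]

theorem Base.IterD_WF (S : Base A) (ha : ∀ x ∈ a, S.Mul α x) {m : ℕ}
    {f g : (Fin m → A) → A} {e : ℕ} (h : IterD a f e g) :
    ∀ l b : ℕ, S.WF (l + e * α) b f → S.WF l (b + e * α) g := by
  induction h with
  | base => intro l b h; simpa using h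
  | @step e g i t _ hi ht ih =>
    intro l b hf
    have h2 := S.Mul_pow ha i t ht
    have h3 := S.WF_Dop h2 (ih (l + i * α) b (by
      have : l + i * α + e * α = l + (e + i) * α := by ring
      rwa [this]))
    have : b + (e + i) * α = b + e * α + i * α := by ring
    rwa [this]

theorem Base.IterD_Mid (S : Base A) (ha : ∀ x ∈ a, S.Mul α x) {m : ℕ}
    {f g : (Fin m → A) → A} {e : ℕ} (h : IterD a f e g) :
    ∀ l b : ℕ, S.Mid (l + e * α) b f → S.Mid l b g := by
  induction h with
  | base => intro l b h; simpa using h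
  | @step e g i t _ hi ht ih =>
    intro l b hf
    have h2 := S.Mul_pow ha i t ht
    refine S.Mid_Dop h2 (ih (l + i * α) b ?_)
    have : l + i * α + e * α = l + (e + i) * α := by ring
    rwa [this]

/-- an iterated `D` of positive degree is a `D` of an iterated `D`. -/
theorem IterD_pos {m : ℕ} {f g : (Fin m → A) → A} {e : ℕ} (h : IterD a f e g) (he : 1 ≤ e) :
    ∃ (e' i : ℕ) (f' : (Fin m → A) → A) (t : A), IterD a f e' f' ∧ 1 ≤ i ∧ t ∈ a ^ i ∧
      e' + i = e ∧ g = Dop t f' := by
  cases h with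
  | base => omega
  | @step e g i t h hi ht => exact ⟨e, i, g, t, h, hi, ht, rfl, rfl⟩

end iter

/-- The class of killers `h v` used for the exchange. -/
structure Base.Kil (S : Base A) (L l b : ℕ) {m : ℕ} (h : (Fin m → A) → A) (v : Fin m → A) :
    Prop where
  relR : S.RelR L h
  relL : S.RelL L h
  wf : S.WF l b h
  inV : h v ∈ S.V

/-- EXCHANGE along a gap chain, both ends killers. -/
theorem Base.EX_chain_aux (S : Base A) {l b α m : ℕ} {a : A} (ha : S.Mul α a)
    {G : Set A} (hG : ∀ X ∈ G, X ∈ S.C l)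
    (hV : ∀ J ∈ S.V, J ∈ Submodule.span ℚ {x : A | ∃ (h : (Fin m → A) → A) (v : Fin m → A),
      S.Kil (l + b + α) l b h v ∧ (∀ k, v k ∈ S.D l) ∧ x = h v})
    {g : (Fin m → A) → A} {u' : Fin m → A} (hg : S.Kil (l + b + α) l b g u')
    (hu' : ∀ k, u' k ∈ S.D l)
    {t : ℕ} {Y : A} (hY : GapW G S.V t Y) :
    ∀ (h : (Fin m → A) → A) (v : Fin m → A), S.Kil (l + b + α) l b h v → (∀ k, v k ∈ S.D l) →
    ∀ J ∈ S.V, ∀ J' ∈ S.V, ∀ c ∈ S.C l, ∀ c' ∈ S.C l,
      J * c * (Dop a h v * Y * g u' - h v * Y * Dop a g u') * c' * J' ∈ S.null := by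
  induction hY with
  | @base X hX =>
    intro h v hh hv J hJ J' hJ' c hc c' hc'
    exact S.EX ha hh.relR (S.WF_mono (by omega) le_rfl hh.wf) hg.relL
      (S.WF_mono (by omega) le_rfl hg.wf) v hv u' hu' X (hG X hX) J hJ J' hJ' c hc c' hc'
  | @step t X J₁ Y hX hJ₁ hY ih =>
    intro h v hh hv J hJ J' hJ' c hc c' hc'
    have hJc : J * c ∈ S.P := S.P.mul_mem (S.V_le_P J hJ) (S.C_le_P _ c hc)
    have hgP : g u' ∈ S.P := S.V_le_P _ hg.inV
    have hcJ' : c' * J' ∈ S.P := S.P.mul_mem (S.C_le_P _ c' hc') (S.V_le_P J' hJ')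
    -- right context of the first exchange
    have hctx : ∀ Z ∈ S.Ctx l, J * c * Z * Y * g u' * c' * J' ∈ S.null := by
      intro Z hZ
      cases hY with
      | base hX' =>
        have h1 := hZ J hJ (g u') hg.inV c hc Y (hG Y hX')
        have h2 := S.null_mul _ h1 _ hcJ'
        simpa [mul_assoc] using h2
      | @step t' X' J₂ Y' hX' hJ₂ hY' =>
        have h1 := hZ J hJ J₂ hJ₂ c hc X' (hG X' hX')
        have h2 := S.null_mul _ h1 _ (S.P.mul_mem (S.P.mul_mem (S.GapW_mem_P hG hY') hgP) hcJ')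
        simpa [mul_assoc] using h2
    have key : ∀ J₁ ∈ Submodule.span ℚ {x : A | ∃ (h : (Fin m → A) → A) (v : Fin m → A),
        S.Kil (l + b + α) l b h v ∧ (∀ k, v k ∈ S.D l) ∧ x = h v},
        J * c * (Dop a h v * (X * J₁ * Y) * g u' - h v * (X * J₁ * Y) * Dop a g u') * c' * J'
          ∈ S.null := by
      intro J₁ hJ₁
      refine Submodule.span_induction (p := fun J₁ _ =>
        J * c * (Dop a h v * (X * J₁ * Y) * g u' - h v * (X * J₁ * Y) * Dop a g u') * c' * J'
          ∈ S.null) ?_ ?_ ?_ ?_ hJ₁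
      · rintro _ ⟨h₁, v₁, hh₁, hv₁, rfl⟩
        have e1 := hctx _ (S.EX ha hh.relR (S.WF_mono (by omega) le_rfl hh.wf) hh₁.relL
          (S.WF_mono (by omega) le_rfl hh₁.wf) v hv v₁ hv₁ X (hG X hX))
        have e2 := S.mul_null _ (ih h₁ v₁ hh₁ hv₁ (h v) hh.inV J' hJ' X (hG X hX) c' hc')
          (J * c) hJc
        have e3 := S.null.add_mem e1 e2
        have e4 : J * c * (Dop a h v * (X * h₁ v₁ * Y) * g u'
            - h v * (X * h₁ v₁ * Y) * Dop a g u') * c' * J'
            = J * c * (Dop a h v * X * h₁ v₁ - h v * X * Dop a h₁ v₁) * Y * g u' * c' * J'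
              + J * c * (h v * X * (Dop a h₁ v₁ * Y * g u' - h₁ v₁ * Y * Dop a g u')
                * c' * J') := by
          simp only [mul_assoc, mul_sub, sub_mul]
          abel
        rw [e4]
        exact e3
      · simp
      · intro x y _ _ hx hy
        have := S.null.add_mem hx hy
        have e : J * c * (Dop a h v * (X * (x + y) * Y) * g u'
            - h v * (X * (x + y) * Y) * Dop a g u') * c' * J'
            = J * c * (Dop a h v * (X * x * Y) * g u' - h v * (X * x * Y) * Dop a g u') * c' * J'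
              + J * c * (Dop a h v * (X * y * Y) * g u' - h v * (X * y * Y) * Dop a g u')
                * c' * J' := by
          simp only [mul_assoc, mul_sub, sub_mul, add_mul, mul_add]
          abel
        rw [e]
        exact this
      · intro r x _ hx
        have := S.null.smul_mem r hx
        have e : J * c * (Dop a h v * (X * (r • x) * Y) * g u'
            - h v * (X * (r • x) * Y) * Dop a g u') * c' * J'
            = r • (J * c * (Dop a h v * (X * x * Y) * g u'
              - h v * (X * x * Y) * Dop a g u') * c' * J') := by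
          simp only [mul_assoc, smul_mul_assoc, mul_smul_comm, smul_sub, mul_sub, sub_mul]
        rw [e]
        exact this
    exact key J₁ (hV J₁ hJ₁)

/-- EXCHANGE along a gap chain: left end an iterated `D`. -/
theorem Base.EX_chain (S : Base A) {l b bM α m : ℕ} {a : A} (ha : S.Mul α a)
    {G : Set A} (hG : ∀ X ∈ G, X ∈ S.C l)
    {l₁ : ℕ} (hl₁ : l + l + bM ≤ l₁)
    (hV : ∀ J ∈ S.V, J ∈ Submodule.span ℚ {x : A | ∃ (h : (Fin m → A) → A) (v : Fin m → A),
      S.Kil (l₁ + b + α) l₁ b h v ∧ (∀ k, v k ∈ S.D l₁) ∧ x = h v})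
    {g : (Fin m → A) → A} {u' : Fin m → A} (hg : S.Kil (l₁ + b + α) l₁ b g u')
    (hu' : ∀ k, u' k ∈ S.D l₁)
    {f : (Fin m → A) → A} {u : Fin m → A} (hfR : S.RelR (l₁ + b + α) f) (hfW : S.WF l₁ b f)
    (hfM : S.Mid l bM f) (hu : ∀ k, u k ∈ S.D l)
    {t : ℕ} {Y : A} (hY : GapW G S.V t Y) :
    ∀ J ∈ S.V, ∀ J' ∈ S.V, ∀ c ∈ S.C l, ∀ c' ∈ S.C l,
      J * c * (Dop a f u * Y * g u' - f u * Y * Dop a g u') * c' * J' ∈ S.null := by
  have hll : l ≤ l₁ := by omega
  have hG₁ : ∀ X ∈ G, X ∈ S.C l₁ := fun X hX => S.monoC hll (hG X hX)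
  have hu₁ : ∀ k, u k ∈ S.D l₁ := fun k => S.monoD hll (hu k)
  intro J hJ J' hJ' c hc c' hc'
  have hc₁ : c ∈ S.C l₁ := S.monoC hll hc
  have hc₁' : c' ∈ S.C l₁ := S.monoC hll hc'
  cases hY with
  | base hX =>
    exact S.EX ha hfR hfW hg.relL (S.WF_mono (by omega) le_rfl hg.wf) u hu₁ u' hu' Y
      (hG₁ Y hX) J hJ J' hJ' c hc₁ c' hc₁'
  | @step t X J₁ Y hX hJ₁ hY =>
    have hgP : g u' ∈ S.P := S.V_le_P _ hg.inV
    have hcJ' : c' * J' ∈ S.P := S.P.mul_mem (S.C_le_P _ c' hc') (S.V_le_P J' hJ')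
    have hctx : ∀ Z ∈ S.Ctx l₁, J * c * Z * Y * g u' * c' * J' ∈ S.null := by
      intro Z hZ
      cases hY with
      | base hX' =>
        have h1 := hZ J hJ (g u') hg.inV c hc₁ Y (hG₁ Y hX')
        have h2 := S.null_mul _ h1 _ hcJ'
        simpa [mul_assoc] using h2
      | @step t' X' J₂ Y' hX' hJ₂ hY' =>
        have h1 := hZ J hJ J₂ hJ₂ c hc₁ X' (hG₁ X' hX')
        have h2 := S.null_mul _ h1 _ (S.P.mul_mem (S.P.mul_mem (S.GapW_mem_P hG hY') hgP) hcJ')
        simpa [mul_assoc] using h2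
    have hmid : c * f u * X ∈ S.C l₁ :=
      S.monoC (by omega) (hfM u hu l l c hc X (hG X hX))
    have key : ∀ J₁ ∈ Submodule.span ℚ {x : A | ∃ (h : (Fin m → A) → A) (v : Fin m → A),
        S.Kil (l₁ + b + α) l₁ b h v ∧ (∀ k, v k ∈ S.D l₁) ∧ x = h v},
        J * c * (Dop a f u * (X * J₁ * Y) * g u' - f u * (X * J₁ * Y) * Dop a g u') * c' * J'
          ∈ S.null := by
      intro J₁ hJ₁
      refine Submodule.span_induction (p := fun J₁ _ =>
        J * c * (Dop a f u * (X * J₁ * Y) * g u' - f u * (X * J₁ * Y) * Dop a g u') * c' * J'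
          ∈ S.null) ?_ ?_ ?_ ?_ hJ₁
      · rintro _ ⟨h₁, v₁, hh₁, hv₁, rfl⟩
        have e1 := hctx _ (S.EX ha hfR hfW hh₁.relL
          (S.WF_mono (by omega) le_rfl hh₁.wf) u hu₁ v₁ hv₁ X (hG₁ X hX))
        have e2 := S.EX_chain_aux ha hG₁ hV hg hu' hY h₁ v₁ hh₁ hv₁ J hJ J' hJ'
          (c * f u * X) hmid c' hc₁'
        have e3 := S.null.add_mem e1 e2
        have e4 : J * c * (Dop a f u * (X * h₁ v₁ * Y) * g u'
            - f u * (X * h₁ v₁ * Y) * Dop a g u') * c' * J'
            = J * c * (Dop a f u * X * h₁ v₁ - f u * X * Dop a h₁ v₁) * Y * g u' * c' * J'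
              + J * (c * f u * X) * (Dop a h₁ v₁ * Y * g u' - h₁ v₁ * Y * Dop a g u')
                * c' * J' := by
          simp only [mul_assoc, mul_sub, sub_mul]
          abel
        rw [e4]
        exact e3
      · simp
      · intro x y _ _ hx hy
        have := S.null.add_mem hx hy
        have e : J * c * (Dop a f u * (X * (x + y) * Y) * g u'
            - f u * (X * (x + y) * Y) * Dop a g u') * c' * J'
            = J * c * (Dop a f u * (X * x * Y) * g u' - f u * (X * x * Y) * Dop a g u') * c' * J'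
              + J * c * (Dop a f u * (X * y * Y) * g u' - f u * (X * y * Y) * Dop a g u')
                * c' * J' := by
          simp only [mul_assoc, mul_sub, sub_mul, add_mul, mul_add]
          abel
        rw [e]
        exact this
      · intro r x _ hx
        have := S.null.smul_mem r hx
        have e : J * c * (Dop a f u * (X * (r • x) * Y) * g u'
            - f u * (X * (r • x) * Y) * Dop a g u') * c' * J'
            = r • (J * c * (Dop a f u * (X * x * Y) * g u'
              - f u * (X * x * Y) * Dop a g u') * c' * J') := by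
          simp only [mul_assoc, smul_mul_assoc, mul_smul_comm, smul_sub, mul_sub, sub_mul]
        rw [e]
        exact this
    exact key J₁ (hV J₁ hJ₁)

end Pool.MP_24a659_al.Cap
end

section

/-! MP_24a659_al, Section 6, abstract: Cayley-Hamilton + Nagata-Higman (`chnh`), exchange along a product of gaps and killers (`exchain`). -/

set_option autoImplicit false

namespace NF

open Pool.MP_24a659_al (Cap.RR Cap.LL)

variable {A : Type} [Ring A] [Algebra ℚ A]

/-- the base of `Cap1` -/
noncomputable def toBase {P C D V Z : Submodule ℚ A} {Fl : ℕ → Submodule ℚ A}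
    (hc : Ctx P C D V Z Fl) : Pool.MP_24a659_al.Cap.Base A where
  P :=
    { carrier := P
      mul_mem' := fun {a b} ha hb => hc.P_mul (Submodule.mul_mem_mul ha hb)
      add_mem' := fun {a b} ha hb => P.add_mem ha hb
      algebraMap_mem' := fun r => by
        rw [Algebra.algebraMap_eq_smul_one]
        exact P.smul_mem r (hc.C_le hc.one_C) }
  C l := C ⊓ Fl l
  D l := D ⊓ Fl l
  V := V
  null := Z
  monoC h := inf_le_inf_left _ (hc.F_mono h)
  monoD h := inf_le_inf_left _ (hc.F_mono h)
  D_le_C l := inf_le_inf_right _ hc.D_le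
  C_le_P l x hx := hc.C_le hx.1
  V_le_P x hx := hc.C_le (hc.D_le (hc.V_le hx))
  one_mem := ⟨hc.one_C, hc.one_F⟩
  CDC {i j k x y z} hx hy hz := ⟨hc.CDC (Submodule.mul_mem_mul (Submodule.mul_mem_mul hx.1 hy.1)
    hz.1), hc.F_mul _ _ (Submodule.mul_mem_mul (hc.F_mul _ _ (Submodule.mul_mem_mul hx.2 hy.2))
      hz.2)⟩
  DCD {i j k x y z} hx hy hz := ⟨hc.DCD (Submodule.mul_mem_mul (Submodule.mul_mem_mul hx.1 hy.1)
    hz.1), hc.F_mul _ _ (Submodule.mul_mem_mul (hc.F_mul _ _ (Submodule.mul_mem_mul hx.2 hy.2))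
      hz.2)⟩
  null_mul x hx a ha := hc.ZP (Submodule.mul_mem_mul hx ha)
  mul_null x hx a ha := hc.PZ (Submodule.mul_mem_mul ha hx)

theorem toBase_Mul {P C D V Z : Submodule ℚ A} {Fl : ℕ → Submodule ℚ A}
    (hc : Ctx P C D V Z Fl) {κ : ℕ} {x : A} (hx : x ∈ (C * D) ⊓ Fl κ) :
    (toBase hc).Mul κ x := by
  constructor
  · intro l c hcl
    change x * c ∈ C ⊓ Fl (l + κ)
    refine ⟨hc.CDC (Submodule.mul_mem_mul hx.1 hcl.1), ?_⟩
    rw [add_comm]
    exact hc.F_mul _ _ (Submodule.mul_mem_mul hx.2 hcl.2)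
  · intro l d hdl
    change d * x ∈ D ⊓ Fl (l + κ)
    refine ⟨hc.DCD ?_, hc.F_mul _ _ (Submodule.mul_mem_mul hdl.2 hx.2)⟩
    rw [mul_assoc]
    exact Submodule.mul_mem_mul hdl.1 hx.1

theorem toBase_RelR {P C D V Z : Submodule ℚ A} {Fl : ℕ → Submodule ℚ A}
    (hc : Ctx P C D V Z Fl) {m L : ℕ} {f : (Fin m → A) → A} :
    (toBase hc).RelR L f ↔ RelP C D V Z Fl L f := by
  constructor
  · intro h J hJ c hcc v hv Y hY z hz c' hc' J' hJ'
    have := h v hv Y hY z hz J hJ J' hJ' c hcc c' hc'
    rw [← mul_assoc]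
    exact this
  · intro h v hv Y hY z hz J hJ J' hJ' c hcc c' hc'
    have := h J hJ c hcc v hv Y hY z hz c' hc' J' hJ'
    rw [← mul_assoc] at this
    exact this

theorem toBase_RelL {P C D V Z : Submodule ℚ A} {Fl : ℕ → Submodule ℚ A}
    (hc : Ctx P C D V Z Fl) {m L : ℕ} {f : (Fin m → A) → A} :
    (toBase hc).RelL L f ↔ RelQ C D V Z Fl L f := by
  constructor
  · intro h J hJ c hcc v hv Y hY z hz c' hc' J' hJ'
    have := h v hv Y hY z hz J hJ J' hJ' c hcc c' hc'
    rw [← mul_assoc]
    exact this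
  · intro h v hv Y hY z hz J hJ J' hJ' c hcc c' hc'
    have := h J hJ c hcc v hv Y hY z hz c' hc' J' hJ'
    rw [← mul_assoc] at this
    exact this

/-- the relation is inherited by derivatives -/
theorem relP_Dop {P C D V Z : Submodule ℚ A} {Fl : ℕ → Submodule ℚ A} (hc : Ctx P C D V Z Fl)
    {m L τ : ℕ} {f : (Fin m → A) → A} (hf : RelP C D V Z Fl (L + τ) f) {t : A}
    (ht : t ∈ (C * D) ⊓ Fl τ) : RelP C D V Z Fl L (Dop t f) := by
  rw [← toBase_RelR hc] at hf ⊢
  exact (toBase hc).RelR_Dop (toBase_Mul hc ht) hf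

theorem IterD_to_Der {S : Submodule ℚ A} {m : ℕ} {f g : (Fin m → A) → A} {e : ℕ}
    (h : Pool.MP_24a659_al.Cap.IterD S f e g) : Der S f e g := by
  induction h with
  | base => exact Der.base
  | @step e g i t _ hi ht ih =>
    obtain ⟨r, rfl⟩ : ∃ r, i = r + 1 := ⟨i - 1, by omega⟩
    exact Der.step ih ht

theorem Der_to_IterD {S : Submodule ℚ A} {m : ℕ} {f g : (Fin m → A) → A} {e : ℕ}
    (h : Der S f e g) : Pool.MP_24a659_al.Cap.IterD S f e g := by
  induction h with
  | base => exact Pool.MP_24a659_al.Cap.IterD.base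
  | @step e r g t _ ht ih => exact Pool.MP_24a659_al.Cap.IterD.step ih (by omega) ht

theorem nh_eq (m : ℕ) : Pool.MP_24a659_al.Cap.nh m = 2 ^ m - 1 := by
  induction m with
  | zero => rfl
  | succ m ih =>
    rw [Pool.MP_24a659_al.Cap.nh, ih, pow_succ]
    have : 1 ≤ 2 ^ m := Nat.one_le_two_pow
    omega

/-- Cayley-Hamilton and Nagata-Higman: a product of `2^m - 1` elements of `S` after `f(u) Y z` can
be replaced by terms which contain a derivative `D_t` of `f` -/
theorem chnh {P C D V Z : Submodule ℚ A} {Fl : ℕ → Submodule ℚ A} (hc : Ctx P C D V Z Fl)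
    {m l κ : ℕ} {S : Submodule ℚ A} (hS : S ≤ C * D) (hSl : S ≤ Fl κ)
    {f : (Fin m → A) → A} (hf : RelP C D V Z Fl (l + 2 ^ m * κ) f)
    {u : Fin m → A} (hu : ∀ k, u k ∈ D ⊓ Fl l) {Y z a : A} (hY : Y ∈ C ⊓ Fl l)
    (hz : z ∈ D ⊓ Fl l) (ha : a ∈ S ^ (2 ^ m - 1)) :
    ∃ τ ∈ TT S f (2 ^ m - 1) u Y z, ∀ J ∈ V, ∀ c ∈ C ⊓ Fl l, ∀ c' ∈ C ⊓ Fl l, ∀ J' ∈ V,
      J * c * (f u * Y * z * a - τ) * (c' * J') ∈ Z := by
  have hM : ∀ x ∈ S, (toBase hc).Mul κ x := fun x hx => toBase_Mul hc ⟨hS hx, hSl hx⟩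
  rw [← toBase_RelR hc] at hf
  rw [← nh_eq] at ha
  have h1 := (toBase hc).CHNH hM l ((toBase hc).RelR_mono (by
    rw [nh_eq]
    have : (2 ^ m - 1) * κ ≤ 2 ^ m * κ := Nat.mul_le_mul_right _ (Nat.sub_le _ _)
    omega) hf) u hu Y hY z hz a ha
  rw [Submodule.mem_sup] at h1
  obtain ⟨p, hp, q, hq, hpq⟩ := h1
  refine ⟨p, ?_, fun J hJ c hcc c' hc' J' hJ' => ?_⟩
  · have h2 : Pool.MP_24a659_al.Cap.TT S f u Y z (Pool.MP_24a659_al.Cap.nh m)
        ≤ TT S f (2 ^ m - 1) u Y z := by
      unfold Pool.MP_24a659_al.Cap.TT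
      rw [Submodule.span_le]
      rintro _ ⟨e, j, g, mu, h1, h2, h3, h4, rfl⟩
      obtain ⟨e', i, f', t, h5, h6, h7, h8, rfl⟩ := Pool.MP_24a659_al.Cap.IterD_pos h1 h2
      obtain ⟨r, rfl⟩ : ∃ r, i = r + 1 := ⟨i - 1, by omega⟩
      refine Submodule.subset_span ⟨e', r, j, f', t, mu, IterD_to_Der h5, h7, h3, ?_, rfl⟩
      rw [← nh_eq]
      omega
    exact h2 hp
  · have h3 : f u * Y * z * a - p = q := by rw [← hpq]; abel
    rw [h3, ← mul_assoc]
    exact hq J hJ J' hJ' c hcc c' hc'

theorem GapW_span (G V : Submodule ℚ A) (j : ℕ) :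
    G * (V * G) ^ j ≤ Submodule.span ℚ {Y | Pool.MP_24a659_al.Cap.GapW (G : Set A) (V : Set A) j Y}
    := by
  induction j with
  | zero =>
    rw [pow_zero, mul_one]
    intro x hx
    exact Submodule.subset_span (Pool.MP_24a659_al.Cap.GapW.base hx)
  | succ j ih =>
    have h1 : G * (V * G) ^ (j + 1) = (G * V) * (G * (V * G) ^ j) := by
      rw [pow_succ']
      simp only [mul_assoc]
    rw [h1, Submodule.mul_le]
    intro p hp q hq
    refine Submodule.mul_induction_on hp (fun x hx J hJ => ?_) (fun x y hx hy => ?_)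
    · have h2 : Submodule.span ℚ {Y | Pool.MP_24a659_al.Cap.GapW (G : Set A) (V : Set A) j Y}
          ≤ (Submodule.span ℚ {Y | Pool.MP_24a659_al.Cap.GapW (G : Set A) (V : Set A)
            (j + 1) Y}).comap (LinearMap.mulLeft ℚ (x * J)) := by
        rw [Submodule.span_le]
        intro Y hY
        exact Submodule.subset_span (Pool.MP_24a659_al.Cap.GapW.step hx hJ hY)
      exact h2 (ih hq)
    · rw [add_mul]
      exact Submodule.add_mem _ hx hy

/-- exchange: `D_t` moves from `g` to `f''` across a product `Y` of gaps and killers -/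
theorem exchain (m l B κ K : ℕ) : ∃ L0 : ℕ, ∀ (P C D V Z : Submodule ℚ A)
    (Fl : ℕ → Submodule ℚ A), Ctx P C D V Z Fl → V ≤ Fl l →
    ∀ R : Set ((Fin m → A) → A), (∀ f ∈ R, Slot C D Fl l f) → (∀ f ∈ R, Val D Fl l f) →
    (∀ f ∈ R, RelP C D V Z Fl L0 f ∧ RelQ C D V Z Fl L0 f) →
    V ≤ Submodule.span ℚ {x | x ∈ V ∧ ∃ f ∈ R, ∃ u : Fin m → A,
      (∀ k, u k ∈ D ⊓ Fl l) ∧ x = f u} →
    ∀ S : Submodule ℚ A, S ≤ C * D → S ≤ Fl κ →
    ∀ G : Submodule ℚ A, G ≤ C ⊓ Fl B →
    ∀ f ∈ R, ∀ (e r : ℕ) (f' : (Fin m → A) → A) (t : A), Der S f e f' → t ∈ S ^ (r + 1) →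
    e + (r + 1) ≤ K → ∀ u : Fin m → A, (∀ k, u k ∈ D ⊓ Fl l) →
    ∀ g ∈ R, ∀ u' : Fin m → A, (∀ k, u' k ∈ D ⊓ Fl l) → g u' ∈ V →
    ∀ j, ∀ Y ∈ G * (V * G) ^ j, ∀ J ∈ V, ∀ c ∈ C ⊓ Fl B, ∀ c' ∈ C ⊓ Fl B, ∀ J' ∈ V,
    J * c * (Dop t f' u * Y * g u' - f' u * Y * Dop t g u') * (c' * J') ∈ Z := by
  obtain ⟨l0, hl0⟩ : ∃ x, x = l + B := ⟨_, rfl⟩
  obtain ⟨bM, hbM⟩ : ∃ x, x = m * (l0 + K * κ) + l := ⟨_, rfl⟩
  obtain ⟨l₁, hl₁⟩ : ∃ x, x = l0 + l0 + bM := ⟨_, rfl⟩
  obtain ⟨b, hb⟩ : ∃ x, x = m * (l₁ + K * κ) + l + K * κ := ⟨_, rfl⟩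
  refine ⟨l₁ + b + K * κ + K * κ, ?_⟩
  intro P C D V Z Fl hc hVl R hslot hval hrel hgen S hS hSl G hG f hfR e r f' t hf' ht heK u hu
    g hgR u' hu' hgV j Y hY J hJ c hcc c' hc' J' hJ'
  have hM : ∀ x ∈ S, (toBase hc).Mul κ x := fun x hx => toBase_Mul hc ⟨hS hx, hSl hx⟩
  have hMt : (toBase hc).Mul (K * κ) t :=
    (toBase hc).Mul_mono (Nat.mul_le_mul_right _ (by omega)) ((toBase hc).Mul_pow hM _ _ ht)
  -- properties of the functions of R
  have hWF : ∀ h ∈ R, ∀ l', (toBase hc).WF l' (m * l' + l) h := by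
    intro h hh l' v hv k
    obtain ⟨n, p, q, hp, hq, h1⟩ := hslot h hh l' v hv k
    refine ⟨n, p, q, fun i j' c hcj => ?_, fun i j' c hcj => ?_, h1⟩
    · change c * p i ∈ C ⊓ Fl (j' + (m * l' + l))
      refine ⟨hc.CDC ?_, hc.F_mul _ _ (Submodule.mul_mem_mul hcj.2 (hp i).2)⟩
      rw [mul_assoc]
      exact Submodule.mul_mem_mul hcj.1 (hp i).1
    · change q i * c ∈ C ⊓ Fl (j' + (m * l' + l))
      refine ⟨hc.CDC (Submodule.mul_mem_mul (hq i).1 hcj.1), ?_⟩
      rw [add_comm]
      exact hc.F_mul _ _ (Submodule.mul_mem_mul (hq i).2 hcj.2)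
  have hMid : ∀ h ∈ R, ∀ l', (toBase hc).Mid l' (m * l' + l) h := by
    intro h hh l' v hv j1 j2 x hx y hy
    have h1 := hval h hh l' v hv
    have h2 := (toBase hc).CDC (i := j1) (j := m * l' + l) (k := j2) hx h1 hy
    exact (toBase hc).monoC (by omega) h2
  have hRR : ∀ h ∈ R, (toBase hc).RelR (l₁ + b + K * κ + K * κ) h :=
    fun h hh => (toBase_RelR hc).2 (hrel h hh).1
  have hLL : ∀ h ∈ R, (toBase hc).RelL (l₁ + b + K * κ + K * κ) h :=
    fun h hh => (toBase_RelL hc).2 (hrel h hh).2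
  have hll : l ≤ l₁ := by omega
  have hKil : ∀ h ∈ R, ∀ v : Fin m → A, h v ∈ V →
      (toBase hc).Kil (l₁ + b + K * κ) l₁ b h v := by
    intro h hh v hhv
    exact ⟨(toBase hc).RelR_mono (by omega) (hRR h hh), (toBase hc).RelL_mono (by omega) (hLL h hh),
      (toBase hc).WF_mono le_rfl (by rw [hb]; ring_nf; omega) (hWF h hh l₁), hhv⟩
  have hIt := Der_to_IterD hf'
  have heκ : e * κ ≤ K * κ := Nat.mul_le_mul_right _ (by omega)
  have hfR' : (toBase hc).RelR (l₁ + b + K * κ) f' :=
    (toBase hc).IterD_RelR hM hIt _ ((toBase hc).RelR_mono (by omega) (hRR f hfR))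
  have hfW' : (toBase hc).WF l₁ b f' := by
    have h1 := (toBase hc).IterD_WF hM hIt l₁ (m * (l₁ + e * κ) + l) (hWF f hfR _)
    refine (toBase hc).WF_mono le_rfl ?_ h1
    have h2 : m * (e * κ) ≤ m * (K * κ) := Nat.mul_le_mul_left _ heκ
    rw [hb, mul_add, mul_add]
    omega
  have hfM' : (toBase hc).Mid l0 bM f' := by
    have h1 := (toBase hc).IterD_Mid hM hIt l0 (m * (l0 + e * κ) + l) (hMid f hfR _)
    refine (toBase hc).Mid_mono le_rfl ?_ h1
    have h2 : m * (e * κ) ≤ m * (K * κ) := Nat.mul_le_mul_left _ heκ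
    rw [hbM, mul_add, mul_add]
    omega
  have hFm : ∀ {i j' : ℕ}, i ≤ j' → Fl i ≤ Fl j' := fun h => hc.F_mono h
  -- the statement for products
  have main : ∀ Y, Pool.MP_24a659_al.Cap.GapW (G : Set A) (V : Set A) j Y →
      J * c * (Dop t f' u * Y * g u' - f' u * Y * Dop t g u') * (c' * J') ∈ Z := by
    intro Y hY
    have h1 := (toBase hc).EX_chain (l := l0) (b := b) (bM := bM) (α := K * κ) (a := t) hMt
      (G := (G : Set A)) (fun X hX => ⟨(hG hX).1, hFm (by omega) (hG hX).2⟩) (l₁ := l₁)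
      (by omega)
      (by
        intro x hx
        refine Submodule.span_mono ?_ (hgen hx)
        rintro _ ⟨h2, h, hh, v, hv, rfl⟩
        exact ⟨h, v, hKil h hh v h2, fun k => ⟨(hv k).1, hFm hll (hv k).2⟩, rfl⟩)
      (hKil g hgR u' hgV) (fun k => ⟨(hu' k).1, hFm hll (hu' k).2⟩) hfR' hfW' hfM'
      (fun k => ⟨(hu k).1, hFm (by omega) (hu k).2⟩) hY J hJ J' hJ' c
      ⟨hcc.1, hFm (by omega) hcc.2⟩ c' ⟨hc'.1, hFm (by omega) hc'.2⟩
    rw [← mul_assoc]
    exact h1
  have hY2 := GapW_span G V j hY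
  refine Submodule.span_induction (p := fun Y _ =>
    J * c * (Dop t f' u * Y * g u' - f' u * Y * Dop t g u') * (c' * J') ∈ Z) ?_ ?_ ?_ ?_ hY2
  · exact fun Y hY => main Y hY
  · simp
  · intro x y _ _ hx hy
    have := Z.add_mem hx hy
    have e1 : J * c * (Dop t f' u * (x + y) * g u' - f' u * (x + y) * Dop t g u') * (c' * J')
        = J * c * (Dop t f' u * x * g u' - f' u * x * Dop t g u') * (c' * J')
          + J * c * (Dop t f' u * y * g u' - f' u * y * Dop t g u') * (c' * J') := by
      simp only [mul_assoc, mul_sub, sub_mul, add_mul, mul_add]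
      abel
    rw [e1]
    exact this
  · intro q x _ hx
    have := Z.smul_mem q hx
    have e1 : J * c * (Dop t f' u * (q • x) * g u' - f' u * (q • x) * Dop t g u') * (c' * J')
        = q • (J * c * (Dop t f' u * x * g u' - f' u * x * Dop t g u') * (c' * J')) := by
      simp only [mul_assoc, smul_mul_assoc, mul_smul_comm, smul_sub, mul_sub, sub_mul]
    rw [e1]
    exact this

end NF
end
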