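import Pool.Agent.Lib.MP_24a659_al.Defs

/-! MP_24a659_al, job B1: coefficients, pairing, spans of monomials. -/

set_option autoImplicit false

namespace NF

theorem B1_cf_apply (m : Mon) (X : F) : cf m X = X.coeff m := rfl

theorem B1_single (m : Mon) (r : ℚ) : (MonoidAlgebra.single m r : F) = r • mono m := by
  rw [MonoidAlgebra.smul_single, smul_eq_mul, mul_one]

theorem mono_one : mono 1 = (1 : F) := rfl

theorem mono_mul (m m' : Mon) : mono m * mono m' = mono (m * m') := by
  rw [MonoidAlgebra.single_mul_single, mul_one]

theorem cf_mono_self (m : Mon) : cf m (mono m) = 1 := by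
  rw [B1_cf_apply, MonoidAlgebra.coeff_single, Finsupp.single_eq_same]

theorem cf_mono_ne {m m' : Mon} (h : m' ≠ m) : cf m (mono m') = 0 := by
  rw [B1_cf_apply, MonoidAlgebra.coeff_single, Finsupp.single_eq_of_ne h.symm]

theorem cf_one_ne {m : Mon} (h : m ≠ 1) : cf m (1 : F) = 0 := by
  rw [← mono_one]
  exact cf_mono_ne h.symm

theorem cf_ext (X Z : F) (h : ∀ m, cf m X = cf m Z) : X = Z :=
  MonoidAlgebra.coeff_injective (Finsupp.ext h)

theorem cf_mul (m : Mon) (Z Z' : F) : cf m (Z * Z') =
    ∑ i ∈ Finset.range (m.toList.length + 1),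
      cf (ofL (m.toList.take i)) Z * cf (ofL (m.toList.drop i)) Z' := by
  classical
  have key := MonoidAlgebra.coeff_mul_antidiag Z Z' m
    ((Finset.range (m.toList.length + 1)).image
      (fun i => (ofL (m.toList.take i), ofL (m.toList.drop i)))) ?_
  · rw [B1_cf_apply, key, Finset.sum_image]
    · rfl
    · intro i hi j hj hij
      have h1 : ofL (m.toList.take i) = ofL (m.toList.take j) := congrArg Prod.fst hij
      have h2 : m.toList.take i = m.toList.take j := FreeMonoid.ofList.injective h1
      have h3 := congrArg List.length h2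
      rw [List.length_take, List.length_take] at h3
      rw [Finset.coe_range, Set.mem_Iio] at hi hj
      omega
  · intro p
    rw [Finset.mem_image]
    constructor
    · rintro ⟨i, _, rfl⟩
      change ofL (m.toList.take i) * ofL (m.toList.drop i) = m
      unfold ofL
      rw [← FreeMonoid.ofList_append, List.take_append_drop, FreeMonoid.ofList_toList]
    · intro h
      refine ⟨p.1.toList.length, ?_, ?_⟩
      · rw [Finset.mem_range, ← h, FreeMonoid.toList_mul, List.length_append]
        omega
      · rw [← h, FreeMonoid.toList_mul, List.take_left', List.drop_left']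
        · rfl
        · rfl
        · rfl

theorem eps_one : eps (1 : F) = 1 := cf_mono_self 1

theorem eps_mul (X Z : F) : eps (X * Z) = eps X * eps Z := by
  unfold eps
  rw [cf_mul]
  have h : (1 : Mon).toList = [] := rfl
  rw [h]
  simp only [List.length_nil, zero_add, Finset.range_one, Finset.sum_singleton, List.take_nil,
    List.drop_nil]
  rfl

theorem lext_mono {M : Type} [AddCommGroup M] [Module ℚ M] (g : Mon → M) (m : Mon) :
    lext g (mono m) = g m := by
  change Finsupp.linearCombination ℚ g (mono m).coeff = g m
  rw [MonoidAlgebra.coeff_single, Finsupp.linearCombination_single, one_smul]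

theorem lin_ext {M : Type} [AddCommGroup M] [Module ℚ M] (f g : F →ₗ[ℚ] M)
    (h : ∀ m, f (mono m) = g (mono m)) : f = g := by
  refine LinearMap.ext fun X => ?_
  induction X using MonoidAlgebra.induction_linear with
  | zero => rw [map_zero, map_zero]
  | add x y hx hy => rw [map_add, map_add, hx, hy]
  | single m r => rw [B1_single, map_smul, map_smul, h]

/-- every element is in the span of the monomials -/
theorem mem_span_mono (X : F) : X ∈ Submodule.span ℚ (Set.range mono) := by
  induction X using MonoidAlgebra.induction_linear with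
  | zero => exact Submodule.zero_mem _
  | add x y hx hy => exact Submodule.add_mem _ hx hy
  | single m r =>
    rw [B1_single]
    exact Submodule.smul_mem _ _ (Submodule.subset_span ⟨m, rfl⟩)

theorem pair_mono (Z : F) (m : Mon) : pair Z (mono m) = cf m Z := lext_mono _ m

theorem pair_add (Z Z' : F) : pair (Z + Z') = pair Z + pair Z' := by
  refine lin_ext _ _ fun m => ?_
  rw [LinearMap.add_apply, pair_mono, pair_mono, pair_mono, map_add]

theorem pair_smul (c : ℚ) (Z : F) : pair (c • Z) = c • pair Z := by
  refine lin_ext _ _ fun m => ?_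
  rw [LinearMap.smul_apply, pair_mono, pair_mono, map_smul]

theorem pair_zero : pair (0 : F) = 0 := by
  refine lin_ext _ _ fun m => ?_
  rw [LinearMap.zero_apply, pair_mono, map_zero]

theorem B1_pair_mono_left (m : Mon) : pair (mono m) = cf m := by
  refine lin_ext _ _ fun m' => ?_
  rw [pair_mono]
  by_cases h : m = m'
  · rw [h]
  · rw [cf_mono_ne h, cf_mono_ne (Ne.symm h)]

theorem pair_symm (Z X : F) : pair Z X = pair X Z := by
  induction X using MonoidAlgebra.induction_linear with
  | zero => rw [map_zero, pair_zero, LinearMap.zero_apply]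
  | add x y hx hy => rw [map_add, pair_add, LinearMap.add_apply, hx, hy]
  | single m r =>
    rw [B1_single, map_smul, pair_smul, LinearMap.smul_apply, pair_mono, B1_pair_mono_left]

theorem pair_one (X : F) : pair (1 : F) X = eps X := by
  rw [← mono_one, B1_pair_mono_left]
  rfl

theorem mono_mem_sub {S : Set Mon} {m : Mon} (h : m ∈ S) : mono m ∈ sub S :=
  Submodule.subset_span ⟨m, h, rfl⟩

theorem mem_sub_iff (S : Set Mon) (X : F) : X ∈ sub S ↔ ∀ m, cf m X ≠ 0 → m ∈ S := by
  constructor
  · intro hX
    refine Submodule.span_induction (p := fun X _ => ∀ m, cf m X ≠ 0 → m ∈ S) ?_ ?_ ?_ ?_ hX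
    · rintro _ ⟨m', hm', rfl⟩ m hm
      by_cases h : m' = m
      · rw [← h]
        exact hm'
      · exact absurd (cf_mono_ne h) hm
    · intro m hm
      exact absurd (map_zero _) hm
    · intro x y _ _ hx hy m hm
      by_cases h : cf m x = 0
      · refine hy m fun h' => hm ?_
        rw [map_add, h, h', add_zero]
      · exact hx m h
    · intro c x _ hx m hm
      refine hx m fun h => hm ?_
      rw [map_smul, h, smul_zero]
  · intro h
    have hX : X = ∑ m ∈ X.coeff.support, cf m X • mono m := by
      refine cf_ext _ _ fun m => ?_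
      classical
      rw [map_sum]
      simp only [map_smul, smul_eq_mul]
      by_cases hm : m ∈ X.coeff.support
      · rw [Finset.sum_eq_single m, cf_mono_self, mul_one]
        · intro b _ hb
          rw [cf_mono_ne hb, mul_zero]
        · intro h'
          exact absurd hm h'
      · rw [Finset.sum_eq_zero]
        · exact Finsupp.notMem_support_iff.1 hm
        · intro b hb
          rw [cf_mono_ne (fun e => hm (by rw [← e]; exact hb)), mul_zero]
    rw [hX]
    refine Submodule.sum_mem _ fun m hm => Submodule.smul_mem _ _ (mono_mem_sub (h m ?_))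
    exact Finsupp.mem_support_iff.1 hm

theorem sub_mono {S T : Set Mon} (h : S ⊆ T) : sub S ≤ sub T :=
  Submodule.span_mono (Set.image_mono h)

theorem sub_mul_sub {S T R : Set Mon} (h : ∀ m ∈ S, ∀ m' ∈ T, m * m' ∈ R) :
    sub S * sub T ≤ sub R := by
  unfold sub
  rw [Submodule.span_mul_span, Submodule.span_le]
  rintro _ ⟨_, ⟨m, hm, rfl⟩, _, ⟨m', hm', rfl⟩, rfl⟩
  change mono m * mono m' ∈ _
  rw [mono_mul]
  exact Submodule.subset_span ⟨_, h m hm m' hm', rfl⟩

/-! lengths -/

theorem Fk_mono {i j : ℕ} (h : i ≤ j) : Fk i ≤ Fk j :=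
  sub_mono fun _ hm => le_trans hm h

theorem one_mem_Fk (k : ℕ) : (1 : F) ∈ Fk k := by
  rw [← mono_one]
  exact mono_mem_sub (Nat.zero_le k)

theorem Fk_mul (i j : ℕ) : Fk i * Fk j ≤ Fk (i + j) := by
  refine sub_mul_sub fun m hm m' hm' => ?_
  rw [Set.mem_ofPred_eq] at hm hm' ⊢
  rw [FreeMonoid.toList_mul, List.length_append]
  exact add_le_add hm hm'

/-- every element has a length -/
theorem exists_Fk (X : F) : ∃ k, X ∈ Fk k := by
  refine ⟨X.coeff.support.sup fun m => m.toList.length, ?_⟩
  unfold Fk
  rw [mem_sub_iff]
  intro m hm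
  exact Finset.le_sup (f := fun m : Mon => m.toList.length) (Finsupp.mem_support_iff.2 hm)

end NF
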