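import Pool.Agent.Lib.MP_24a659_al.B1

section

/-! MP_24a659_al, job B3: the elements `E g`. -/

set_option autoImplicit false

namespace NF

/-- the expansion of `E g` into nine monomials -/
theorem B3_expand (g : ℤ × ℤ) : E g =
    mono (ofL []) + (g.1 : ℚ) • mono (ofL [false]) + ch2 g.1 • mono (ofL [false, false])
    + (g.2 : ℚ) • mono (ofL [true]) + ((g.1 : ℚ) * g.2) • mono (ofL [false, true])
    + (ch2 g.1 * g.2) • mono (ofL [false, false, true])
    + ch2 g.2 • mono (ofL [true, true]) + ((g.1 : ℚ) * ch2 g.2) • mono (ofL [false, true, true])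
    + (ch2 g.1 * ch2 g.2) • mono (ofL [false, false, true, true]) := by
  have h1 : (1 : F) = mono (ofL []) := mono_one.symm
  have hX : X = mono (ofL [false]) := rfl
  have hY : Y = mono (ofL [true]) := rfl
  have hXX : X * X = mono (ofL [false, false]) := by rw [hX, mono_mul]; rfl
  have hYY : Y * Y = mono (ofL [true, true]) := by rw [hY, mono_mul]; rfl
  have e1 : mono (ofL []) * mono (ofL []) = mono (ofL []) := by rw [mono_mul]; rfl
  have e2 : mono (ofL []) * mono (ofL [true]) = mono (ofL [true]) := by rw [mono_mul]; rfl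
  have e3 : mono (ofL []) * mono (ofL [true, true]) = mono (ofL [true, true]) := by
    rw [mono_mul]; rfl
  have e4 : mono (ofL [false]) * mono (ofL []) = mono (ofL [false]) := by rw [mono_mul]; rfl
  have e5 : mono (ofL [false]) * mono (ofL [true]) = mono (ofL [false, true]) := by
    rw [mono_mul]; rfl
  have e6 : mono (ofL [false]) * mono (ofL [true, true]) = mono (ofL [false, true, true]) := by
    rw [mono_mul]; rfl
  have e7 : mono (ofL [false, false]) * mono (ofL []) = mono (ofL [false, false]) := by
    rw [mono_mul]; rfl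
  have e8 : mono (ofL [false, false]) * mono (ofL [true]) = mono (ofL [false, false, true]) := by
    rw [mono_mul]; rfl
  have e9 : mono (ofL [false, false]) * mono (ofL [true, true]) =
      mono (ofL [false, false, true, true]) := by
    rw [mono_mul]; rfl
  unfold E
  rw [hXX, hYY, hX, hY, h1]
  simp only [add_mul, mul_add, smul_mul_assoc, mul_smul_comm, e1, e2, e3, e4, e5, e6, e7, e8, e9,
    smul_smul, smul_add]
  rw [mul_comm (g.2 : ℚ) (g.1 : ℚ), mul_comm (g.2 : ℚ) (ch2 g.1), mul_comm (ch2 g.2) (g.1 : ℚ),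
    mul_comm (ch2 g.2) (ch2 g.1)]
  abel

theorem B3_cf (m m' : List Bool) : cf (ofL m) (mono (ofL m')) = if m' = m then 1 else 0 := by
  split_ifs with h
  · subst h
    exact cf_mono_self _
  · refine cf_mono_ne (fun h' => h ?_)
    exact FreeMonoid.ofList.injective h'

/-- the monomials of `E g` are `x^i y^j`, `i, j ≤ 2` -/
theorem cf_E (g : ℤ × ℤ) (m : Mon) (h : cf m (E g) ≠ 0) :
    ∃ i j, i ≤ 2 ∧ j ≤ 2 ∧ m = ofL (List.replicate i false ++ List.replicate j true) := by
  by_contra hc
  push Not at hc
  apply h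
  have key : ∀ i j, i ≤ 2 → j ≤ 2 →
      cf m (mono (ofL (List.replicate i false ++ List.replicate j true))) = 0 := by
    intro i j hi hj
    exact cf_mono_ne (fun h' => hc i j hi hj h'.symm)
  have k1 : cf m (mono (ofL [])) = 0 := key 0 0 (by norm_num) (by norm_num)
  have k2 : cf m (mono (ofL [false])) = 0 := key 1 0 (by norm_num) (by norm_num)
  have k3 : cf m (mono (ofL [false, false])) = 0 := key 2 0 (by norm_num) (by norm_num)
  have k4 : cf m (mono (ofL [true])) = 0 := key 0 1 (by norm_num) (by norm_num)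
  have k5 : cf m (mono (ofL [false, true])) = 0 := key 1 1 (by norm_num) (by norm_num)
  have k6 : cf m (mono (ofL [false, false, true])) = 0 := key 2 1 (by norm_num) (by norm_num)
  have k7 : cf m (mono (ofL [true, true])) = 0 := key 0 2 (by norm_num) (by norm_num)
  have k8 : cf m (mono (ofL [false, true, true])) = 0 := key 1 2 (by norm_num) (by norm_num)
  have k9 : cf m (mono (ofL [false, false, true, true])) = 0 :=
    key 2 2 (by norm_num) (by norm_num)
  rw [B3_expand]
  simp only [map_add, map_smul, k1, k2, k3, k4, k5, k6, k7, k8, k9, smul_zero, add_zero]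

theorem eps_E (g : ℤ × ℤ) : eps (E g) = 1 := by
  have h : eps = cf (ofL []) := rfl
  rw [h, B3_expand]
  simp only [map_add, map_smul, B3_cf]
  simp

/-- coefficients of the four blocks -/
theorem cf_E_xy (g : ℤ × ℤ) : cf (ofL [false, true]) (E g) = (g.1 : ℚ) * g.2 := by
  rw [B3_expand]
  simp only [map_add, map_smul, B3_cf]
  simp

theorem cf_E_xxy (g : ℤ × ℤ) : cf (ofL [false, false, true]) (E g) = ch2 g.1 * g.2 := by
  rw [B3_expand]
  simp only [map_add, map_smul, B3_cf]
  simp

theorem cf_E_xyy (g : ℤ × ℤ) : cf (ofL [false, true, true]) (E g) = (g.1 : ℚ) * ch2 g.2 := by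
  rw [B3_expand]
  simp only [map_add, map_smul, B3_cf]
  simp

theorem cf_E_xxyy (g : ℤ × ℤ) : cf (ofL [false, false, true, true]) (E g) =
    ch2 g.1 * ch2 g.2 := by
  rw [B3_expand]
  simp only [map_add, map_smul, B3_cf]
  simp

end NF
end

section

/-! MP_24a659_al, job B2P: the spaces `EY`, `SX`, `P1`. -/

set_option autoImplicit false

namespace NF

theorem one_mem_P1 : (1 : F) ∈ P1 := by
  rw [← mono_one]
  exact mono_mem_sub (Submonoid.one_mem _)

theorem P1_mul : P1 * P1 ≤ P1 :=
  sub_mul_sub fun _ hm _ hm' => Submonoid.mul_mem _ hm hm'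

theorem mul_mem_P1 {X Z : F} (hX : X ∈ P1) (hZ : Z ∈ P1) : X * Z ∈ P1 :=
  P1_mul (Submodule.mul_mem_mul hX hZ)

theorem B2P_end {m : Mon} (hm : m ∈ Submonoid.closure blocks) :
    m = 1 ∨ ∃ m', m = m' * FreeMonoid.of true := by
  induction hm using Submonoid.closure_induction with
  | mem x hx =>
    right
    rcases hx with h | h | h | h
    · exact ⟨ofL [false], h⟩
    · exact ⟨ofL [false, false], h⟩
    · exact ⟨ofL [false, true], h⟩
    · exact ⟨ofL [false, false, true], h⟩
  | one => exact Or.inl rfl
  | mul x y _ _ h1 h2 =>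
    rcases h2 with h | ⟨m', h⟩
    · rw [h, mul_one]; exact h1
    · right
      exact ⟨x * m', by rw [h, mul_assoc]⟩

theorem B2P_start {m : Mon} (hm : m ∈ Submonoid.closure blocks) :
    m = 1 ∨ ∃ m', m = FreeMonoid.of false * m' := by
  induction hm using Submonoid.closure_induction with
  | mem x hx =>
    right
    rcases hx with h | h | h | h
    · exact ⟨ofL [true], h⟩
    · exact ⟨ofL [false, true], h⟩
    · exact ⟨ofL [true, true], h⟩
    · exact ⟨ofL [false, true, true], h⟩
  | one => exact Or.inl rfl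
  | mul x y _ _ h1 h2 =>
    rcases h1 with h | ⟨m', h⟩
    · rw [h, one_mul]; exact h2
    · right
      exact ⟨m' * y, by rw [h, mul_assoc]⟩

theorem P1_le_EY : P1 ≤ EY := sub_mono fun _ hm => B2P_end hm

theorem P1_le_SX : P1 ≤ SX := sub_mono fun _ hm => B2P_start hm

theorem one_mem_EY : (1 : F) ∈ EY := P1_le_EY one_mem_P1

theorem one_mem_SX : (1 : F) ∈ SX := P1_le_SX one_mem_P1

/-- `EY * P1 ≤ EY` -/
theorem EY_mul {X Z : F} (hX : X ∈ EY) (hZ : Z ∈ P1) : X * Z ∈ EY := by
  have h : EY * P1 ≤ EY := by
    refine sub_mul_sub ?_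
    intro m hm m' hm'
    rcases B2P_end hm' with h | ⟨m'', h⟩
    · rw [h, mul_one]; exact hm
    · right
      exact ⟨m * m'', by rw [h, mul_assoc]⟩
  exact h (Submodule.mul_mem_mul hX hZ)

/-- `P1 * SX ≤ SX` -/
theorem SX_mul {X Z : F} (hX : X ∈ P1) (hZ : Z ∈ SX) : X * Z ∈ SX := by
  have h : P1 * SX ≤ SX := by
    refine sub_mul_sub ?_
    intro m hm m' hm'
    rcases B2P_start hm with h | ⟨m'', h⟩
    · rw [h, one_mul]; exact hm'
    · right
      exact ⟨m'' * m', by rw [h, mul_assoc]⟩
  exact h (Submodule.mul_mem_mul hX hZ)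

/-- no three consecutive letters `c` -/
def B2P_no (c : Bool) (l : List Bool) : Prop :=
  ∀ i, ¬ (l[i]? = some c ∧ l[i + 1]? = some c ∧ l[i + 2]? = some c)

theorem B2P_no_block (c : Bool) {m : Mon} (hm : m ∈ blocks) : B2P_no c m.toList := by
  rcases hm with h | h | h | h <;> subst h
  all_goals
    intro i
    rcases i with _ | _ | _ | _ | i
    all_goals
      cases c <;> simp [ofL]

theorem B2P_no_mul (c : Bool) {x y : Mon} (hx : x ∈ Submonoid.closure blocks)
    (hy : y ∈ Submonoid.closure blocks) (h1 : B2P_no c x.toList) (h2 : B2P_no c y.toList) :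
    B2P_no c (x * y).toList := by
  intro i
  rw [FreeMonoid.toList_mul]
  rintro ⟨a0, a1, a2⟩
  rcases B2P_end hx with hx1 | ⟨x', hx1⟩
  · subst hx1
    simp only [FreeMonoid.toList_one, List.nil_append] at a0 a1 a2
    exact h2 i ⟨a0, a1, a2⟩
  rcases B2P_start hy with hy1 | ⟨y', hy1⟩
  · subst hy1
    simp only [FreeMonoid.toList_one, List.append_nil] at a0 a1 a2
    exact h1 i ⟨a0, a1, a2⟩
  have hlast : x.toList[x.toList.length - 1]? = some true := by
    rw [hx1, FreeMonoid.toList_mul, FreeMonoid.toList_of]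
    simp
  have hfirst : y.toList[0]? = some false := by
    rw [hy1, FreeMonoid.toList_mul, FreeMonoid.toList_of]
    simp
  have hlen : 1 ≤ x.toList.length := by
    rw [hx1, FreeMonoid.toList_mul, FreeMonoid.toList_of]
    simp
  rcases Nat.lt_or_ge (i + 2) x.toList.length with hi | hi
  · rw [List.getElem?_append_left (by omega)] at a0 a1 a2
    exact h1 i ⟨a0, a1, a2⟩
  rcases Nat.lt_or_ge i x.toList.length with hi' | hi'
  · rw [List.getElem?_append_left (by omega)] at a0
    rcases Nat.lt_or_ge (i + 1) x.toList.length with hi'' | hi''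
    · -- `x.length = i + 2`
      rw [List.getElem?_append_left (by omega)] at a1
      rw [List.getElem?_append_right (by omega)] at a2
      have e1 : x.toList.length - 1 = i + 1 := by omega
      have e2 : i + 2 - x.toList.length = 0 := by omega
      rw [e1, a1] at hlast
      rw [e2, hfirst] at a2
      cases c
      · simp at hlast
      · simp at a2
    · rw [List.getElem?_append_right (by omega)] at a1
      have e1 : x.toList.length - 1 = i := by omega
      have e2 : i + 1 - x.toList.length = 0 := by omega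
      rw [e1, a0] at hlast
      rw [e2, hfirst] at a1
      cases c
      · simp at hlast
      · simp at a1
  · rw [List.getElem?_append_right (by omega)] at a0 a1 a2
    have e1 : i + 1 - x.toList.length = i - x.toList.length + 1 := by omega
    have e2 : i + 2 - x.toList.length = i - x.toList.length + 2 := by omega
    rw [e1] at a1
    rw [e2] at a2
    exact h2 _ ⟨a0, a1, a2⟩

theorem B2P_no_closure (c : Bool) {m : Mon} (hm : m ∈ Submonoid.closure blocks) :
    B2P_no c m.toList := by
  induction hm using Submonoid.closure_induction with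
  | mem x hx => exact B2P_no_block c hx
  | one => intro i; simp
  | mul x y hx hy h1 h2 => exact B2P_no_mul c hx hy h1 h2

theorem B2P_no_factor (c : Bool) {Z : F} (hZ : Z ∈ P1) (u v : Mon) :
    cf (u * ofL [c, c, c] * v) Z = 0 := by
  by_contra h
  have h1 : u * ofL [c, c, c] * v ∈ (Submonoid.closure blocks : Set Mon) :=
    (mem_sub_iff _ Z).mp hZ _ h
  refine B2P_no_closure c h1 u.toList.length ?_
  have h2 : (u * ofL [c, c, c] * v).toList = u.toList ++ ([c, c, c] ++ v.toList) := by
    rw [FreeMonoid.toList_mul, FreeMonoid.toList_mul, List.append_assoc]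
    rfl
  rw [h2]
  refine ⟨?_, ?_, ?_⟩
  · rw [List.getElem?_append_right (by omega)]
    simp
  · rw [List.getElem?_append_right (by omega)]
    simp
  · rw [List.getElem?_append_right (by omega)]
    simp

/-- the elements of `P1` have no factor `xxx` -/
theorem P1_no_xxx {Z : F} (hZ : Z ∈ P1) (u v : Mon) :
    cf (u * ofL [false, false, false] * v) Z = 0 := B2P_no_factor false hZ u v

/-- the elements of `P1` have no factor `yyy` -/
theorem P1_no_yyy {Z : F} (hZ : Z ∈ P1) (u v : Mon) :
    cf (u * ofL [true, true, true] * v) Z = 0 := B2P_no_factor true hZ u v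

end NF
end
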