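import Pool.Agent.Lib.MP_24a659_al.B2P

section

/-! MP_24a659_al, job B4: the words `W s p q` and the entries, simple properties. -/

set_option autoImplicit false

namespace NF

theorem B4_Wn_zero (s : Sq) (p : ℕ) : Wn s p 0 = 1 := rfl

theorem B4_Wn_succ (s : Sq) (p k : ℕ) : Wn s p (k + 1) = Wn s p k * E (s (p + k)) := rfl

theorem B4_Wn_add (s : Sq) (p k l : ℕ) : Wn s p (k + l) = Wn s p k * Wn s (p + k) l := by
  induction l with
  | zero => rw [Nat.add_zero, B4_Wn_zero, mul_one]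
  | succ l ih => rw [← Nat.add_assoc, B4_Wn_succ, B4_Wn_succ, ih, mul_assoc, Nat.add_assoc]

theorem B4_Wn_congr (s s' : Sq) (p p' k : ℕ) (h : ∀ j, j < k → s (p + j) = s' (p' + j)) :
    Wn s p k = Wn s' p' k := by
  induction k with
  | zero => rfl
  | succ k ih =>
    rw [B4_Wn_succ, B4_Wn_succ, ih (fun j hj => h j (Nat.lt_succ_of_lt hj)),
      h k (Nat.lt_succ_self k)]

theorem B4_eps_Wn (s : Sq) (p k : ℕ) : eps (Wn s p k) = 1 := by
  induction k with
  | zero => exact eps_one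
  | succ k ih => rw [B4_Wn_succ, eps_mul, ih, eps_E, mul_one]

theorem W_self (s : Sq) (p : ℕ) : W s p p = 1 := by
  unfold W
  rw [Nat.sub_self]
  rfl

theorem W_succ (s : Sq) {p q : ℕ} (h : p ≤ q) : W s p (q + 1) = W s p q * E (s q) := by
  unfold W
  rw [Nat.sub_add_comm h, B4_Wn_succ, Nat.add_sub_cancel' h]

theorem W_one (s : Sq) (p : ℕ) : W s p (p + 1) = E (s p) := by
  rw [W_succ s (le_refl p), W_self, one_mul]

theorem W_mul (s : Sq) {p q r : ℕ} (h : p ≤ q) (h' : q ≤ r) : W s p q * W s q r = W s p r := by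
  unfold W
  have h1 : r - p = (q - p) + (r - q) := by omega
  have h2 : p + (q - p) = q := by omega
  rw [h1, B4_Wn_add, h2]

theorem W_left (s : Sq) {p q : ℕ} (h : p < q) : W s p q = E (s p) * W s (p + 1) q := by
  rw [← W_one, W_mul s (Nat.le_succ p) h]

theorem W_shift (s : Sq) (c p q : ℕ) : W (fun i => s (c + i)) p q = W s (c + p) (c + q) := by
  unfold W
  have h1 : c + q - (c + p) = q - p := by omega
  rw [h1]
  refine B4_Wn_congr _ _ _ _ _ fun j _ => ?_
  rw [Nat.add_assoc]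

/-- `W s p q` depends only on the pairs between `p` and `q` -/
theorem W_congr (s s' : Sq) (p p' k : ℕ) (h : ∀ j, j < k → s (p + j) = s' (p' + j)) :
    W s p (p + k) = W s' p' (p' + k) := by
  unfold W
  rw [Nat.add_sub_cancel_left, Nat.add_sub_cancel_left]
  exact B4_Wn_congr _ _ _ _ _ h

theorem eps_W (s : Sq) (p q : ℕ) : eps (W s p q) = 1 := B4_eps_Wn s p (q - p)

theorem ent_of_lt (s : Sq) {p q : ℕ} (h : q < p) (X : F) : ent s p q X = 0 := by
  unfold ent
  rw [if_pos h]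
  rfl

theorem ent_self (s : Sq) (p : ℕ) (X : F) : ent s p p X = eps X := by
  unfold ent
  rw [if_neg (lt_irrefl p), if_pos rfl]

theorem ent_succ (s : Sq) {p q : ℕ} (h : p ≤ q) (X : F) :
    ent s p (q + 1) X = pair (W s p (q + 1)) X - pair (W s p q) X := by
  unfold ent
  have h1 : ¬ (q + 1 < p) := by omega
  have h2 : ¬ (q + 1 = p) := by omega
  rw [if_neg h1, if_neg h2, Nat.add_sub_cancel]
  rfl

theorem ent_step (s : Sq) (p : ℕ) (X : F) : ent s p (p + 1) X = pair (E (s p)) X - eps X := by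
  rw [ent_succ s (le_refl p), W_one, W_self, pair_one]

theorem ent_one (s : Sq) (p q : ℕ) : ent s p q (1 : F) = if p = q then 1 else 0 := by
  rcases lt_trichotomy q p with h | h | h
  · rw [ent_of_lt s h, if_neg (by omega)]
  · subst h
    rw [ent_self, if_pos rfl, eps_one]
  · obtain ⟨r, rfl⟩ : ∃ r, q = r + 1 := ⟨q - 1, by omega⟩
    rw [ent_succ s (by omega), pair_symm, pair_one, pair_symm, pair_one, eps_W, eps_W, sub_self,
      if_neg (by omega)]

theorem ent_shift (s : Sq) (c p q : ℕ) (X : F) :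
    ent (fun i => s (c + i)) p q X = ent s (c + p) (c + q) X := by
  rcases lt_trichotomy q p with h | h | h
  · rw [ent_of_lt _ h, ent_of_lt _ (by omega)]
  · subst h
    rw [ent_self, ent_self]
  · obtain ⟨r, rfl⟩ : ∃ r, q = r + 1 := ⟨q - 1, by omega⟩
    rw [ent_succ _ (by omega), ← Nat.add_assoc, ent_succ _ (by omega), W_shift, W_shift,
      Nat.add_assoc]

/-- the pairing is the sum of the entries -/
theorem pair_W (s : Sq) {p q : ℕ} (h : p ≤ q) (X : F) :
    pair (W s p q) X = ∑ r ∈ Finset.Icc p q, ent s p r X := by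
  induction q, h using Nat.le_induction with
  | base => rw [W_self, pair_one, Finset.Icc_self, Finset.sum_singleton, ent_self]
  | succ q hq ih =>
    rw [Finset.sum_Icc_succ_top (by omega), ← ih, ent_succ s hq]
    ring

end NF
end

section

/-! MP_24a659_al, job G1: the gap spaces. -/

set_option autoImplicit false

namespace NF

theorem G1_mul_mono {A A' B B' : Submodule ℚ F} (h : A ≤ A') (h' : B ≤ B') :
    A * B ≤ A' * B' :=
  Submodule.mul_le.2 fun _ ha _ hb => Submodule.mul_mem_mul (h ha) (h' hb)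

theorem G1_tri {S T R : ℕ → Submodule ℚ F} {Q : Submodule ℚ F}
    (h : ∀ i j k, S i * T j * R k ≤ Q) : (⨆ i, S i) * (⨆ j, T j) * (⨆ k, R k) ≤ Q := by
  rw [Submodule.mul_iSup]
  refine iSup_le fun k => ?_
  rw [Submodule.mul_iSup, Submodule.iSup_mul]
  refine iSup_le fun j => ?_
  rw [Submodule.iSup_mul, Submodule.iSup_mul]
  exact iSup_le fun i => h i j k

theorem G1_pow_mono {A B : Submodule ℚ F} (h : A ≤ B) (j : ℕ) : A ^ j ≤ B ^ j := by
  induction j with
  | zero => rw [pow_zero, pow_zero]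
  | succ j ih => rw [pow_succ, pow_succ]; exact G1_mul_mono ih h

theorem Gp_mono {C C' V V' : Submodule ℚ F} (h : C ≤ C') (h' : V ≤ V') (j : ℕ) :
    Gp C V j ≤ Gp C' V' j :=
  G1_mul_mono h (G1_pow_mono (G1_mul_mono h' h) j)

theorem Gp_zero (C V : Submodule ℚ F) : Gp C V 0 = C := by
  unfold Gp
  rw [pow_zero, mul_one]

theorem Gp_succ (C V : Submodule ℚ F) (j : ℕ) : Gp C V (j + 1) = Gp C V j * (V * C) := by
  unfold Gp
  rw [pow_succ, mul_assoc]

theorem Gp_succ' (C V : Submodule ℚ F) (j : ℕ) : Gp C V (j + 1) = C * V * Gp C V j := by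
  unfold Gp
  rw [pow_succ']
  simp only [mul_assoc]

theorem Gp_mul (C V : Submodule ℚ F) (i j : ℕ) : Gp C V i * V * Gp C V j = Gp C V (i + j + 1) := by
  have h : i + j + 1 = i + (1 + j) := by omega
  rw [h]
  unfold Gp
  rw [pow_add, pow_add, pow_one]
  simp only [mul_assoc]

theorem Gp_alt (C V : Submodule ℚ F) (j : ℕ) : Gp C V j = (C * V) ^ j * C := by
  induction j with
  | zero => rw [Gp_zero, pow_zero, one_mul]
  | succ j ih =>
    rw [Gp_succ', ih, pow_succ']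
    simp only [mul_assoc]

theorem Gp_two (C V : Submodule ℚ F) (i j : ℕ) :
    (C * V) ^ i * C * (V * C) ^ j = Gp C V (i + j) := by
  rw [← Gp_alt]
  unfold Gp
  rw [pow_add, mul_assoc]

theorem Gp_le_Gap {C V : Submodule ℚ F} {b B : ℕ} (h : b ≤ B) (j : ℕ) :
    Gp (C ⊓ Fk b) V j ≤ Gap C V B :=
  (Gp_mono (inf_le_inf_left _ (Fk_mono h)) le_rfl j).trans
    (le_iSup (fun j => Gp (C ⊓ Fk B) V j) j)

theorem CB_le_Gap (C V : Submodule ℚ F) (B : ℕ) : C ⊓ Fk B ≤ Gap C V B := by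
  have h := Gp_le_Gap (C := C) (V := V) (le_refl B) 0
  rwa [Gp_zero] at h

theorem V_le_Gap0 (C V : Submodule ℚ F) (B : ℕ) : V ≤ Gap0 C V B := by
  have h := le_iSup (fun j : ℕ => V * ((C ⊓ Fk B) * V) ^ j) 0
  simp only [pow_zero, mul_one] at h
  exact h

theorem Gap_induction {C V : Submodule ℚ F} {B : ℕ} {T : Submodule ℚ F}
    (h : ∀ j, Gp (C ⊓ Fk B) V j ≤ T) : Gap C V B ≤ T :=
  iSup_le h

theorem Gap_le_P1 {C V : Submodule ℚ F} (hC : C ≤ P1) (hV : V ≤ P1) (B : ℕ) :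
    Gap C V B ≤ P1 := by
  refine Gap_induction fun j => ?_
  have hC' : C ⊓ Fk B ≤ P1 := inf_le_left.trans hC
  induction j with
  | zero => rw [Gp_zero]; exact hC'
  | succ j ih =>
    rw [Gp_succ]
    exact (G1_mul_mono ih ((G1_mul_mono hV hC').trans P1_mul)).trans P1_mul

theorem G1_one_mem {C : Submodule ℚ F} (hC : (1 : F) ∈ C) (B : ℕ) : (1 : F) ∈ C ⊓ Fk B :=
  ⟨hC, one_mem_Fk B⟩

theorem one_mem_Gap {C V : Submodule ℚ F} (hC : (1 : F) ∈ C) (B : ℕ) : (1 : F) ∈ Gap C V B :=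
  CB_le_Gap C V B (G1_one_mem hC B)

theorem G1_one_le {C : Submodule ℚ F} (hC : (1 : F) ∈ C) : (1 : Submodule ℚ F) ≤ C := by
  rw [Submodule.one_le]
  exact hC

/-- the elements of `Gap0` as products -/
theorem G1_shift (C V : Submodule ℚ F) (j : ℕ) : V * (C * V) ^ j = (V * C) ^ j * V := by
  induction j with
  | zero => rw [pow_zero, pow_zero, mul_one, one_mul]
  | succ j ih =>
    rw [pow_succ, ← mul_assoc, ih, pow_succ]
    simp only [mul_assoc]

theorem base_gap {C V : Submodule ℚ F} (h1 : (1 : F) ∈ C) (hC : C ≤ P1) (hV : V ≤ P1) (B : ℕ) :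
    Base (Gap C V B) (Gap0 C V B) := by
  have hG : ∀ j, Gp (C ⊓ Fk B) V j ≤ Gap C V B := fun j => Gp_le_Gap (le_refl B) j
  have hG0 : ∀ j : ℕ, V * ((C ⊓ Fk B) * V) ^ j ≤ Gap0 C V B :=
    fun j => le_iSup (fun j : ℕ => V * ((C ⊓ Fk B) * V) ^ j) j
  have hone : (1 : Submodule ℚ F) ≤ C ⊓ Fk B := G1_one_le (G1_one_mem h1 B)
  refine ⟨one_mem_Gap h1 B, ?_, ?_, ?_, Gap_le_P1 hC hV B⟩
  · refine iSup_le fun j => ?_
    have h2 : V * ((C ⊓ Fk B) * V) ^ j ≤ (C ⊓ Fk B) * (V * ((C ⊓ Fk B) * V) ^ j) * (C ⊓ Fk B) := by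
      calc V * ((C ⊓ Fk B) * V) ^ j = 1 * (V * ((C ⊓ Fk B) * V) ^ j) * 1 := by
            rw [one_mul, mul_one]
        _ ≤ (C ⊓ Fk B) * (V * ((C ⊓ Fk B) * V) ^ j) * (C ⊓ Fk B) :=
            G1_mul_mono (G1_mul_mono hone le_rfl) hone
    refine h2.trans ?_
    have h3 : (C ⊓ Fk B) * (V * ((C ⊓ Fk B) * V) ^ j) * (C ⊓ Fk B) =
        Gp (C ⊓ Fk B) V (j + 1) := by
      rw [G1_shift]
      unfold Gp
      rw [pow_succ]
      simp only [mul_assoc]
    rw [h3]
    exact hG _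
  · refine G1_tri fun i j k => ?_
    have h3 : Gp (C ⊓ Fk B) V i * (V * ((C ⊓ Fk B) * V) ^ j) * Gp (C ⊓ Fk B) V k =
        Gp (C ⊓ Fk B) V (i + j + k + 1) := by
      have h4 : i + j + k + 1 = i + (j + (1 + k)) := by omega
      rw [G1_shift, h4]
      unfold Gp
      rw [pow_add, pow_add, pow_add, pow_one]
      simp only [mul_assoc]
    rw [h3]
    exact hG _
  · refine G1_tri fun i j k => ?_
    have h3 : V * ((C ⊓ Fk B) * V) ^ i * Gp (C ⊓ Fk B) V j * (V * ((C ⊓ Fk B) * V) ^ k) =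
        V * ((C ⊓ Fk B) * V) ^ (i + (j + (1 + k))) := by
      rw [Gp_alt, pow_add, pow_add, pow_add, pow_one]
      simp only [mul_assoc]
    rw [h3]
    exact hG0 _

theorem Gap_le_base {C V Cb Db : Submodule ℚ F} {B : ℕ} (hb : Base Cb Db) (hC : C ⊓ Fk B ≤ Cb)
    (hV : V ≤ Db) : Gap C V B ≤ Cb := by
  refine Gap_induction fun j => ?_
  induction j with
  | zero => rw [Gp_zero]; exact hC
  | succ j ih =>
    rw [Gp_succ, ← mul_assoc]
    exact (G1_mul_mono (G1_mul_mono ih hV) hC).trans hb.CDC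

theorem Gap0_le_base {C V Cb Db : Submodule ℚ F} {B : ℕ} (hb : Base Cb Db) (hC : C ⊓ Fk B ≤ Cb)
    (hV : V ≤ Db) : Gap0 C V B ≤ Db := by
  refine iSup_le fun j => ?_
  induction j with
  | zero => rw [pow_zero, mul_one]; exact hV
  | succ j ih =>
    rw [pow_succ, ← mul_assoc, ← mul_assoc]
    exact (G1_mul_mono (G1_mul_mono ih hC) hV).trans hb.DCD

theorem Gap_mono_B (C V : Submodule ℚ F) {B B' : ℕ} (h : B ≤ B') : Gap C V B ≤ Gap C V B' :=
  Gap_induction fun j => Gp_le_Gap h j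

end NF
end
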