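import Pool.Agent.Lib.MP_24a659_al.B1
import Pool.Agent.Lib.MP_24a659_al.G1
import Pool.Agent.Lib.MP_24a659_al.B2P

section

/-! MP_24a659_al, job B2: contractions. -/

set_option autoImplicit false

namespace NF

theorem lcon_mono (Z : F) (m : Mon) : lcon Z (mono m) =
    ∑ i ∈ Finset.range (m.toList.length + 1),
      cf (ofL (m.toList.take i)) Z • mono (ofL (m.toList.drop i)) :=
  lext_mono _ m

theorem rcon_mono (Z : F) (m : Mon) : rcon Z (mono m) =
    ∑ i ∈ Finset.range (m.toList.length + 1),
      cf (ofL (m.toList.drop i)) Z • mono (ofL (m.toList.take i)) :=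
  lext_mono _ m

/-- adjointness: left multiplication and left contraction -/
theorem pair_lmul (Z Z' X : F) : pair (Z * Z') X = pair Z' (lcon Z X) := by
  have h : pair (Z * Z') = (pair Z') ∘ₗ (lcon Z) := by
    refine lin_ext _ _ fun m => ?_
    rw [LinearMap.comp_apply, lcon_mono, map_sum, pair_mono, cf_mul]
    refine Finset.sum_congr rfl fun i _ => ?_
    rw [map_smul, pair_mono, smul_eq_mul]
  rw [h]; rfl

/-- adjointness: right multiplication and right contraction -/
theorem pair_rmul (Z Z' X : F) : pair (Z * Z') X = pair Z (rcon Z' X) := by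
  have h : pair (Z * Z') = (pair Z) ∘ₗ (rcon Z') := by
    refine lin_ext _ _ fun m => ?_
    rw [LinearMap.comp_apply, rcon_mono, map_sum, pair_mono, cf_mul]
    refine Finset.sum_congr rfl fun i _ => ?_
    rw [map_smul, pair_mono, smul_eq_mul, mul_comm]
  rw [h]; rfl

theorem eps_lcon (Z X : F) : eps (lcon Z X) = pair Z X := by
  have h := pair_lmul Z 1 X
  rw [mul_one, pair_one] at h
  exact h.symm

theorem eps_rcon (Z X : F) : eps (rcon Z X) = pair Z X := by
  have h := pair_rmul 1 Z X
  rw [one_mul, pair_one] at h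
  exact h.symm

/-- a linear map which maps the monomials of `S` into a submodule maps `sub S` into it -/
theorem B2_map_sub {S : Set Mon} {V : Submodule ℚ F} (f : F →ₗ[ℚ] F)
    (h : ∀ m ∈ S, f (mono m) ∈ V) {X : F} (hX : X ∈ sub S) : f X ∈ V := by
  have h1 : sub S ≤ V.comap f := by
    refine Submodule.span_le.2 ?_
    rintro _ ⟨m, hm, rfl⟩
    exact h m hm
  exact h1 hX

theorem lcon_mem_EY {X : F} (hX : X ∈ EY) (Z : F) : lcon Z X ∈ EY := by
  refine B2_map_sub _ (fun m hm => ?_) hX
  rw [lcon_mono]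
  refine Submodule.sum_mem _ fun i _ => Submodule.smul_mem _ _ (mono_mem_sub ?_)
  rcases hm with rfl | ⟨m', rfl⟩
  · left
    rw [FreeMonoid.toList_one, List.drop_nil]; rfl
  · rw [FreeMonoid.toList_mul, FreeMonoid.toList_of]
    rcases le_or_gt i m'.toList.length with hi | hi
    · right
      refine ⟨ofL (m'.toList.drop i), ?_⟩
      rw [List.drop_append_of_le_length hi]
      rfl
    · left
      rw [List.drop_eq_nil_of_le (by rw [List.length_append, List.length_singleton]; omega)]
      rfl

theorem rcon_mem_SX {X : F} (hX : X ∈ SX) (Z : F) : rcon Z X ∈ SX := by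
  refine B2_map_sub _ (fun m hm => ?_) hX
  rw [rcon_mono]
  refine Submodule.sum_mem _ fun i _ => Submodule.smul_mem _ _ (mono_mem_sub ?_)
  rcases hm with rfl | ⟨m', rfl⟩
  · left
    rw [FreeMonoid.toList_one, List.take_nil]; rfl
  · rw [FreeMonoid.toList_mul, FreeMonoid.toList_of]
    cases i with
    | zero => left; rfl
    | succ i =>
      right
      exact ⟨ofL (m'.toList.take i), rfl⟩

theorem lcon_mem_Fk {X : F} {k : ℕ} (hX : X ∈ Fk k) (Z : F) : lcon Z X ∈ Fk k := by
  refine B2_map_sub _ (fun m hm => ?_) hX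
  rw [lcon_mono]
  refine Submodule.sum_mem _ fun i _ => Submodule.smul_mem _ _ (mono_mem_sub ?_)
  have h1 : m.toList.length ≤ k := hm
  have h2 : (m.toList.drop i).length ≤ k := by rw [List.length_drop]; omega
  exact h2

theorem rcon_mem_Fk {X : F} {k : ℕ} (hX : X ∈ Fk k) (Z : F) : rcon Z X ∈ Fk k := by
  refine B2_map_sub _ (fun m hm => ?_) hX
  rw [rcon_mono]
  refine Submodule.sum_mem _ fun i _ => Submodule.smul_mem _ _ (mono_mem_sub ?_)
  have h1 : m.toList.length ≤ k := hm
  have h2 : (m.toList.take i).length ≤ k := by rw [List.length_take]; omega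
  exact h2

end NF
end

section

/-! MP_24a659_al, job B6: visible killers, `Fits`. -/

set_option autoImplicit false

namespace NF

theorem vis_le {V : Submodule ℚ F} {s : Sq} {p q : ℕ} (h : Vis V s p q) : p ≤ q := by
  obtain ⟨J, _, hJ⟩ := h
  by_contra hc
  exact hJ (ent_of_lt s (by omega) J)

theorem vis_lt {V : Submodule ℚ F} (hV : ∀ J ∈ V, eps J = 0) {s : Sq} {p q : ℕ}
    (h : Vis V s p q) : p < q := by
  have h1 := vis_le h
  obtain ⟨J, hJV, hJ⟩ := h
  rcases Nat.lt_or_ge p q with h2 | h2
  · exact h2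
  · exfalso
    have h3 : p = q := by omega
    subst h3
    exact hJ (by rw [ent_self, hV J hJV])

theorem Fits_le {V : Submodule ℚ F} {s : Sq} {k p q : ℕ} (h : Fits V s k p q) : p ≤ q := by
  induction k generalizing p with
  | zero => exact h
  | succ k ih =>
    obtain ⟨p1, q1, h1, h2, h3⟩ := h
    exact le_trans h1 (le_trans (vis_le h2) (ih h3))

theorem Fits_mono {V : Submodule ℚ F} {s : Sq} {k p q p' q' : ℕ} (h : Fits V s k p q)
    (hp : p' ≤ p) (hq : q ≤ q') : Fits V s k p' q' := by
  induction k generalizing p p' with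
  | zero => exact le_trans hp (le_trans h hq)
  | succ k ih =>
    obtain ⟨p1, q1, h1, h2, h3⟩ := h
    exact ⟨p1, q1, le_trans hp h1, h2, ih h3 (le_refl q1)⟩

theorem Fits_add {V : Submodule ℚ F} {s : Sq} {k l p q r : ℕ} (h : Fits V s k p q)
    (h' : Fits V s l q r) : Fits V s (k + l) p r := by
  induction k generalizing p with
  | zero =>
    rw [Nat.zero_add]
    exact Fits_mono h' h (le_refl r)
  | succ k ih =>
    obtain ⟨p1, q1, h1, h2, h3⟩ := h
    rw [Nat.add_right_comm]
    exact ⟨p1, q1, h1, h2, ih h3⟩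

theorem Fits_split {V : Submodule ℚ F} {s : Sq} {k l p r : ℕ} (h : Fits V s (k + l) p r) :
    ∃ q, Fits V s k p q ∧ Fits V s l q r := by
  induction k generalizing p with
  | zero =>
    rw [Nat.zero_add] at h
    exact ⟨p, le_refl p, h⟩
  | succ k ih =>
    rw [Nat.add_right_comm] at h
    obtain ⟨p1, q1, h1, h2, h3⟩ := h
    obtain ⟨q, h4, h5⟩ := ih h3
    exact ⟨q, ⟨p1, q1, h1, h2, h4⟩, h5⟩

theorem Fits_anti {V : Submodule ℚ F} {s : Sq} {k l p q : ℕ} (hl : l ≤ k)
    (h : Fits V s k p q) : Fits V s l p q := by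
  obtain ⟨m, rfl⟩ := Nat.exists_eq_add_of_le hl
  obtain ⟨r, h1, h2⟩ := Fits_split h
  exact Fits_mono h1 (le_refl p) (Fits_le h2)

theorem Fits_one {V : Submodule ℚ F} {s : Sq} {p q : ℕ} : Fits V s 1 p q ↔
    ∃ p1 q1, p ≤ p1 ∧ Vis V s p1 q1 ∧ q1 ≤ q := Iff.rfl

theorem Fits_len {V : Submodule ℚ F} (hV : ∀ J ∈ V, eps J = 0) {s : Sq} {k p q : ℕ}
    (h : Fits V s k p q) : p + k ≤ q := by
  induction k generalizing p with
  | zero => exact h
  | succ k ih =>
    obtain ⟨p1, q1, h1, h2, h3⟩ := h
    have h4 := vis_lt hV h2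
    have h5 := ih h3
    omega

theorem B6_vis_shift (V : Submodule ℚ F) (s : Sq) (c p q : ℕ) :
    Vis V (fun i => s (c + i)) p q ↔ Vis V s (c + p) (c + q) := by
  constructor
  · rintro ⟨J, hJ, h⟩
    refine ⟨J, hJ, ?_⟩
    rw [← ent_shift]
    exact h
  · rintro ⟨J, hJ, h⟩
    refine ⟨J, hJ, ?_⟩
    rw [ent_shift]
    exact h

theorem Fits_shift (V : Submodule ℚ F) (s : Sq) (c k p q : ℕ) :
    Fits V (fun i => s (c + i)) k p q ↔ Fits V s k (c + p) (c + q) := by
  induction k generalizing p with
  | zero =>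
    constructor
    · intro h
      exact Nat.add_le_add_left h c
    · intro h
      exact Nat.le_of_add_le_add_left h
  | succ k ih =>
    constructor
    · rintro ⟨p1, q1, h1, h2, h3⟩
      exact ⟨c + p1, c + q1, Nat.add_le_add_left h1 c, (B6_vis_shift V s c p1 q1).1 h2,
        (ih q1).1 h3⟩
    · rintro ⟨p1, q1, h1, h2, h3⟩
      have h4 := vis_le h2
      obtain ⟨p2, rfl⟩ : ∃ p2, p1 = c + p2 := ⟨p1 - c, by omega⟩
      obtain ⟨q2, rfl⟩ : ∃ q2, q1 = c + q2 := ⟨q1 - c, by omega⟩
      exact ⟨p2, q2, Nat.le_of_add_le_add_left h1, (B6_vis_shift V s c p2 q2).2 h2,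
        (ih q2).2 h3⟩

theorem Fits_max {V : Submodule ℚ F} (hV : ∀ J ∈ V, eps J = 0) {s : Sq} {p q : ℕ} (h : p ≤ q) :
    ∃ N, Fits V s N p q ∧ ¬ Fits V s (N + 1) p q := by
  by_contra hc
  have h1 : ∀ N, Fits V s N p q := by
    intro N
    induction N with
    | zero => exact h
    | succ N ih =>
      by_contra h2
      exact hc ⟨N, ih, h2⟩
  have h3 := Fits_len hV (h1 (q + 1))
  omega

theorem Vis_sub {V V' : Submodule ℚ F} (h : V ≤ V') {s : Sq} {p q : ℕ} (hv : Vis V s p q) :
    Vis V' s p q := by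
  obtain ⟨J, hJ, hJ'⟩ := hv
  exact ⟨J, h hJ, hJ'⟩

theorem Fits_sub {V V' : Submodule ℚ F} (h : V ≤ V') {s : Sq} {k p q : ℕ}
    (hv : Fits V s k p q) : Fits V' s k p q := by
  induction k generalizing p with
  | zero => exact hv
  | succ k ih =>
    obtain ⟨p1, q1, h1, h2, h3⟩ := hv
    exact ⟨p1, q1, h1, Vis_sub h h2, ih h3⟩

/-- if every visible element of `V'` has room for `j` killers of `V` -/
theorem Fits_trans {V V' : Submodule ℚ F} {s : Sq} {j : ℕ}
    (h : ∀ p q, Vis V' s p q → Fits V s j p q) {k p q : ℕ} (hv : Fits V' s k p q) :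
    Fits V s (j * k) p q := by
  induction k generalizing p with
  | zero => exact hv
  | succ k ih =>
    obtain ⟨p1, q1, h1, h2, h3⟩ := hv
    rw [Nat.mul_succ, Nat.add_comm]
    exact Fits_add (Fits_mono (h p1 q1 h2) h1 (le_refl q1)) (ih h3)

theorem mem_thinE {V : Submodule ℚ F} {c : ℕ} {s : Sq} (hs : nz s) {p q : ℕ} (h : p ≤ q)
    (hf : ¬ Fits V s (c + 1) p q) : W s p q ∈ thinE V c :=
  ⟨s, p, q, hs, h, hf, rfl⟩

theorem thinE_mono {V : Submodule ℚ F} {c d : ℕ} (h : c ≤ d) : thinE V c ⊆ thinE V d := by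
  rintro Z ⟨s, p, q, hs, hpq, hf, rfl⟩
  exact ⟨s, p, q, hs, hpq, fun hf' => hf (Fits_anti (Nat.succ_le_succ h) hf'), rfl⟩

theorem thinE_anti {V V' : Submodule ℚ F} (h : V ≤ V') (c : ℕ) : thinE V' c ⊆ thinE V c := by
  rintro Z ⟨s, p, q, hs, hpq, hf, rfl⟩
  exact ⟨s, p, q, hs, hpq, fun hf' => hf (Fits_sub h hf'), rfl⟩

end NF
end

section

/-! MP_24a659_al, job B3L: the left contraction of a product by `E g`. -/

set_option autoImplicit false

namespace NF

/-- `yx` is not a factor of `x^i y^j` -/
theorem B3L_no (a b : List Bool) (i j : ℕ)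
    (h : a ++ true :: false :: b = List.replicate i false ++ List.replicate j true) : False := by
  have h1 : (List.replicate i false ++ List.replicate j true).Pairwise
      (fun p q : Bool => p = true → q = true) := by
    rw [List.pairwise_append]
    refine ⟨?_, ?_, ?_⟩
    · rw [List.pairwise_replicate]
      right
      intro h; exact h
    · rw [List.pairwise_replicate]
      right
      intro h; exact h
    · intro p hp q hq _
      exact (List.eq_of_mem_replicate hq)
  rw [← h, List.pairwise_append] at h1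
  have h2 := h1.2.1
  rw [List.pairwise_cons] at h2
  have h3 := h2.1 false (List.mem_cons_self) rfl
  exact absurd h3 (by decide)

theorem B3L_lcon_one (g : ℤ × ℤ) : lcon (E g) (1 : F) = 1 := by
  rw [← mono_one, lcon_mono]
  have h : (1 : Mon).toList = [] := rfl
  rw [h]
  simp only [List.length_nil, zero_add, Finset.range_one, Finset.sum_singleton, List.take_nil,
    List.drop_nil]
  have h2 : cf (ofL []) (E g) = 1 := eps_E g
  rw [h2, one_smul]
  rfl

theorem B3L_mono (g : ℤ × ℤ) (m1 m' : Mon) (hm' : m' = 1 ∨ ∃ m2, m' = FreeMonoid.of false * m2) :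
    lcon (E g) (mono (m1 * FreeMonoid.of true) * mono m') =
      lcon (E g) (mono (m1 * FreeMonoid.of true)) * mono m' := by
  rcases hm' with rfl | ⟨m2, rfl⟩
  · rw [mono_one, mul_one, mul_one]
  set m : Mon := m1 * FreeMonoid.of true with hm
  set m' : Mon := FreeMonoid.of false * m2 with hm'
  have hl : (m * m').toList = m.toList ++ m'.toList := FreeMonoid.toList_mul _ _
  rw [mono_mul, lcon_mono, lcon_mono, Finset.sum_mul]
  have e1 : (m * m').toList.length + 1 = (m.toList.length + 1) + m'.toList.length := by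
    rw [hl, List.length_append]; ring
  rw [e1, Finset.sum_range_add]
  have e2 : ∑ x ∈ Finset.range m'.toList.length,
      cf (ofL ((m * m').toList.take (m.toList.length + 1 + x))) (E g) •
        mono (ofL ((m * m').toList.drop (m.toList.length + 1 + x))) = 0 := by
    refine Finset.sum_eq_zero fun x _ => ?_
    have e3 : cf (ofL ((m * m').toList.take (m.toList.length + 1 + x))) (E g) = 0 := by
      by_contra hc
      obtain ⟨i, j, _, _, h⟩ := cf_E g _ hc
      have h' := FreeMonoid.ofList.injective h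
      have e4 : (m * m').toList.take (m.toList.length + 1 + x) =
          m1.toList ++ true :: false :: m2.toList.take x := by
        have e5 : m.toList.length + 1 + x = m.toList.length + (x + 1) := by ring
        rw [hl, e5, List.take_length_add_append, hm, hm', FreeMonoid.toList_mul,
          FreeMonoid.toList_mul, FreeMonoid.toList_of, FreeMonoid.toList_of, List.append_assoc]
        rfl
      rw [e4] at h'
      exact B3L_no _ _ _ _ h'
    rw [e3, zero_smul]
  rw [e2, add_zero]
  refine Finset.sum_congr rfl fun i hi => ?_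
  have hi' : i ≤ m.toList.length := by
    have := Finset.mem_range.1 hi
    omega
  rw [hl, List.take_append_of_le_length hi', List.drop_append_of_le_length hi', smul_mul_assoc,
    mono_mul]
  rfl

/-- cutting a product at a pair: a cut strictly inside `Y` of a monomial `m m'`, `m ≠ 1`, gives
a left part which contains `yx`, which is not a monomial of `E g` -/
theorem lcon_E_mul (g : ℤ × ℤ) {X Z : F} (hX : X ∈ EY) (hZ : Z ∈ SX) :
    lcon (E g) (X * Z) = lcon (E g) X * Z + eps X • (lcon (E g) Z - Z) := by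
  refine Submodule.span_induction (p := fun X _ =>
    lcon (E g) (X * Z) = lcon (E g) X * Z + eps X • (lcon (E g) Z - Z)) ?_ ?_ ?_ ?_ hX
  · rintro _ ⟨m, hm, rfl⟩
    rcases hm with rfl | ⟨m1, rfl⟩
    · rw [mono_one, one_mul, B3L_lcon_one, eps_one, one_mul, one_smul]
      abel
    · have he : eps (mono (m1 * FreeMonoid.of true)) = 0 := by
        refine cf_mono_ne fun h => ?_
        have h1 := congrArg (fun z : Mon => z.toList.length) h
        simp only [FreeMonoid.toList_mul, FreeMonoid.toList_of, List.length_append,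
          List.length_singleton, FreeMonoid.toList_one, List.length_nil] at h1
        omega
      rw [he, zero_smul, add_zero]
      refine Submodule.span_induction (p := fun Z _ =>
        lcon (E g) (mono (m1 * FreeMonoid.of true) * Z) =
          lcon (E g) (mono (m1 * FreeMonoid.of true)) * Z) ?_ ?_ ?_ ?_ hZ
      · rintro _ ⟨m', hm', rfl⟩
        exact B3L_mono g m1 m' hm'
      · rw [mul_zero, mul_zero, map_zero]
      · intro a b _ _ ha hb
        rw [mul_add, mul_add, map_add, ha, hb]
      · intro c a _ ha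
        rw [mul_smul_comm, mul_smul_comm, map_smul, ha]
  · rw [zero_mul, map_zero, map_zero, zero_mul, zero_smul, add_zero]
  · intro a b _ _ ha hb
    rw [add_mul, map_add, map_add, map_add, ha, hb, add_mul, add_smul]
    abel
  · intro c a _ ha
    rw [smul_mul_assoc, map_smul, map_smul, map_smul, ha, smul_mul_assoc, smul_add, smul_eq_mul,
      mul_smul]

end NF
end

section

/-! MP_24a659_al, job B4M: the product formula (0.1) and the cut formula (0.2). -/

set_option autoImplicit false

namespace NF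

theorem B4M_pair_sub (A B : F) (X : F) : pair (A - B) X = pair A X - pair B X := by
  have h := pair_add (A - B) B
  rw [sub_add_cancel] at h
  rw [h, LinearMap.add_apply]
  ring

/-- one more pair on the left, position after the next one -/
theorem B4M_ent_left (s : Sq) {p q : ℕ} (h : p + 1 < q) (X : F) :
    ent s p q X = ent s (p + 1) q (lcon (E (s p)) X) := by
  obtain ⟨q', rfl⟩ : ∃ q', q = q' + 1 := ⟨q - 1, by omega⟩
  rw [ent_succ s (by omega) X, ent_succ s (by omega), W_left s (by omega : p < q' + 1),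
    W_left s (by omega : p < q'), pair_lmul, pair_lmul]

/-- (0.1) -/
theorem pair_W_mul (s : Sq) {p r : ℕ} (h : p ≤ r) {X Z : F} (hX : X ∈ EY) (hZ : Z ∈ SX) :
    pair (W s p r) (X * Z) = ∑ q ∈ Finset.Icc p r, ent s p q X * pair (W s q r) Z := by
  obtain ⟨k, rfl⟩ : ∃ k, r = p + k := ⟨r - p, by omega⟩
  clear h
  induction k generalizing p X with
  | zero =>
    simp only [Nat.add_zero, Finset.Icc_self, Finset.sum_singleton, W_self, pair_one, ent_self,
      eps_mul]
  | succ k ih =>
    have h1 := ih (p := p + 1) (X := lcon (E (s p)) X) (lcon_mem_EY hX _)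
    rw [show p + 1 + k = p + (k + 1) by ring] at h1
    rw [W_left s (by omega : p < p + (k + 1)), pair_lmul, lcon_E_mul (s p) hX hZ, map_add, map_smul,
      map_sub, h1, ← Finset.insert_Icc_succ_left_eq_Icc (by omega : p ≤ p + (k + 1)),
      Finset.sum_insert (by simp), ent_self, W_left s (by omega : p < p + (k + 1)), pair_lmul,
      Nat.succ_eq_succ]
    have h2 : (p + 1) ∈ Finset.Icc (p + 1) (p + (k + 1)) := by
      rw [Finset.mem_Icc]; omega
    have h3 : ∑ q ∈ Finset.Icc (p + 1) (p + (k + 1)), ent s p q X * pair (W s q (p + (k + 1))) Z =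
        ∑ q ∈ Finset.Icc (p + 1) (p + (k + 1)),
          ent s (p + 1) q (lcon (E (s p)) X) * pair (W s q (p + (k + 1))) Z
        - eps X * pair (W s (p + 1) (p + (k + 1))) Z := by
      rw [← Finset.add_sum_erase _ _ h2, ← Finset.add_sum_erase (Finset.Icc (p + 1) (p + (k + 1)))
        (fun q => ent s (p + 1) q (lcon (E (s p)) X) * pair (W s q (p + (k + 1))) Z) h2]
      have h4 : ∑ q ∈ (Finset.Icc (p + 1) (p + (k + 1))).erase (p + 1),
          ent s p q X * pair (W s q (p + (k + 1))) Z =
          ∑ q ∈ (Finset.Icc (p + 1) (p + (k + 1))).erase (p + 1),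
          ent s (p + 1) q (lcon (E (s p)) X) * pair (W s q (p + (k + 1))) Z := by
        refine Finset.sum_congr rfl fun q hq => ?_
        rw [Finset.mem_erase, Finset.mem_Icc] at hq
        rw [B4M_ent_left s (by omega)]
      rw [h4, ent_step, ent_self, eps_lcon]
      ring
    rw [h3, smul_eq_mul]
    ring

/-- (0.1) for entries -/
theorem ent_mul (s : Sq) (p r : ℕ) {X Z : F} (hX : X ∈ EY) (hZ : Z ∈ SX) :
    ent s p r (X * Z) = ∑ q ∈ Finset.Icc p r, ent s p q X * ent s q r Z := by
  rcases lt_trichotomy r p with h | h | h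
  · rw [ent_of_lt s h, Finset.Icc_eq_empty (by omega), Finset.sum_empty]
  · subst h
    rw [Finset.Icc_self, Finset.sum_singleton, ent_self, ent_self, ent_self, eps_mul]
  · obtain ⟨r', rfl⟩ : ∃ r', r = r' + 1 := ⟨r - 1, by omega⟩
    have hp : p ≤ r' := by omega
    rw [ent_succ s hp, pair_W_mul s (by omega) hX hZ, pair_W_mul s hp hX hZ,
      ← Finset.insert_Icc_right_eq_Icc_add_one (by omega : p ≤ r' + 1),
      Finset.sum_insert (by simp), Finset.sum_insert (by simp), W_self, pair_one, ent_self,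
      add_sub_assoc, ← Finset.sum_sub_distrib]
    congr 1
    refine Finset.sum_congr rfl fun q hq => ?_
    rw [Finset.mem_Icc] at hq
    rw [ent_succ s hq.2]
    ring

/-- (0.2), left cut -/
theorem ent_lcut (s : Sq) {p0 c p : ℕ} (h : p0 ≤ c) (h' : c < p) (Z : F) :
    ent s p0 p Z = ent s c p (lcon (W s p0 c) Z) := by
  obtain ⟨p', rfl⟩ : ∃ p', p = p' + 1 := ⟨p - 1, by omega⟩
  rw [ent_succ s (by omega), ent_succ s (by omega), ← pair_lmul, ← pair_lmul,
    W_mul s h (by omega), W_mul s h (by omega)]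

/-- (0.2), right cut -/
theorem pair_rcut (s : Sq) {q c n : ℕ} (h : q ≤ c) (h' : c ≤ n) (Z : F) :
    pair (W s q n) Z = pair (W s q c) (rcon (W s c n) Z) := by
  rw [← pair_rmul, W_mul s h h']

/-- (0.2), right cut of an entry -/
theorem ent_rcut (s : Sq) {q c r : ℕ} (h : q ≤ c) (h' : c < r) (Z : F) :
    ent s q r Z = pair (W s q c) (rcon (W s c r - W s c (r - 1)) Z) := by
  obtain ⟨r', rfl⟩ : ∃ r', r = r' + 1 := ⟨r - 1, by omega⟩
  rw [ent_succ s (by omega), ← pair_rmul, mul_sub, B4M_pair_sub, Nat.add_sub_cancel,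
    W_mul s h (by omega), W_mul s h (by omega)]

end NF
end
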