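import Pool.Agent.Lib.MP_24a659_al.Nine3

/-!
MP_24a659_al, paper 716, Section 9: the automaton of the powers of `f`, nilpotency.
-/

set_option autoImplicit false

namespace Pool.MP_24a659_al.Nine

open MonoidAlgebra

/-- states: words of length less than `d` -/
abbrev St (d : ℕ) : Type := {w : FreeMonoid Bool // w.length < d}

theorem finite_St (d : ℕ) : Finite (St d) := by
  have h : Set.Finite {l : List Bool | l.length < d} := List.finite_length_lt Bool d
  exact h.to_subtype

noncomputable instance (d : ℕ) : Fintype (St d) := by
  have := finite_St d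
  exact Fintype.ofFinite _

noncomputable instance (d : ℕ) : DecidableEq (St d) := Classical.decEq _

/-- `p⁻¹ f` without its constant term -/
noncomputable def hp (f : F) (p : FreeMonoid Bool) : F := dl p f - single 1 (f.coeff p)

theorem hp_coeff_one (f : F) (p : FreeMonoid Bool) : (hp f p).coeff 1 = 0 := by
  simp [hp]

theorem dl_hp (f : F) (p : FreeMonoid Bool) (a : Bool) :
    dl (FreeMonoid.of a) (hp f p) =
      hp f (p * FreeMonoid.of a) + single 1 (f.coeff (p * FreeMonoid.of a)) := by
  classical
  rw [hp, hp, map_sub, dl_mul]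
  have h1 : dl (FreeMonoid.of a) (single (1 : FreeMonoid Bool) (f.coeff p)) = 0 := by
    ext k
    simp [Finsupp.single_apply, (of_mul_ne_one a k).symm]
  rw [h1]
  abel

theorem hp_one (f : F) (hf : f.coeff 1 = 0) : hp f 1 = f := by
  rw [hp, hf, dl_one]; simp

theorem hp_eq_zero (f : F) (d : ℕ) (hd : f ∈ Len d) (p : FreeMonoid Bool) (hp' : d ≤ p.length) :
    hp f p = 0 := by
  classical
  ext m
  rw [hp]
  simp only [coeff_sub, Finsupp.sub_apply, coeff_dl, coeff_single, coeff_zero,
    Finsupp.zero_apply, Finsupp.single_apply]
  by_cases hm : (1 : FreeMonoid Bool) = m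
  · subst hm; simp
  · rw [if_neg hm, sub_zero]
    by_contra h
    have h1 := hd _ h
    rw [FreeMonoid.length_mul] at h1
    have h2 : m.length ≠ 0 := by
      intro h0
      exact hm (FreeMonoid.length_eq_zero.1 h0).symm
    omega

open Classical in
/-- the matrix of a letter -/
noncomputable def mat (f : F) (d : ℕ) (a : Bool) : Matrix (St d) (St d) (Polynomial ℚ) :=
  Matrix.of fun p q =>
    (if p.1 * FreeMonoid.of a = q.1 then 1 else 0) +
      (if q.1 = 1 then Polynomial.X * Polynomial.C (f.coeff (p.1 * FreeMonoid.of a)) else 0)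

/-- the representation -/
noncomputable def rho (f : F) (d : ℕ) : F →ₐ[ℚ] Matrix (St d) (St d) (Polynomial ℚ) :=
  MonoidAlgebra.lift ℚ (Matrix (St d) (St d) (Polynomial ℚ)) (FreeMonoid Bool)
    (FreeMonoid.lift (mat f d))

theorem rho_single (f : F) (d : ℕ) (m : FreeMonoid Bool) (r : ℚ) :
    rho f d (single m r) = r • FreeMonoid.lift (mat f d) m := by
  rw [rho, MonoidAlgebra.lift_single]

open Classical in
theorem key (f : F) (hf : f.coeff 1 = 0) (d : ℕ) (hd : f ∈ Len d) (root : St d)
    (hroot : root.1 = 1) (m : FreeMonoid Bool) :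
    ∀ (p : St d) (N : ℕ), ((FreeMonoid.lift (mat f d) m) p root).coeff N =
      if N = 0 then (if p.1 = 1 ∧ m = 1 then 1 else 0)
      else (hp f p.1 * f ^ (N - 1)).coeff m := by
  induction m using FreeMonoid.recOn with
  | one =>
      intro p N
      rw [map_one]
      by_cases hN : N = 0
      · subst hN
        rw [if_pos rfl]
        by_cases h : p.1 = 1
        · have : p = root := Subtype.ext (h.trans hroot.symm)
          rw [this, Matrix.one_apply_eq]
          simp [hroot]
        · have : p ≠ root := fun e => h (by rw [e, hroot])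
          rw [Matrix.one_apply_ne this]
          simp [h]
      · rw [if_neg hN, coeff_one_mul, hp_coeff_one, zero_mul]
        by_cases h : p = root
        · rw [h, Matrix.one_apply_eq, Polynomial.coeff_one, if_neg hN]
        · rw [Matrix.one_apply_ne h, Polynomial.coeff_zero]
  | of_mul a m ih =>
      intro p N
      rw [map_mul, FreeMonoid.lift_eval_of, Matrix.mul_apply]
      -- the value of root
      have hr : ∀ N, ((FreeMonoid.lift (mat f d) m) root root).coeff N = (f ^ N).coeff m := by
        intro N
        rw [ih root N, hroot, hp_one f hf]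
        by_cases hN : N = 0
        · subst hN
          rw [if_pos rfl, pow_zero, one_def]
          by_cases h : m = 1
          · subst h; simp
          · have h' : (1 : FreeMonoid Bool) ≠ m := fun e => h e.symm
            simp [h, Finsupp.single_apply, h']
        · rw [if_neg hN, ← pow_succ', Nat.sub_add_cancel (Nat.one_le_iff_ne_zero.2 hN)]
      have hsum : ∑ q, mat f d a p q * (FreeMonoid.lift (mat f d) m) q root =
          (if h : (p.1 * FreeMonoid.of a).length < d then
            (FreeMonoid.lift (mat f d) m) ⟨p.1 * FreeMonoid.of a, h⟩ root else 0) +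
          Polynomial.X * (Polynomial.C (f.coeff (p.1 * FreeMonoid.of a)) *
            (FreeMonoid.lift (mat f d) m) root root) := by
        simp only [mat, Matrix.of_apply, add_mul, Finset.sum_add_distrib]
        congr 1
        · by_cases h : (p.1 * FreeMonoid.of a).length < d
          · rw [dif_pos h, Finset.sum_eq_single (⟨p.1 * FreeMonoid.of a, h⟩ : St d)]
            · simp
            · intro q _ hq
              have : ¬ p.1 * FreeMonoid.of a = q.1 := fun e => hq (Subtype.ext e.symm)
              rw [if_neg this, zero_mul]
            · intro h'; exact absurd (Finset.mem_univ _) h'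
          · rw [dif_neg h]
            apply Finset.sum_eq_zero
            intro q _
            have : ¬ p.1 * FreeMonoid.of a = q.1 := fun e => h (by rw [e]; exact q.2)
            rw [if_neg this, zero_mul]
        · rw [Finset.sum_eq_single root]
          · rw [if_pos hroot]; ring
          · intro q _ hq
            have : ¬ q.1 = 1 := fun e => hq (Subtype.ext (e.trans hroot.symm))
            rw [if_neg this, zero_mul]
          · intro h'; exact absurd (Finset.mem_univ _) h'
      rw [hsum]
      by_cases hN : N = 0
      · subst hN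
        rw [if_pos rfl, if_neg (fun h => of_mul_ne_one a m h.2), Polynomial.coeff_add,
          Polynomial.coeff_X_mul_zero, add_zero]
        split_ifs with h
        · rw [ih, if_pos rfl, if_neg (fun h' => mul_of_ne_one a p.1 h'.1)]
        · exact Polynomial.coeff_zero _
      · obtain ⟨N, rfl⟩ := Nat.exists_eq_succ_of_ne_zero hN
        rw [if_neg hN, Polynomial.coeff_add, Nat.succ_eq_add_one, Polynomial.coeff_X_mul,
          Polynomial.coeff_C_mul, hr, Nat.add_sub_cancel]
        have h1 : (hp f p.1 * f ^ N).coeff (FreeMonoid.of a * m) =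
            (hp f (p.1 * FreeMonoid.of a) * f ^ N).coeff m +
              f.coeff (p.1 * FreeMonoid.of a) * (f ^ N).coeff m := by
          rw [← coeff_dl, dl_of_mul, hp_coeff_one, zero_smul, add_zero, dl_hp, add_mul, coeff_add,
            Finsupp.add_apply]
          congr 1
          have : (single (1 : FreeMonoid Bool) (f.coeff (p.1 * FreeMonoid.of a)) : F) =
              (f.coeff (p.1 * FreeMonoid.of a)) • (1 : F) := by
            rw [one_def, smul_single, smul_eq_mul, mul_one]
          rw [this, smul_mul_assoc, one_mul, coeff_smul, Finsupp.smul_apply, smul_eq_mul]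
        rw [h1]
        congr 1
        by_cases h : (p.1 * FreeMonoid.of a).length < d
        · rw [dif_pos h, ih, if_neg (Nat.succ_ne_zero N), Nat.add_sub_cancel]
        · rw [dif_neg h, hp_eq_zero f d hd _ (not_lt.1 h), zero_mul]
          simp

/-- The pairing with the powers of `f` is recognized by a matrix representation. -/
theorem pair_pow (f : F) (hf : f.coeff 1 = 0) (d : ℕ) (hd : f ∈ Len d) (root : St d)
    (hroot : root.1 = 1) (X : F) (N : ℕ) :
    pair X (f ^ N) = ((rho f d X) root root).coeff N := by
  induction X using MonoidAlgebra.induction_linear with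
  | zero => simp [pair_zero_left]
  | add X Y hX hY => rw [pair_add_left, hX, hY, map_add, Matrix.add_apply, Polynomial.coeff_add]
  | single m r =>
      rw [pair_single_left, rho_single, Matrix.smul_apply, Polynomial.coeff_smul, smul_eq_mul,
        key f hf d hd root hroot m root N, hroot, hp_one f hf]
      congr 1
      by_cases hN : N = 0
      · subst hN
        rw [if_pos rfl, pow_zero, one_def]
        by_cases h : m = 1
        · subst h; simp
        · have h' : (1 : FreeMonoid Bool) ≠ m := fun e => h e.symm
          classical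
          simp [h, Finsupp.single_apply, h']
      · rw [if_neg hN, ← pow_succ', Nat.sub_add_cancel (Nat.one_le_iff_ne_zero.2 hN)]

/-- The functionals killed by all the representations of dimension `D`. -/
def T (D : ℕ) : Set F :=
  {J | ∀ ρ : F →ₐ[ℚ] Matrix (Fin D) (Fin D) (Polynomial ℚ), ρ J = 0}

theorem exists_Len (f : F) : ∃ d, f ∈ Len d := by
  refine ⟨f.coeff.support.sup FreeMonoid.length, fun m hm => ?_⟩
  exact Finset.le_sup (f := FreeMonoid.length) (Finsupp.mem_support_iff.2 hm)

theorem low_pow (f : F) (hf : f.coeff 1 = 0) (N : ℕ) :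
    ∀ m, (f ^ N).coeff m ≠ 0 → N ≤ m.length := by
  classical
  induction N with
  | zero => intro m _; exact Nat.zero_le _
  | succ N ih =>
      intro m hm
      rw [pow_succ, coeff_mul] at hm
      obtain ⟨a, ha, h1⟩ := Finset.exists_ne_zero_of_sum_ne_zero hm
      obtain ⟨b, hb, h2⟩ := Finset.exists_ne_zero_of_sum_ne_zero h1
      rw [Finsupp.mem_support_iff] at ha hb
      by_cases hab : a * b = m
      · rw [← hab, FreeMonoid.length_mul]
        have h3 := ih a ha
        have h4 : b.length ≠ 0 := by
          intro h0
          rw [FreeMonoid.length_eq_zero.1 h0] at hb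
          exact hb hf
        omega
      · simp [hab] at h2

/-- Nilpotency on the functionals. -/
theorem nil_pair (PHI : Set F) (h1 : ∀ D, ∃ B, ∀ X ∈ PHI, X ∈ K (T D) B) (f : F)
    (hf : f.coeff 1 = 0) :
    ∃ N : ℕ, ∀ X ∈ PHI, ∀ u v : FreeMonoid Bool,
      pair X (single u 1 * f ^ N * single v 1) = 0 := by
  obtain ⟨d, hd⟩ := exists_Len f
  have hd' : f ∈ Len (d + 1) := Len_mono (Nat.le_succ d) hd
  let root : St (d + 1) := ⟨1, by simp⟩
  obtain ⟨B, hB⟩ := h1 (Fintype.card (St (d + 1)))
  refine ⟨3 * B + 1, fun X hX u v => ?_⟩
  rw [pair_mul_mul]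
  have hQ : dl u (dr v X) ∈ Q (T (Fintype.card (St (d + 1)))) B :=
    dl_Q_word u (dr_Q_word v (K_le_Q (hB X hX)))
  refine pair_Q hQ _ ?_ ?_
  · intro J hJ Y Y'
    rw [pair_pow f hf (d + 1) hd' root rfl]
    have h0 : rho f (d + 1) J = 0 := by
      let e := Matrix.reindexAlgEquiv ℚ (Polynomial ℚ) (Fintype.equivFin (St (d + 1)))
      have h2 := hJ (e.toAlgHom.comp (rho f (d + 1)))
      have h3 : e (rho f (d + 1) J) = 0 := h2
      exact (map_eq_zero_iff e e.injective).1 h3
    rw [map_mul, map_mul, h0, mul_zero, zero_mul]
    simp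
  · intro m hm
    have := low_pow f hf _ m hm
    omega

end Pool.MP_24a659_al.Nine
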