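import Pool.Agent.Lib.MP_24a659_al.Nine2
import Pool.Agent.Lib.MP_24a659_al.Nine4

/-!
MP_24a659_al, paper 716, Section 9: the algebra and the group, the frozen statement.
-/

set_option autoImplicit false

namespace Pool.MP_24a659_al.Nine

open MonoidAlgebra

/-- `1 + a x + C(a,2) x²` -/
noncomputable def bin {A : Type*} [Ring A] [Algebra ℚ A] (x : A) (a : ℤ) : A :=
  1 + (a : ℚ) • x + ((a : ℚ) * ((a : ℚ) - 1) / 2) • x ^ 2

/-- the generators -/
noncomputable def x : F := single (FreeMonoid.of false) 1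

/-- the generators -/
noncomputable def y : F := single (FreeMonoid.of true) 1

/-- the product of the powers of `1 + x` and `1 + y` modulo `x³ = y³ = 0` -/
noncomputable def E (w : List (ℤ × ℤ)) : F :=
  (w.map fun g => bin x g.1 * bin y g.2).prod

theorem unit_zpow {A : Type*} [Ring A] [Algebra ℚ A] (x : A) (hx : x ^ 3 = 0) (u : Aˣ)
    (hu : (u : A) = 1 + x) (a : ℤ) : ((u ^ a : Aˣ) : A) = bin x a := by
  have h1 : ∀ a : ℤ, bin x a * (1 + x) = bin x (a + 1) := by
    intro a
    have e : bin x a * (1 + x) = 1 + (a : ℚ) • x + ((a : ℚ) * ((a : ℚ) - 1) / 2) • x ^ 2 +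
        (x + (a : ℚ) • x ^ 2 + ((a : ℚ) * ((a : ℚ) - 1) / 2) • x ^ 3) := by
      rw [bin, mul_add, mul_one, add_mul, add_mul, one_mul, smul_mul_assoc, smul_mul_assoc,
        ← pow_succ, ← sq]
    rw [e, hx, smul_zero, add_zero, bin]
    push_cast
    match_scalars <;> ring
  induction a using Int.induction_on with
  | zero => simp [bin]
  | succ n ih => rw [zpow_add_one, Units.val_mul, ih, hu, h1]
  | pred n ih =>
      have h2 : ((u ^ (-(n : ℤ) - 1) : Aˣ) : A) * (1 + x) = bin x (-(n : ℤ)) := by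
        rw [← hu, ← Units.val_mul, ← zpow_add_one, ← ih]
        congr 2
        ring
      have h3 := h1 (-(n : ℤ) - 1)
      rw [sub_add_cancel] at h3
      have h4 := h2.trans h3.symm
      rw [← hu] at h4
      exact u.isUnit.mul_left_injective h4

section main

variable (PHI : Set F)

/-- the ideal -/
noncomputable def I : TwoSidedIdeal F :=
  TwoSidedIdeal.mk' {z | ∀ X ∈ PHI, ∀ u v : F, pair X (u * z * v) = 0}
    (by intro X _ u v; simp [pair_zero_right])
    (by
      intro a b ha hb X hX u v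
      rw [mul_add, add_mul, pair_add_right, ha X hX, hb X hX, add_zero])
    (by
      intro a ha X hX u v
      rw [mul_neg, neg_mul, pair_neg_right, ha X hX, neg_zero])
    (by
      intro a b hb X hX u v
      rw [← mul_assoc]
      exact hb X hX (u * a) v)
    (by
      intro a b ha X hX u v
      have : u * (a * b) * v = u * a * (b * v) := by simp only [mul_assoc]
      rw [this]
      exact ha X hX u (b * v))

theorem mem_I (z : F) : z ∈ I PHI ↔ ∀ X ∈ PHI, ∀ u v : F, pair X (u * z * v) = 0 := by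
  rw [I, TwoSidedIdeal.mem_mk']
  rfl

theorem mem_I_of_words (z : F)
    (h : ∀ X ∈ PHI, ∀ u v : FreeMonoid Bool, pair X (single u 1 * z * single v 1) = 0) :
    z ∈ I PHI := by
  rw [mem_I]
  intro X hX u v
  induction u using MonoidAlgebra.induction_linear with
  | zero => simp [pair_zero_right]
  | add u u' hu hu' => rw [add_mul, add_mul, pair_add_right, hu, hu', add_zero]
  | single m r =>
    induction v using MonoidAlgebra.induction_linear with
    | zero => simp [pair_zero_right]
    | add u u' hu hu' => rw [mul_add, pair_add_right, hu, hu', add_zero]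
    | single n s =>
      have e1 : (single m r : F) = r • single m 1 := by
        rw [smul_single, smul_eq_mul, mul_one]
      have e2 : (single n s : F) = s • single n 1 := by
        rw [smul_single, smul_eq_mul, mul_one]
      rw [e1, e2, smul_mul_assoc, smul_mul_assoc, mul_smul_comm, pair_smul_right,
        pair_smul_right, h X hX m n, mul_zero, mul_zero]

/-- the quotient algebra -/
abbrev A : Type := (I PHI).ringCon.Quotient

/-- the projection -/
noncomputable def π : F →ₐ[ℚ] A PHI :=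
  { (I PHI).ringCon.mk' with
    commutes' := fun _ => rfl }

theorem π_eq_zero (z : F) : π PHI z = 0 ↔ z ∈ I PHI := by
  have h1 : π PHI z = 0 ↔ (I PHI).ringCon z 0 := RingCon.eq (I PHI).ringCon
  rw [h1, TwoSidedIdeal.mem_iff]

/-- the nil subring -/
noncomputable def R : NonUnitalSubring (A PHI) where
  carrier := {a | ∃ z : F, z.coeff 1 = 0 ∧ π PHI z = a}
  zero_mem' := ⟨0, by simp, map_zero _⟩
  add_mem' := by
    rintro _ _ ⟨z, hz, rfl⟩ ⟨z', hz', rfl⟩
    exact ⟨z + z', by simp [hz, hz'], map_add _ _ _⟩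
  neg_mem' := by
    rintro _ ⟨z, hz, rfl⟩
    exact ⟨-z, by simp [hz], map_neg _ _⟩
  mul_mem' := by
    rintro _ _ ⟨z, hz, rfl⟩ ⟨z', hz', rfl⟩
    exact ⟨z * z', by rw [coeff_one_mul, hz, zero_mul], map_mul _ _ _⟩

theorem pow_three (a : Bool) :
    (single (FreeMonoid.of a) 1 : F) ^ 3 =
      single (FreeMonoid.of a * FreeMonoid.of a * FreeMonoid.of a) 1 := by
  rw [pow_succ, pow_succ, pow_one, single_mul_single, single_mul_single, mul_one, mul_one]

theorem nine
    (h0 : ∀ X ∈ PHI, ∀ (a : Bool) (u v : FreeMonoid Bool),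
      X.coeff (u * (FreeMonoid.of a * FreeMonoid.of a * FreeMonoid.of a) * v) = 0)
    (h1 : ∀ D, ∃ B, ∀ X ∈ PHI, X ∈ K (T D) B)
    (h2 : ∀ w : List (ℤ × ℤ), w ≠ [] → (∀ g ∈ w, g.1 ≠ 0 ∧ g.2 ≠ 0) →
      ∃ X ∈ PHI, X.coeff 1 = 0 ∧ pair X (E w) ≠ 0) :
    ∃ (R : Type) (_ : NonUnitalRing R),
      (∀ x : R, IsNilpotent (Unitization.inr x : Unitization ℤ R)) ∧
      ∃ G : Subgroup (Unitization ℤ R)ˣ,
        (∀ g ∈ G, ∃ x : R, (g : Unitization ℤ R) = 1 + Unitization.inr x) ∧
        Group.FG G ∧ ¬ Group.IsNilpotent G ∧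
        ∀ H : Subgroup (Unitization ℤ R)ˣ, H ≤ G →
          (∀ a ∈ H, ∀ b ∈ H, a * b = b * a) →
          ∃ r : ℕ, ∀ K : Subgroup (Unitization ℤ R)ˣ, K ≤ H → K.FG →
            ∃ s : Finset (Unitization ℤ R)ˣ, s.card ≤ r ∧
              Subgroup.closure (s : Set (Unitization ℤ R)ˣ) = K := by
  have hcube : ∀ a : Bool, (π PHI (single (FreeMonoid.of a) 1)) ^ 3 = 0 := by
    intro a
    rw [← map_pow, π_eq_zero, pow_three]
    apply mem_I_of_words
    intro X hX u v
    rw [single_mul_single, single_mul_single, pair_single_right, h0 X hX a u v, zero_mul]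
  have hnil : ∀ r : R PHI, IsNilpotent (r : A PHI) := by
    rintro ⟨_, z, hz, rfl⟩
    obtain ⟨N, hN⟩ := nil_pair PHI h1 z hz
    refine ⟨N, ?_⟩
    change π PHI z ^ N = 0
    rw [← map_pow, π_eq_zero]
    exact mem_I_of_words PHI _ hN
  have hu : ∀ a : Bool, IsUnit (1 + π PHI (single (FreeMonoid.of a) 1)) := by
    intro a
    exact (IsNilpotent.isUnit_one_add ⟨3, hcube a⟩)
  let U : Bool → (A PHI)ˣ := fun a => (hu a).unit
  have hU : ∀ a : Bool, ((U a : (A PHI)ˣ) : A PHI) = 1 + π PHI (single (FreeMonoid.of a) 1) :=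
    fun a => rfl
  have hmem : ∀ a : Bool, π PHI (single (FreeMonoid.of a) 1) ∈ R PHI := by
    intro a
    classical
    refine ⟨single (FreeMonoid.of a) 1, ?_, rfl⟩
    have : FreeMonoid.of a ≠ 1 := by
      have := of_mul_ne_one a 1
      rwa [mul_one] at this
    rw [coeff_single, Finsupp.single_apply, if_neg this]
  let ι : R PHI →ₙ+* A PHI :=
    { toFun := fun r => (r : A PHI)
      map_zero' := rfl
      map_add' := fun _ _ => rfl
      map_mul' := fun _ _ => rfl }
  have hbin : ∀ (z : F) (a : ℤ), π PHI (bin z a) = bin (π PHI z) a := by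
    intro z a
    simp [bin]
  have hE : ∀ w : List (ℤ × ℤ), π PHI (E w) = ((P (U false) (U true) w : (A PHI)ˣ) : A PHI) := by
    intro w
    induction w with
    | nil => simp [E]
    | cons g w ih =>
        have : E (g :: w) = bin x g.1 * bin y g.2 * E w := by simp [E]
        rw [this, map_mul, map_mul, ih, P_cons, Units.val_mul, Units.val_mul,
          unit_zpow _ (hcube false) _ (hU false), unit_zpow _ (hcube true) _ (hU true), hbin, hbin]
        rfl
  refine frozen_of_hom (A PHI) (R PHI) ι Subtype.coe_injective hnil (U false) (U true)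
    ⟨⟨_, hmem false⟩, hU false⟩ ⟨⟨_, hmem true⟩, hU true⟩ ?_
  intro w hw hgood hP
  obtain ⟨X, hX, hX1, hXE⟩ := h2 w hw hgood
  have h3 : π PHI (E w - 1) = 0 := by
    rw [map_sub, hE, hP, map_one, Units.val_one, sub_self]
  rw [π_eq_zero, mem_I] at h3
  have h4 := h3 X hX 1 1
  rw [one_mul, mul_one, pair_sub_right, pair_one_right, hX1, sub_zero] at h4
  exact hXE h4

end main

end Pool.MP_24a659_al.Nine

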