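import Pool.Agent.Lib.MP_24a659_al.B4M
import Pool.Agent.Lib.MP_24a659_al.G1

section

/-! MP_24a659_al, job B5: rows and columns. -/

set_option autoImplicit false

namespace NF

theorem B5_act (s : Sq) (X : F) (ψ : ℕ → ℚ) (q : ℕ) :
    act s X ψ q = ∑ p ∈ Finset.range (q + 1), ψ p * ent s p q X := rfl

theorem B5_coact (s : Sq) (n : ℕ) (X : F) (ρ : ℕ → ℚ) (p : ℕ) :
    coact s n X ρ p = ∑ q ∈ Finset.Icc p n, ent s p q X * ρ q := rfl

theorem B5_bil (n : ℕ) (ψ ρ : ℕ → ℚ) :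
    bil n ψ ρ = ∑ p ∈ Finset.range (n + 1), ψ p * ρ p := rfl

theorem act_add (s : Sq) (X Z : F) (ψ : ℕ → ℚ) : act s (X + Z) ψ = act s X ψ + act s Z ψ := by
  funext q
  simp only [Pi.add_apply, B5_act, map_add, mul_add, Finset.sum_add_distrib]

theorem act_smul (s : Sq) (c : ℚ) (X : F) (ψ : ℕ → ℚ) : act s (c • X) ψ = c • act s X ψ := by
  funext q
  simp only [Pi.smul_apply, B5_act, map_smul, smul_eq_mul, Finset.mul_sum]
  refine Finset.sum_congr rfl fun p _ => ?_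
  ring

theorem act_zero (s : Sq) (ψ : ℕ → ℚ) : act s 0 ψ = 0 := by
  funext q
  simp only [Pi.zero_apply, B5_act, map_zero, mul_zero, Finset.sum_const_zero]

theorem act_add' (s : Sq) (X : F) (ψ φ : ℕ → ℚ) : act s X (ψ + φ) = act s X ψ + act s X φ := by
  funext q
  simp only [Pi.add_apply, B5_act, add_mul, Finset.sum_add_distrib]

theorem act_smul' (s : Sq) (c : ℚ) (X : F) (ψ : ℕ → ℚ) : act s X (c • ψ) = c • act s X ψ := by
  funext q
  simp only [Pi.smul_apply, B5_act, smul_eq_mul, Finset.mul_sum]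
  refine Finset.sum_congr rfl fun p _ => ?_
  ring

theorem act_zero' (s : Sq) (X : F) : act s X 0 = 0 := by
  funext q
  simp only [Pi.zero_apply, B5_act, zero_mul, Finset.sum_const_zero]

theorem coact_add (s : Sq) (n : ℕ) (X Z : F) (ρ : ℕ → ℚ) :
    coact s n (X + Z) ρ = coact s n X ρ + coact s n Z ρ := by
  funext q
  simp only [Pi.add_apply, B5_coact, map_add, add_mul, Finset.sum_add_distrib]

theorem coact_smul (s : Sq) (n : ℕ) (c : ℚ) (X : F) (ρ : ℕ → ℚ) :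
    coact s n (c • X) ρ = c • coact s n X ρ := by
  funext q
  simp only [Pi.smul_apply, B5_coact, map_smul, smul_eq_mul, Finset.mul_sum]
  refine Finset.sum_congr rfl fun p _ => ?_
  ring

theorem coact_zero (s : Sq) (n : ℕ) (ρ : ℕ → ℚ) : coact s n 0 ρ = 0 := by
  funext q
  simp only [Pi.zero_apply, B5_coact, map_zero, zero_mul, Finset.sum_const_zero]

theorem coact_add' (s : Sq) (n : ℕ) (X : F) (ρ φ : ℕ → ℚ) :
    coact s n X (ρ + φ) = coact s n X ρ + coact s n X φ := by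
  funext q
  simp only [Pi.add_apply, B5_coact, mul_add, Finset.sum_add_distrib]

theorem coact_smul' (s : Sq) (n : ℕ) (c : ℚ) (X : F) (ρ : ℕ → ℚ) :
    coact s n X (c • ρ) = c • coact s n X ρ := by
  funext q
  simp only [Pi.smul_apply, B5_coact, smul_eq_mul, Finset.mul_sum]
  refine Finset.sum_congr rfl fun p _ => ?_
  ring

theorem coact_zero' (s : Sq) (n : ℕ) (X : F) : coact s n X 0 = 0 := by
  funext q
  simp only [Pi.zero_apply, B5_coact, mul_zero, Finset.sum_const_zero]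

theorem bil_add_left (n : ℕ) (ψ φ ρ : ℕ → ℚ) : bil n (ψ + φ) ρ = bil n ψ ρ + bil n φ ρ := by
  simp only [B5_bil, Pi.add_apply, add_mul, Finset.sum_add_distrib]

theorem bil_smul_left (n : ℕ) (c : ℚ) (ψ ρ : ℕ → ℚ) : bil n (c • ψ) ρ = c * bil n ψ ρ := by
  simp only [B5_bil, Pi.smul_apply, smul_eq_mul, Finset.mul_sum, mul_assoc]

theorem bil_add_right (n : ℕ) (ψ φ ρ : ℕ → ℚ) : bil n ρ (ψ + φ) = bil n ρ ψ + bil n ρ φ := by
  simp only [B5_bil, Pi.add_apply, mul_add, Finset.sum_add_distrib]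

theorem bil_smul_right (n : ℕ) (c : ℚ) (ψ ρ : ℕ → ℚ) : bil n ψ (c • ρ) = c * bil n ψ ρ := by
  simp only [B5_bil, Pi.smul_apply, smul_eq_mul, Finset.mul_sum]
  refine Finset.sum_congr rfl fun p _ => ?_
  ring

/-- `act` as a sum over a larger range -/
theorem B5_act_range (s : Sq) (X : F) (ψ : ℕ → ℚ) {q m : ℕ} (h : q < m) :
    act s X ψ q = ∑ p ∈ Finset.range m, ψ p * ent s p q X := by
  rw [B5_act]
  refine Finset.sum_subset (Finset.range_mono (by omega)) fun p _ hp => ?_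
  rw [Finset.mem_range] at hp
  rw [ent_of_lt s (by omega), mul_zero]

/-- `coact` as a sum over a range -/
theorem B5_coact_range (s : Sq) (n : ℕ) (X : F) (ρ : ℕ → ℚ) (p : ℕ) :
    coact s n X ρ p = ∑ q ∈ Finset.range (n + 1), ent s p q X * ρ q := by
  rw [B5_coact]
  refine Finset.sum_subset (fun q hq => ?_) fun q hq hq' => ?_
  · rw [Finset.mem_Icc] at hq
    rw [Finset.mem_range]
    omega
  · rw [Finset.mem_range] at hq
    rw [Finset.mem_Icc] at hq'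
    rw [ent_of_lt s (by omega), zero_mul]

/-- the product formula as a sum over a range -/
theorem B5_ent_mul (s : Sq) {p r m : ℕ} (h : r < m) {X Z : F} (hX : X ∈ EY) (hZ : Z ∈ SX) :
    ent s p r (X * Z) = ∑ q ∈ Finset.range m, ent s p q X * ent s q r Z := by
  rw [ent_mul s p r hX hZ]
  refine Finset.sum_subset (fun q hq => ?_) fun q hq hq' => ?_
  · rw [Finset.mem_Icc] at hq
    rw [Finset.mem_range]
    omega
  · rw [Finset.mem_Icc] at hq'
    rcases Nat.lt_or_ge q p with h1 | h1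
    · rw [ent_of_lt s h1, zero_mul]
    · rw [ent_of_lt s (by omega : r < q), mul_zero]

theorem act_mul (s : Sq) {X Z : F} (hX : X ∈ EY) (hZ : Z ∈ SX) (ψ : ℕ → ℚ) :
    act s (X * Z) ψ = act s Z (act s X ψ) := by
  funext r
  rw [B5_act, B5_act]
  have h1 : ∀ p ∈ Finset.range (r + 1), ψ p * ent s p r (X * Z) =
      ∑ q ∈ Finset.range (r + 1), ψ p * ent s p q X * ent s q r Z := by
    intro p _
    rw [B5_ent_mul s (Nat.lt_succ_self r) hX hZ, Finset.mul_sum]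
    refine Finset.sum_congr rfl fun q _ => ?_
    rw [mul_assoc]
  rw [Finset.sum_congr rfl h1, Finset.sum_comm]
  refine Finset.sum_congr rfl fun q hq => ?_
  rw [Finset.mem_range] at hq
  rw [B5_act_range s X ψ hq, Finset.sum_mul]

theorem coact_mul (s : Sq) (n : ℕ) {X Z : F} (hX : X ∈ EY) (hZ : Z ∈ SX) (ρ : ℕ → ℚ) :
    coact s n (X * Z) ρ = coact s n X (coact s n Z ρ) := by
  funext p
  rw [B5_coact_range, B5_coact_range]
  have h1 : ∀ r ∈ Finset.range (n + 1), ent s p r (X * Z) * ρ r =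
      ∑ q ∈ Finset.range (n + 1), ent s p q X * (ent s q r Z * ρ r) := by
    intro r hr
    rw [Finset.mem_range] at hr
    rw [B5_ent_mul s hr hX hZ, Finset.sum_mul]
    refine Finset.sum_congr rfl fun q _ => ?_
    rw [mul_assoc]
  rw [Finset.sum_congr rfl h1, Finset.sum_comm]
  refine Finset.sum_congr rfl fun q _ => ?_
  rw [B5_coact_range, Finset.mul_sum]

theorem act_one (s : Sq) (ψ : ℕ → ℚ) : act s 1 ψ = ψ := by
  funext q
  rw [B5_act, Finset.sum_eq_single q]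
  · rw [ent_one, if_pos rfl, mul_one]
  · intro p _ hp
    rw [ent_one, if_neg hp, mul_zero]
  · intro h
    exact absurd (Finset.mem_range.2 (Nat.lt_succ_self q)) h

theorem coact_one (s : Sq) (n : ℕ) (ρ : ℕ → ℚ) (p : ℕ) (h : p ≤ n) :
    coact s n 1 ρ p = ρ p := by
  rw [B5_coact, Finset.sum_eq_single p]
  · rw [ent_one, if_pos rfl, one_mul]
  · intro q _ hq
    rw [ent_one, if_neg (Ne.symm hq), zero_mul]
  · intro h'
    exact absurd (Finset.mem_Icc.2 ⟨le_refl p, h⟩) h'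

theorem bil_act (s : Sq) (n : ℕ) (X : F) (ψ ρ : ℕ → ℚ) :
    bil n (act s X ψ) ρ = bil n ψ (coact s n X ρ) := by
  rw [B5_bil, B5_bil]
  have h1 : ∀ q ∈ Finset.range (n + 1), act s X ψ q * ρ q =
      ∑ p ∈ Finset.range (n + 1), ψ p * (ent s p q X * ρ q) := by
    intro q hq
    rw [Finset.mem_range] at hq
    rw [B5_act_range s X ψ hq, Finset.sum_mul]
    refine Finset.sum_congr rfl fun p _ => ?_
    rw [mul_assoc]
  rw [Finset.sum_congr rfl h1, Finset.sum_comm]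
  refine Finset.sum_congr rfl fun p _ => ?_
  rw [B5_coact_range, Finset.mul_sum]

theorem act_dl (s : Sq) (p q : ℕ) (X : F) : act s X (dl p) q = ent s p q X := by
  rw [B5_act]
  rcases Nat.lt_or_ge q p with h | h
  · rw [ent_of_lt s h]
    refine Finset.sum_eq_zero fun r hr => ?_
    rw [Finset.mem_range] at hr
    rw [dl, if_neg (by omega), zero_mul]
  · rw [Finset.sum_eq_single p]
    · rw [dl, if_pos rfl, one_mul]
    · intro r _ hr
      rw [dl, if_neg hr, zero_mul]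
    · intro h'
      exact absurd (Finset.mem_range.2 (Nat.lt_succ_of_le h)) h'

theorem coact_dl (s : Sq) {n q : ℕ} (h : q ≤ n) (p : ℕ) (X : F) :
    coact s n X (dl q) p = ent s p q X := by
  rw [B5_coact_range, Finset.sum_eq_single q]
  · rw [dl, if_pos rfl, mul_one]
  · intro r _ hr
    rw [dl, if_neg hr, mul_zero]
  · intro h'
    exact absurd (Finset.mem_range.2 (Nat.lt_succ_of_le h)) h'

theorem coact_one_n (s : Sq) {n p : ℕ} (h : p ≤ n) (X : F) :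
    coact s n X (one n) p = pair (W s p n) X := by
  rw [pair_W s h, B5_coact]
  refine Finset.sum_congr rfl fun q hq => ?_
  rw [Finset.mem_Icc] at hq
  rw [one, if_pos hq.2, mul_one]

theorem bil_dl (n p : ℕ) (h : p ≤ n) (ρ : ℕ → ℚ) : bil n (dl p) ρ = ρ p := by
  rw [B5_bil, Finset.sum_eq_single p]
  · rw [dl, if_pos rfl, one_mul]
  · intro r _ hr
    rw [dl, if_neg hr, zero_mul]
  · intro h'
    exact absurd (Finset.mem_range.2 (Nat.lt_succ_of_le h)) h'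

theorem bil_dl_right (n q : ℕ) (h : q ≤ n) (ψ : ℕ → ℚ) : bil n ψ (dl q) = ψ q := by
  rw [B5_bil, Finset.sum_eq_single q]
  · rw [dl, if_pos rfl, mul_one]
  · intro r _ hr
    rw [dl, if_neg hr, mul_zero]
  · intro h'
    exact absurd (Finset.mem_range.2 (Nat.lt_succ_of_le h)) h'

/-- the pairing with the word -/
theorem pair_eq_bil (s : Sq) (n : ℕ) (X : F) :
    pair (W s 0 n) X = bil n (act s X (dl 0)) (one n) := by
  rw [bil_act, bil_dl n 0 (Nat.zero_le n), coact_one_n s (Nat.zero_le n)]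

/-- in three pieces -/
theorem pair_mul3 (s : Sq) (n : ℕ) {X Z T : F} (hX : X ∈ P1) (hZ : Z ∈ P1) (hT : T ∈ P1) :
    pair (W s 0 n) (X * Z * T) = bil n (act s Z (act s X (dl 0))) (coact s n T (one n)) := by
  rw [pair_eq_bil, act_mul s (P1_le_EY (mul_mem_P1 hX hZ)) (P1_le_SX hT),
    act_mul s (P1_le_EY hX) (P1_le_SX hZ), bil_act]

theorem act_ne_zero (s : Sq) (X : F) (ψ : ℕ → ℚ) (q : ℕ) (h : act s X ψ q ≠ 0) :
    ∃ p, p ≤ q ∧ ψ p ≠ 0 ∧ ent s p q X ≠ 0 := by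
  rw [B5_act] at h
  obtain ⟨p, hp, hp'⟩ := Finset.exists_ne_zero_of_sum_ne_zero h
  rw [Finset.mem_range] at hp
  exact ⟨p, by omega, left_ne_zero_of_mul hp', right_ne_zero_of_mul hp'⟩

theorem coact_ne_zero (s : Sq) (n : ℕ) (X : F) (ρ : ℕ → ℚ) (p : ℕ) (h : coact s n X ρ p ≠ 0) :
    ∃ q, p ≤ q ∧ q ≤ n ∧ ent s p q X ≠ 0 ∧ ρ q ≠ 0 := by
  rw [B5_coact] at h
  obtain ⟨q, hq, hq'⟩ := Finset.exists_ne_zero_of_sum_ne_zero h
  rw [Finset.mem_Icc] at hq
  exact ⟨q, hq.1, hq.2, left_ne_zero_of_mul hq', right_ne_zero_of_mul hq'⟩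

theorem bil_ne_zero (n : ℕ) (ψ ρ : ℕ → ℚ) (h : bil n ψ ρ ≠ 0) : ∃ p, p ≤ n ∧ ψ p ≠ 0 ∧ ρ p ≠ 0 := by
  rw [B5_bil] at h
  obtain ⟨p, hp, hp'⟩ := Finset.exists_ne_zero_of_sum_ne_zero h
  rw [Finset.mem_range] at hp
  exact ⟨p, by omega, left_ne_zero_of_mul hp', right_ne_zero_of_mul hp'⟩

/-- `⟨ψ X, ρ⟩ ≠ 0` -/
theorem bil_act_ne_zero (s : Sq) (n : ℕ) (X : F) (ψ ρ : ℕ → ℚ) (h : bil n (act s X ψ) ρ ≠ 0) :
    ∃ p q, p ≤ q ∧ q ≤ n ∧ ψ p ≠ 0 ∧ ent s p q X ≠ 0 ∧ ρ q ≠ 0 := by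
  obtain ⟨q, hq, h1, h2⟩ := bil_ne_zero n _ ρ h
  obtain ⟨p, hp, h3, h4⟩ := act_ne_zero s X ψ q h1
  exact ⟨p, q, hp, hq, h3, h4, h2⟩

theorem exists_mn (ψ : ℕ → ℚ) (p : ℕ) (h : ψ p ≠ 0) : ∃ a, a ≤ p ∧ IsMn ψ a := by
  classical
  have hex : ∃ a, ψ a ≠ 0 := ⟨p, h⟩
  refine ⟨Nat.find hex, Nat.find_min' hex h, Nat.find_spec hex, fun b hb => ?_⟩
  by_contra hc
  exact Nat.find_min hex hb hc

theorem exists_mx (n : ℕ) (ρ : ℕ → ℚ) (q : ℕ) (hq : q ≤ n) (h : ρ q ≠ 0) :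
    ∃ a, q ≤ a ∧ IsMx n ρ a := by
  classical
  have hne : ((Finset.range (n + 1)).filter (fun a => ρ a ≠ 0)).Nonempty :=
    ⟨q, by rw [Finset.mem_filter, Finset.mem_range]; exact ⟨by omega, h⟩⟩
  have hmem := Finset.max'_mem _ hne
  rw [Finset.mem_filter, Finset.mem_range] at hmem
  refine ⟨((Finset.range (n + 1)).filter (fun a => ρ a ≠ 0)).max' hne, ?_, by omega, hmem.2,
    fun b hb hb' => ?_⟩
  · refine Finset.le_max' _ _ ?_
    rw [Finset.mem_filter, Finset.mem_range]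
    exact ⟨by omega, h⟩
  · by_contra hc
    have hb2 : b ∈ (Finset.range (n + 1)).filter (fun a => ρ a ≠ 0) := by
      rw [Finset.mem_filter, Finset.mem_range]
      exact ⟨by omega, hc⟩
    exact absurd (Finset.le_max' _ _ hb2) (by omega)

theorem mn_le {ψ : ℕ → ℚ} {a p : ℕ} (h : IsMn ψ a) (hp : ψ p ≠ 0) : a ≤ p := by
  by_contra hc
  exact hp (h.2 p (by omega))

theorem le_mx {n : ℕ} {ρ : ℕ → ℚ} {a q : ℕ} (h : IsMx n ρ a) (hq : q ≤ n) (hp : ρ q ≠ 0) :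
    q ≤ a := by
  by_contra hc
  exact hp (h.2.2 q (by omega) hq)

theorem mn_unique {ψ : ℕ → ℚ} {a b : ℕ} (h : IsMn ψ a) (h' : IsMn ψ b) : a = b :=
  le_antisymm (mn_le h h'.1) (mn_le h' h.1)

theorem mx_unique {n : ℕ} {ρ : ℕ → ℚ} {a b : ℕ} (h : IsMx n ρ a) (h' : IsMx n ρ b) : a = b :=
  le_antisymm (le_mx h' h.1 h.2.1) (le_mx h h'.1 h'.2.1)

theorem mn_dl (p : ℕ) : IsMn (dl p) p := by
  refine ⟨?_, fun q hq => ?_⟩
  · rw [dl, if_pos rfl]
    exact one_ne_zero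
  · rw [dl, if_neg (by omega)]

theorem mx_one (n : ℕ) : IsMx n (one n) n := by
  refine ⟨le_refl n, ?_, fun q hq hq' => absurd hq (by omega)⟩
  rw [one, if_pos (le_refl n)]
  exact one_ne_zero

end NF
end

section

/-! MP_24a659_al, job T1: tame sets. -/

set_option autoImplicit false

namespace NF

theorem T1_of_fintype {S : Set F} {σ : Type} [Fintype σ] (P : Mon → MvPolynomial σ ℚ)
    (h : ∀ Z ∈ S, ∃ θ : σ → ℚ, ∀ m, cf m Z = MvPolynomial.eval θ (P m)) : Tame S := by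
  refine ⟨Fintype.card σ, fun m => MvPolynomial.rename (Fintype.equivFin σ) (P m), ?_⟩
  intro Z hZ
  obtain ⟨θ, hθ⟩ := h Z hZ
  refine ⟨θ ∘ (Fintype.equivFin σ).symm, fun m => ?_⟩
  rw [MvPolynomial.eval_rename, hθ m]
  have : (θ ∘ ⇑(Fintype.equivFin σ).symm) ∘ ⇑(Fintype.equivFin σ) = θ := by
    funext i
    simp
  rw [this]

theorem Tame_sub {S T : Set F} (h : S ⊆ T) (hT : Tame T) : Tame S := by
  obtain ⟨d, P, hP⟩ := hT
  exact ⟨d, P, fun Z hZ => hP Z (h hZ)⟩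

theorem Tame_union {S T : Set F} (hS : Tame S) (hT : Tame T) : Tame (S ∪ T) := by
  obtain ⟨d, P, hP⟩ := hS
  obtain ⟨d', Q, hQ⟩ := hT
  refine T1_of_fintype (σ := Fin d ⊕ (Fin d' ⊕ Unit))
    (fun m => MvPolynomial.X (Sum.inr (Sum.inr ())) * MvPolynomial.rename Sum.inl (P m) +
      (1 - MvPolynomial.X (Sum.inr (Sum.inr ()))) *
        MvPolynomial.rename (fun i => Sum.inr (Sum.inl i)) (Q m)) ?_
  rintro Z (hZ | hZ)
  · obtain ⟨θ, hθ⟩ := hP Z hZ
    refine ⟨Sum.elim θ (Sum.elim (fun _ => 0) (fun _ => 1)), fun m => ?_⟩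
    rw [hθ m, map_add, map_mul, map_mul, map_sub, map_one, MvPolynomial.eval_X,
      MvPolynomial.eval_rename, Sum.elim_comp_inl]
    simp
  · obtain ⟨θ, hθ⟩ := hQ Z hZ
    refine ⟨Sum.elim (fun _ => 0) (Sum.elim θ (fun _ => 0)), fun m => ?_⟩
    have e : (Sum.elim (fun _ => 0) (Sum.elim θ (fun _ => 0)) : Fin d ⊕ (Fin d' ⊕ Unit) → ℚ) ∘
        (fun i => Sum.inr (Sum.inl i)) = θ := by
      funext i
      rfl
    rw [hθ m, map_add, map_mul, map_mul, map_sub, map_one, MvPolynomial.eval_X,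
      MvPolynomial.eval_rename, MvPolynomial.eval_rename, e]
    simp

theorem Tame_mul {S T : Set F} (hS : Tame S) (hT : Tame T) :
    Tame {Z | ∃ a ∈ S, ∃ b ∈ T, Z = a * b} := by
  obtain ⟨d, P, hP⟩ := hS
  obtain ⟨d', Q, hQ⟩ := hT
  refine T1_of_fintype (σ := Fin d ⊕ Fin d')
    (fun m => ∑ i ∈ Finset.range (m.toList.length + 1),
      MvPolynomial.rename Sum.inl (P (ofL (m.toList.take i))) *
        MvPolynomial.rename Sum.inr (Q (ofL (m.toList.drop i)))) ?_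
  rintro Z ⟨a, ha, b, hb, rfl⟩
  obtain ⟨θ, hθ⟩ := hP a ha
  obtain ⟨θ', hθ'⟩ := hQ b hb
  refine ⟨Sum.elim θ θ', fun m => ?_⟩
  rw [cf_mul, map_sum]
  refine Finset.sum_congr rfl (fun i _ => ?_)
  rw [map_mul, MvPolynomial.eval_rename, MvPolynomial.eval_rename, Sum.elim_comp_inl,
    Sum.elim_comp_inr, hθ, hθ']

theorem Tame_one : Tame {(1 : F)} := by
  refine ⟨0, fun m => MvPolynomial.C (cf m 1), ?_⟩
  intro Z hZ
  rw [Set.mem_singleton_iff] at hZ
  subst hZ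
  exact ⟨fun _ => 0, fun m => by rw [MvPolynomial.eval_C]⟩

/-- `a(a-1)/2` as a polynomial -/
noncomputable def T1_ch (i : Fin 2) : MvPolynomial (Fin 2) ℚ :=
  MvPolynomial.C (1 / 2) * (MvPolynomial.X i * (MvPolynomial.X i - 1))

theorem T1_eval_ch (i : Fin 2) (θ : Fin 2 → ℚ) (a : ℤ) (h : θ i = a) :
    MvPolynomial.eval θ (T1_ch i) = ch2 a := by
  unfold T1_ch ch2
  rw [map_mul, map_mul, map_sub, map_one, MvPolynomial.eval_X, MvPolynomial.eval_C, h]
  ring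

theorem Tame_pairs : Tame {Z | ∃ g : ℤ × ℤ, Z = E g} := by
  refine ⟨2, fun m =>
    MvPolynomial.C (cf m (mono (ofL [])))
    + MvPolynomial.X 0 * MvPolynomial.C (cf m (mono (ofL [false])))
    + T1_ch 0 * MvPolynomial.C (cf m (mono (ofL [false, false])))
    + MvPolynomial.X 1 * MvPolynomial.C (cf m (mono (ofL [true])))
    + (MvPolynomial.X 0 * MvPolynomial.X 1) * MvPolynomial.C (cf m (mono (ofL [false, true])))
    + (T1_ch 0 * MvPolynomial.X 1) * MvPolynomial.C (cf m (mono (ofL [false, false, true])))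
    + T1_ch 1 * MvPolynomial.C (cf m (mono (ofL [true, true])))
    + (MvPolynomial.X 0 * T1_ch 1) * MvPolynomial.C (cf m (mono (ofL [false, true, true])))
    + (T1_ch 0 * T1_ch 1) *
      MvPolynomial.C (cf m (mono (ofL [false, false, true, true]))), ?_⟩
  rintro Z ⟨g, rfl⟩
  refine ⟨![(g.1 : ℚ), (g.2 : ℚ)], fun m => ?_⟩
  have h0 : (![(g.1 : ℚ), (g.2 : ℚ)] : Fin 2 → ℚ) 0 = g.1 := rfl
  have h1 : (![(g.1 : ℚ), (g.2 : ℚ)] : Fin 2 → ℚ) 1 = g.2 := rfl
  rw [B3_expand]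
  simp only [map_add, map_mul, map_smul, MvPolynomial.eval_C, MvPolynomial.eval_X,
    T1_eval_ch 0 _ g.1 h0, T1_eval_ch 1 _ g.2 h1, h0, h1, smul_eq_mul]

end NF
end
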