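import Pool.Agent.Lib.MP_24a659_al.B4M
import Pool.Agent.Lib.MP_24a659_al.B2P
import Pool.Agent.Lib.MP_24a659_al.Nine5
import Pool.Agent.Lib.MP_24a659_al.T1

section

/-! MP_24a659_al, job BP1: exact entries of products of blocks (0.3). -/

set_option autoImplicit false

namespace NF

theorem BP1_block_ne {m : Mon} (hm : m ∈ blocks) : m ≠ 1 := by
  rintro rfl
  have h2 := hm
  simp only [blocks, Set.mem_insert_iff, Set.mem_singleton_iff] at h2
  rcases h2 with h | h | h | h <;>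
  · have h3 := congrArg (fun x : Mon => x.toList.length) h
    simp [ofL] at h3

theorem prod_blocks_mem {bl : List Mon} (hbl : ∀ m ∈ bl, m ∈ blocks) : mono bl.prod ∈ P1 := by
  refine mono_mem_sub ?_
  exact Submonoid.list_prod_mem _ fun m hm => Submonoid.subset_closure (hbl m hm)

/-- the entries of a product of `k` blocks vanish before `p + k`, the entry at `p + k` is the
product of the coefficients of the blocks -/
theorem ent_blocks (s : Sq) (bl : List Mon) (hbl : ∀ m ∈ bl, m ∈ blocks) (p : ℕ) :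
    (∀ q, q < p + bl.length → ent s p q (mono bl.prod) = 0) ∧
    ent s p (p + bl.length) (mono bl.prod) =
      ∏ i ∈ Finset.range bl.length, cf (bl.getD i 1) (E (s (p + i))) := by
  induction bl generalizing p with
  | nil =>
    constructor
    · intro q hq
      exact ent_of_lt s (by simpa using hq) _
    · simp only [List.length_nil, Nat.add_zero, List.prod_nil, Finset.range_zero,
        Finset.prod_empty]
      rw [mono_one, ent_one, if_pos rfl]
  | cons b bl ih =>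
    have hb : b ∈ blocks := hbl b (List.mem_cons_self)
    have hbl' : ∀ m ∈ bl, m ∈ blocks := fun m hm => hbl m (List.mem_cons_of_mem _ hm)
    have hX : mono b ∈ EY := P1_le_EY (mono_mem_sub (Submonoid.subset_closure hb))
    have hZ : mono bl.prod ∈ SX := P1_le_SX (prod_blocks_mem hbl')
    have heps : eps (mono b) = 0 := cf_mono_ne (BP1_block_ne hb)
    have ih' := fun p => ih hbl' p
    have hstep : ent s p (p + 1) (mono b) = cf b (E (s p)) := by
      rw [ent_step, heps, sub_zero, pair_mono]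
    constructor
    · intro q hq
      rw [List.prod_cons, ← mono_mul, ent_mul s p q hX hZ]
      refine Finset.sum_eq_zero fun r hr => ?_
      rw [Finset.mem_Icc] at hr
      rcases Nat.eq_or_lt_of_le hr.1 with h | h
      · subst h
        rw [ent_self, heps, zero_mul]
      · rw [(ih' r).1 q (by simp only [List.length_cons] at hq; omega), mul_zero]
    · rw [List.prod_cons, ← mono_mul, ent_mul s p _ hX hZ,
        Finset.sum_eq_single (p + 1)]
      · rw [hstep, List.length_cons, show p + (bl.length + 1) = p + 1 + bl.length by ring,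
          (ih' (p + 1)).2, Finset.prod_range_succ']
        simp only [List.getD_cons_zero, List.getD_cons_succ, Nat.add_zero]
        rw [mul_comm]
        congr 1
        refine Finset.prod_congr rfl fun i _ => ?_
        rw [show p + 1 + i = p + (i + 1) by ring]
      · intro r hr hr1
        rw [Finset.mem_Icc, List.length_cons] at hr
        rcases Nat.lt_or_ge r (p + 1) with h | h
        · have : r = p := by omega
          subst this
          rw [ent_self, heps, zero_mul]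
        · rw [(ih' r).1 _ (by simp only [List.length_cons]; omega), mul_zero]
      · intro h
        exact absurd (Finset.mem_Icc.2 ⟨by omega, by simp only [List.length_cons]; omega⟩) h

end NF
end

section

/-!
MP_24a659_al, paper 716, Section 9 in terms of the common definitions.
-/

set_option autoImplicit false

namespace NF

open Pool.MP_24a659_al

theorem nine_pair (Z X : F) : pair Z X = Nine.pair X Z := by
  induction X using MonoidAlgebra.induction_linear with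
  | zero => rw [map_zero, Nine.pair_zero_left]
  | add x y hx hy => rw [map_add, hx, hy, Nine.pair_add_left]
  | single m r =>
    rw [B1_single, map_smul, pair_mono, Nine.pair_smul_left, Nine.pair_single_left, one_mul,
      smul_eq_mul]
    rfl

theorem nine_Fk (B : ℕ) (X : F) : X ∈ Fk B ↔ X ∈ Nine.Len B := by
  unfold Fk
  rw [mem_sub_iff]
  rfl

theorem nine_TD (d : ℕ) (J : F) (hJ : J ∈ TD d) : J ∈ Nine.T d := by
  intro ρ
  ext i j : 1
  rw [Matrix.zero_apply]
  apply Polynomial.funext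
  intro r
  rw [Polynomial.eval_zero]
  let ev : Matrix (Fin d) (Fin d) (Polynomial ℚ) →ₐ[ℚ] Matrix (Fin d) (Fin d) ℚ :=
    (Polynomial.aeval r).mapMatrix
  have h := hJ.2 (ev.comp ρ)
  have h2 := congrFun (congrFun h i) j
  simpa [ev, Polynomial.aeval_def] using h2

theorem nine_K_step (T : Set F) (B : ℕ) (c v k : F) (hc : c ∈ Nine.Len B) (hv : v ∈ T)
    (hvB : v ∈ Nine.Len B) (hk : k ∈ Nine.K T B) : c * v * k ∈ Nine.K T B := by
  have hmap : Nine.K T B ≤ (Nine.K T B).comap (LinearMap.mulLeft ℚ (c * v)) := by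
    conv_lhs => rw [Nine.K]
    rw [Submodule.span_le]
    intro X hX
    exact Submodule.subset_span (Nine.KCh.step c v X hc hv hvB hX)
  exact hmap hk

theorem nine_KD (d B : ℕ) : KD d B ≤ Nine.K (Nine.T d) B := by
  unfold KD Gap
  apply iSup_le
  intro j
  unfold Gp
  induction j with
  | zero =>
      rw [pow_zero, mul_one]
      intro X hX
      exact Submodule.subset_span (Nine.KCh.base X ((nine_Fk B X).1 hX.2))
  | succ j ih =>
      set C := P1 ⊓ Fk B with hC
      set V := TD d ⊓ Fk B with hV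
      have e : C * (V * C) ^ (j + 1) = (C * V) * (C * (V * C) ^ j) := by
        rw [pow_succ']
        simp only [mul_assoc]
      rw [e, Submodule.mul_le]
      intro a ha b hb
      have hb' := ih hb
      have hmap : C * V ≤ (Nine.K (Nine.T d) B).comap (LinearMap.mulRight ℚ b) := by
        rw [Submodule.mul_le]
        intro c hc v hv
        exact nine_K_step _ B c v b ((nine_Fk B c).1 hc.2) (nine_TD d v hv.1)
          ((nine_Fk B v).1 hv.2) hb'
      exact hmap ha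

theorem nine_blocks (m : Mon) (hm : m ∈ Submonoid.closure blocks) :
    (m.toList = [] ∨ ∃ l, m.toList = false :: l) ∧ ∀ a : Bool, ¬ [a, a, a] <:+: m.toList := by
  induction hm using Submonoid.closure_induction_left with
  | one => exact ⟨Or.inl rfl, fun a h => by simp at h⟩
  | mul_left b hb m hm ih =>
      obtain ⟨h1, h2⟩ := ih
      have key : ∀ l : List Bool, (l = [] ∨ ∃ l', l = false :: l') →
          (∀ a : Bool, ¬ [a, a, a] <:+: l) →
          (∀ a : Bool, ¬ [a, a, a] <:+: [false, true] ++ l) ∧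
          (∀ a : Bool, ¬ [a, a, a] <:+: [false, false, true] ++ l) ∧
          (∀ a : Bool, ¬ [a, a, a] <:+: [false, true, true] ++ l) ∧
          (∀ a : Bool, ¬ [a, a, a] <:+: [false, false, true, true] ++ l) := by
        rintro l (rfl | ⟨l', rfl⟩) h
        · refine ⟨?_, ?_, ?_, ?_⟩ <;> intro a <;> cases a <;> decide
        · refine ⟨?_, ?_, ?_, ?_⟩ <;> intro a <;> have ha := h a <;>
            simp only [List.cons_append, List.nil_append, List.infix_cons_iff (a := _)] at ha ⊢ <;>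
            cases a <;> simp_all [List.cons_prefix_cons]
      have key' := key m.toList h1 h2
      rw [FreeMonoid.toList_mul]
      rcases hb with h | h | h | h <;> rw [h]
      · exact ⟨Or.inr ⟨_, rfl⟩, key'.1⟩
      · exact ⟨Or.inr ⟨_, rfl⟩, key'.2.1⟩
      · exact ⟨Or.inr ⟨_, rfl⟩, key'.2.2.1⟩
      · exact ⟨Or.inr ⟨_, rfl⟩, key'.2.2.2⟩

theorem nine_no_cube (X : F) (hX : X ∈ P1) (a : Bool) (u v : Mon) :
    X.coeff (u * (FreeMonoid.of a * FreeMonoid.of a * FreeMonoid.of a) * v) = 0 := by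
  by_contra h
  have h1 := (mem_sub_iff _ X).1 hX _ h
  have h2 := (nine_blocks _ h1).2 a
  apply h2
  refine ⟨u.toList, v.toList, ?_⟩
  simp [FreeMonoid.toList_mul]

theorem nine_Wn (s : Sq) (k : ℕ) : Wn s 0 k = ((List.range k).map (fun i => E (s i))).prod := by
  induction k with
  | zero => rfl
  | succ k ih =>
      rw [List.range_succ, List.map_append, List.prod_append, ← ih, Wn, zero_add]
      simp

theorem nine_E (g : ℤ × ℤ) : E g = Nine.bin Nine.x g.1 * Nine.bin Nine.y g.2 := by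
  unfold E Nine.bin ch2 X Y Nine.x Nine.y mono
  rw [sq, sq]

theorem nine_W (w : List (ℤ × ℤ)) :
    W (fun i => w.getD i (1, 1)) 0 w.length = Nine.E w := by
  unfold W
  rw [Nat.sub_zero, nine_Wn, Nine.E]
  congr 1
  apply List.ext_getElem
  · simp
  · intro i h1 h2
    simp only [List.length_map, List.length_range] at h1 h2
    simp only [List.getElem_map, List.getElem_range]
    rw [List.getD_eq_getElem _ _ h2, nine_E]

/-- Section 9: the frozen statement from the set of functionals. -/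
theorem nine (PHI : Set F) (hP : ∀ X ∈ PHI, X ∈ P1 ∧ eps X = 0)
    (h1 : ∀ d, ∃ B, ∀ X ∈ PHI, X ∈ KD d B)
    (h2 : ∀ s, nz s → ∀ n, 0 < n → ∃ X ∈ PHI, pair (W s 0 n) X ≠ 0) :
    ∃ (R : Type) (_ : NonUnitalRing R),
      (∀ x : R, IsNilpotent (Unitization.inr x : Unitization ℤ R)) ∧
      ∃ G : Subgroup (Unitization ℤ R)ˣ,
        (∀ g ∈ G, ∃ x : R, (g : Unitization ℤ R) = 1 + Unitization.inr x) ∧
        Group.FG G ∧ ¬ Group.IsNilpotent G ∧
        ∀ H : Subgroup (Unitization ℤ R)ˣ, H ≤ G →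
          (∀ a ∈ H, ∀ b ∈ H, a * b = b * a) →
          ∃ r : ℕ, ∀ K : Subgroup (Unitization ℤ R)ˣ, K ≤ H → K.FG →
            ∃ s : Finset (Unitization ℤ R)ˣ, s.card ≤ r ∧
              Subgroup.closure (s : Set (Unitization ℤ R)ˣ) = K := by
  refine Nine.nine PHI (fun X hX a u v => nine_no_cube X (hP X hX).1 a u v) ?_ ?_
  · intro D
    obtain ⟨B, hB⟩ := h1 D
    exact ⟨B, fun X hX => nine_KD D B (hB X hX)⟩
  · intro w hw hgood
    have hs : nz (fun i => w.getD i (1, 1)) := by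
      intro i
      by_cases hi : i < w.length
      · simp only [List.getD_eq_getElem _ _ hi]
        exact hgood _ (List.getElem_mem hi)
      · simp only [List.getD_eq_default _ _ (not_lt.1 hi)]
        exact ⟨one_ne_zero, one_ne_zero⟩
    obtain ⟨X, hX, hne⟩ := h2 _ hs w.length (List.length_pos_iff.2 hw)
    refine ⟨X, hX, (hP X hX).2, ?_⟩
    rw [nine_W, nine_pair] at hne
    exact hne

end NF

end

section

/-!
MP_24a659_al, paper 716, Section 8: the tower of packages gives the set of functionals.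
-/

set_option autoImplicit false

namespace NF.Tw

/-! ### Stars of submodules -/

theorem SMm {A B C D : Submodule ℚ F} (h : A ≤ B) (h' : C ≤ D) : A * C ≤ B * D :=
  mul_le_mul' h h'

theorem SMl {A B C : Submodule ℚ F} (h : A ≤ B) : A * C ≤ B * C := mul_le_mul' h le_rfl

theorem SMr {A B C : Submodule ℚ F} (h : B ≤ C) : A * B ≤ A * C := mul_le_mul' le_rfl h

/-- the span of all the powers -/
noncomputable def St (S : Submodule ℚ F) : Submodule ℚ F := ⨆ j : ℕ, S ^ j

theorem pow_le_St (S : Submodule ℚ F) (j : ℕ) : S ^ j ≤ St S := le_iSup (fun j : ℕ => S ^ j) j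

theorem one_le_St (S : Submodule ℚ F) : 1 ≤ St S := by
  have := pow_le_St S 0
  rwa [pow_zero] at this

theorem le_St (S : Submodule ℚ F) : S ≤ St S := by
  have := pow_le_St S 1
  rwa [pow_one] at this

theorem St_mul_St (S : Submodule ℚ F) : St S * St S ≤ St S := by
  unfold St
  rw [Submodule.iSup_mul]
  refine iSup_le fun i => ?_
  rw [Submodule.mul_iSup]
  refine iSup_le fun j => ?_
  rw [← pow_add]
  exact pow_le_St S (i + j)

theorem St_mono {S S' : Submodule ℚ F} (h : S ≤ S') : St S ≤ St S' :=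
  iSup_mono fun j => pow_le_pow_left' h j

/-- The star is contained in every multiplicatively closed space which contains `1` and `S`. -/
theorem mul_St_le {S T : Submodule ℚ F} (h : T * S ≤ T) : T * St S ≤ T := by
  unfold St
  rw [Submodule.mul_iSup]
  refine iSup_le fun j => ?_
  induction j with
  | zero => rw [pow_zero, mul_one]
  | succ j ih =>
      rw [pow_succ, ← mul_assoc]
      exact (SMl ih).trans h

theorem Gap_eq (C V : Submodule ℚ F) (B : ℕ) :
    Gap C V B = (C ⊓ Fk B) * St (V * (C ⊓ Fk B)) := by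
  unfold Gap Gp St
  rw [Submodule.mul_iSup]

theorem pow_swap (A B : Submodule ℚ F) (j : ℕ) : A * (B * A) ^ j = (A * B) ^ j * A := by
  induction j with
  | zero => rw [pow_zero, pow_zero, mul_one, one_mul]
  | succ j ih =>
      rw [pow_succ', pow_succ']
      calc A * (B * A * (B * A) ^ j) = A * B * (A * (B * A) ^ j) := by simp only [mul_assoc]
        _ = A * B * (A * B) ^ j * A := by rw [ih]; simp only [mul_assoc]

theorem Gap0_eq (C V : Submodule ℚ F) (B : ℕ) :
    Gap0 C V B = St (V * (C ⊓ Fk B)) * V := by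
  unfold Gap0 St
  rw [Submodule.iSup_mul]
  exact iSup_congr fun j => pow_swap V (C ⊓ Fk B) j

theorem Gap_mono {C C' V V' : Submodule ℚ F} {B B' : ℕ} (hC : C ≤ C') (hV : V ≤ V')
    (hB : B ≤ B') : Gap C V B ≤ Gap C' V' B' := by
  rw [Gap_eq, Gap_eq]
  have h1 : C ⊓ Fk B ≤ C' ⊓ Fk B' := inf_le_inf hC (Fk_mono hB)
  exact SMm h1 (St_mono (SMm hV h1))

theorem Gap0_mono {C C' V V' : Submodule ℚ F} {B B' : ℕ} (hC : C ≤ C') (hV : V ≤ V')
    (hB : B ≤ B') : Gap0 C V B ≤ Gap0 C' V' B' := by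
  rw [Gap0_eq, Gap0_eq]
  have h1 : C ⊓ Fk B ≤ C' ⊓ Fk B' := inf_le_inf hC (Fk_mono hB)
  exact SMm (St_mono (SMm hV h1)) hV

section gapfacts

variable {C V : Submodule ℚ F} {B : ℕ}

theorem one_mem_inf (h1 : (1 : F) ∈ C) : 1 ≤ C ⊓ Fk B := by
  rw [Submodule.one_le]
  exact ⟨h1, one_mem_Fk B⟩

theorem one_mem_Gap (h1 : (1 : F) ∈ C) : (1 : F) ∈ Gap C V B := by
  rw [← Submodule.one_le, Gap_eq]
  calc (1 : Submodule ℚ F) = 1 * 1 := (mul_one 1).symm
    _ ≤ _ := SMm (one_mem_inf h1) (one_le_St _)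

theorem inf_le_Gap : C ⊓ Fk B ≤ Gap C V B := by
  rw [Gap_eq]
  calc C ⊓ Fk B = (C ⊓ Fk B) * 1 := (mul_one _).symm
    _ ≤ _ := SMr (one_le_St _)

theorem le_Gap0 : V ≤ Gap0 C V B := by
  rw [Gap0_eq]
  calc V = 1 * V := (one_mul _).symm
    _ ≤ _ := SMl (one_le_St _)

theorem Gap0_le_Gap (h1 : (1 : F) ∈ C) : Gap0 C V B ≤ Gap C V B := by
  rw [Gap0_eq, Gap_eq]
  set P := C ⊓ Fk B with hP
  have h := one_mem_inf (B := B) h1
  rw [← hP] at h
  calc St (V * P) * V = 1 * (St (V * P) * (V * 1)) := by rw [one_mul, mul_one]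
    _ ≤ P * (St (V * P) * (V * P)) :=
        SMm h (SMr (SMr h))
    _ ≤ P * (St (V * P) * St (V * P)) :=
        SMr (SMr (le_St _))
    _ ≤ P * St (V * P) := SMr (St_mul_St _)

theorem Gap_CDC : Gap C V B * Gap0 C V B * Gap C V B ≤ Gap C V B := by
  rw [Gap0_eq, Gap_eq]
  set P := C ⊓ Fk B
  calc P * St (V * P) * (St (V * P) * V) * (P * St (V * P))
      = P * (St (V * P) * St (V * P)) * ((V * P) * St (V * P)) := by simp only [mul_assoc]
    _ ≤ P * St (V * P) * (St (V * P) * St (V * P)) :=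
        SMm (SMr (St_mul_St _))
          (SMl (le_St _))
    _ ≤ P * St (V * P) * St (V * P) := SMr (St_mul_St _)
    _ = P * (St (V * P) * St (V * P)) := mul_assoc _ _ _
    _ ≤ P * St (V * P) := SMr (St_mul_St _)

theorem Gap_DCD : Gap0 C V B * Gap C V B * Gap0 C V B ≤ Gap0 C V B := by
  rw [Gap0_eq, Gap_eq]
  set P := C ⊓ Fk B
  calc St (V * P) * V * (P * St (V * P)) * (St (V * P) * V)
      = St (V * P) * ((V * P) * (St (V * P) * St (V * P))) * V := by simp only [mul_assoc]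
    _ ≤ St (V * P) * (St (V * P) * St (V * P)) * V :=
        SMl (SMr
          (SMm (le_St _) (St_mul_St _)))
    _ ≤ St (V * P) * St (V * P) * V :=
        SMl (SMr (St_mul_St _))
    _ ≤ St (V * P) * V := SMl (St_mul_St _)

theorem Gap_le_of {K K0 : Submodule ℚ F} (hC : C ≤ K) (hV : V ≤ K0) (h : K * K0 * K ≤ K) :
    Gap C V B ≤ K := by
  rw [Gap_eq]
  refine (SMl (inf_le_left.trans hC)).trans (mul_St_le ?_)
  rw [← mul_assoc]
  exact (SMm (SMr hV) (inf_le_left.trans hC)).trans h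

theorem Gap0_le_of {K K0 : Submodule ℚ F} (hC : C ≤ K) (hV : V ≤ K0) (h : K0 * K * K0 ≤ K0) :
    Gap0 C V B ≤ K0 := by
  unfold Gap0
  refine iSup_le fun j => ?_
  refine (SMl hV).trans ?_
  refine (SMr (pow_le_St _ j)).trans (mul_St_le ?_)
  rw [← mul_assoc]
  exact (SMm (SMr (inf_le_left.trans hC)) hV).trans h

theorem Gap_le_P1 (hC : C ≤ P1) (hV : V ≤ P1) : Gap C V B ≤ P1 :=
  Gap_le_of hC hV ((SMl P1_mul).trans P1_mul)

/-- the base spaces of the restart -/
theorem Base_Gap (hC : C ≤ P1) (hV : V ≤ P1) (h1 : (1 : F) ∈ C) :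
    Base (Gap C V B) (Gap0 C V B) where
  one_C := one_mem_Gap h1
  D_le := Gap0_le_Gap h1
  CDC := Gap_CDC
  DCD := Gap_DCD
  C_le := Gap_le_P1 hC hV

end gapfacts

/-! ### Doubling -/

theorem ent_span {S : Submodule ℚ F} {s : Sq} {p q : ℕ} {P : Submodule ℚ F} (hS : P ≤ S)
    (h : ∀ X ∈ S, ent s p q X = 0) : ∀ X ∈ P, ent s p q X = 0 := fun X hX => h X (hS hX)

theorem Vis_mul {V V' P : Submodule ℚ F} (hV : V ≤ P1) (hV' : V' ≤ P1) (hP : P ≤ P1)
    {s : Sq} {p q : ℕ} (h : Vis (V * P * V') s p q) :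
    ∃ a b, a ≤ b ∧ Vis V s p a ∧ Vis V' s b q := by
  by_contra hcon
  push Not at hcon
  obtain ⟨J, hJ, hne⟩ := h
  apply hne
  have hle : V * P * V' ≤ LinearMap.ker (ent s p q) := by
    rw [Submodule.mul_le]
    intro X hX J' hJ'
    have hX1 : X ∈ P1 := ((SMm hV hP).trans P1_mul) hX
    rw [LinearMap.mem_ker, ent_mul s p q (P1_le_EY hX1) (P1_le_SX (hV' hJ'))]
    apply Finset.sum_eq_zero
    intro b _
    by_cases hb : ent s b q J' = 0
    · rw [hb, mul_zero]
    · have hVb : Vis V' s b q := ⟨J', hJ', hb⟩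
      have hle2 : V * P ≤ LinearMap.ker (ent s p b) := by
        rw [Submodule.mul_le]
        intro J1 hJ1 Z hZ
        rw [LinearMap.mem_ker, ent_mul s p b (P1_le_EY (hV hJ1)) (P1_le_SX (hP hZ))]
        apply Finset.sum_eq_zero
        intro a _
        by_cases ha : ent s p a J1 = 0
        · rw [ha, zero_mul]
        · by_cases hab : a ≤ b
          · exact absurd hVb (hcon a b hab ⟨J1, hJ1, ha⟩)
          · rw [ent_of_lt s (not_le.1 hab), mul_zero]
      have := hle2 hX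
      rw [LinearMap.mem_ker] at this
      rw [this, zero_mul]
  exact hle hJ

theorem Vis_lt {V : Submodule ℚ F} (hV : ∀ J ∈ V, eps J = 0) {s : Sq} {p q : ℕ}
    (h : Vis V s p q) : p < q := by
  obtain ⟨J, hJ, hne⟩ := h
  by_contra hlt
  rcases Nat.lt_or_eq_of_le (not_lt.1 hlt) with h1 | h1
  · exact hne (ent_of_lt s h1 J)
  · subst h1
    exact hne (by rw [ent_self]; exact hV J hJ)

end NF.Tw

namespace NF

open Tw

/-- The tower of packages. -/
theorem tower
    (repl : ∀ S, Tame S → ∀ C k, ∃ B, Repl S C k B)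
    (base : ∃ V0, Pkg P1 P1 V0)
    (stage : ∀ C U V, Pkg C U V → ∀ D, ∃ C' U' V' B, Pkg C' U' V' ∧ V' ≤ TD D ∧
      C' ≤ Gap C V B ∧ V' ≤ Gap0 C V B ∧ V' ≤ V * P1 * V) :
    ∃ (R : Type) (_ : NonUnitalRing R),
      (∀ x : R, IsNilpotent (Unitization.inr x : Unitization ℤ R)) ∧
      ∃ G : Subgroup (Unitization ℤ R)ˣ,
        (∀ g ∈ G, ∃ x : R, (g : Unitization ℤ R) = 1 + Unitization.inr x) ∧
        Group.FG G ∧ ¬ Group.IsNilpotent G ∧
        ∀ H : Subgroup (Unitization ℤ R)ˣ, H ≤ G →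
          (∀ a ∈ H, ∀ b ∈ H, a * b = b * a) →
          ∃ r : ℕ, ∀ K : Subgroup (Unitization ℤ R)ˣ, K ≤ H → K.FG →
            ∃ s : Finset (Unitization ℤ R)ˣ, s.card ≤ r ∧
              Subgroup.closure (s : Set (Unitization ℤ R)ˣ) = K := by
  classical
  -- the sequence of packages
  let Stg : Type := {T : Submodule ℚ F × Submodule ℚ F × Submodule ℚ F // Pkg T.1 T.2.1 T.2.2}
  have hnext : ∀ (D : ℕ) (T : Stg), ∃ T' : Stg, T'.1.2.2 ≤ TD D ∧ ∃ B,
      T'.1.1 ≤ Gap T.1.1 T.1.2.2 B ∧ T'.1.2.2 ≤ Gap0 T.1.1 T.1.2.2 B ∧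
      T'.1.2.2 ≤ T.1.2.2 * P1 * T.1.2.2 := by
    rintro D ⟨⟨C, U, V⟩, hT⟩
    obtain ⟨C', U', V', B, h1, h2, h3, h4, h5⟩ := stage C U V hT D
    exact ⟨⟨(C', U', V'), h1⟩, h2, B, h3, h4, h5⟩
  obtain ⟨V0, hV0⟩ := base
  choose nxt hTD bB hC hV hVV using hnext
  let T : ℕ → Stg := fun j => Nat.rec ⟨(P1, P1, V0), hV0⟩ (fun j t => nxt (j + 1) t) j
  have hT : ∀ j, T (j + 1) = nxt (j + 1) (T j) := fun j => rfl
  set Cs : ℕ → Submodule ℚ F := fun j => (T j).1.1 with hCs
  set Vs : ℕ → Submodule ℚ F := fun j => (T j).1.2.2 with hVs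
  have hpkg : ∀ j, Pkg (Cs j) (T j).1.2.1 (Vs j) := fun j => (T j).2
  have hC1 : ∀ j, ∃ B, Cs (j + 1) ≤ Gap (Cs j) (Vs j) B ∧ Vs (j + 1) ≤ Gap0 (Cs j) (Vs j) B :=
    fun j => ⟨bB (j + 1) (T j), hC (j + 1) (T j), hV (j + 1) (T j)⟩
  have hVV' : ∀ j, Vs (j + 1) ≤ Vs j * P1 * Vs j := fun j => hVV (j + 1) (T j)
  have hVT : ∀ j, Vs j ≤ TD j := by
    intro j
    cases j with
    | zero =>
        intro X hX
        exact ⟨(hpkg 0).V_le hX, fun φ => Subsingleton.elim _ _⟩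
    | succ j => exact hTD (j + 1) (T j)
  -- `C_j ≤ K(D, B_D)` for `j > D`
  have hK : ∀ D, ∃ B, ∀ j, D < j → Cs j ≤ KD D B := by
    intro D
    obtain ⟨l, hl⟩ := (hpkg D).V_bdd
    obtain ⟨b, hb1, hb2⟩ := hC1 D
    refine ⟨max l b, ?_⟩
    have hVB : Vs D ≤ TD D ⊓ Fk (max l b) :=
      le_inf (hVT D) (hl.trans (Fk_mono (le_max_left _ _)))
    have hTP : TD D ⊓ Fk (max l b) ≤ P1 := fun X hX => hX.1.1
    have key : ∀ i, Cs (D + 1 + i) ≤ KD D (max l b) ∧
        Vs (D + 1 + i) ≤ Gap0 P1 (TD D ⊓ Fk (max l b)) (max l b) := by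
      intro i
      induction i with
      | zero =>
          exact ⟨hb1.trans (Gap_mono (hpkg D).C_le hVB (le_max_right _ _)),
            hb2.trans (Gap0_mono (hpkg D).C_le hVB (le_max_right _ _))⟩
      | succ i ih =>
          obtain ⟨b', hb1', hb2'⟩ := hC1 (D + 1 + i)
          exact ⟨hb1'.trans (Gap_le_of ih.1 ih.2 Gap_CDC),
            hb2'.trans (Gap0_le_of ih.1 ih.2 Gap_DCD)⟩
    intro j hj
    obtain ⟨i, rfl⟩ := Nat.exists_eq_add_of_lt hj
    have := (key i).1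
    rwa [show D + 1 + i = D + i + 1 by omega] at this
  -- doubling
  have hdbl : ∀ j s p q, Vis (Vs j) s p q → 2 ^ j ≤ q - p := by
    intro j
    induction j with
    | zero =>
        intro s p q h
        have := Vis_lt (hpkg 0).V_eps h
        rw [pow_zero]; omega
    | succ j ih =>
        intro s p q h
        obtain ⟨J, hJ, hne⟩ := h
        obtain ⟨a, b, hab, h1, h2⟩ := Vis_mul (hpkg j).V_le (hpkg j).V_le le_rfl
          ⟨J, hVV' j hJ, hne⟩
        have h3 := ih s p a h1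
        have h4 := ih s b q h2
        have h5 := Vis_lt (hpkg j).V_eps h1
        have h6 := Vis_lt (hpkg j).V_eps h2
        rw [pow_succ]; omega
  -- replacement bounds
  have hrepl : ∀ j, ∃ β, Repl (thinE (Vs j) 0) (Cs j ⊓ LinearMap.ker eps) 0 β := fun j =>
    repl _ (hpkg j).N _ _
  choose β hβ using hrepl
  let PHI : Set F := {X | ∃ j, X ∈ Cs j ∧ eps X = 0 ∧ X ∈ Fk (β j)}
  refine nine PHI ?_ ?_ ?_
  · rintro X ⟨j, h1, h2, _⟩
    exact ⟨(hpkg j).C_le h1, h2⟩
  · intro D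
    obtain ⟨B, hB⟩ := hK D
    refine ⟨max B ((Finset.range (D + 1)).sup β), ?_⟩
    rintro X ⟨j, h1, h2, h3⟩
    by_cases hj : D < j
    · refine Gap_mono le_rfl ?_ (le_max_left _ _) (hB j hj h1)
      exact inf_le_inf le_rfl (Fk_mono (le_max_left _ _))
    · have hle : β j ≤ (Finset.range (D + 1)).sup β :=
        Finset.le_sup (Finset.mem_range.2 (by omega))
      exact inf_le_Gap ⟨(hpkg j).C_le h1, Fk_mono (hle.trans (le_max_right _ _)) h3⟩
  · intro s hs n hn
    have hlt : n < 2 ^ n := Nat.lt_two_pow_self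
    have hnull : ¬ Fits (Vs n) s (0 + 1) 0 n := by
      rintro ⟨p1, q1, _, h2, h3⟩
      have h4 := hdbl n s p1 q1 h2
      have h5 : q1 ≤ n := h3
      omega
    obtain ⟨X, hX, hX0, hne⟩ := (hpkg n).E s hs 0 n hn
    have hZ : W s 0 n ∈ thinE (Vs n) 0 := ⟨s, 0, n, hs, Nat.zero_le n, hnull, rfl⟩
    obtain ⟨X', hX', h⟩ := hβ n _ hZ _ hZ X ⟨hX, hX0⟩
    refine ⟨X', ⟨n, hX'.1.1, hX'.1.2, hX'.2⟩, ?_⟩
    have h1 := (h 1 (one_mem_Fk 0) 1 (one_mem_Fk 0)).1
    rw [one_mul, mul_one, one_mul, mul_one] at h1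
    rw [h1]
    exact hne

end NF
end

section

/-!
MP_24a659_al, paper 716, Section 8: a stage of the tower from the single steps.
-/

set_option autoImplicit false

namespace NF

open Tw

/-- the constant functions of a space of killers have rank `0` -/
theorem Rk_const {C U V : Submodule ℚ F} (h : Pkg C U V) {l : ℕ} (hl : V ≤ Fk l) (B : ℕ) :
    Rk 0 l (Gap C V B) (Gap0 C V B) U V {f | ∃ J ∈ V, f = fun _ => J} where
  V_le := le_Gap0
  V_len := hl
  gen := by
    intro J hJ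
    exact Submodule.subset_span ⟨hJ, fun _ => J, ⟨J, hJ, rfl⟩, fun k => k.elim0,
      fun k => k.elim0, rfl⟩
  slot := by
    intro f _ l' u _ k
    exact k.elim0
  val := by
    rintro f ⟨J, hJ, rfl⟩ l' u _
    refine ⟨le_Gap0 hJ, Fk_mono ?_ (hl hJ)⟩
    omega
  PU := by
    rintro f ⟨J, hJ, rfl⟩ u _
    exact h.V_PU hJ
  UP := by
    rintro f ⟨J, hJ, rfl⟩ u _
    exact h.V_UP hJ
  cont := by
    rintro f ⟨J, hJ, rfl⟩ G _ hG e u _
    rw [Finset.univ_eq_empty, Finset.sum_empty]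
    exact hG (h.V_le hJ)
  alt := by
    rintro f ⟨J, hJ, rfl⟩ d φ
    exact ⟨AlternatingMap.constOfIsEmpty ℚ (Matrix (Fin d) (Fin d) ℚ) (Fin 0) (φ J),
      fun _ => rfl⟩

/-- killers of rank larger than `d^2` vanish in dimension `d` -/
theorem Rk_TD {m l : ℕ} {Cb Db U V : Submodule ℚ F} {R : Set ((Fin m → F) → F)} (hV : V ≤ P1)
    (h : Rk m l Cb Db U V R) (d : ℕ) (hd : d ^ 2 < m) : V ≤ TD d := by
  refine h.gen.trans ?_
  rw [Submodule.span_le]
  rintro x ⟨hx, f, hf, u, hu, rfl⟩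
  refine ⟨hV hx, fun φ => ?_⟩
  obtain ⟨g, hg⟩ := h.alt f hf d φ
  rw [hg]
  apply g.map_linearDependent
  intro hli
  have h1 := hli.fintype_card_le_finrank
  rw [Module.finrank_matrix, Module.finrank_self, Fintype.card_fin, Fintype.card_fin,
    mul_one] at h1
  rw [sq] at hd
  omega

theorem stage_of_step
    (step : ∀ C U V, Pkg C U V → ∀ m l, ∃ B, ∀ Cb Db R, Base Cb Db → Rk m l Cb Db U V R →
      C ⊓ Fk B ≤ Cb → ∃ U' V' R' l', Pkg (Gap C V B) U' V' ∧ Rk (m + 1) l' Cb Db U' V' R' ∧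
      V' ≤ V * P1 * V)
    (C U V : Submodule ℚ F) (h : Pkg C U V) (D : ℕ) :
    ∃ C' U' V' B, Pkg C' U' V' ∧ V' ≤ TD D ∧ C' ≤ Gap C V B ∧ V' ≤ Gap0 C V B ∧
      V' ≤ V * P1 * V := by
  obtain ⟨l, hl⟩ := h.V_bdd
  obtain ⟨B, hB⟩ := step C U V h 0 l
  have hbase : Base (Gap C V B) (Gap0 C V B) := Base_Gap h.C_le h.V_le h.one_mem
  have hVPV : V * P1 * V ≤ P1 := ((SMl ((SMl h.V_le).trans P1_mul)).trans
    (SMr h.V_le)).trans P1_mul
  have key : ∀ n : ℕ, ∃ (C' U' V' : Submodule ℚ F) (R' : Set ((Fin (n + 1) → F) → F)) (l' : ℕ),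
      Pkg C' U' V' ∧ Rk (n + 1) l' (Gap C V B) (Gap0 C V B) U' V' R' ∧ C' ≤ Gap C V B ∧
      V' ≤ V * P1 * V := by
    intro n
    induction n with
    | zero =>
        obtain ⟨U', V', R', l', h1, h2, h3⟩ := hB _ _ _ hbase (Rk_const h hl B) inf_le_Gap
        exact ⟨Gap C V B, U', V', R', l', h1, h2, le_rfl, h3⟩
    | succ n ih =>
        obtain ⟨C1, U1, V1, R1, l1, h1, h2, h3, h4⟩ := ih
        obtain ⟨B1, hB1⟩ := step C1 U1 V1 h1 (n + 1) l1
        obtain ⟨U', V', R', l', h5, h6, h7⟩ := hB1 _ _ _ hbase h2 (inf_le_left.trans h3)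
        refine ⟨Gap C1 V1 B1, U', V', R', l', h5, h6, Gap_le_of h3 h2.V_le hbase.CDC, ?_⟩
        refine h7.trans ?_
        have e1 : V1 * P1 * V1 ≤ V * P1 * V * P1 * (V * P1 * V) := SMm (SMl h4) h4
        refine e1.trans ?_
        have e2 : V * P1 * V * P1 * (V * P1 * V) = V * (P1 * (V * P1 * V * P1)) * V := by
          simp only [mul_assoc]
        rw [e2]
        refine SMl (SMr ?_)
        exact (SMr ((SMl hVPV).trans P1_mul)).trans P1_mul
  obtain ⟨C', U', V', R', l', h1, h2, h3, h4⟩ := key (D ^ 2)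
  exact ⟨C', U', V', B, h1, Rk_TD h1.V_le h2 D (Nat.lt_succ_self _), h3, h2.V_le, h4⟩

/-- Everything after the single step: Sections 8 and 9. -/
theorem final_of_step
    (repl : ∀ S, Tame S → ∀ C k, ∃ B, Repl S C k B)
    (base : ∃ V0, Pkg P1 P1 V0)
    (step : ∀ C U V, Pkg C U V → ∀ m l, ∃ B, ∀ Cb Db R, Base Cb Db → Rk m l Cb Db U V R →
      C ⊓ Fk B ≤ Cb → ∃ U' V' R' l', Pkg (Gap C V B) U' V' ∧ Rk (m + 1) l' Cb Db U' V' R' ∧
      V' ≤ V * P1 * V) :
    ∃ (R : Type) (_ : NonUnitalRing R),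
      (∀ x : R, IsNilpotent (Unitization.inr x : Unitization ℤ R)) ∧
      ∃ G : Subgroup (Unitization ℤ R)ˣ,
        (∀ g ∈ G, ∃ x : R, (g : Unitization ℤ R) = 1 + Unitization.inr x) ∧
        Group.FG G ∧ ¬ Group.IsNilpotent G ∧
        ∀ H : Subgroup (Unitization ℤ R)ˣ, H ≤ G →
          (∀ a ∈ H, ∀ b ∈ H, a * b = b * a) →
          ∃ r : ℕ, ∀ K : Subgroup (Unitization ℤ R)ˣ, K ≤ H → K.FG →
            ∃ s : Finset (Unitization ℤ R)ˣ, s.card ≤ r ∧
              Subgroup.closure (s : Set (Unitization ℤ R)ˣ) = K :=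
  tower repl base (fun C U V h D => stage_of_step step C U V h D)

end NF
end

section

/-! MP_24a659_al, job BP2: the base package (Section 3). -/

set_option autoImplicit false

namespace NF

/-- the product of the blocks `c 0 ... c (k-1)` -/
noncomputable def BP2_X (c : ℕ → Mon) (k : ℕ) : F := mono ((List.range k).map c).prod

theorem BP2_mem (c : ℕ → Mon) (hc : ∀ i, c i ∈ blocks) (k : ℕ) :
    ∀ m ∈ (List.range k).map c, m ∈ blocks := by
  intro m hm
  rw [List.mem_map] at hm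
  obtain ⟨i, _, rfl⟩ := hm
  exact hc i

theorem BP2_X_mem (c : ℕ → Mon) (hc : ∀ i, c i ∈ blocks) (k : ℕ) : BP2_X c k ∈ P1 :=
  prod_blocks_mem (BP2_mem c hc k)

theorem BP2_ent_lt (s : Sq) (c : ℕ → Mon) (hc : ∀ i, c i ∈ blocks) (k p q : ℕ)
    (h : q < p + k) : ent s p q (BP2_X c k) = 0 := by
  refine (ent_blocks s _ (BP2_mem c hc k) p).1 q ?_
  rw [List.length_map, List.length_range]
  exact h

theorem BP2_ent_eq (s : Sq) (c : ℕ → Mon) (hc : ∀ i, c i ∈ blocks) (k p : ℕ) :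
    ent s p (p + k) (BP2_X c k) = ∏ i ∈ Finset.range k, cf (c i) (E (s (p + i))) := by
  have h := (ent_blocks s _ (BP2_mem c hc k) p).2
  rw [List.length_map, List.length_range] at h
  rw [BP2_X, h]
  refine Finset.prod_congr rfl fun i hi => ?_
  rw [Finset.mem_range] at hi
  congr 1
  rw [List.getD_eq_getElem?_getD, List.getElem?_map, List.getElem?_range hi]
  rfl

/-- only one entry contributes -/
theorem BP2_bil (s : Sq) (n : ℕ) (c : ℕ → Mon) (hc : ∀ i, c i ∈ blocks) (k a : ℕ)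
    (ψ ρ : ℕ → ℚ) (hψ : IsMn ψ a) (hρ : IsMx n ρ (a + k)) :
    bil n (act s (BP2_X c k) ψ) ρ =
      ψ a * (∏ i ∈ Finset.range k, cf (c i) (E (s (a + i)))) * ρ (a + k) := by
  rw [← BP2_ent_eq s c hc k a, B5_bil, Finset.sum_eq_single (a + k)]
  · congr 1
    rw [B5_act, Finset.sum_eq_single a]
    · intro p hp hpa
      rcases Nat.lt_or_ge p a with h | h
      · rw [hψ.2 p h, zero_mul]
      · rw [BP2_ent_lt s c hc k p _ (by omega), mul_zero]
    · intro h
      exact absurd (Finset.mem_range.2 (by omega)) h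
  · intro q hq hqa
    rw [Finset.mem_range] at hq
    rcases Nat.lt_or_ge (a + k) q with h | h
    · rw [hρ.2.2 q h (by omega), mul_zero]
    · have h0 : act s (BP2_X c k) ψ q = 0 := by
        rw [B5_act]
        refine Finset.sum_eq_zero fun p _ => ?_
        rcases Nat.lt_or_ge p a with h1 | h1
        · rw [hψ.2 p h1, zero_mul]
        · rw [BP2_ent_lt s c hc k p _ (by omega), mul_zero]
      rw [h0, zero_mul]
  · intro h
    exact absurd (Finset.mem_range.2 (Nat.lt_succ_of_le hρ.1)) h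

/-- a non zero value gives room -/
theorem BP2_room (s : Sq) (n : ℕ) (c : ℕ → Mon) (hc : ∀ i, c i ∈ blocks) (k a a' : ℕ)
    (ψ ρ : ℕ → ℚ) (hψ : IsMn ψ a) (hρ : IsMx n ρ a')
    (h : bil n (act s (BP2_X c k) ψ) ρ ≠ 0) : a + k ≤ a' := by
  by_contra hcon
  refine h ?_
  rw [B5_bil]
  refine Finset.sum_eq_zero fun q hq => ?_
  rw [Finset.mem_range] at hq
  rcases Nat.lt_or_ge a' q with h2 | h2
  · rw [hρ.2.2 q h2 (by omega), mul_zero]
  · have h0 : act s (BP2_X c k) ψ q = 0 := by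
      rw [B5_act]
      refine Finset.sum_eq_zero fun p _ => ?_
      rcases Nat.lt_or_ge p a with h1 | h1
      · rw [hψ.2 p h1, zero_mul]
      · rw [BP2_ent_lt s c hc k p _ (by omega), mul_zero]
    rw [h0, zero_mul]

/-- the block `xy` -/
def BP2_xy : Mon := ofL [false, true]
/-- the block `xxy` -/
def BP2_xxy : Mon := ofL [false, false, true]
/-- the block `xyy` -/
def BP2_xyy : Mon := ofL [false, true, true]

theorem BP2_xy_mem : BP2_xy ∈ blocks := Or.inl rfl
theorem BP2_xxy_mem : BP2_xxy ∈ blocks := Or.inr (Or.inl rfl)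
theorem BP2_xyy_mem : BP2_xyy ∈ blocks := Or.inr (Or.inr (Or.inl rfl))

theorem BP2_cf_xy (s : Sq) (hs : nz s) (i : ℕ) : cf BP2_xy (E (s i)) ≠ 0 := by
  have h := cf_E_xy (s i)
  rw [BP2_xy, h]
  exact mul_ne_zero (Int.cast_ne_zero.2 (hs i).1) (Int.cast_ne_zero.2 (hs i).2)

theorem BP2_prod_ne (s : Sq) (hs : nz s) (a k : ℕ) :
    ∏ i ∈ Finset.range k, cf BP2_xy (E (s (a + i))) ≠ 0 :=
  Finset.prod_ne_zero_iff.2 fun i _ => BP2_cf_xy s hs (a + i)

/-- the sequence of blocks: `xy` except at the place `j` -/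
def BP2_c (j : ℕ) (m : Mon) : ℕ → Mon := fun i => if i = j then m else BP2_xy

theorem BP2_c_mem (j : ℕ) (m : Mon) (hm : m ∈ blocks) (i : ℕ) : BP2_c j m i ∈ blocks := by
  unfold BP2_c
  split_ifs
  · exact hm
  · exact BP2_xy_mem

theorem BP2_prod_c (s : Sq) (a k j : ℕ) (hj : j < k) (m : Mon) :
    ∏ i ∈ Finset.range k, cf (BP2_c j m i) (E (s (a + i))) =
      cf m (E (s (a + j))) *
        ∏ i ∈ (Finset.range k).erase j, cf BP2_xy (E (s (a + i))) := by
  rw [← Finset.mul_prod_erase (Finset.range k) _ (Finset.mem_range.2 hj)]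
  congr 1
  · simp only [BP2_c, if_true]
  · refine Finset.prod_congr rfl fun i hi => ?_
    rw [Finset.mem_erase] at hi
    simp only [BP2_c, if_neg hi.1]

theorem BP2_arith (u v : ℚ) (x y x' y' : ℤ) (hu : u ≠ 0) (hx : x ≠ 0) (hy : y ≠ 0)
    (h1 : u * ((x : ℚ) * y) = v * ((x' : ℚ) * y'))
    (h2 : u * (ch2 x * y) = v * (ch2 x' * y'))
    (h3 : u * ((x : ℚ) * ch2 y) = v * ((x' : ℚ) * ch2 y')) : x = x' ∧ y = y' := by
  have hT : u * ((x : ℚ) * y) ≠ 0 :=
    mul_ne_zero hu (mul_ne_zero (Int.cast_ne_zero.2 hx) (Int.cast_ne_zero.2 hy))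
  have h2' : u * ((x : ℚ) * y) * ((x : ℚ) - 1) = v * ((x' : ℚ) * y') * ((x' : ℚ) - 1) := by
    unfold ch2 at h2
    linear_combination 2 * h2
  have h3' : u * ((x : ℚ) * y) * ((y : ℚ) - 1) = v * ((x' : ℚ) * y') * ((y' : ℚ) - 1) := by
    unfold ch2 at h3
    linear_combination 2 * h3
  rw [← h1] at h2' h3'
  have e2 := mul_left_cancel₀ hT h2'
  have e3 := mul_left_cancel₀ hT h3'
  constructor
  · have : (x : ℚ) = x' := by linarith
    exact_mod_cast this
  · have : (y : ℚ) = y' := by linarith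
    exact_mod_cast this

theorem BP2_eps_X (c : ℕ → Mon) (hc : ∀ i, c i ∈ blocks) (k : ℕ) (hk : 0 < k) :
    eps (BP2_X c k) = 0 := by
  have h := BP2_ent_lt (fun _ => (1, 1)) c hc k 0 0 (by omega)
  rwa [ent_self] at h

theorem BP2_RG (s : Sq) (n : ℕ) (hs : nz s) (ψ ρ : ℕ → ℚ) (a a' : ℕ) (hψ : IsMn ψ a)
    (hρ : IsMx n ρ a') (haa : a ≤ a') (s' : Sq) (n' : ℕ) (hs' : nz s') (ψ' ρ' : ℕ → ℚ)
    (b b' : ℕ) (hψ' : IsMn ψ' b) (hρ' : IsMx n' ρ' b')
    (h : ∀ X ∈ P1, bil n (act s X ψ) ρ = bil n' (act s' X ψ') ρ') :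
    b' = b + (a' - a) ∧ ∀ j, j < a' - a → s (a + j) = s' (b + j) := by
  obtain ⟨k, rfl⟩ := Nat.exists_eq_add_of_le haa
  have hkk : a + k - a = k := by omega
  rw [hkk]
  have hcx : ∀ i : ℕ, (fun _ : ℕ => BP2_xy) i ∈ blocks := fun _ => BP2_xy_mem
  have h1 : bil n' (act s' (BP2_X (fun _ => BP2_xy) k) ψ') ρ' ≠ 0 := by
    rw [← h _ (BP2_X_mem _ hcx k), BP2_bil s n _ hcx k a ψ ρ hψ hρ]
    exact mul_ne_zero (mul_ne_zero hψ.1 (BP2_prod_ne s hs a k)) hρ.2.1
  have h2 := BP2_room s' n' _ hcx k b b' ψ' ρ' hψ' hρ' h1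
  obtain ⟨l, rfl⟩ := Nat.exists_eq_add_of_le (Nat.le_trans (Nat.le_add_right b k) h2)
  have h3 : bil n (act s (BP2_X (fun _ => BP2_xy) l) ψ) ρ ≠ 0 := by
    rw [h _ (BP2_X_mem _ hcx l), BP2_bil s' n' _ hcx l b ψ' ρ' hψ' hρ']
    exact mul_ne_zero (mul_ne_zero hψ'.1 (BP2_prod_ne s' hs' b l)) hρ'.2.1
  have h4 := BP2_room s n _ hcx l a (a + k) ψ ρ hψ hρ h3
  have hlk : l = k := by omega
  subst hlk
  refine ⟨rfl, fun j hj => ?_⟩
  have key : ∀ m ∈ blocks, ψ a * ρ (a + l) *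
      (∏ i ∈ (Finset.range l).erase j, cf BP2_xy (E (s (a + i)))) * cf m (E (s (a + j))) =
      ψ' b * ρ' (b + l) *
      (∏ i ∈ (Finset.range l).erase j, cf BP2_xy (E (s' (b + i)))) * cf m (E (s' (b + j))) := by
    intro m hm
    have e := h _ (BP2_X_mem _ (BP2_c_mem j m hm) l)
    rw [BP2_bil s n _ (BP2_c_mem j m hm) l a ψ ρ hψ hρ,
      BP2_bil s' n' _ (BP2_c_mem j m hm) l b ψ' ρ' hψ' hρ', BP2_prod_c s a l j hj m,
      BP2_prod_c s' b l j hj m] at e
    linear_combination e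
  have hu : ψ a * ρ (a + l) *
      (∏ i ∈ (Finset.range l).erase j, cf BP2_xy (E (s (a + i)))) ≠ 0 :=
    mul_ne_zero (mul_ne_zero hψ.1 hρ.2.1)
      (Finset.prod_ne_zero_iff.2 fun i _ => BP2_cf_xy s hs (a + i))
  have k1 := key _ BP2_xy_mem
  have k2 := key _ BP2_xxy_mem
  have k3 := key _ BP2_xyy_mem
  rw [BP2_xy, cf_E_xy, cf_E_xy] at k1
  rw [BP2_xxy, cf_E_xxy, cf_E_xxy] at k2
  rw [BP2_xyy, cf_E_xyy, cf_E_xyy] at k3
  have hfin := BP2_arith _ _ _ _ _ _ hu (hs (a + j)).1 (hs (a + j)).2 k1 k2 k3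
  exact Prod.ext hfin.1 hfin.2

theorem base_pkg : ∃ V0 : Submodule ℚ F, Pkg P1 P1 V0 := by
  have hcx : ∀ i : ℕ, (fun _ : ℕ => BP2_xy) i ∈ blocks := fun _ => BP2_xy_mem
  have hV : sub blocks ≤ P1 := sub_mono Submonoid.subset_closure
  refine ⟨sub blocks, ?_⟩
  constructor
  · exact le_refl _
  · exact le_refl _
  · exact hV
  · exact one_mem_P1
  · refine ⟨4, sub_mono ?_⟩
    intro m hm
    simp only [blocks, Set.mem_insert_iff, Set.mem_singleton_iff] at hm
    rcases hm with h | h | h | h <;>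
    · rw [h]
      simp [ofL]
  · intro J hJ
    by_contra hne
    exact BP1_block_ne ((mem_sub_iff blocks J).1 hJ 1 hne) rfl
  · intro J hJ
    have := Submodule.mul_mem_mul one_mem_P1 (hV hJ)
    rwa [one_mul] at this
  · intro J hJ
    have := Submodule.mul_mem_mul (hV hJ) one_mem_P1
    rwa [mul_one] at this
  · intro s n hs ψ _ ρ _ a a' hψ hρ haa
    obtain ⟨k, rfl⟩ := Nat.exists_eq_add_of_le haa
    refine ⟨BP2_X (fun _ => BP2_xy) k, BP2_X_mem _ hcx k, ?_⟩
    rw [BP2_bil s n _ hcx k a ψ ρ hψ hρ]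
    exact mul_ne_zero (mul_ne_zero hψ.1 (BP2_prod_ne s hs a k)) hρ.2.1
  · intro s n hs ψ _ ρ _ a a' hψ hρ haa s' n' hs' ψ' _ ρ' _ b b' hψ' hρ' h
    exact BP2_RG s n hs ψ ρ a a' hψ hρ haa s' n' hs' ψ' ρ' b b' hψ' hρ' h
  · intro s hs p q hpq
    obtain ⟨k, rfl⟩ := Nat.exists_eq_add_of_le hpq.le
    refine ⟨BP2_X (fun _ => BP2_xy) k, BP2_X_mem _ hcx k, BP2_eps_X _ hcx k (by omega), ?_⟩
    rw [pair_W s hpq.le, Finset.sum_eq_single (p + k)]
    · rw [BP2_ent_eq s _ hcx k p]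
      exact BP2_prod_ne s hs p k
    · intro r hr hr1
      rw [Finset.mem_Icc] at hr
      exact BP2_ent_lt s _ hcx k p r (by omega)
    · intro h
      exact absurd (Finset.mem_Icc.2 ⟨by omega, le_refl _⟩) h
  · refine Tame_sub ?_ Tame_one
    rintro Z ⟨s, p, q, hs, hpq, hF, rfl⟩
    rcases Nat.eq_or_lt_of_le hpq with h | h
    · subst h
      exact W_self s p
    · exfalso
      refine hF ?_
      refine ⟨p, p + 1, le_refl _, ⟨mono BP2_xy, mono_mem_sub BP2_xy_mem, ?_⟩, h⟩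
      have heps : eps (mono BP2_xy) = 0 := cf_mono_ne (BP1_block_ne BP2_xy_mem)
      rw [ent_step, heps, sub_zero, pair_mono]
      exact BP2_cf_xy s hs p

end NF
end
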