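import Pool.Agent.Lib.MP_24a659_al.Nine2

/-!
MP_24a659_al, paper 716, Section 6 in abstract form, part 2: Capelli elements.
-/

set_option autoImplicit false

namespace Pool.MP_24a659_al.Cap

open Function

section ring

variable {A : Type*} [Ring A]

/-- `y₀ v₀ y₁ v₁ ⋯ v_{m-1} y_m` -/
def mono {m : ℕ} (y : Fin (m + 1) → A) (v : Fin m → A) : A :=
  y 0 * (List.ofFn fun i : Fin m => v i * y i.succ).prod

/-- The Capelli element `Cap_m(y; u)`. -/
def cap {m : ℕ} (y : Fin (m + 1) → A) (u : Fin m → A) : A :=
  ∑ σ : Equiv.Perm (Fin m), ((Equiv.Perm.sign σ : ℤˣ) : ℤ) • mono y (u ∘ σ)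

theorem mono_zero (y : Fin 1 → A) (v : Fin 0 → A) : mono y v = y 0 := by
  simp [mono]

theorem mono_succ {m : ℕ} (y : Fin (m + 2) → A) (v : Fin (m + 1) → A) :
    mono y v = y 0 * v 0 * mono (fun i => y i.succ) (fun i => v i.succ) := by
  simp only [mono, List.ofFn_succ, List.prod_cons]
  simp [mul_assoc]

theorem mono_snoc {m : ℕ} (y : Fin (m + 2) → A) (v : Fin (m + 1) → A) :
    mono y v = mono (fun i => y i.castSucc) (fun i => v i.castSucc) * v (Fin.last m)
      * y (Fin.last (m + 1)) := by
  simp only [mono, List.ofFn_succ' (n := m), List.concat_eq_append, List.prod_append,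
    List.prod_singleton, Fin.succ_last, Fin.castSucc_zero, mul_assoc, Fin.succ_castSucc]

theorem mono_left {m : ℕ} (y : Fin (m + 1) → A) (c : A) (v : Fin m → A) :
    mono (update y 0 (c * y 0)) v = c * mono y v := by
  simp only [mono, update_self, mul_assoc]
  congr 3

theorem mono_right {m : ℕ} (y : Fin (m + 1) → A) (c : A) (v : Fin m → A) :
    mono (update y (Fin.last m) (y (Fin.last m) * c)) v = mono y v * c := by
  cases m with
  | zero => simp [mono]
  | succ m =>
    rw [mono_snoc, mono_snoc, update_self]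
    have h : (fun i : Fin (m + 1) => update y (Fin.last (m + 1)) (y (Fin.last (m + 1)) * c)
        i.castSucc) = fun i => y i.castSucc := by
      funext i
      rw [update_of_ne (Fin.castSucc_lt_last i).ne]
    rw [h]
    simp only [mul_assoc]

theorem cap_left {m : ℕ} (y : Fin (m + 1) → A) (c : A) (v : Fin m → A) :
    cap (update y 0 (c * y 0)) v = c * cap y v := by
  simp only [cap, mono_left, Finset.mul_sum, mul_smul_comm]

theorem cap_right {m : ℕ} (y : Fin (m + 1) → A) (c : A) (v : Fin m → A) :
    cap (update y (Fin.last m) (y (Fin.last m) * c)) v = cap y v * c := by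
  simp only [cap, mono_right, Finset.sum_mul, smul_mul_assoc]

/-- expansion of an alternating sum over `Fin (m+1)` with respect to the first entry -/
theorem sum_perm_succ {m : ℕ} (F : (Fin m → A) → A → A) (z : A) (u : Fin m → A) :
    ∑ σ : Equiv.Perm (Fin (m + 1)), ((Equiv.Perm.sign σ : ℤˣ) : ℤ) •
        F (fun i => (Fin.cons z u : Fin (m + 1) → A) (σ i.succ))
          ((Fin.cons z u : Fin (m + 1) → A) (σ 0))
      = ∑ e : Equiv.Perm (Fin m), ((Equiv.Perm.sign e : ℤˣ) : ℤ) • F (u ∘ e) z
        - ∑ i, ∑ e : Equiv.Perm (Fin m), ((Equiv.Perm.sign e : ℤˣ) : ℤ) •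
            F ((update u i z) ∘ e) (u i) := by
  rw [← Equiv.Perm.decomposeFin.symm.sum_comp, Fintype.sum_prod_type, Fin.sum_univ_succ,
    sub_eq_add_neg, ← Finset.sum_neg_distrib]
  congr 1
  · refine Finset.sum_congr rfl (fun e _ => ?_)
    rw [Equiv.Perm.decomposeFin.symm_sign, if_pos rfl, one_mul]
    simp only [Equiv.Perm.decomposeFin_symm_apply_succ, Equiv.Perm.decomposeFin_symm_apply_zero,
      Equiv.swap_self, Equiv.refl_apply, Fin.cons_succ, Fin.cons_zero]
    rfl
  · refine Finset.sum_congr rfl (fun i _ => ?_)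
    rw [← Finset.sum_neg_distrib]
    refine Finset.sum_congr rfl (fun e _ => ?_)
    rw [Equiv.Perm.decomposeFin.symm_sign, if_neg (Fin.succ_ne_zero i)]
    simp only [Equiv.Perm.decomposeFin_symm_apply_succ, Equiv.Perm.decomposeFin_symm_apply_zero,
      Fin.cons_succ]
    have h : (fun j => (Fin.cons z u : Fin (m + 1) → A) ((Equiv.swap 0 i.succ) (e j).succ))
        = (update u i z) ∘ e := by
      funext j
      by_cases hj : e j = i
      · rw [hj, Equiv.swap_apply_right, Fin.cons_zero, comp_apply, hj, update_self]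
      · rw [Equiv.swap_apply_of_ne_of_ne (Fin.succ_ne_zero _)
          (fun h => hj (Fin.succ_injective _ h)), Fin.cons_succ, comp_apply, update_of_ne hj]
    rw [h]
    simp

/-- `Rel'` is the expansion of a Capelli element. -/
theorem LL_cap {m : ℕ} (y : Fin (m + 1) → A) (u : Fin m → A) (Y z c : A) :
    cap (Fin.cons c (update y 0 (Y * y 0)) : Fin (m + 2) → A) (Fin.cons z u : Fin (m + 1) → A)
      = c * LL (cap y) u Y z := by
  have h := sum_perm_succ (fun t h => c * (h * Y * mono y t)) z u
  have h2 : cap (Fin.cons c (update y 0 (Y * y 0)) : Fin (m + 2) → A)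
      (Fin.cons z u : Fin (m + 1) → A)
      = ∑ σ : Equiv.Perm (Fin (m + 1)), ((Equiv.Perm.sign σ : ℤˣ) : ℤ) •
        (fun t h => c * (h * Y * mono y t))
          (fun i => (Fin.cons z u : Fin (m + 1) → A) (σ i.succ))
          ((Fin.cons z u : Fin (m + 1) → A) (σ 0)) := by
    unfold cap
    refine Finset.sum_congr rfl (fun σ _ => ?_)
    rw [mono_succ]
    congr 1
    have h3 : (fun i => (Fin.cons c (update y 0 (Y * y 0)) : Fin (m + 2) → A) i.succ)
        = update y 0 (Y * y 0) := by
      funext i
      simp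
    rw [h3, mono_left]
    simp [mul_assoc]
  rw [h2, h]
  simp only [LL, cap, mul_sub, Finset.mul_sum, mul_smul_comm]

/-- the rotation -/
theorem exists_rot (m : ℕ) : ∃ κ : Equiv.Perm (Fin (m + 1)),
    (∀ i : Fin m, κ i.castSucc = i.succ) ∧ κ (Fin.last m) = 0 := by
  refine ⟨finRotate (m + 1), fun i => ?_, finRotate_last⟩
  simp

/-- `Rel` is the expansion of a Capelli element. -/
theorem RR_cap {m : ℕ} (y : Fin (m + 1) → A) (u : Fin m → A) (Y z c' : A) :
    cap (Fin.snoc (update y (Fin.last m) (y (Fin.last m) * Y)) c' : Fin (m + 2) → A)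
      (Fin.snoc u z : Fin (m + 1) → A)
      = RR (cap y) u Y z * c' := by
  have h := sum_perm_succ (fun t h => mono y t * Y * h * c') z u
  obtain ⟨κ, hκ1, hκ2⟩ := exists_rot m
  have h1 : (Fin.snoc u z : Fin (m + 1) → A) = (Fin.cons z u : Fin (m + 1) → A) ∘ κ := by
    funext i
    refine Fin.lastCases ?_ (fun j => ?_) i
    · rw [comp_apply, hκ2]; simp
    · rw [comp_apply, hκ1]; simp
  have h2 : cap (Fin.snoc (update y (Fin.last m) (y (Fin.last m) * Y)) c' : Fin (m + 2) → A)
      (Fin.snoc u z : Fin (m + 1) → A)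
      = ∑ σ : Equiv.Perm (Fin (m + 1)), ((Equiv.Perm.sign σ : ℤˣ) : ℤ) •
        (fun t h => mono y t * Y * h * c')
          (fun i => (Fin.cons z u : Fin (m + 1) → A) (σ i.succ))
          ((Fin.cons z u : Fin (m + 1) → A) (σ 0)) := by
    unfold cap
    rw [h1]
    rw [← (MulAut.conj κ⁻¹).toEquiv.sum_comp]
    refine Finset.sum_congr rfl (fun σ _ => ?_)
    have hs : Equiv.Perm.sign ((MulAut.conj κ⁻¹).toEquiv σ) = Equiv.Perm.sign σ := by
      simp only [MulEquiv.toEquiv_eq_coe, EquivLike.coe_coe, MulAut.conj_apply, inv_inv, map_mul,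
        Equiv.Perm.sign_inv]
      rw [mul_comm (Equiv.Perm.sign κ), mul_assoc, Int.units_mul_self, mul_one]
    rw [hs]
    congr 1
    rw [mono_snoc]
    have h3 : (fun i => (Fin.snoc (update y (Fin.last m) (y (Fin.last m) * Y)) c' :
        Fin (m + 2) → A) i.castSucc) = update y (Fin.last m) (y (Fin.last m) * Y) := by
      funext i
      simp
    rw [h3, mono_right]
    simp [comp_def, hκ1, hκ2]
  rw [h2, h]
  simp only [RR, cap, sub_mul, Finset.sum_mul, smul_mul_assoc]

end ring

section base

variable {A : Type*} [Ring A] [Algebra ℚ A]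

/-- Admissible `y`-vectors of a Capelli element of rank `m`. -/
structure Base.Good (S : Base A) (b₀ β b₁ : ℕ) {m : ℕ} (y : Fin (m + 1) → A) : Prop where
  left : S.SL b₀ (y 0)
  inner : ∀ i : Fin (m + 1), i ≠ 0 → i ≠ Fin.last m → y i ∈ S.C β
  right : S.SR b₁ (y (Fin.last m))

theorem Base.mono_SR (S : Base A) {l β b₁ : ℕ} : ∀ {m : ℕ} (y : Fin (m + 1) → A) (w : Fin m → A),
    (∀ i, i ≠ Fin.last m → y i ∈ S.C β) → S.SR b₁ (y (Fin.last m)) → (∀ i, w i ∈ S.D l) →
    S.SR (b₁ + m * (l + β)) (mono y w) := by
  intro m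
  induction m with
  | zero =>
    intro y w _ h2 _
    rw [mono_zero]
    simpa using h2
  | succ m ih =>
    intro y w h1 h2 h3
    rw [mono_succ]
    intro j c hc
    have h4 := ih (fun i => y i.succ) (fun i => w i.succ)
      (fun i hi => h1 _ (by rw [← Fin.succ_last]; exact fun h => hi (Fin.succ_injective _ h)))
      (by rw [Fin.succ_last]; exact h2) (fun i => h3 _) j c hc
    have h5 := S.CDC (h1 0 (Fin.last_pos.ne)) (h3 0) h4
    rw [mul_assoc (y 0 * w 0)]
    refine S.monoC ?_ h5
    ring_nf
    omega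

theorem Base.mono_split (S : Base A) {l β b₁ : ℕ} : ∀ {m : ℕ} (b₀ : ℕ) (y : Fin (m + 1) → A)
    (_ : S.Good b₀ β b₁ y) (w : Fin m → A) (_ : ∀ i, w i ∈ S.D l) (i : Fin m),
    ∃ p q : A, S.SL (b₀ + m * (l + β)) p ∧ S.SR (b₁ + m * (l + β)) q ∧
      ∀ v, mono y (update w i v) = p * v * q := by
  intro m
  induction m with
  | zero => intro b₀ y _ w _ i; exact i.elim0
  | succ m ih =>
    intro b₀ y hy w hw i
    refine Fin.cases ?_ (fun i' => ?_) i
    · refine ⟨y 0, mono (fun i => y i.succ) (fun i => w i.succ),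
        S.SL_mono (by omega) hy.left, ?_, fun v => ?_⟩
      · have := S.mono_SR (l := l) (β := β) (b₁ := b₁) (fun i => y i.succ) (fun i => w i.succ)
          (fun i hi => hy.inner _ (Fin.succ_ne_zero i)
            (by rw [← Fin.succ_last]; exact fun h => hi (Fin.succ_injective _ h)))
          (by rw [Fin.succ_last]; exact hy.right) (fun i => hw _)
        exact S.SR_mono (by ring_nf; omega) this
      · rw [mono_succ, update_self]
        congr 2
    · -- second case
      cases m with
      | zero => exact i'.elim0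
      | succ m =>
        set y' : Fin (m + 2) → A := update (fun i => y i.succ) 0 (y 0 * w 0 * y 1) with hy'
        have hg : S.Good (b₀ + l + β) β b₁ y' := by
          refine ⟨?_, fun j hj hj' => ?_, ?_⟩
          · intro j c hc
            rw [hy', update_self]
            have h6 : y 1 ∈ S.C β := hy.inner 1 (by simp) (by
              simp [Fin.ext_iff])
            have h5 := S.CDC (hy.left j c hc) (hw 0) h6
            have h7 : c * (y 0 * w 0 * y 1) = c * y 0 * w 0 * y 1 := by simp only [mul_assoc]
            rw [h7]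
            exact S.monoC (by omega) h5
          · rw [hy', update_of_ne hj]
            exact hy.inner _ (Fin.succ_ne_zero j)
              (by rw [← Fin.succ_last]; exact fun h => hj' (Fin.succ_injective _ h))
          · rw [hy', update_of_ne (Fin.last_pos.ne')]
            rw [Fin.succ_last]
            exact hy.right
        obtain ⟨p, q, hp, hq, h⟩ := ih (b₀ + l + β) y' hg (fun i => w i.succ) (fun i => hw _) i'
        refine ⟨p, q, S.SL_mono (by ring_nf; omega) hp, S.SR_mono (by ring_nf; omega) hq,
          fun v => ?_⟩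
        rw [← h v, mono_succ]
        have h8 : (fun i : Fin (m + 1) => update w i'.succ v i.succ)
            = update (fun i : Fin (m + 1) => w i.succ) i' v := by
          funext j
          by_cases hj : j = i'
          · subst hj; simp
          · rw [update_of_ne hj, update_of_ne (fun h => hj (Fin.succ_injective _ h))]
        rw [h8, update_of_ne (Fin.succ_ne_zero i').symm]
        have h9 : y' = update (fun i : Fin (m + 2) => y i.succ) 0
            ((y 0 * w 0) * (fun i : Fin (m + 2) => y i.succ) 0) := by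
          rw [hy']
          congr 1
        rw [h9, mono_left]

theorem Base.WF_cap (S : Base A) {l b₀ β b₁ : ℕ} {m : ℕ} {y : Fin (m + 1) → A}
    (hy : S.Good b₀ β b₁ y) :
    S.WF l (b₀ + b₁ + m * (l + β)) (cap y) := by
  intro u hu k
  change S.WFk _ (fun v => cap y (update u k v))
  unfold cap
  apply S.WFk_sum
  intro σ _
  have h1 : ∀ v, (update u k v) ∘ σ = update (u ∘ σ) (σ.symm k) v := by
    intro v
    rw [Function.update_comp_equiv]
  obtain ⟨p, q, hp, hq, h⟩ := S.mono_split (l := l) b₀ y hy (u ∘ σ) (fun i => hu _) (σ.symm k)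
  refine ⟨1, fun _ => ((Equiv.Perm.sign σ : ℤˣ) : ℤ) • p, fun _ => q, fun _ => ?_, fun _ => ?_,
    fun v => ?_⟩
  · intro j c hc
    rw [mul_smul_comm]
    exact (S.C _).smul_of_tower_mem _ (S.SL_mono (by omega) hp j c hc)
  · exact S.SR_mono (by omega) hq
  · show ((Equiv.Perm.sign σ : ℤˣ) : ℤ) • mono y (update u k v ∘ σ) = _
    rw [h1, h v]
    simp [mul_assoc]

/-- the hypothesis: Capelli elements of rank `m+1` in contexts are null -/
def Base.HypCap (S : Base A) (m L : ℕ) : Prop :=
  ∀ J ∈ S.V, ∀ J' ∈ S.V, ∀ y : Fin (m + 2) → A, (∀ i, y i ∈ S.C L) →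
    ∀ z : Fin (m + 1) → A, (∀ i, z i ∈ S.D L) → J * cap y z * J' ∈ S.null

theorem Base.RelL_cap (S : Base A) {l b₀ β b₁ L : ℕ} {m : ℕ} {y : Fin (m + 2) → A}
    (hy : S.Good b₀ β b₁ y) (hH : S.HypCap (m + 1) L) (hL : l + b₀ + β + b₁ ≤ L) :
    S.RelL l (cap y) := by
  intro u hu Y hY z hz J hJ J' hJ' c hc c' hc'
  have h1 := LL_cap y u Y z c
  set y1 : Fin (m + 3) → A := Fin.cons c (update y 0 (Y * y 0)) with hy1
  have h2 := cap_right y1 c' (Fin.cons z u : Fin (m + 2) → A)
  rw [h1] at h2
  have h3 : J * c * LL (cap y) u Y z * c' * J' = J * (c * LL (cap y) u Y z * c') * J' := by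
    simp only [mul_assoc]
  rw [h3, ← h2]
  refine hH J hJ J' hJ' _ (fun i => ?_) _ (fun i => ?_)
  · by_cases hi : i = Fin.last (m + 2)
    · subst hi
      rw [update_self]
      have h4 : y1 (Fin.last (m + 2)) = y (Fin.last (m + 1)) := by
        rw [hy1, ← Fin.succ_last, Fin.cons_succ, update_of_ne (Fin.last_pos.ne')]
      rw [h4]
      exact S.monoC (by omega) (hy.right l c' hc')
    · rw [update_of_ne hi]
      revert hi
      refine Fin.cases (fun _ => ?_) (fun j hj => ?_) i
      · rw [hy1, Fin.cons_zero]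
        exact S.monoC (by omega) hc
      · rw [hy1, Fin.cons_succ]
        by_cases hj0 : j = 0
        · subst hj0
          rw [update_self]
          exact S.monoC (by omega) (hy.left l Y hY)
        · rw [update_of_ne hj0]
          refine S.monoC (by omega) (hy.inner j hj0 ?_)
          intro h
          apply hj
          rw [h, Fin.succ_last]
  · refine Fin.cases ?_ (fun j => ?_) i
    · simpa using S.monoD (by omega) hz
    · simpa using S.monoD (by omega) (hu j)

theorem Base.RelR_cap (S : Base A) {l b₀ β b₁ L : ℕ} {m : ℕ} {y : Fin (m + 2) → A}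
    (hy : S.Good b₀ β b₁ y) (hH : S.HypCap (m + 1) L) (hL : l + b₀ + β + b₁ ≤ L) :
    S.RelR l (cap y) := by
  intro u hu Y hY z hz J hJ J' hJ' c hc c' hc'
  have h1 := RR_cap y u Y z c'
  set y1 : Fin (m + 3) → A :=
    Fin.snoc (update y (Fin.last (m + 1)) (y (Fin.last (m + 1)) * Y)) c' with hy1
  have h2 := cap_left y1 c (Fin.snoc u z : Fin (m + 2) → A)
  rw [h1] at h2
  have h3 : J * c * RR (cap y) u Y z * c' * J' = J * (c * (RR (cap y) u Y z * c')) * J' := by
    simp only [mul_assoc]
  rw [h3, ← h2]
  refine hH J hJ J' hJ' _ (fun i => ?_) _ (fun i => ?_)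
  · by_cases hi : i = 0
    · subst hi
      rw [update_self]
      have h4 : y1 0 = y 0 := by
        rw [hy1, ← Fin.castSucc_zero, Fin.snoc_castSucc, update_of_ne (Fin.last_pos.ne)]
      rw [h4]
      exact S.monoC (by omega) (hy.left l c hc)
    · rw [update_of_ne hi]
      revert hi
      refine Fin.lastCases (fun _ => ?_) (fun j hj => ?_) i
      · rw [hy1, Fin.snoc_last]
        exact S.monoC (by omega) hc'
      · rw [hy1, Fin.snoc_castSucc]
        by_cases hj0 : j = Fin.last (m + 1)
        · subst hj0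
          rw [update_self]
          exact S.monoC (by omega) (hy.right l Y hY)
        · rw [update_of_ne hj0]
          refine S.monoC (by omega) (hy.inner j ?_ hj0)
          intro h
          apply hj
          rw [h, Fin.castSucc_zero]
  · refine Fin.lastCases ?_ (fun j => ?_) i
    · simpa using S.monoD (by omega) hz
    · simpa using S.monoD (by omega) (hu j)

end base

section alternating

variable {A B : Type*} [Ring A] [Ring B]

theorem map_mono (φ : A →+* B) {m : ℕ} (y : Fin (m + 1) → A) (v : Fin m → A) :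
    φ (mono y v) = mono (fun i => φ (y i)) (fun i => φ (v i)) := by
  simp only [mono, map_mul, map_list_prod, List.map_ofFn]
  congr 3
  funext i
  simp

theorem map_cap (φ : A →+* B) {m : ℕ} (y : Fin (m + 1) → A) (v : Fin m → A) :
    φ (cap y v) = cap (fun i => φ (y i)) (fun i => φ (v i)) := by
  simp only [cap, map_sum, map_zsmul, map_mono]
  rfl

/-- A Capelli element of rank larger than the dimension vanishes. -/
theorem cap_eq_zero (K : Type*) [Field K] [Algebra K B] [FiniteDimensional K B] {m : ℕ}
    (hm : Module.finrank K B < m) (y : Fin (m + 1) → B) (u : Fin m → B) : cap y u = 0 := by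
  let M : MultilinearMap K (fun _ : Fin m => B) B :=
    (LinearMap.mulLeft K (y 0)).compMultilinearMap
      ((MultilinearMap.mkPiAlgebraFin K m B).compLinearMap
        (fun i => LinearMap.mulRight K (y i.succ)))
  have hM : ∀ v : Fin m → B, M v = mono y v := by
    intro v
    simp [M, mono]
  have h1 : cap y u = MultilinearMap.alternatization M u := by
    rw [MultilinearMap.alternatization_apply]
    unfold cap
    refine Finset.sum_congr rfl (fun σ _ => ?_)
    rw [← hM]
    rfl
  rw [h1]
  apply AlternatingMap.map_linearDependent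
  intro h
  have := h.fintype_card_le_finrank
  simp at this
  omega

end alternating

end Pool.MP_24a659_al.Cap
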