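import Pool.Agent.Lib.MP_24a659_al.Defs
import Pool.Agent.Lib.MP_24a659_al.B2P
import Pool.Agent.Lib.MP_24a659_al.G1
import Pool.Agent.Lib.MP_24a659_al.T1
import Pool.Agent.Lib.MP_24a659_al.B1
import Pool.Agent.Lib.MP_24a659_al.B4M

section

/-! MP_24a659_al, definitions for Section 7. -/

set_option autoImplicit false

namespace NF

/-- three killers with their gaps -/
noncomputable def Sb (C V : Submodule ℚ F) (b : ℕ) : Submodule ℚ F := ((C ⊓ Fk b) * V) ^ 3

/-- the bound `k` of Section 7 -/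
def kk (m l b : ℕ) : ℕ := (2 * b + l) + (m * l + l) + m * (3 * (b + l)) * 2 ^ m

/-- a non zero value of the form `x J c (D_t f')(u) (Y0 z μ T) g(u') c' J' x'` on the word,
with `N = M + 3 (2^m - 1) + 5` killers at the beginning -/
structure NSd {m : ℕ} (C V Db : Submodule ℚ F) (R : Set ((Fin m → F) → F)) (l b M e r j : ℕ)
    (s : Sq) (n : ℕ) (x J c : F) (f f' : (Fin m → F) → F) (u : Fin m → F) (Y0 z t μ T : F)
    (g : (Fin m → F) → F) (u' : Fin m → F) (c' J' x' : F) : Prop where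
  hx : x ∈ C ⊓ Fk b
  hJ : J ∈ V
  hc : c ∈ C ⊓ Fk b
  hf : f ∈ R
  hu : ∀ k, u k ∈ Db ⊓ Fk l
  hder : Der (Sb C V b) f e f'
  hY0 : Y0 ∈ C ⊓ Fk b
  hz : z ∈ V
  ht : t ∈ (Sb C V b) ^ (r + 1)
  hμ : μ ∈ (Sb C V b) ^ j
  hdeg : e + (r + 1) + j = 2 ^ m - 1
  hT : T ∈ Gp (C ⊓ Fk b) V M
  hg : g ∈ R
  hu' : ∀ k, u' k ∈ Db ⊓ Fk l
  hgV : g u' ∈ V
  hc' : c' ∈ C ⊓ Fk b
  hJ' : J' ∈ V
  hx' : x' ∈ C ⊓ Fk b
  hne : pair (W s 0 n) (x * (J * c) * Dop t f' u * (Y0 * z * μ * T) * g u' * (c' * J' * x')) ≠ 0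

end NF
end

section

/-! MP_24a659_al, job N4: lengths and contents of iterated derivatives. -/

set_option autoImplicit false

namespace NF

theorem N4_pow {Cb Db : Submodule ℚ F} (hb : Base Cb Db) {S : Submodule ℚ F}
    (hS : S ≤ Cb * Db) (r : ℕ) : S ^ (r + 1) ≤ Cb * Db := by
  induction r with
  | zero => rwa [zero_add, pow_one]
  | succ r ih =>
    rw [pow_succ]
    refine le_trans (mul_le_mul' ih hS) ?_
    rw [mul_assoc, ← mul_assoc Db Cb Db]
    exact mul_le_mul' le_rfl hb.DCD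

theorem N4_pow_Fk {S : Submodule ℚ F} {κ : ℕ} (hSl : S ≤ Fk κ) (r : ℕ) : S ^ r ≤ Fk (r * κ) := by
  induction r with
  | zero =>
    rw [pow_zero, zero_mul]
    exact Submodule.one_le.mpr (one_mem_Fk 0)
  | succ r ih =>
    rw [pow_succ, add_mul, one_mul]
    exact le_trans (mul_le_mul' ih hSl) (Fk_mul _ _)

theorem N4_mul {Cb Db : Submodule ℚ F} (hb : Base Cb Db) {S : Submodule ℚ F}
    (hS : S ≤ Cb * Db) {r : ℕ} {x t : F} (hx : x ∈ Db) (ht : t ∈ S ^ (r + 1)) : x * t ∈ Db := by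
  have h : x * t ∈ Db * (Cb * Db) := Submodule.mul_mem_mul hx (N4_pow hb hS r ht)
  rw [← mul_assoc] at h
  exact hb.DCD h

/-- the values of the derivatives, in a form which serves three times -/
theorem N4_gen {Cb Db Q : Submodule ℚ F} (hb : Base Cb Db) {m : ℕ} {f : (Fin m → F) → F}
    (hf : ∀ u : Fin m → F, (∀ k, u k ∈ Db) → f u ∈ Q) {S : Submodule ℚ F}
    (hS : S ≤ Cb * Db) {e : ℕ} {g : (Fin m → F) → F} (hg : Der S f e g) :
    ∀ u : Fin m → F, (∀ k, u k ∈ Db) → g u ∈ Q := by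
  induction hg with
  | base => exact hf
  | @step e r g t _ ht ih =>
    intro u hu
    refine Submodule.sum_mem _ fun k _ => ih _ fun j => ?_
    by_cases h : j = k
    · subst h
      rw [Function.update_self]
      exact N4_mul hb hS (hu j) ht
    · rw [Function.update_of_ne h]
      exact hu j

theorem der_val {Cb Db : Submodule ℚ F} (hb : Base Cb Db) {m l κ : ℕ} {f : (Fin m → F) → F}
    (hf : Val Db Fk l f) {S : Submodule ℚ F} (hS : S ≤ Cb * Db) (hSl : S ≤ Fk κ) {e : ℕ}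
    {g : (Fin m → F) → F} (hg : Der S f e g) : Val Db Fk (l + m * κ * e) g := by
  induction hg with
  | base => simpa using hf
  | @step e r g t _ ht ih =>
    intro l0 u hu
    refine Submodule.sum_mem _ fun k _ => ?_
    have h1 := ih (l0 + (r + 1) * κ) (Function.update u k (u k * t)) fun j => ?_
    · have e1 : m * (l0 + (r + 1) * κ) + (l + m * κ * e) =
          m * l0 + (l + m * κ * (e + (r + 1))) := by ring
      rw [e1] at h1
      exact h1
    · by_cases h : j = k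
      · subst h
        rw [Function.update_self]
        exact ⟨N4_mul hb hS (hu j).1 ht,
          Fk_mul _ _ (Submodule.mul_mem_mul (hu j).2 (N4_pow_Fk hSl _ ht))⟩
      · rw [Function.update_of_ne h]
        exact ⟨(hu j).1, Fk_mono (Nat.le_add_right _ _) (hu j).2⟩

theorem der_PU {Cb Db U : Submodule ℚ F} (hb : Base Cb Db) {m : ℕ} {f : (Fin m → F) → F}
    (hf : ∀ u : Fin m → F, (∀ k, u k ∈ Db) → f u ∈ P1 * U) {S : Submodule ℚ F}
    (hS : S ≤ Cb * Db) {e : ℕ} {g : (Fin m → F) → F} (hg : Der S f e g) :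
    ∀ u : Fin m → F, (∀ k, u k ∈ Db) → g u ∈ P1 * U :=
  N4_gen hb hf hS hg

theorem der_UP {Cb Db U : Submodule ℚ F} (hb : Base Cb Db) {m : ℕ} {f : (Fin m → F) → F}
    (hf : ∀ u : Fin m → F, (∀ k, u k ∈ Db) → f u ∈ U * P1) {S : Submodule ℚ F}
    (hS : S ≤ Cb * Db) {e : ℕ} {g : (Fin m → F) → F} (hg : Der S f e g) :
    ∀ u : Fin m → F, (∀ k, u k ∈ Db) → g u ∈ U * P1 :=
  N4_gen hb hf hS hg

theorem N4_pow_G {G : ℕ → Submodule ℚ F} (hG : ∀ i j, G i * G j ≤ G (i + j)) (h0 : P1 ≤ G 0)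
    {S : Submodule ℚ F} {w : ℕ} (hS : S ≤ G w) (r : ℕ) : S ^ r ≤ G (w * r) := by
  induction r with
  | zero =>
    rw [pow_zero, mul_zero]
    exact Submodule.one_le.mpr (h0 one_mem_P1)
  | succ r ih =>
    rw [pow_succ, mul_add, mul_one]
    exact le_trans (mul_le_mul' ih hS) (hG _ _)

/-- contents, for a family `G` which is multiplicative (used for `G = KS V`, `w = 3`) -/
theorem der_cont {G : ℕ → Submodule ℚ F} (hG : ∀ i j, G i * G j ≤ G (i + j)) (h0 : P1 ≤ G 0)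
    {m : ℕ} {f : (Fin m → F) → F}
    (hf : ∀ (e : Fin m → ℕ) (u : Fin m → F), (∀ k, u k ∈ G (e k)) → f u ∈ G (∑ k, e k))
    {S : Submodule ℚ F} {w : ℕ} (hS : S ≤ G w) {e : ℕ} {g : (Fin m → F) → F}
    (hg : Der S f e g) (e' : Fin m → ℕ) (u : Fin m → F) (hu : ∀ k, u k ∈ G (e' k)) :
    g u ∈ G (∑ k, e' k + w * e) := by
  induction hg generalizing e' u with
  | base => simpa using hf e' u hu
  | @step e r g t _ ht ih =>
    refine Submodule.sum_mem _ fun k _ => ?_
    have h1 := ih (Function.update e' k (e' k + w * (r + 1)))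
      (Function.update u k (u k * t)) fun j => ?_
    · have e1 : ∑ j, Function.update e' k (e' k + w * (r + 1)) j + w * e =
          ∑ j, e' j + w * (e + (r + 1)) := by
        rw [Finset.sum_update_of_mem (Finset.mem_univ k),
          ← Finset.add_sum_erase Finset.univ e' (Finset.mem_univ k), Finset.sdiff_singleton_eq_erase]
        ring
      rw [e1] at h1
      exact h1
    · by_cases h : j = k
      · subst h
        rw [Function.update_self, Function.update_self]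
        exact hG _ _ (Submodule.mul_mem_mul (hu j) (N4_pow_G hG h0 hS _ ht))
      · rw [Function.update_of_ne h, Function.update_of_ne h]
        exact hu j

end NF
end

section

/-! MP_24a659_al, job V1: the functions of rank `m + 1`. -/

set_option autoImplicit false

namespace NF

/-- sums of terms `a x b` with `a ∈ A`, `b ∈ B` -/
def V1_I (A B : Submodule ℚ F) (T : F → F) : Prop :=
  ∃ (n : ℕ) (a b : Fin n → F), (∀ i, a i ∈ A) ∧ (∀ i, b i ∈ B) ∧ ∀ x, T x = ∑ i, a i * x * b i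

theorem V1_I_single {A B : Submodule ℚ F} {a b : F} (ha : a ∈ A) (hb : b ∈ B) :
    V1_I A B (fun x => a * x * b) :=
  ⟨1, fun _ => a, fun _ => b, fun _ => ha, fun _ => hb, fun x => by simp⟩

theorem V1_I_zero {A B : Submodule ℚ F} : V1_I A B (fun _ => 0) :=
  ⟨0, fun _ => 0, fun _ => 0, fun i => i.elim0, fun i => i.elim0, fun x => by simp⟩

theorem V1_I_add {A B : Submodule ℚ F} {T T' : F → F} (h : V1_I A B T) (h' : V1_I A B T') :
    V1_I A B (fun x => T x + T' x) := by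
  obtain ⟨n, a, b, ha, hb, hT⟩ := h
  obtain ⟨n', a', b', ha', hb', hT'⟩ := h'
  refine ⟨n + n', Fin.append a a', Fin.append b b', ?_, ?_, ?_⟩
  · intro i
    refine Fin.addCases (fun j => ?_) (fun j => ?_) i
    · rw [Fin.append_left]; exact ha j
    · rw [Fin.append_right]; exact ha' j
  · intro i
    refine Fin.addCases (fun j => ?_) (fun j => ?_) i
    · rw [Fin.append_left]; exact hb j
    · rw [Fin.append_right]; exact hb' j
  · intro x
    rw [Fin.sum_univ_add]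
    simp only [Fin.append_left, Fin.append_right]
    rw [hT, hT']

theorem V1_I_neg {A B : Submodule ℚ F} {T : F → F} (h : V1_I A B T) :
    V1_I A B (fun x => - T x) := by
  obtain ⟨n, a, b, ha, hb, hT⟩ := h
  refine ⟨n, fun i => - a i, b, fun i => A.neg_mem (ha i), hb, fun x => ?_⟩
  show - T x = ∑ i, - a i * x * b i
  rw [hT, ← Finset.sum_neg_distrib]
  exact Finset.sum_congr rfl fun i _ => by rw [neg_mul, neg_mul]

theorem V1_I_sub {A B : Submodule ℚ F} {T T' : F → F} (h : V1_I A B T) (h' : V1_I A B T') :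
    V1_I A B (fun x => T x - T' x) := by
  simp only [sub_eq_add_neg]
  exact V1_I_add h (V1_I_neg h')

theorem V1_I_sum {A B : Submodule ℚ F} {ι : Type} (s : Finset ι) {T : ι → F → F}
    (h : ∀ k, V1_I A B (T k)) : V1_I A B (fun x => ∑ k ∈ s, T k x) := by
  classical
  induction s using Finset.induction_on with
  | empty => simpa using (V1_I_zero (A := A) (B := B))
  | insert k s hk ih =>
    simp only [Finset.sum_insert hk]
    exact V1_I_add (h k) ih

theorem V1_I_mul {A B A' B' : Submodule ℚ F} {T : F → F} (h : V1_I A B T) {p q : F}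
    (hp : ∀ a ∈ A, p * a ∈ A') (hq : ∀ b ∈ B, b * q ∈ B') :
    V1_I A' B' (fun x => p * T x * q) := by
  obtain ⟨n, a, b, ha, hb, hT⟩ := h
  refine ⟨n, fun i => p * a i, fun i => b i * q, fun i => hp _ (ha i), fun i => hq _ (hb i),
    fun x => ?_⟩
  show p * T x * q = ∑ i, p * a i * x * (b i * q)
  rw [hT, Finset.mul_sum, Finset.sum_mul]
  exact Finset.sum_congr rfl fun i _ => by simp only [mul_assoc]

theorem V1_I_mono {A B A' B' : Submodule ℚ F} {T : F → F} (h : V1_I A B T) (hA : A ≤ A')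
    (hB : B ≤ B') : V1_I A' B' T := by
  obtain ⟨n, a, b, ha, hb, hT⟩ := h
  exact ⟨n, a, b, fun i => hA (ha i), fun i => hB (hb i), hT⟩

/-! ### the algebra of the base -/

section base

variable {Cb Db : Submodule ℚ F} (hb : Base Cb Db)

include hb

theorem V1_DC_DC {p a : F} (hp : p ∈ Db * Cb) (ha : a ∈ Db * Cb) : p * a ∈ Db * Cb := by
  have h : (Db * Cb) * (Db * Cb) ≤ Db * Cb := by
    rw [← mul_assoc]
    exact mul_le_mul' hb.DCD le_rfl
  exact h (Submodule.mul_mem_mul hp ha)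

theorem V1_CD_CD {p a : F} (hp : p ∈ Cb * Db) (ha : a ∈ Cb * Db) : p * a ∈ Cb * Db := by
  have h : (Cb * Db) * (Cb * Db) ≤ Cb * Db := by
    rw [mul_assoc, ← mul_assoc Db]
    exact mul_le_mul' le_rfl hb.DCD
  exact h (Submodule.mul_mem_mul hp ha)

theorem V1_DC_D {p a : F} (hp : p ∈ Db * Cb) (ha : a ∈ Db) : p * a ∈ Db :=
  hb.DCD (Submodule.mul_mem_mul hp ha)

theorem V1_D_CD {p a : F} (hp : p ∈ Db) (ha : a ∈ Cb * Db) : p * a ∈ Db := by
  have h := hb.DCD
  rw [mul_assoc] at h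
  exact h (Submodule.mul_mem_mul hp ha)

theorem V1_Db_le_P1 : Db ≤ P1 := hb.D_le.trans hb.C_le

end base

theorem V1_Fk_mul {i j n : ℕ} {a b : F} (ha : a ∈ Fk i) (hb : b ∈ Fk j) (h : i + j ≤ n) :
    a * b ∈ Fk n :=
  Fk_mono h (Fk_mul i j (Submodule.mul_mem_mul ha hb))

/-- the inner left factors -/
noncomputable abbrev V1_A (Cb Db : Submodule ℚ F) (N : ℕ) : Submodule ℚ F := (1 ⊔ Db * Cb) ⊓ Fk N

/-- the inner right factors -/
noncomputable abbrev V1_B (Cb Db : Submodule ℚ F) (N : ℕ) : Submodule ℚ F := (1 ⊔ Cb * Db) ⊓ Fk N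

theorem V1_one_A (Cb Db : Submodule ℚ F) (N : ℕ) : (1 : F) ∈ V1_A Cb Db N :=
  ⟨(le_sup_left : (1 : Submodule ℚ F) ≤ 1 ⊔ Db * Cb) (Submodule.one_le.mp le_rfl), one_mem_Fk N⟩

theorem V1_one_B (Cb Db : Submodule ℚ F) (N : ℕ) : (1 : F) ∈ V1_B Cb Db N :=
  ⟨(le_sup_left : (1 : Submodule ℚ F) ≤ 1 ⊔ Cb * Db) (Submodule.one_le.mp le_rfl), one_mem_Fk N⟩

theorem V1_mem_A {Cb Db : Submodule ℚ F} {N : ℕ} {a : F} (h : a ∈ Db * Cb) (hN : a ∈ Fk N) :
    a ∈ V1_A Cb Db N := ⟨(le_sup_right : Db * Cb ≤ 1 ⊔ Db * Cb) h, hN⟩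

theorem V1_mem_B {Cb Db : Submodule ℚ F} {N : ℕ} {a : F} (h : a ∈ Cb * Db) (hN : a ∈ Fk N) :
    a ∈ V1_B Cb Db N := ⟨(le_sup_right : Cb * Db ≤ 1 ⊔ Cb * Db) h, hN⟩

theorem V1_outer_A {Cb Db : Submodule ℚ F} (hb : Base Cb Db) {N M n : ℕ} {p : F}
    (hp : p ∈ Db * Cb) (hpM : p ∈ Fk M) (hn : M + N ≤ n) :
    ∀ a ∈ V1_A Cb Db N, p * a ∈ (Db * Cb) ⊓ Fk n := by
  rintro a ⟨ha, haN⟩
  refine ⟨?_, V1_Fk_mul hpM haN hn⟩
  obtain ⟨a1, ha1, a2, ha2, rfl⟩ := Submodule.mem_sup.mp ha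
  rw [mul_add]
  refine Submodule.add_mem _ ?_ (V1_DC_DC hb hp ha2)
  obtain ⟨c, rfl⟩ := Submodule.mem_one.mp ha1
  rw [Algebra.algebraMap_eq_smul_one, mul_smul_comm, mul_one]
  exact Submodule.smul_mem _ _ hp

theorem V1_outer_B {Cb Db : Submodule ℚ F} (hb : Base Cb Db) {N M n : ℕ} {q : F}
    (hq : q ∈ Cb * Db) (hqM : q ∈ Fk M) (hn : N + M ≤ n) :
    ∀ b ∈ V1_B Cb Db N, b * q ∈ (Cb * Db) ⊓ Fk n := by
  rintro b ⟨hb', hbN⟩
  refine ⟨?_, V1_Fk_mul hbN hqM hn⟩
  obtain ⟨b1, hb1, b2, hb2, rfl⟩ := Submodule.mem_sup.mp hb'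
  rw [add_mul]
  refine Submodule.add_mem _ ?_ (V1_CD_CD hb hb2 hq)
  obtain ⟨c, rfl⟩ := Submodule.mem_one.mp hb1
  rw [Algebra.algebraMap_eq_smul_one, smul_mul_assoc, one_mul]
  exact Submodule.smul_mem _ _ hq

/-! ### the slots of the brackets -/

section slots

variable {Cb Db : Submodule ℚ F} (hb : Base Cb Db) {m l L l0 : ℕ} {f : (Fin m → F) → F}
  (hs : Slot Cb Db Fk l f) (hv : Val Db Fk l f) {Y : F} (hY : Y ∈ Cb ⊓ Fk L)

include hb hs hv hY

theorem V1_slot_right {u : Fin m → F} (hu : ∀ k, u k ∈ Db ⊓ Fk l0) (k : Fin m) {z : F}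
    (hz : z ∈ Db ⊓ Fk l0) :
    V1_I (V1_A Cb Db (m * l0 + l + L + l0)) (V1_B Cb Db (m * l0 + l + L + l0))
      (fun x => f (Function.update u k x) * Y * z) := by
  obtain ⟨n, a, b, ha, hb', hT⟩ := hs l0 u hu k
  refine ⟨n, a, fun i => b i * (Y * z), ?_, ?_, ?_⟩
  · intro i
    exact V1_mem_A (ha i).1 (Fk_mono (by omega) (ha i).2)
  · intro i
    refine V1_mem_B (V1_CD_CD hb (hb' i).1 (Submodule.mul_mem_mul hY.1 hz.1)) ?_
    exact V1_Fk_mul (hb' i).2 (V1_Fk_mul hY.2 hz.2 le_rfl) (by omega)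
  · intro x
    show f (Function.update u k x) * Y * z = ∑ i, a i * x * (b i * (Y * z))
    rw [hT, Finset.sum_mul, Finset.sum_mul]
    exact Finset.sum_congr rfl fun i _ => by simp only [mul_assoc]

theorem V1_slot_left {u : Fin m → F} (hu : ∀ k, u k ∈ Db ⊓ Fk l0) (k : Fin m) {z : F}
    (hz : z ∈ Db ⊓ Fk l0) :
    V1_I (V1_A Cb Db (m * l0 + l + L + l0)) (V1_B Cb Db (m * l0 + l + L + l0))
      (fun x => z * Y * f (Function.update u k x)) := by
  obtain ⟨n, a, b, ha, hb', hT⟩ := hs l0 u hu k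
  refine ⟨n, fun i => z * Y * a i, b, ?_, ?_, ?_⟩
  · intro i
    refine V1_mem_A (V1_DC_DC hb (Submodule.mul_mem_mul hz.1 hY.1) (ha i).1) ?_
    exact V1_Fk_mul (V1_Fk_mul hz.2 hY.2 le_rfl) (ha i).2 (by omega)
  · intro i
    exact V1_mem_B (hb' i).1 (Fk_mono (by omega) (hb' i).2)
  · intro x
    show z * Y * f (Function.update u k x) = ∑ i, z * Y * a i * x * b i
    rw [hT, Finset.mul_sum]
    exact Finset.sum_congr rfl fun i _ => by simp only [mul_assoc]

theorem V1_val_right {u : Fin m → F} (hu : ∀ k, u k ∈ Db ⊓ Fk l0) :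
    V1_I (V1_A Cb Db (m * l0 + l + L + l0)) (V1_B Cb Db (m * l0 + l + L + l0))
      (fun x => f u * Y * x) := by
  have h := V1_I_single (A := V1_A Cb Db (m * l0 + l + L + l0))
    (B := V1_B Cb Db (m * l0 + l + L + l0)) (a := f u * Y) (b := 1)
    (V1_mem_A (Submodule.mul_mem_mul (hv l0 u hu).1 hY.1)
      (V1_Fk_mul (hv l0 u hu).2 hY.2 (by omega))) (V1_one_B _ _ _)
  simpa using h

theorem V1_val_left {u : Fin m → F} (hu : ∀ k, u k ∈ Db ⊓ Fk l0) :
    V1_I (V1_A Cb Db (m * l0 + l + L + l0)) (V1_B Cb Db (m * l0 + l + L + l0))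
      (fun x => x * Y * f u) := by
  have h := V1_I_single (A := V1_A Cb Db (m * l0 + l + L + l0))
    (B := V1_B Cb Db (m * l0 + l + L + l0)) (a := 1) (b := Y * f u)
    (V1_one_A _ _ _) (V1_mem_B (Submodule.mul_mem_mul hY.1 (hv l0 u hu).1)
      (V1_Fk_mul hY.2 (hv l0 u hu).2 (by omega)))
  simpa [mul_assoc] using h

theorem V1_upd {u : Fin m → F} (hu : ∀ k, u k ∈ Db ⊓ Fk l0) (k : Fin m) {z : F}
    (hz : z ∈ Db ⊓ Fk l0) : ∀ j, Function.update u k z j ∈ Db ⊓ Fk l0 := by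
  intro j
  by_cases h : j = k
  · subst h; rw [Function.update_self]; exact hz
  · rw [Function.update_of_ne h]; exact hu j

theorem V1_brR_slot {w : Fin (m + 1) → F} (hw : ∀ k, w k ∈ Db ⊓ Fk l0) (k0 : Fin (m + 1)) :
    V1_I (V1_A Cb Db (m * l0 + l + L + l0)) (V1_B Cb Db (m * l0 + l + L + l0))
      (fun x => brR f (fun k => Function.update w k0 x k.castSucc) Y
        (Function.update w k0 x (Fin.last m))) := by
  have hu : ∀ k : Fin m, w k.castSucc ∈ Db ⊓ Fk l0 := fun k => hw _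
  refine Fin.lastCases ?_ (fun k => ?_) k0
  · have e1 : (fun x : F => brR f (fun k : Fin m => Function.update w (Fin.last m) x k.castSucc) Y
        (Function.update w (Fin.last m) x (Fin.last m)))
        = fun x => f (fun k => w k.castSucc) * Y * x - ∑ k : Fin m,
          f (Function.update (fun k => w k.castSucc) k x) * Y * w k.castSucc := by
      funext x
      have e : (fun k : Fin m => Function.update w (Fin.last m) x k.castSucc)
          = fun k => w k.castSucc := by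
        funext k
        rw [Function.update_of_ne (Fin.castSucc_lt_last k).ne]
      rw [e, Function.update_self]
      rfl
    rw [e1]
    exact V1_I_sub (V1_val_right hb hs hv hY hu)
      (V1_I_sum Finset.univ (fun k => V1_slot_right hb hs hv hY hu k (hu k)))
  · have hupd := V1_upd hb hs hv hY hu k (hw (Fin.last m))
    have e1 : (fun x : F => brR f (fun j : Fin m => Function.update w k.castSucc x j.castSucc) Y
        (Function.update w k.castSucc x (Fin.last m)))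
        = fun x => f (Function.update (fun j => w j.castSucc) k x) * Y * w (Fin.last m) -
          ∑ j : Fin m, f (Function.update (Function.update (fun j => w j.castSucc) k x) j
              (w (Fin.last m))) * Y * Function.update (fun j => w j.castSucc) k x j := by
      funext x
      have e : (fun j : Fin m => Function.update w k.castSucc x j.castSucc)
        = Function.update (fun j => w j.castSucc) k x := by
        funext j
        by_cases h : j = k
        · subst h; simp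
        · rw [Function.update_of_ne h, Function.update_of_ne]
          exact fun h' => h (Fin.castSucc_injective m h')
      rw [e, Function.update_of_ne (Fin.castSucc_lt_last k).ne']
      rfl
    rw [e1]
    refine V1_I_sub (V1_slot_right hb hs hv hY hu k (hw _)) (V1_I_sum Finset.univ fun j => ?_)
    by_cases h : j = k
    · subst h
      have e2 : (fun x : F => f (Function.update (Function.update (fun j => w j.castSucc) j x) j
          (w (Fin.last m))) * Y * Function.update (fun j => w j.castSucc) j x j)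
          = fun x => f (Function.update (fun j => w j.castSucc) j (w (Fin.last m))) * Y * x := by
        funext x
        rw [Function.update_self, Function.update_idem]
      rw [e2]
      exact V1_val_right hb hs hv hY hupd
    · have e3 : (fun x : F => f (Function.update (Function.update (fun j => w j.castSucc) k x) j
          (w (Fin.last m))) * Y * Function.update (fun j => w j.castSucc) k x j)
          = fun x => f (Function.update (Function.update (fun j => w j.castSucc)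
            j (w (Fin.last m))) k x) * Y * w j.castSucc := by
        funext x
        rw [Function.update_of_ne h, Function.update_comm (Ne.symm h)]
      rw [e3]
      exact V1_slot_right hb hs hv hY (V1_upd hb hs hv hY hu j (hw _)) k (hu j)

theorem V1_brL_slot {w : Fin (m + 1) → F} (hw : ∀ k, w k ∈ Db ⊓ Fk l0) (k0 : Fin (m + 1)) :
    V1_I (V1_A Cb Db (m * l0 + l + L + l0)) (V1_B Cb Db (m * l0 + l + L + l0))
      (fun x => brL f (fun k => Function.update w k0 x k.castSucc) Y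
        (Function.update w k0 x (Fin.last m))) := by
  have hu : ∀ k : Fin m, w k.castSucc ∈ Db ⊓ Fk l0 := fun k => hw _
  refine Fin.lastCases ?_ (fun k => ?_) k0
  · have e1 : (fun x : F => brL f (fun k : Fin m => Function.update w (Fin.last m) x k.castSucc) Y
        (Function.update w (Fin.last m) x (Fin.last m)))
        = fun x => x * Y * f (fun k => w k.castSucc) - ∑ k : Fin m,
          w k.castSucc * Y * f (Function.update (fun k => w k.castSucc) k x) := by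
      funext x
      have e : (fun k : Fin m => Function.update w (Fin.last m) x k.castSucc)
          = fun k => w k.castSucc := by
        funext k
        rw [Function.update_of_ne (Fin.castSucc_lt_last k).ne]
      rw [e, Function.update_self]
      rfl
    rw [e1]
    exact V1_I_sub (V1_val_left hb hs hv hY hu)
      (V1_I_sum Finset.univ (fun k => V1_slot_left hb hs hv hY hu k (hu k)))
  · have hupd := V1_upd hb hs hv hY hu k (hw (Fin.last m))
    have e1 : (fun x : F => brL f (fun j : Fin m => Function.update w k.castSucc x j.castSucc) Y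
        (Function.update w k.castSucc x (Fin.last m)))
        = fun x => w (Fin.last m) * Y * f (Function.update (fun j => w j.castSucc) k x) -
          ∑ j : Fin m, Function.update (fun j => w j.castSucc) k x j * Y *
            f (Function.update (Function.update (fun j => w j.castSucc) k x) j
              (w (Fin.last m))) := by
      funext x
      have e : (fun j : Fin m => Function.update w k.castSucc x j.castSucc)
        = Function.update (fun j => w j.castSucc) k x := by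
        funext j
        by_cases h : j = k
        · subst h; simp
        · rw [Function.update_of_ne h, Function.update_of_ne]
          exact fun h' => h (Fin.castSucc_injective m h')
      rw [e, Function.update_of_ne (Fin.castSucc_lt_last k).ne']
      rfl
    rw [e1]
    refine V1_I_sub (V1_slot_left hb hs hv hY hu k (hw _)) (V1_I_sum Finset.univ fun j => ?_)
    by_cases h : j = k
    · subst h
      have e2 : (fun x : F => Function.update (fun j => w j.castSucc) j x j * Y *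
          f (Function.update (Function.update (fun j => w j.castSucc) j x) j (w (Fin.last m))))
          = fun x => x * Y * f (Function.update (fun j => w j.castSucc) j (w (Fin.last m))) := by
        funext x
        rw [Function.update_self, Function.update_idem]
      rw [e2]
      exact V1_val_left hb hs hv hY hupd
    · have e3 : (fun x : F => Function.update (fun j => w j.castSucc) k x j * Y *
          f (Function.update (Function.update (fun j => w j.castSucc) k x) j (w (Fin.last m))))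
          = fun x => w j.castSucc * Y * f (Function.update (Function.update (fun j => w j.castSucc)
            j (w (Fin.last m))) k x) := by
        funext x
        rw [Function.update_of_ne h, Function.update_comm (Ne.symm h)]
      rw [e3]
      exact V1_slot_left hb hs hv hY (V1_upd hb hs hv hY hu j (hw _)) k (hu j)

theorem V1_brR_val {v : Fin m → F} (hu : ∀ k, v k ∈ Db ⊓ Fk l0) {z : F} (hz : z ∈ Db ⊓ Fk l0) :
    brR f v Y z ∈ Db ⊓ Fk (m * l0 + l + L + l0) := by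
  have key : ∀ u : Fin m → F, (∀ k, u k ∈ Db ⊓ Fk l0) → ∀ z ∈ Db ⊓ Fk l0,
      f u * Y * z ∈ Db ⊓ Fk (m * l0 + l + L + l0) := by
    intro u hu z hz
    exact ⟨V1_DC_D hb (Submodule.mul_mem_mul (hv l0 u hu).1 hY.1) hz.1,
      V1_Fk_mul (V1_Fk_mul (hv l0 u hu).2 hY.2 le_rfl) hz.2 le_rfl⟩
  refine Submodule.sub_mem _ (key v hu z hz) (Submodule.sum_mem _ fun k _ => ?_)
  exact key _ (V1_upd hb hs hv hY hu k hz) _ (hu k)

theorem V1_brL_val {v : Fin m → F} (hu : ∀ k, v k ∈ Db ⊓ Fk l0) {z : F} (hz : z ∈ Db ⊓ Fk l0) :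
    brL f v Y z ∈ Db ⊓ Fk (m * l0 + l + L + l0) := by
  have key : ∀ u : Fin m → F, (∀ k, u k ∈ Db ⊓ Fk l0) → ∀ z ∈ Db ⊓ Fk l0,
      z * Y * f u ∈ Db ⊓ Fk (m * l0 + l + L + l0) := by
    intro u hu z hz
    exact ⟨V1_DC_D hb (Submodule.mul_mem_mul hz.1 hY.1) (hv l0 u hu).1,
      V1_Fk_mul (V1_Fk_mul hz.2 hY.2 le_rfl) (hv l0 u hu).2 (by omega)⟩
  refine Submodule.sub_mem _ (key v hu z hz) (Submodule.sum_mem _ fun k _ => ?_)
  exact key _ (V1_upd hb hs hv hY hu k hz) _ (hu k)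

end slots

/-! ### contents -/

theorem V1_cont_br {G : ℕ → Submodule ℚ F} (hG : ∀ i j, G i * G j ≤ G (i + j)) {Y : F}
    (hY : Y ∈ G 0) {m : ℕ} {f : (Fin m → F) → F}
    (hf : ∀ (e : Fin m → ℕ) (u : Fin m → F), (∀ k, u k ∈ G (e k)) → f u ∈ G (∑ k, e k))
    (e : Fin m → ℕ) (v : Fin m → F) (hv : ∀ k, v k ∈ G (e k)) (d : ℕ) (z : F) (hz : z ∈ G d) :
    brR f v Y z ∈ G ((∑ k, e k) + d) ∧ brL f v Y z ∈ G ((∑ k, e k) + d) := by
  have key : ∀ (e : Fin m → ℕ) (v : Fin m → F) (_ : ∀ k, v k ∈ G (e k)) (d : ℕ) (z : F)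
      (_ : z ∈ G d), f v * Y * z ∈ G ((∑ k, e k) + d) ∧ z * Y * f v ∈ G ((∑ k, e k) + d) := by
    intro e v hv d z hz
    have h1 := hf e v hv
    refine ⟨?_, ?_⟩
    · have := hG _ _ (Submodule.mul_mem_mul (hG _ _ (Submodule.mul_mem_mul h1 hY)) hz)
      simpa using this
    · have := hG _ _ (Submodule.mul_mem_mul (hG _ _ (Submodule.mul_mem_mul hz hY)) h1)
      simpa [add_comm] using this
  have hup : ∀ k : Fin m, (∀ j, Function.update v k z j ∈ G (Function.update e k d j)) ∧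
      (∑ j, Function.update e k d j) + e k = (∑ j, e j) + d := by
    intro k
    refine ⟨fun j => ?_, ?_⟩
    · by_cases h : j = k
      · subst h; simpa using hz
      · rw [Function.update_of_ne h, Function.update_of_ne h]; exact hv j
    · rw [Finset.sum_update_of_mem (Finset.mem_univ k)]
      have : (∑ j, e j) = e k + ∑ j ∈ Finset.univ \ {k}, e j := by
        rw [← Finset.sum_sdiff (Finset.singleton_subset_iff.mpr (Finset.mem_univ k)),
          Finset.sum_singleton, add_comm]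
      omega
  refine ⟨Submodule.sub_mem _ (key e v hv d z hz).1 (Submodule.sum_mem _ fun k _ => ?_),
    Submodule.sub_mem _ (key e v hv d z hz).2 (Submodule.sum_mem _ fun k _ => ?_)⟩
  · have := (key _ _ (hup k).1 (e k) (v k) (hv k)).1
    rwa [(hup k).2] at this
  · have := (key _ _ (hup k).1 (e k) (v k) (hv k)).2
    rwa [(hup k).2] at this

/-! ### the alternating maps -/

section alt

variable {M : Type} [Ring M] [Algebra ℚ M] {m : ℕ}

/-- `w ↦ g (w ∘ castSucc) * y * w last` -/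
noncomputable def V1_TR (g : M [⋀^Fin m]→ₗ[ℚ] M) (y : M) :
    MultilinearMap ℚ (fun _ : Fin (m + 1) => M) M :=
  MultilinearMap.uncurryRight
    ((((LinearMap.mul ℚ M).comp (LinearMap.mulRight ℚ y))).compMultilinearMap g.toMultilinearMap)

theorem V1_TR_apply (g : M [⋀^Fin m]→ₗ[ℚ] M) (y : M) (w : Fin (m + 1) → M) :
    V1_TR g y w = g (fun k => w k.castSucc) * y * w (Fin.last m) := rfl

/-- `w ↦ w last * y * g (w ∘ castSucc)` -/
noncomputable def V1_TL (g : M [⋀^Fin m]→ₗ[ℚ] M) (y : M) :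
    MultilinearMap ℚ (fun _ : Fin (m + 1) => M) M :=
  MultilinearMap.uncurryRight
    ((((LinearMap.mul ℚ M).flip.comp (LinearMap.mulLeft ℚ y))).compMultilinearMap
      g.toMultilinearMap)

theorem V1_TL_apply (g : M [⋀^Fin m]→ₗ[ℚ] M) (y : M) (w : Fin (m + 1) → M) :
    V1_TL g y w = w (Fin.last m) * (y * g (fun k => w k.castSucc)) := rfl

theorem V1_swap (w : Fin (m + 1) → M) (k : Fin m) :
    (fun j : Fin m => w (Equiv.swap k.castSucc (Fin.last m) j.castSucc))
      = Function.update (fun j => w j.castSucc) k (w (Fin.last m)) := by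
  funext j
  by_cases h : j = k
  · subst h; simp
  · rw [Function.update_of_ne h, Equiv.swap_apply_of_ne_of_ne]
    · exact fun h' => h (Fin.castSucc_injective m h')
    · exact (Fin.castSucc_lt_last j).ne

theorem V1_alt_vanish (g : M [⋀^Fin m]→ₗ[ℚ] M) (Φ : M → M → M)
    (hΦ : ∀ z, Φ 0 z = 0) (hneg : ∀ a z, Φ (-a) z = - Φ a z)
    (w : Fin (m + 1) → M) (i j : Fin (m + 1)) (hw : w i = w j) (hij : i ≠ j) :
    Φ (g (fun k => w k.castSucc)) (w (Fin.last m)) -
      ∑ k : Fin m, Φ (g (Function.update (fun k => w k.castSucc) k (w (Fin.last m))))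
        (w k.castSucc) = 0 := by
  -- one of the two indices is the last one
  have last : ∀ i : Fin m, w i.castSucc = w (Fin.last m) →
      Φ (g (fun k => w k.castSucc)) (w (Fin.last m)) -
      ∑ k : Fin m, Φ (g (Function.update (fun k => w k.castSucc) k (w (Fin.last m))))
        (w k.castSucc) = 0 := by
    intro i hi
    rw [Finset.sum_eq_single i]
    · have : Function.update (fun k => w k.castSucc) i (w (Fin.last m)) = fun k => w k.castSucc := by
        funext k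
        by_cases h : k = i
        · subst h; rw [Function.update_self, hi]
        · rw [Function.update_of_ne h]
      rw [this, hi, sub_self]
    · intro k _ hk
      have h0 : g (Function.update (fun k => w k.castSucc) k (w (Fin.last m))) = 0 := by
        refine g.map_eq_zero_of_eq _ (i := i) (j := k) ?_ (Ne.symm hk)
        rw [Function.update_self, Function.update_of_ne (Ne.symm hk), hi]
      rw [h0, hΦ]
    · intro h; exact absurd (Finset.mem_univ i) h
  have gen : ∀ i j : Fin m, i ≠ j → w i.castSucc = w j.castSucc →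
      Φ (g (fun k => w k.castSucc)) (w (Fin.last m)) -
      ∑ k : Fin m, Φ (g (Function.update (fun k => w k.castSucc) k (w (Fin.last m))))
        (w k.castSucc) = 0 := by
    intro i j hij hw
    have h0 : g (fun k => w k.castSucc) = 0 := g.map_eq_zero_of_eq _ (i := i) (j := j) hw hij
    rw [h0, hΦ, zero_sub, neg_eq_zero, ← Finset.add_sum_erase _ _ (Finset.mem_univ i),
      ← Finset.add_sum_erase _ _ (Finset.mem_erase.mpr ⟨Ne.symm hij, Finset.mem_univ j⟩)]
    have hz : ∑ k ∈ (Finset.univ.erase i).erase j,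
        Φ (g (Function.update (fun k => w k.castSucc) k (w (Fin.last m)))) (w k.castSucc) = 0 := by
      refine Finset.sum_eq_zero fun k hk => ?_
      rw [Finset.mem_erase, Finset.mem_erase] at hk
      have h1 : g (Function.update (fun k => w k.castSucc) k (w (Fin.last m))) = 0 := by
        refine g.map_eq_zero_of_eq _ (i := i) (j := j) ?_ hij
        rw [Function.update_of_ne (Ne.symm hk.2.1), Function.update_of_ne (Ne.symm hk.1)]
        exact hw
      rw [h1, hΦ]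
    rw [hz, add_zero]
    have hsw : Function.update (fun k => w k.castSucc) j (w (Fin.last m))
        = (Function.update (fun k => w k.castSucc) i (w (Fin.last m))) ∘ Equiv.swap i j := by
      funext k
      rw [Function.comp_apply]
      by_cases h1 : k = i
      · subst h1
        rw [Equiv.swap_apply_left, Function.update_of_ne hij, Function.update_of_ne (Ne.symm hij)]
        exact hw
      · by_cases h2 : k = j
        · subst h2
          rw [Equiv.swap_apply_right, Function.update_self, Function.update_self]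
        · rw [Equiv.swap_apply_of_ne_of_ne h1 h2, Function.update_of_ne h1,
            Function.update_of_ne h2]
    rw [hsw, g.map_swap _ hij, hneg, hw]
    exact add_neg_cancel _
  rcases Fin.eq_castSucc_or_eq_last i with ⟨i', rfl⟩ | rfl
  · rcases Fin.eq_castSucc_or_eq_last j with ⟨j', rfl⟩ | rfl
    · exact gen i' j' (fun h => hij (by rw [h])) hw
    · exact last i' hw
  · rcases Fin.eq_castSucc_or_eq_last j with ⟨j', rfl⟩ | rfl
    · exact last j' hw.symm
    · exact absurd rfl hij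

/-- the right bracket of an alternating map -/
noncomputable def V1_AR (g : M [⋀^Fin m]→ₗ[ℚ] M) (y a b : M) :
    M [⋀^Fin (m + 1)]→ₗ[ℚ] M where
  toMultilinearMap := ((LinearMap.mulLeft ℚ a).comp (LinearMap.mulRight ℚ b)).compMultilinearMap
    (V1_TR g y - ∑ k : Fin m, (V1_TR g y).domDomCongr (Equiv.swap k.castSucc (Fin.last m)))
  map_eq_zero_of_eq' := by
    intro w i j hw hij
    have h := V1_alt_vanish g (fun a z => a * y * z) (fun z => by simp) (fun a z => by simp)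
      w i j hw hij
    show a * ((V1_TR g y - ∑ k : Fin m,
      (V1_TR g y).domDomCongr (Equiv.swap k.castSucc (Fin.last m))) w * b) = 0
    have e : (V1_TR g y - ∑ k : Fin m,
      (V1_TR g y).domDomCongr (Equiv.swap k.castSucc (Fin.last m))) w = 0 := by
      rw [sub_apply, sum_apply, V1_TR_apply]
      simp only [MultilinearMap.domDomCongr_apply, V1_TR_apply, V1_swap, Equiv.swap_apply_right]
      exact h
    rw [e, zero_mul, mul_zero]

theorem V1_AR_apply (g : M [⋀^Fin m]→ₗ[ℚ] M) (y a b : M) (w : Fin (m + 1) → M) :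
    V1_AR g y a b w = a * ((g (fun k => w k.castSucc) * y * w (Fin.last m) -
      ∑ k : Fin m, g (Function.update (fun k => w k.castSucc) k (w (Fin.last m))) * y *
        w k.castSucc) * b) := by
  show a * ((V1_TR g y - ∑ k : Fin m,
      (V1_TR g y).domDomCongr (Equiv.swap k.castSucc (Fin.last m))) w * b) = _
  rw [sub_apply, sum_apply, V1_TR_apply]
  simp only [MultilinearMap.domDomCongr_apply, V1_TR_apply, V1_swap, Equiv.swap_apply_right]

/-- the left bracket of an alternating map -/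
noncomputable def V1_AL (g : M [⋀^Fin m]→ₗ[ℚ] M) (y a b : M) :
    M [⋀^Fin (m + 1)]→ₗ[ℚ] M where
  toMultilinearMap := ((LinearMap.mulLeft ℚ a).comp (LinearMap.mulRight ℚ b)).compMultilinearMap
    (V1_TL g y - ∑ k : Fin m, (V1_TL g y).domDomCongr (Equiv.swap k.castSucc (Fin.last m)))
  map_eq_zero_of_eq' := by
    intro w i j hw hij
    have h := V1_alt_vanish g (fun a z => z * (y * a)) (fun z => by simp) (fun a z => by simp)
      w i j hw hij
    show a * ((V1_TL g y - ∑ k : Fin m,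
      (V1_TL g y).domDomCongr (Equiv.swap k.castSucc (Fin.last m))) w * b) = 0
    have e : (V1_TL g y - ∑ k : Fin m,
      (V1_TL g y).domDomCongr (Equiv.swap k.castSucc (Fin.last m))) w = 0 := by
      rw [sub_apply, sum_apply, V1_TL_apply]
      simp only [MultilinearMap.domDomCongr_apply, V1_TL_apply, V1_swap, Equiv.swap_apply_right]
      exact h
    rw [e, zero_mul, mul_zero]

theorem V1_AL_apply (g : M [⋀^Fin m]→ₗ[ℚ] M) (y a b : M) (w : Fin (m + 1) → M) :
    V1_AL g y a b w = a * ((w (Fin.last m) * (y * g (fun k => w k.castSucc)) -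
      ∑ k : Fin m, w k.castSucc * (y * g (Function.update (fun k => w k.castSucc) k
        (w (Fin.last m))))) * b) := by
  show a * ((V1_TL g y - ∑ k : Fin m,
      (V1_TL g y).domDomCongr (Equiv.swap k.castSucc (Fin.last m))) w * b) = _
  rw [sub_apply, sum_apply, V1_TL_apply]
  simp only [MultilinearMap.domDomCongr_apply, V1_TL_apply, V1_swap, Equiv.swap_apply_right]

end alt

theorem V1_common {Db : Submodule ℚ F} {n : ℕ} (w : Fin n → F) (hw : ∀ k, w k ∈ Db) :
    ∃ l0, ∀ k, w k ∈ Db ⊓ Fk l0 := by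
  choose g hg using fun k => exists_Fk (w k)
  exact ⟨∑ k, g k, fun k => ⟨hw k, Fk_mono (Finset.single_le_sum (f := g)
    (fun _ _ => Nat.zero_le _) (Finset.mem_univ k)) (hg k)⟩⟩

/-- the bracket preserves the slot form, the values, the contents and the alternating property -/
theorem rk_plus {C Cb Db U V : Submodule ℚ F} {m l b1 L : ℕ} {R : Set ((Fin m → F) → F)}
    (hC : C ≤ P1) (hb : Base Cb Db) (hR : Rk m l Cb Db U V R) (hCb : C ⊓ Fk b1 ≤ Cb) :
    ∃ l', Rk (m + 1) l' Cb Db (V * (C ⊓ Fk b1) * V) (Wp Cb Db (V * (C ⊓ Fk b1) * V) R L)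
      (Rp Cb (V * (C ⊓ Fk b1) * V) R L) := by
  set U' : Submodule ℚ F := V * (C ⊓ Fk b1) * V with hU'
  have hU'D : U' ≤ Db :=
    (mul_le_mul' (mul_le_mul' hR.V_le hCb) hR.V_le).trans hb.DCD
  have hU'F : U' ≤ Fk (l + b1 + l) := by
    refine (mul_le_mul' (mul_le_mul' hR.V_len (inf_le_right :
      C ⊓ Fk b1 ≤ Fk b1)) hR.V_len).trans ?_
    exact (mul_le_mul' (Fk_mul _ _) le_rfl).trans (Fk_mul _ _)
  have hU'P : U' ≤ P1 := hU'D.trans (V1_Db_le_P1 hb)
  have hDP := V1_Db_le_P1 hb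
  -- the outer factors
  have hp : ∀ J ∈ U', ∀ c ∈ Cb ⊓ Fk L, J * c ∈ Db * Cb ∧ J * c ∈ Fk (l + b1 + l + L) ∧
      J * c ∈ P1 := by
    intro J hJ c hc
    exact ⟨Submodule.mul_mem_mul (hU'D hJ) hc.1, V1_Fk_mul (hU'F hJ) hc.2 le_rfl,
      mul_mem_P1 (hU'P hJ) (hb.C_le hc.1)⟩
  have hq : ∀ J ∈ U', ∀ c ∈ Cb ⊓ Fk L, c * J ∈ Cb * Db ∧ c * J ∈ Fk (l + b1 + l + L) ∧
      c * J ∈ P1 := by
    intro J hJ c hc
    exact ⟨Submodule.mul_mem_mul hc.1 (hU'D hJ), V1_Fk_mul hc.2 (hU'F hJ) (by omega),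
      mul_mem_P1 (hb.C_le hc.1) (hU'P hJ)⟩
  -- the values
  have hval : ∀ J ∈ U', ∀ J' ∈ U', ∀ c ∈ Cb ⊓ Fk L, ∀ c' ∈ Cb ⊓ Fk L, ∀ (N : ℕ),
      ∀ t ∈ Db ⊓ Fk N, J * c * t * (c' * J') ∈ Db ⊓ Fk (N + 2 * (l + b1 + l + L)) := by
    intro J hJ J' hJ' c hc c' hc' N t ht
    obtain ⟨h1, h2, -⟩ := hp J hJ c hc
    obtain ⟨h3, h4, -⟩ := hq J' hJ' c' hc'
    exact ⟨V1_D_CD hb (V1_DC_D hb h1 ht.1) h3,
      V1_Fk_mul (V1_Fk_mul h2 ht.2 le_rfl) h4 (by omega)⟩
  refine ⟨(m + 1) * L + (l + L + 2 * (l + b1 + l + L)), ?_, ?_, ?_, ?_, ?_, ?_, ?_, ?_, ?_⟩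
  · -- V_le
    refine Submodule.span_le.mpr ?_
    rintro x ⟨J, hJ, J', hJ', f, hf, c, hc, c', hc', Y, hY, z, hz, v, hv, rfl | rfl⟩
    · exact (hval J hJ J' hJ' c hc c' hc' _ _
        (V1_brR_val hb (hR.slot f hf) (hR.val f hf) hY hv hz)).1
    · exact (hval J hJ J' hJ' c hc c' hc' _ _
        (V1_brL_val hb (hR.slot f hf) (hR.val f hf) hY hv hz)).1
  · -- V_len
    refine Submodule.span_le.mpr ?_
    rintro x ⟨J, hJ, J', hJ', f, hf, c, hc, c', hc', Y, hY, z, hz, v, hv, rfl | rfl⟩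
    · exact Fk_mono (by rw [Nat.add_mul, Nat.one_mul]; omega)
        (hval J hJ J' hJ' c hc c' hc' _ _
          (V1_brR_val hb (hR.slot f hf) (hR.val f hf) hY hv hz)).2
    · exact Fk_mono (by rw [Nat.add_mul, Nat.one_mul]; omega)
        (hval J hJ J' hJ' c hc c' hc' _ _
          (V1_brL_val hb (hR.slot f hf) (hR.val f hf) hY hv hz)).2
  · -- gen
    refine Submodule.span_mono ?_
    rintro x ⟨J, hJ, J', hJ', f, hf, c, hc, c', hc', Y, hY, z, hz, v, hv, hx⟩
    refine ⟨Submodule.subset_span ⟨J, hJ, J', hJ', f, hf, c, hc, c', hc', Y, hY, z, hz, v, hv, hx⟩,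
      ?_⟩
    have hsn : ∀ k : Fin (m + 1), Fin.snoc (α := fun _ => F) v z k ∈
        Db ⊓ Fk ((m + 1) * L + (l + L + 2 * (l + b1 + l + L))) := by
      intro k
      have hle : Db ⊓ Fk L ≤ Db ⊓ Fk ((m + 1) * L + (l + L + 2 * (l + b1 + l + L))) :=
        inf_le_inf le_rfl (Fk_mono (by omega))
      refine Fin.lastCases ?_ (fun j => ?_) k
      · rw [Fin.snoc_last]; exact hle hz
      · rw [Fin.snoc_castSucc]; exact hle (hv j)
    rcases hx with rfl | rfl
    · refine ⟨_, ⟨J, hJ, J', hJ', f, hf, c, hc, c', hc', Y, hY, Or.inl rfl⟩,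
        Fin.snoc (α := fun _ => F) v z, hsn, ?_⟩
      simp only [Fin.snoc_castSucc, Fin.snoc_last]
    · refine ⟨_, ⟨J, hJ, J', hJ', f, hf, c, hc, c', hc', Y, hY, Or.inr rfl⟩,
        Fin.snoc (α := fun _ => F) v z, hsn, ?_⟩
      simp only [Fin.snoc_castSucc, Fin.snoc_last]
  · -- slot
    rintro g ⟨J, hJ, J', hJ', f, hf, c, hc, c', hc', Y, hY, hg⟩
    intro l0 w hw k0
    have hA := V1_outer_A (N := m * l0 + l + L + l0)
      (n := (m + 1) * l0 + ((m + 1) * L + (l + L + 2 * (l + b1 + l + L)))) hb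
      (hp J hJ c hc).1 (hp J hJ c hc).2.1 (by rw [Nat.add_mul, Nat.one_mul]; omega)
    have hB := V1_outer_B (N := m * l0 + l + L + l0)
      (n := (m + 1) * l0 + ((m + 1) * L + (l + L + 2 * (l + b1 + l + L)))) hb
      (hq J' hJ' c' hc').1 (hq J' hJ' c' hc').2.1 (by rw [Nat.add_mul, Nat.one_mul]; omega)
    rcases hg with rfl | rfl
    · exact V1_I_mul (V1_brR_slot hb (hR.slot f hf) (hR.val f hf) hY hw k0) hA hB
    · exact V1_I_mul (V1_brL_slot hb (hR.slot f hf) (hR.val f hf) hY hw k0) hA hB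
  · -- val
    rintro g ⟨J, hJ, J', hJ', f, hf, c, hc, c', hc', Y, hY, hg⟩
    intro l0 w hw
    have hle : Db ⊓ Fk (m * l0 + l + L + l0 + 2 * (l + b1 + l + L)) ≤
        Db ⊓ Fk ((m + 1) * l0 + ((m + 1) * L + (l + L + 2 * (l + b1 + l + L)))) :=
      inf_le_inf le_rfl (Fk_mono (by rw [Nat.add_mul, Nat.one_mul]; omega))
    rcases hg with rfl | rfl
    · exact hle (hval J hJ J' hJ' c hc c' hc' _ _
        (V1_brR_val hb (hR.slot f hf) (hR.val f hf) hY (fun k => hw _) (hw _)))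
    · exact hle (hval J hJ J' hJ' c hc c' hc' _ _
        (V1_brL_val hb (hR.slot f hf) (hR.val f hf) hY (fun k => hw _) (hw _)))
  · -- PU
    rintro g ⟨J, hJ, J', hJ', f, hf, c, hc, c', hc', Y, hY, hg⟩ w hw
    obtain ⟨l0, hl0⟩ := V1_common w hw
    have hbr : ∀ t ∈ Db, J * c * t * (c' * J') ∈ P1 * U' := by
      intro t ht
      rw [← mul_assoc (J * c * t) c' J']
      exact Submodule.mul_mem_mul (mul_mem_P1 (mul_mem_P1 (hp J hJ c hc).2.2 (hDP ht))
        (hb.C_le hc'.1)) hJ'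
    rcases hg with rfl | rfl
    · exact hbr _ (V1_brR_val hb (hR.slot f hf) (hR.val f hf) hY (fun k => hl0 _) (hl0 _)).1
    · exact hbr _ (V1_brL_val hb (hR.slot f hf) (hR.val f hf) hY (fun k => hl0 _) (hl0 _)).1
  · -- UP
    rintro g ⟨J, hJ, J', hJ', f, hf, c, hc, c', hc', Y, hY, hg⟩ w hw
    obtain ⟨l0, hl0⟩ := V1_common w hw
    have hbr : ∀ t ∈ Db, J * c * t * (c' * J') ∈ U' * P1 := by
      intro t ht
      rw [mul_assoc (J * c) t, mul_assoc J c]
      exact Submodule.mul_mem_mul hJ (mul_mem_P1 (hb.C_le hc.1) (mul_mem_P1 (hDP ht)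
        (hq J' hJ' c' hc').2.2))
    rcases hg with rfl | rfl
    · exact hbr _ (V1_brR_val hb (hR.slot f hf) (hR.val f hf) hY (fun k => hl0 _) (hl0 _)).1
    · exact hbr _ (V1_brL_val hb (hR.slot f hf) (hR.val f hf) hY (fun k => hl0 _) (hl0 _)).1
  · -- cont
    rintro g ⟨J, hJ, J', hJ', f, hf, c, hc, c', hc', Y, hY, hg⟩ G hG hG0 e w hw
    have h := V1_cont_br hG (hG0 (hb.C_le hY.1)) (hR.cont f hf G hG hG0)
      (fun k => e k.castSucc) (fun k => w k.castSucc) (fun k => hw _) (e (Fin.last m))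
      (w (Fin.last m)) (hw _)
    have hbr : ∀ t ∈ G ((∑ k : Fin m, e k.castSucc) + e (Fin.last m)),
        J * c * t * (c' * J') ∈ G (∑ k, e k) := by
      intro t ht
      have := hG _ _ (Submodule.mul_mem_mul (hG _ _ (Submodule.mul_mem_mul
        (hG0 (hp J hJ c hc).2.2) ht)) (hG0 (hq J' hJ' c' hc').2.2))
      rw [Fin.sum_univ_castSucc]
      simpa using this
    rcases hg with rfl | rfl
    · exact hbr _ h.1
    · exact hbr _ h.2
  · -- alt
    rintro g ⟨J, hJ, J', hJ', f, hf, c, hc, c', hc', Y, hY, hg⟩ d φ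
    obtain ⟨g0, hg0⟩ := hR.alt f hf d φ
    have hup : ∀ (w : Fin (m + 1) → F) (k : Fin m),
        (fun j => φ (Function.update (fun k => w k.castSucc) k (w (Fin.last m)) j)) =
        Function.update (fun k : Fin m => φ (w k.castSucc)) k (φ (w (Fin.last m))) := by
      intro w k
      funext j
      by_cases h : j = k
      · subst h; rw [Function.update_self, Function.update_self]
      · rw [Function.update_of_ne h, Function.update_of_ne h]
    rcases hg with rfl | rfl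
    · refine ⟨V1_AR g0 (φ Y) (φ (J * c)) (φ (c' * J')), fun w => ?_⟩
      rw [V1_AR_apply]
      show φ (J * c * (f (fun k => w k.castSucc) * Y * w (Fin.last m) - ∑ k : Fin m,
        f (Function.update (fun k => w k.castSucc) k (w (Fin.last m))) * Y * w k.castSucc) *
        (c' * J')) = _
      rw [map_mul, map_mul, map_sub, map_sum, mul_assoc]
      congr 2
      rw [map_mul, map_mul, hg0]
      congr 1
      refine Finset.sum_congr rfl fun k _ => ?_
      rw [map_mul, map_mul, hg0, hup]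
    · refine ⟨V1_AL g0 (φ Y) (φ (J * c)) (φ (c' * J')), fun w => ?_⟩
      rw [V1_AL_apply]
      show φ (J * c * (w (Fin.last m) * Y * f (fun k => w k.castSucc) - ∑ k : Fin m,
        w k.castSucc * Y * f (Function.update (fun k => w k.castSucc) k (w (Fin.last m)))) *
        (c' * J')) = _
      rw [map_mul, map_mul, map_sub, map_sum, mul_assoc]
      congr 2
      rw [map_mul, map_mul, hg0, mul_assoc]
      congr 1
      refine Finset.sum_congr rfl fun k _ => ?_
      rw [map_mul, map_mul, hg0, hup, mul_assoc]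

end NF
end

section

/-! MP_24a659_al, job N8: periodic words. -/

set_option autoImplicit false

namespace NF

theorem N8_aux (s : Sq) {p q q' : ℕ} (h : p < q) (h' : q ≤ q')
    (hper : ∀ i, i < q' - q → s (p + i) = s (q + i)) (r : ℕ) :
    ∀ M : ℕ, (q - p) * M + r ≤ q' - p →
      W s p (p + ((q - p) * M + r)) = (W s p q) ^ M * W s p (p + r) := by
  intro M
  induction M with
  | zero =>
    intro _
    rw [Nat.mul_zero, Nat.zero_add, pow_zero, one_mul]
  | succ M ih =>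
    intro hM
    have h1 : (q - p) * (M + 1) = (q - p) + (q - p) * M := by ring
    have h2 : (q - p) * M + r ≤ q' - q := by rw [h1] at hM; omega
    have h3 : p + ((q - p) * (M + 1) + r) = q + ((q - p) * M + r) := by rw [h1]; omega
    have h4 : W s q (q + ((q - p) * M + r)) = W s p (p + ((q - p) * M + r)) :=
      (W_congr s s p q _ fun j hj => hper j (by omega)).symm
    rw [h3, ← W_mul s h.le (Nat.le_add_right q _), h4, ih (by omega), pow_succ', mul_assoc]

theorem ns_period (s : Sq) {p q q' n : ℕ} (h : p < q) (h' : q ≤ q') (h'' : q' ≤ n)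
    (hper : ∀ i, i < q' - q → s (p + i) = s (q + i)) :
    ∃ M r, r < q - p ∧ W s 0 n =
      W s 0 p * (W s p (p + r) * W s (p + r) q) ^ M * W s p (p + r) * W s q' n := by
  refine ⟨(q' - p) / (q - p), (q' - p) % (q - p), Nat.mod_lt _ (by omega), ?_⟩
  have hr : (q' - p) % (q - p) < q - p := Nat.mod_lt _ (by omega)
  have h1 := N8_aux s h h' hper ((q' - p) % (q - p)) ((q' - p) / (q - p))
    (Nat.div_add_mod _ _).le
  rw [Nat.div_add_mod, show p + (q' - p) = q' by omega] at h1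
  rw [W_mul s (Nat.le_add_right p _) (by omega : p + (q' - p) % (q - p) ≤ q),
    mul_assoc (W s 0 p), ← h1, W_mul s (Nat.zero_le p) (by omega : p ≤ q'),
    W_mul s (Nat.zero_le q') h'']

end NF
end

section

/-! MP_24a659_al, job T2: periodic words. -/

set_option autoImplicit false

namespace NF

/-- the coefficients of `Z` are the values of the polynomials `P` -/
def T2_Rep {ι : Type} (θ : ι → ℚ) (P : Mon → MvPolynomial ι ℚ) (Z : F) : Prop :=
  ∀ m, cf m Z = MvPolynomial.eval θ (P m)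

/-- convolution -/
noncomputable def T2_conv {ι : Type} (P Q : Mon → MvPolynomial ι ℚ) (m : Mon) :
    MvPolynomial ι ℚ :=
  ∑ i ∈ Finset.range (m.toList.length + 1),
    P (ofL (m.toList.take i)) * Q (ofL (m.toList.drop i))

theorem T2_rep_mul {ι : Type} {θ : ι → ℚ} {P Q : Mon → MvPolynomial ι ℚ} {Z Z' : F}
    (h : T2_Rep θ P Z) (h' : T2_Rep θ Q Z') : T2_Rep θ (T2_conv P Q) (Z * Z') := by
  intro m
  rw [cf_mul, T2_conv, map_sum]
  refine Finset.sum_congr rfl fun i _ => ?_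
  rw [map_mul, h, h']

theorem T2_rep_sub {ι : Type} {θ : ι → ℚ} {P Q : Mon → MvPolynomial ι ℚ} {Z Z' : F}
    (h : T2_Rep θ P Z) (h' : T2_Rep θ Q Z') : T2_Rep θ (fun m => P m - Q m) (Z - Z') := by
  intro m
  rw [map_sub, map_sub, h, h']

open Classical in
/-- the polynomials of `1` -/
noncomputable def T2_one {ι : Type} (m : Mon) : MvPolynomial ι ℚ := if m = 1 then 1 else 0

theorem T2_rep_one {ι : Type} (θ : ι → ℚ) : T2_Rep θ T2_one (1 : F) := by
  intro m
  unfold T2_one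
  by_cases hm : m = 1
  · rw [if_pos hm, hm]
    exact eps_one.trans (map_one (MvPolynomial.eval θ)).symm
  · rw [if_neg hm, map_zero, cf_one_ne hm]

/-- the polynomials of a power -/
noncomputable def T2_pow {ι : Type} (P : Mon → MvPolynomial ι ℚ) : ℕ → Mon → MvPolynomial ι ℚ
  | 0 => T2_one
  | k + 1 => T2_conv (T2_pow P k) P

theorem T2_rep_pow {ι : Type} {θ : ι → ℚ} {P : Mon → MvPolynomial ι ℚ} {Z : F}
    (h : T2_Rep θ P Z) : ∀ k : ℕ, T2_Rep θ (T2_pow P k) (Z ^ k)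
  | 0 => by rw [pow_zero]; exact T2_rep_one θ
  | k + 1 => by rw [pow_succ]; exact T2_rep_mul (T2_rep_pow h k) h

/-- powers of an element without constant coefficient -/
theorem T2_cf_pow {x : F} (hx : eps x = 0) : ∀ (k : ℕ) (m : Mon), m.toList.length < k →
    cf m (x ^ k) = 0 := by
  intro k
  induction k with
  | zero => intro m hm; omega
  | succ k ih =>
    intro m hm
    rw [pow_succ', cf_mul]
    refine Finset.sum_eq_zero fun i hi => ?_
    rw [Finset.mem_range] at hi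
    rcases Nat.eq_zero_or_pos i with h0 | h0
    · subst h0
      have h1 : cf (ofL (m.toList.take 0)) x = 0 := hx
      rw [h1, zero_mul]
    · have h1 : (ofL (m.toList.drop i)).toList.length = m.toList.length - i :=
        List.length_drop
      rw [ih _ (by rw [h1]; omega), mul_zero]

/-- the binomial coefficient as a polynomial -/
noncomputable def T2_bin {ι : Type} (j : ι) (k : ℕ) : MvPolynomial ι ℚ :=
  MvPolynomial.C (1 / (k.factorial : ℚ)) *
    Polynomial.eval₂ MvPolynomial.C (MvPolynomial.X j) (descPochhammer ℚ k)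

theorem T2_eval_bin {ι : Type} (θ : ι → ℚ) (j : ι) (M k : ℕ) (hj : θ j = (M : ℚ)) :
    MvPolynomial.eval θ (T2_bin j k) = (M.choose k : ℚ) := by
  unfold T2_bin
  rw [map_mul, MvPolynomial.eval_C, Polynomial.hom_eval₂, MvPolynomial.eval_X, hj]
  have h1 : (MvPolynomial.eval θ).comp MvPolynomial.C = RingHom.id ℚ :=
    RingHom.ext fun x => MvPolynomial.eval_C x
  rw [h1]
  have h2 : Polynomial.eval₂ (RingHom.id ℚ) (M : ℚ) (descPochhammer ℚ k) =
      (M.descFactorial k : ℚ) := descPochhammer_eval_eq_descFactorial ℚ M k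
  rw [h2, Nat.descFactorial_eq_factorial_mul_choose, Nat.cast_mul]
  have h3 : (k.factorial : ℚ) ≠ 0 := Nat.cast_ne_zero.2 k.factorial_ne_zero
  field_simp

/-- the coefficients of a power of an element with constant coefficient `1` -/
theorem T2_cf_pow_one {z : F} (hz : eps z = 1) (M : ℕ) (m : Mon) :
    cf m (z ^ M) = ∑ k ∈ Finset.range (m.toList.length + 1),
      (M.choose k : ℚ) * cf m ((z - 1) ^ k) := by
  have hx : eps (z - 1) = 0 := by rw [map_sub, hz, eps_one, sub_self]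
  have h1 : z ^ M = ∑ k ∈ Finset.range (M + 1), (M.choose k) • (z - 1) ^ k := by
    have h2 := (Commute.one_right (z - 1)).add_pow M
    rw [sub_add_cancel] at h2
    rw [h2]
    refine Finset.sum_congr rfl fun k _ => ?_
    rw [one_pow, mul_one, nsmul_eq_mul']
  have h2 : cf m (z ^ M) = ∑ k ∈ Finset.range (M + 1),
      (M.choose k : ℚ) * cf m ((z - 1) ^ k) := by
    rw [h1, map_sum]
    refine Finset.sum_congr rfl fun k _ => ?_
    rw [map_nsmul, nsmul_eq_mul]
  rw [h2]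
  set N := max M m.toList.length with hN
  have h3 : ∑ k ∈ Finset.range (M + 1), (M.choose k : ℚ) * cf m ((z - 1) ^ k) =
      ∑ k ∈ Finset.range (N + 1), (M.choose k : ℚ) * cf m ((z - 1) ^ k) := by
    refine Finset.sum_subset (fun k hk => ?_) fun k _ hk => ?_
    · rw [Finset.mem_range] at hk ⊢; omega
    · rw [Finset.mem_range] at hk
      rw [Nat.choose_eq_zero_of_lt (by omega), Nat.cast_zero, zero_mul]
  have h4 : ∑ k ∈ Finset.range (m.toList.length + 1),
      (M.choose k : ℚ) * cf m ((z - 1) ^ k) =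
      ∑ k ∈ Finset.range (N + 1), (M.choose k : ℚ) * cf m ((z - 1) ^ k) := by
    refine Finset.sum_subset (fun k hk => ?_) fun k _ hk => ?_
    · rw [Finset.mem_range] at hk ⊢; omega
    · rw [Finset.mem_range] at hk
      rw [T2_cf_pow hx k m (by omega), mul_zero]
  rw [h3, h4]

/-- any finite type of parameters may be used -/
theorem T2_tame {ι : Type} [Fintype ι] {S : Set F} (P : Mon → MvPolynomial ι ℚ)
    (h : ∀ Z ∈ S, ∃ θ : ι → ℚ, T2_Rep θ P Z) : Tame S := by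
  refine ⟨Fintype.card ι, fun m => MvPolynomial.rename (Fintype.equivFin ι) (P m),
    fun Z hZ => ?_⟩
  obtain ⟨θ, hθ⟩ := h Z hZ
  refine ⟨fun i => θ ((Fintype.equivFin ι).symm i), fun m => ?_⟩
  rw [MvPolynomial.eval_rename, hθ m]
  have e : (fun i => θ ((Fintype.equivFin ι).symm i)) ∘ (Fintype.equivFin ι) = θ := by
    funext i
    simp
  rw [e]

/-- the powers: the coefficients of `(p r)^M`, `p`, `r` with constant coefficient `1`, are
polynomials in `M` and the parameters of `p` and `r`, because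
`(p r)^M = Σ_k C(M,k) (p r - 1)^k` -/
theorem Tame_periodic {S1 S2 S3 S4 : Set F} (h1 : Tame S1) (h2 : Tame S2) (h3 : Tame S3)
    (h4 : Tame S4) (e2 : ∀ p ∈ S2, eps p = 1) (e3 : ∀ r ∈ S3, eps r = 1) :
    Tame {Z | ∃ a ∈ S1, ∃ p ∈ S2, ∃ r ∈ S3, ∃ b ∈ S4, ∃ M : ℕ, Z = a * (p * r) ^ M * p * b} := by
  obtain ⟨d1, P1, h1⟩ := h1
  obtain ⟨d2, P2, h2⟩ := h2
  obtain ⟨d3, P3, h3⟩ := h3
  obtain ⟨d4, P4, h4⟩ := h4
  let i1 : Fin d1 → ((Fin d1 ⊕ Fin d2) ⊕ (Fin d3 ⊕ Fin d4)) ⊕ Unit := fun i =>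
    Sum.inl (Sum.inl (Sum.inl i))
  let i2 : Fin d2 → ((Fin d1 ⊕ Fin d2) ⊕ (Fin d3 ⊕ Fin d4)) ⊕ Unit := fun i =>
    Sum.inl (Sum.inl (Sum.inr i))
  let i3 : Fin d3 → ((Fin d1 ⊕ Fin d2) ⊕ (Fin d3 ⊕ Fin d4)) ⊕ Unit := fun i =>
    Sum.inl (Sum.inr (Sum.inl i))
  let i4 : Fin d4 → ((Fin d1 ⊕ Fin d2) ⊕ (Fin d3 ⊕ Fin d4)) ⊕ Unit := fun i =>
    Sum.inl (Sum.inr (Sum.inr i))
  let Q1 : Mon → MvPolynomial (((Fin d1 ⊕ Fin d2) ⊕ (Fin d3 ⊕ Fin d4)) ⊕ Unit) ℚ := fun m =>
    MvPolynomial.rename i1 (P1 m)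
  let Q2 : Mon → MvPolynomial (((Fin d1 ⊕ Fin d2) ⊕ (Fin d3 ⊕ Fin d4)) ⊕ Unit) ℚ := fun m =>
    MvPolynomial.rename i2 (P2 m)
  let Q3 : Mon → MvPolynomial (((Fin d1 ⊕ Fin d2) ⊕ (Fin d3 ⊕ Fin d4)) ⊕ Unit) ℚ := fun m =>
    MvPolynomial.rename i3 (P3 m)
  let Q4 : Mon → MvPolynomial (((Fin d1 ⊕ Fin d2) ⊕ (Fin d3 ⊕ Fin d4)) ⊕ Unit) ℚ := fun m =>
    MvPolynomial.rename i4 (P4 m)
  let R : Mon → MvPolynomial (((Fin d1 ⊕ Fin d2) ⊕ (Fin d3 ⊕ Fin d4)) ⊕ Unit) ℚ := fun m =>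
    T2_conv Q2 Q3 m - T2_one m
  let V : Mon → MvPolynomial (((Fin d1 ⊕ Fin d2) ⊕ (Fin d3 ⊕ Fin d4)) ⊕ Unit) ℚ := fun m =>
    ∑ k ∈ Finset.range (m.toList.length + 1), T2_bin (Sum.inr ()) k * T2_pow R k m
  refine T2_tame (T2_conv (T2_conv (T2_conv Q1 V) Q2) Q4) ?_
  rintro Z ⟨a, ha, p, hp, r, hr, b, hb, M, rfl⟩
  obtain ⟨θ1, t1⟩ := h1 a ha
  obtain ⟨θ2, t2⟩ := h2 p hp
  obtain ⟨θ3, t3⟩ := h3 r hr
  obtain ⟨θ4, t4⟩ := h4 b hb
  let θ : ((Fin d1 ⊕ Fin d2) ⊕ (Fin d3 ⊕ Fin d4)) ⊕ Unit → ℚ :=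
    Sum.elim (Sum.elim (Sum.elim θ1 θ2) (Sum.elim θ3 θ4)) (fun _ => (M : ℚ))
  refine ⟨θ, ?_⟩
  have u1 : T2_Rep θ Q1 a := fun m => by
    rw [t1 m, MvPolynomial.eval_rename]; rfl
  have u2 : T2_Rep θ Q2 p := fun m => by
    rw [t2 m, MvPolynomial.eval_rename]; rfl
  have u3 : T2_Rep θ Q3 r := fun m => by
    rw [t3 m, MvPolynomial.eval_rename]; rfl
  have u4 : T2_Rep θ Q4 b := fun m => by
    rw [t4 m, MvPolynomial.eval_rename]; rfl
  have uR : T2_Rep θ R (p * r - 1) := T2_rep_sub (T2_rep_mul u2 u3) (T2_rep_one θ)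
  have uV : T2_Rep θ V ((p * r) ^ M) := fun m => by
    have hz : eps (p * r) = 1 := by rw [eps_mul, e2 p hp, e3 r hr, one_mul]
    rw [T2_cf_pow_one hz, map_sum]
    refine Finset.sum_congr rfl fun k _ => ?_
    rw [map_mul, T2_eval_bin θ (Sum.inr ()) M k rfl, T2_rep_pow uR k m]
  exact T2_rep_mul (T2_rep_mul (T2_rep_mul u1 uV) u2) u4

end NF
end

section

/-! MP_24a659_al, job T3: the replacement lemma (Hilbert basis theorem). -/

set_option autoImplicit false

namespace NF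

/-- lists of length at most `k` -/
abbrev T3_L (k : ℕ) : Type := {l : List Bool // l.length ≤ k}

instance T3_fin (k : ℕ) : Finite (T3_L k) := by
  have h : Set.Finite {l : List Bool | l.length ≤ k} := List.finite_length_le Bool k
  exact h.to_subtype

/-- the index set -/
abbrev T3_I (k : ℕ) : Type := T3_L k × T3_L k × Bool

/-- the vector of the paper -/
noncomputable def T3_Phi {d : ℕ} (P : Mon → MvPolynomial (Fin d) ℚ) (k : ℕ) :
    F →ₗ[ℚ] (T3_I k → MvPolynomial (Fin d ⊕ Fin d) ℚ) :=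
  LinearMap.pi fun i => lext fun m =>
    MvPolynomial.rename (if i.2.2 then Sum.inr else Sum.inl) (P (ofL i.1.1 * m * ofL i.2.1.1))

theorem T3_Phi_mono {d : ℕ} (P : Mon → MvPolynomial (Fin d) ℚ) (k : ℕ) (m : Mon) (i : T3_I k) :
    T3_Phi P k (mono m) i = MvPolynomial.rename (if i.2.2 then Sum.inr else Sum.inl)
      (P (ofL i.1.1 * m * ofL i.2.1.1)) := by
  unfold T3_Phi
  rw [LinearMap.pi_apply, lext_mono]

/-- the evaluation of the vector -/
theorem T3_eval {d : ℕ} (P : Mon → MvPolynomial (Fin d) ℚ) (k : ℕ) (Z : F) (θ θ' : Fin d → ℚ)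
    (b : Bool) (hZ : ∀ m, cf m Z = MvPolynomial.eval (if b then θ' else θ) (P m))
    (r l : T3_L k) (X : F) :
    MvPolynomial.eval (Sum.elim θ θ') (T3_Phi P k X (r, l, b)) =
      pair Z (mono (ofL r.1) * X * mono (ofL l.1)) := by
  induction X using MonoidAlgebra.induction_linear with
  | zero => rw [map_zero, mul_zero, zero_mul, map_zero, Pi.zero_apply, map_zero]
  | add x y hx hy => rw [map_add, mul_add, add_mul, map_add, Pi.add_apply, map_add, hx, hy]
  | single m c =>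
    rw [B1_single, map_smul, mul_smul_comm, smul_mul_assoc, map_smul, Pi.smul_apply,
      T3_Phi_mono, mono_mul, mono_mul, pair_mono, hZ, MvPolynomial.smul_eval,
      MvPolynomial.eval_rename, smul_eq_mul]
    cases b <;> simp

/-- evaluation of elements of the span -/
theorem T3_span {d : ℕ} {k : ℕ} (Φ : F →ₗ[ℚ] (T3_I k → MvPolynomial (Fin d ⊕ Fin d) ℚ))
    (D : Submodule ℚ F) (ξ : Fin d ⊕ Fin d → ℚ)
    (y : T3_I k → MvPolynomial (Fin d ⊕ Fin d) ℚ)
    (hy : y ∈ Submodule.span (MvPolynomial (Fin d ⊕ Fin d) ℚ) (Φ '' (D : Set F))) :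
    ∃ X' ∈ D, ∀ i, MvPolynomial.eval ξ (Φ X' i) = MvPolynomial.eval ξ (y i) := by
  refine Submodule.span_induction
    (p := fun y _ => ∃ X' ∈ D, ∀ i, MvPolynomial.eval ξ (Φ X' i) = MvPolynomial.eval ξ (y i))
    ?_ ?_ ?_ ?_ hy
  · rintro _ ⟨X, hX, rfl⟩
    exact ⟨X, hX, fun _ => rfl⟩
  · refine ⟨0, D.zero_mem, fun i => ?_⟩
    rw [map_zero]
  · rintro x y _ _ ⟨a, ha, ha'⟩ ⟨b, hb, hb'⟩
    refine ⟨a + b, D.add_mem ha hb, fun i => ?_⟩
    rw [map_add, Pi.add_apply, Pi.add_apply, map_add, map_add, ha', hb']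
  · rintro p x _ ⟨a, ha, ha'⟩
    refine ⟨MvPolynomial.eval ξ p • a, D.smul_mem _ ha, fun i => ?_⟩
    rw [map_smul, Pi.smul_apply, Pi.smul_apply, MvPolynomial.smul_eval, smul_eq_mul, map_mul, ha']

/-- from monomials to all elements of `Fk k` -/
theorem T3_ext {k : ℕ} {Z X X' : F}
    (h : ∀ r l : T3_L k, pair Z (mono (ofL r.1) * X' * mono (ofL l.1)) =
      pair Z (mono (ofL r.1) * X * mono (ofL l.1))) :
    ∀ Θ ∈ Fk k, ∀ Λ ∈ Fk k, pair Z (Θ * X' * Λ) = pair Z (Θ * X * Λ) := by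
  intro Θ hΘ Λ hΛ
  refine Submodule.span_induction
    (p := fun Θ _ => pair Z (Θ * X' * Λ) = pair Z (Θ * X * Λ)) ?_ ?_ ?_ ?_ hΘ
  · rintro _ ⟨r, hr, rfl⟩
    refine Submodule.span_induction
      (p := fun Λ _ => pair Z (mono r * X' * Λ) = pair Z (mono r * X * Λ)) ?_ ?_ ?_ ?_ hΛ
    · rintro _ ⟨l, hl, rfl⟩
      exact h ⟨r.toList, hr⟩ ⟨l.toList, hl⟩
    · rw [mul_zero, mul_zero]
    · intro x y _ _ hx hy
      rw [mul_add, mul_add, map_add, map_add, hx, hy]
    · intro c x _ hx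
      rw [mul_smul_comm, mul_smul_comm, map_smul, map_smul, hx]
  · simp only [zero_mul]
  · intro x y _ _ hx hy
    rw [add_mul, add_mul, add_mul, add_mul, map_add, map_add, hx, hy]
  · intro c x _ hx
    rw [smul_mul_assoc, smul_mul_assoc, smul_mul_assoc, smul_mul_assoc, map_smul, map_smul, hx]

/-- (1.2) -/
theorem exists_Repl {S : Set F} (hS : Tame S) (C : Submodule ℚ F) (k : ℕ) :
    ∃ B, Repl S C k B := by
  obtain ⟨d, P, hP⟩ := hS
  have hmono : Monotone fun B : ℕ => Submodule.span (MvPolynomial (Fin d ⊕ Fin d) ℚ)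
      (T3_Phi P k '' ((C ⊓ Fk B : Submodule ℚ F) : Set F)) := by
    intro i j hij
    exact Submodule.span_mono (Set.image_mono
      (show ((C ⊓ Fk i : Submodule ℚ F) : Set F) ⊆ ((C ⊓ Fk j : Submodule ℚ F) : Set F) from
        inf_le_inf_left C (Fk_mono hij)))
  have hN : IsNoetherian (MvPolynomial (Fin d ⊕ Fin d) ℚ)
      (T3_I k → MvPolynomial (Fin d ⊕ Fin d) ℚ) := inferInstance
  obtain ⟨B, hB⟩ := (monotone_stabilizes_iff_noetherian.2 hN) ⟨_, hmono⟩
  refine ⟨B, ?_⟩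
  intro Z hZ Z' hZ' X hX
  obtain ⟨θ, hθ⟩ := hP Z hZ
  obtain ⟨θ', hθ'⟩ := hP Z' hZ'
  obtain ⟨j, hj⟩ := exists_Fk X
  have hX' : T3_Phi P k X ∈ Submodule.span (MvPolynomial (Fin d ⊕ Fin d) ℚ)
      (T3_Phi P k '' ((C ⊓ Fk B : Submodule ℚ F) : Set F)) := by
    have h1 := hB (max B j) (le_max_left _ _)
    change Submodule.span _ _ = Submodule.span _ _ at h1
    rw [h1]
    exact Submodule.subset_span ⟨X, ⟨hX, Fk_mono (le_max_right _ _) hj⟩, rfl⟩
  obtain ⟨X', hX1, hX2⟩ := T3_span (T3_Phi P k) (C ⊓ Fk B) (Sum.elim θ θ') _ hX'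
  refine ⟨X', hX1, ?_⟩
  have e1 := T3_ext (k := k) (Z := Z) (X := X) (X' := X') (fun r l => by
    rw [← T3_eval P k Z θ θ' false (by simpa using hθ) r l X',
      ← T3_eval P k Z θ θ' false (by simpa using hθ) r l X]
    exact hX2 _)
  have e2 := T3_ext (k := k) (Z := Z') (X := X) (X' := X') (fun r l => by
    rw [← T3_eval P k Z' θ θ' true (by simpa using hθ') r l X',
      ← T3_eval P k Z' θ θ' true (by simpa using hθ') r l X]
    exact hX2 _)
  intro Θ hΘ Λ hΛ
  exact ⟨e1 Θ hΘ Λ hΛ, e2 Θ hΘ Λ hΛ⟩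

theorem Repl_mono {S S' : Set F} (hS : S' ⊆ S) {C : Submodule ℚ F} {k k' B B' : ℕ}
    (hk : k' ≤ k) (hB : B ≤ B') (h : Repl S C k B) : Repl S' C k' B' := by
  intro Z hZ Z' hZ' X hX
  obtain ⟨X', hX', h'⟩ := h Z (hS hZ) Z' (hS hZ') X hX
  exact ⟨X', ⟨hX'.1, Fk_mono hB hX'.2⟩, fun Θ hΘ Λ hΛ => h' Θ (Fk_mono hk hΘ) Λ (Fk_mono hk hΛ)⟩

/-- replacement of one element by a short one on one word -/
theorem Repl_one {S : Set F} {C : Submodule ℚ F} {k B : ℕ} (h : Repl S C k B) {Z : F}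
    (hZ : Z ∈ S) {X : F} (hX : X ∈ C) : ∃ X' ∈ C ⊓ Fk B, ∀ Θ ∈ Fk k, ∀ Λ ∈ Fk k,
      pair Z (Θ * X' * Λ) = pair Z (Θ * X * Λ) := by
  obtain ⟨X', hX', h'⟩ := h Z hZ Z hZ X hX
  exact ⟨X', hX', fun Θ hΘ Λ hΛ => (h' Θ hΘ Λ hΛ).1⟩

end NF
end

section

/-! MP_24a659_al, job T4: thin words are tame. -/

set_option autoImplicit false

namespace NF

theorem T4_step {V : Submodule ℚ F} (hV : ∀ J ∈ V, eps J = 0) (c : ℕ) {Z : F}
    (hZ : Z ∈ thinE V (c + 1)) :
    Z ∈ thinE V 0 ∪ {Z | ∃ a ∈ {Z' : F | ∃ a ∈ thinE V 0, ∃ b ∈ {Z : F | ∃ g : ℤ × ℤ, Z = E g},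
      Z' = a * b}, ∃ b ∈ thinE V c, Z = a * b} := by
  classical
  obtain ⟨s, p, q, hs, hpq, hf, rfl⟩ := hZ
  by_cases h1 : Fits V s 1 p q
  · right
    have hex : ∃ q1, Fits V s 1 p q1 := ⟨q, h1⟩
    have hq1 : Fits V s 1 p (Nat.find hex) := Nat.find_spec hex
    have hle : Nat.find hex ≤ q := Nat.find_min' hex h1
    have hlen : p + 1 ≤ Nat.find hex := Fits_len hV hq1
    obtain ⟨k, hk⟩ : ∃ k, Nat.find hex = k + 1 := ⟨Nat.find hex - 1, by omega⟩
    have hnull : ¬ Fits V s (0 + 1) p k := Nat.find_min hex (by omega)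
    have hrest : ¬ Fits V s (c + 1) (Nat.find hex) q := by
      intro h2
      apply hf
      have h3 := Fits_add hq1 h2
      have h4 : 1 + (c + 1) = c + 1 + 1 := by omega
      rw [h4] at h3
      exact h3
    refine ⟨W s p k * E (s k), ⟨W s p k, ⟨s, p, k, hs, by omega, hnull, rfl⟩, E (s k),
      ⟨s k, rfl⟩, rfl⟩, W s (Nat.find hex) q, ⟨s, Nat.find hex, q, hs, hle, hrest, rfl⟩, ?_⟩
    rw [← W_succ s (show p ≤ k by omega), ← hk]
    exact (W_mul s (by omega) hle).symm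
  · left
    exact ⟨s, p, q, hs, hpq, h1, rfl⟩

theorem Tame_thin {V : Submodule ℚ F} (hV : ∀ J ∈ V, eps J = 0) (h : Tame (thinE V 0)) (c : ℕ) :
    Tame (thinE V c) := by
  induction c with
  | zero => exact h
  | succ c ih =>
    exact Tame_sub (fun Z hZ => T4_step hV c hZ)
      (Tame_union h (Tame_mul (Tame_mul h Tame_pairs) ih))

end NF
end

section

/-! MP_24a659_al, job N1: the elements which vanish on a word; the setting of Section 6 for words. -/

set_option autoImplicit false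

namespace NF

theorem P1_mul_Zn (s : Sq) (n : ℕ) : P1 * Zn s n ≤ Zn s n := by
  refine Submodule.mul_le.2 fun X hX Z hZ => ?_
  obtain ⟨h1, h2⟩ := hZ
  refine ⟨mul_mem_P1 hX h1, fun p q hq => ?_⟩
  rw [ent_mul s p q (P1_le_EY hX) (P1_le_SX h1)]
  refine Finset.sum_eq_zero fun r _ => ?_
  rw [h2 r q hq, mul_zero]

theorem Zn_mul_P1 (s : Sq) (n : ℕ) : Zn s n * P1 ≤ Zn s n := by
  refine Submodule.mul_le.2 fun Z hZ X hX => ?_
  obtain ⟨h1, h2⟩ := hZ
  refine ⟨mul_mem_P1 h1 hX, fun p q hq => ?_⟩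
  rw [ent_mul s p q (P1_le_EY h1) (P1_le_SX hX)]
  refine Finset.sum_eq_zero fun r hr => ?_
  rw [Finset.mem_Icc] at hr
  rw [h2 p r (hr.2.trans hq), zero_mul]

theorem Zn_le_P1 (s : Sq) (n : ℕ) : Zn s n ≤ P1 := fun _ hX => hX.1

theorem pair_Zn (s : Sq) (n : ℕ) {X : F} (hX : X ∈ Zn s n) : pair (W s 0 n) X = 0 := by
  rw [pair_W s (Nat.zero_le n)]
  refine Finset.sum_eq_zero fun r hr => ?_
  rw [Finset.mem_Icc] at hr
  exact hX.2 0 r hr.2

theorem ctx_word {Cb Db V : Submodule ℚ F} (hb : Base Cb Db) (hV : V ≤ Db) (s : Sq) (n : ℕ) :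
    Ctx P1 Cb Db V (Zn s n) Fk := by
  exact
    { one_C := hb.one_C
      D_le := hb.D_le
      CDC := hb.CDC
      DCD := hb.DCD
      V_le := hV
      C_le := hb.C_le
      P_mul := P1_mul
      PZ := P1_mul_Zn s n
      ZP := Zn_mul_P1 s n
      one_F := one_mem_Fk 0
      F_mono := fun _ _ h => Fk_mono h
      F_mul := Fk_mul }

end NF
end

section

/-! MP_24a659_al, job B7: the spaces `KS V k`. -/

set_option autoImplicit false

namespace NF

theorem KS_le_P1 (V : Submodule ℚ F) (k : ℕ) : KS V k ≤ P1 := fun _ h => h.1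

theorem P1_le_KS (V : Submodule ℚ F) : P1 ≤ KS V 0 := fun X hX => ⟨hX, fun s _ p q h => by
  by_contra hc
  exact h (ent_of_lt s (not_le.1 hc) X)⟩

theorem V_le_KS {V : Submodule ℚ F} (hV : V ≤ P1) : V ≤ KS V 1 := fun X hX =>
  ⟨hV hX, fun _ _ p q h => ⟨p, q, le_rfl, ⟨X, hX, h⟩, le_rfl⟩⟩

theorem KS_mul (V : Submodule ℚ F) (k l : ℕ) : KS V k * KS V l ≤ KS V (k + l) := by
  refine Submodule.mul_le.2 fun X hX Z hZ => ?_
  refine ⟨mul_mem_P1 hX.1 hZ.1, fun s hs p r h => ?_⟩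
  rw [ent_mul s p r (P1_le_EY hX.1) (P1_le_SX hZ.1)] at h
  obtain ⟨q, _, hq⟩ := Finset.exists_ne_zero_of_sum_ne_zero h
  exact Fits_add (hX.2 s hs p q (left_ne_zero_of_mul hq))
    (hZ.2 s hs q r (right_ne_zero_of_mul hq))

theorem KS_anti (V : Submodule ℚ F) {k l : ℕ} (h : l ≤ k) : KS V k ≤ KS V l := fun _ hX =>
  ⟨hX.1, fun s hs p q h' => Fits_anti h (hX.2 s hs p q h')⟩

theorem KS_pow (V : Submodule ℚ F) (k j : ℕ) : (KS V k) ^ j ≤ KS V (k * j) := by
  induction j with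
  | zero =>
    rw [pow_zero, Nat.mul_zero, Submodule.one_le]
    exact P1_le_KS V one_mem_P1
  | succ j ih =>
    rw [pow_succ, Nat.mul_succ]
    exact (Submodule.mul_le.2 fun X hX Z hZ =>
      Submodule.mul_mem_mul (ih hX) hZ).trans (KS_mul V (k * j) k)

/-- products with `j` factors in `V` -/
theorem Gp_le_KS {C V : Submodule ℚ F} (hC : C ≤ P1) (hV : V ≤ P1) (j : ℕ) :
    Gp C V j ≤ KS V j := by
  have h0 : C ≤ KS V 0 := hC.trans (P1_le_KS V)
  have h1 : V * C ≤ KS V 1 :=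
    (Submodule.mul_le.2 fun X hX Z hZ =>
      Submodule.mul_mem_mul (V_le_KS hV hX) (h0 hZ)).trans (KS_mul V 1 0)
  have h2 : (V * C) ^ j ≤ KS V j := by
    have h3 := KS_pow V 1 j
    rw [Nat.one_mul] at h3
    refine le_trans ?_ h3
    clear h3
    induction j with
    | zero => rw [pow_zero, pow_zero]
    | succ j ih =>
      rw [pow_succ, pow_succ]
      exact Submodule.mul_le.2 fun X hX Z hZ => Submodule.mul_mem_mul (ih hX) (h1 hZ)
  unfold Gp
  have h4 := KS_mul V 0 j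
  rw [Nat.zero_add] at h4
  exact (Submodule.mul_le.2 fun X hX Z hZ => Submodule.mul_mem_mul (h0 hX) (h2 hZ)).trans h4

theorem KS_eps {V : Submodule ℚ F} (hV : ∀ J ∈ V, eps J = 0) {k : ℕ} (hk : 1 ≤ k) {X : F}
    (hX : X ∈ KS V k) : eps X = 0 := by
  by_contra h
  have h1 : ent (fun _ => (1, 1)) 0 0 X ≠ 0 := by rwa [ent_self]
  have h2 := hX.2 (fun _ => (1, 1)) (fun i => ⟨one_ne_zero, one_ne_zero⟩) 0 0 h1
  have h3 := Fits_len hV h2
  omega

/-- if `V' ≤ KS V j` then `k` killers of `V'` give `j k` killers of `V` -/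
theorem Fits_KS {V V' : Submodule ℚ F} {j : ℕ} (h : V' ≤ KS V j) {s : Sq} (hs : nz s)
    {k p q : ℕ} (hv : Fits V' s k p q) : Fits V s (j * k) p q :=
  Fits_trans (fun p q ⟨_, hJ, hne⟩ => (h hJ).2 s hs p q hne) hv

theorem KS_trans {V V' : Submodule ℚ F} {j : ℕ} (h : V' ≤ KS V j) (k : ℕ) :
    KS V' k ≤ KS V (j * k) := fun _ hX =>
  ⟨hX.1, fun s hs p q hne => Fits_KS h hs (hX.2 s hs p q hne)⟩

end NF
end

section

/-! MP_24a659_al, job V2: simple properties of `V+`. -/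

set_option autoImplicit false

namespace NF

theorem V2_br {Cb Db : Submodule ℚ F} {m l L : ℕ} {f : (Fin m → F) → F}
    (hb : Base Cb Db) (hf : Val Db Fk l f) {v : Fin m → F} (hv : ∀ k, v k ∈ Db ⊓ Fk L)
    {Y z : F} (hY : Y ∈ Cb ⊓ Fk L) (hz : z ∈ Db ⊓ Fk L) :
    brR f v Y z ∈ P1 ∧ brL f v Y z ∈ P1 := by
  have hD : Db ≤ P1 := hb.D_le.trans hb.C_le
  have h1 : f v ∈ P1 := hD (hf L v hv).1
  have h2 : ∀ k, f (Function.update v k z) ∈ P1 := fun k => hD (hf L _ (fun j => by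
    by_cases hj : j = k
    · subst hj
      rw [Function.update_self]
      exact hz
    · rw [Function.update_of_ne hj]
      exact hv j)).1
  have h3 : Y ∈ P1 := hb.C_le hY.1
  have h4 : z ∈ P1 := hD hz.1
  have h5 : ∀ k, v k ∈ P1 := fun k => hD (hv k).1
  constructor
  · exact P1.sub_mem (mul_mem_P1 (mul_mem_P1 h1 h3) h4)
      (P1.sum_mem fun k _ => mul_mem_P1 (mul_mem_P1 (h2 k) h3) (h5 k))
  · exact P1.sub_mem (mul_mem_P1 (mul_mem_P1 h4 h3) h1)
      (P1.sum_mem fun k _ => mul_mem_P1 (mul_mem_P1 (h5 k) h3) (h2 k))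

theorem V2_gen {Cb Db V' : Submodule ℚ F} {m l L : ℕ} {R : Set ((Fin m → F) → F)}
    (hb : Base Cb Db) (hf : ∀ f ∈ R, Val Db Fk l f) (Q : Submodule ℚ F)
    (h : ∀ J ∈ V', ∀ J' ∈ V', ∀ t ∈ P1, J * t * J' ∈ Q) : Wp Cb Db V' R L ≤ Q := by
  refine Submodule.span_le.2 ?_
  rintro x ⟨J, hJ, J', hJ', f, hfR, c, hc, c', hc', Y, hY, z, hz, v, hv, hx⟩
  have h0 := V2_br hb (hf f hfR) hv hY hz
  have hcP : c ∈ P1 := hb.C_le hc.1
  have hcP' : c' ∈ P1 := hb.C_le hc'.1
  rcases hx with rfl | rfl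
  · have h1 := h J hJ J' hJ' (c * brR f v Y z * c') (mul_mem_P1 (mul_mem_P1 hcP h0.1) hcP')
    simp only [mul_assoc] at h1
    simp only [SetLike.mem_coe, mul_assoc]
    exact h1
  · have h1 := h J hJ J' hJ' (c * brL f v Y z * c') (mul_mem_P1 (mul_mem_P1 hcP h0.2) hcP')
    simp only [mul_assoc] at h1
    simp only [SetLike.mem_coe, mul_assoc]
    exact h1

theorem Wp_le_left {Cb Db V V' : Submodule ℚ F} {m l L : ℕ} {R : Set ((Fin m → F) → F)}
    (hb : Base Cb Db) (hV : V ≤ P1) (hf : ∀ f ∈ R, Val Db Fk l f) (hV' : V' ≤ P1) :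
    Wp Cb Db V' R L ≤ V' * P1 := by
  refine V2_gen hb hf _ fun J hJ J' hJ' t ht => ?_
  rw [mul_assoc]
  exact Submodule.mul_mem_mul hJ (mul_mem_P1 ht (hV' hJ'))

theorem Wp_le_right {Cb Db V' : Submodule ℚ F} {m l L : ℕ} {R : Set ((Fin m → F) → F)}
    (hb : Base Cb Db) (hf : ∀ f ∈ R, Val Db Fk l f) (hV' : V' ≤ P1) :
    Wp Cb Db V' R L ≤ P1 * V' := by
  refine V2_gen hb hf _ fun J hJ J' hJ' t ht => ?_
  exact Submodule.mul_mem_mul (mul_mem_P1 (hV' hJ) ht) hJ'

theorem Wp_le_both {Cb Db V' : Submodule ℚ F} {m l L : ℕ} {R : Set ((Fin m → F) → F)}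
    (hb : Base Cb Db) (hf : ∀ f ∈ R, Val Db Fk l f) (hV' : V' ≤ P1) :
    Wp Cb Db V' R L ≤ V' * P1 * V' := by
  refine V2_gen hb hf _ fun J hJ J' hJ' t ht => ?_
  exact Submodule.mul_mem_mul (Submodule.mul_mem_mul hJ ht) hJ'

/-- killers on both sides of `W+` give `V+` -/
theorem Wp_incl {C Cb Db V : Submodule ℚ F} {m b b1 L : ℕ} {R : Set ((Fin m → F) → F)}
    (hbb1 : b ≤ b1) :
    ∀ J1 ∈ V, ∀ X1 ∈ C ⊓ Fk b, ∀ x ∈ Wp Cb Db V R L, ∀ X2 ∈ C ⊓ Fk b, ∀ J2 ∈ V,
      J1 * X1 * x * (X2 * J2) ∈ Wp Cb Db (V * (C ⊓ Fk b1) * V) R L := by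
  intro J1 hJ1 X1 hX1 x hx X2 hX2 J2 hJ2
  have hX1' : X1 ∈ C ⊓ Fk b1 := ⟨hX1.1, Fk_mono hbb1 hX1.2⟩
  have hX2' : X2 ∈ C ⊓ Fk b1 := ⟨hX2.1, Fk_mono hbb1 hX2.2⟩
  unfold Wp at hx
  induction hx using Submodule.span_induction with
  | mem x hx =>
    obtain ⟨J, hJ, J', hJ', f, hfR, c, hc, c', hc', Y, hY, z, hz, v, hv, hx⟩ := hx
    refine Submodule.subset_span ⟨J1 * X1 * J,
      Submodule.mul_mem_mul (Submodule.mul_mem_mul hJ1 hX1') hJ, J' * X2 * J2,
      Submodule.mul_mem_mul (Submodule.mul_mem_mul hJ' hX2') hJ2, f, hfR, c, hc, c', hc', Y, hY,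
      z, hz, v, hv, ?_⟩
    rcases hx with rfl | rfl
    · left
      simp only [mul_assoc]
    · right
      simp only [mul_assoc]
  | zero =>
    rw [mul_zero, zero_mul]
    exact Submodule.zero_mem _
  | add x y _ _ hx hy =>
    rw [mul_add, add_mul]
    exact Submodule.add_mem _ hx hy
  | smul r x _ hx =>
    rw [mul_smul_comm, smul_mul_assoc]
    exact Submodule.smul_mem _ r hx

end NF
end

section

/-! MP_24a659_al, job R1: the representation lemma (Section 4). -/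

set_option autoImplicit false

namespace NF

/-- the pairing as a pairing with a word, if the row and the column are represented on the
interval between `c` and `c'` -/
theorem bil_rep (s : Sq) {n c c' : ℕ} (hc : c ≤ c') (hc' : c' ≤ n) {X Θ Λ : F} (hX : X ∈ P1)
    (hΘ : Θ ∈ EY) (hΛ : Λ ∈ SX) {ψ ρ : ℕ → ℚ} (hψ : ∀ p, p < c → ψ p = 0)
    (hρ : ∀ q, c' < q → q ≤ n → ρ q = 0) (hψ' : ∀ p, c ≤ p → p ≤ c' → ψ p = ent s c p Θ)
    (hρ' : ∀ q, c ≤ q → q ≤ c' → ρ q = pair (W s q c') Λ) :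
    bil n (act s X ψ) ρ = pair (W s c c') (Θ * X * Λ) := by
  rw [pair_W_mul s hc (EY_mul hΘ hX) hΛ]
  unfold bil
  have hsub : Finset.Icc c c' ⊆ Finset.range (n + 1) := by
    intro q hq
    rw [Finset.mem_Icc] at hq
    rw [Finset.mem_range]
    omega
  rw [← Finset.sum_subset hsub]
  · refine Finset.sum_congr rfl fun q hq => ?_
    rw [Finset.mem_Icc] at hq
    rw [← hρ' q hq.1 hq.2, ent_mul s c q hΘ (P1_le_SX hX)]
    congr 1
    unfold act
    have hsub' : Finset.Icc c q ⊆ Finset.range (q + 1) := by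
      intro p hp
      rw [Finset.mem_Icc] at hp
      rw [Finset.mem_range]
      omega
    rw [← Finset.sum_subset hsub']
    · refine Finset.sum_congr rfl fun p hp => ?_
      rw [Finset.mem_Icc] at hp
      rw [hψ' p hp.1 (by omega)]
    · intro p hp hp'
      rw [Finset.mem_range] at hp
      rw [Finset.mem_Icc] at hp'
      rw [hψ p (by omega), zero_mul]
  · intro q hq hq'
    rw [Finset.mem_range] at hq
    rw [Finset.mem_Icc] at hq'
    by_cases h : q < c
    · have h0 : act s X ψ q = 0 := by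
        unfold act
        refine Finset.sum_eq_zero fun p hp => ?_
        rw [Finset.mem_range] at hp
        rw [hψ p (by omega), zero_mul]
      rw [h0, zero_mul]
    · rw [hρ q (by omega) (by omega), mul_zero]

/-- the sum of the values of a row `ψ0 J` up to `c` -/
theorem R1_sum_act (s : Sq) (J : F) (ψ0 : ℕ → ℚ) (c : ℕ) :
    ∑ p ∈ Finset.range (c + 1), act s J ψ0 p =
      ∑ p0 ∈ Finset.range (c + 1), ψ0 p0 * pair (W s p0 c) J := by
  unfold act
  have h : ∀ p0 ∈ Finset.range (c + 1), ψ0 p0 * pair (W s p0 c) J =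
      ∑ p ∈ Finset.Icc p0 c, ψ0 p0 * ent s p0 p J := by
    intro p0 hp0
    rw [Finset.mem_range] at hp0
    rw [pair_W s (by omega), Finset.mul_sum]
  rw [Finset.sum_congr rfl h]
  refine Finset.sum_comm' ?_
  intro p p0
  rw [Finset.mem_range, Finset.mem_range, Finset.mem_range, Finset.mem_Icc]
  omega

/-- one generator of the rows -/
theorem R1_gen (s : Sq) {c Q m : ℕ} {J : F} (hJ : J ∈ EY) (hJ' : J ∈ Fk m) (ψ0 : ℕ → ℚ)
    (hz : ∀ p0 p, c < p0 → p ≤ Q → ψ0 p0 * ent s p0 p J = 0) :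
    ∃ Θ ∈ EY ⊓ Fk m, eps Θ = ∑ p ∈ Finset.range (c + 1), act s J ψ0 p ∧
      ∀ p, c < p → p ≤ Q → act s J ψ0 p = ent s c p Θ := by
  refine ⟨∑ p0 ∈ Finset.range (c + 1), ψ0 p0 • lcon (W s p0 c) J, ?_, ?_, ?_⟩
  · exact Submodule.sum_mem _ fun p0 _ => Submodule.smul_mem _ _
      ⟨lcon_mem_EY hJ _, lcon_mem_Fk hJ' _⟩
  · rw [R1_sum_act, map_sum]
    refine Finset.sum_congr rfl fun p0 _ => ?_
    rw [map_smul, eps_lcon, smul_eq_mul]
  · intro p hp hpQ
    rw [map_sum]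
    unfold act
    have hsub : Finset.range (c + 1) ⊆ Finset.range (p + 1) :=
      Finset.range_subset_range.2 (by omega)
    rw [← Finset.sum_subset hsub]
    · refine Finset.sum_congr rfl fun p0 hp0 => ?_
      rw [Finset.mem_range] at hp0
      rw [map_smul, smul_eq_mul, ent_lcut s (by omega : p0 ≤ c) hp]
    · intro p0 _ hp0'
      rw [Finset.mem_range] at hp0'
      exact hz p0 p (by omega) hpQ

/-- the linear version of `LK_rep` -/
theorem R1_LK {s : Sq} {T : Submodule ℚ F} {l k c Q : ℕ} (hT : T ≤ P1 ⊓ Fk l)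
    (hvis : ∀ J ∈ T, ∀ p0 p, c < p0 → p ≤ Q → ent s p0 p J = 0) {ψ : ℕ → ℚ}
    (hψ : ψ ∈ LK s T k) :
    ∃ Θ ∈ EY ⊓ Fk (max l k), eps Θ = ∑ p ∈ Finset.range (c + 1), ψ p ∧
      ∀ p, c < p → p ≤ Q → ψ p = ent s c p Θ := by
  unfold LK at hψ
  induction hψ using Submodule.span_induction with
  | mem x hx =>
    rcases hx with ⟨J, hJ, ψ0, rfl⟩ | ⟨Z, hZ, rfl⟩
    · obtain ⟨h1, h2⟩ := hT hJ
      exact R1_gen s (P1_le_EY h1) (Fk_mono (le_max_left l k) h2) ψ0
        (fun p0 p h h' => by rw [hvis J hJ p0 p h h', mul_zero])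
    · refine R1_gen s (P1_le_EY hZ.1) (Fk_mono (le_max_right l k) hZ.2) (dl 0)
        (fun p0 p h _ => ?_)
      have h0 : dl 0 p0 = 0 := if_neg (by omega)
      rw [h0, zero_mul]
  | zero =>
    refine ⟨0, Submodule.zero_mem _, ?_, ?_⟩
    · rw [map_zero]
      exact (Finset.sum_eq_zero fun p _ => rfl).symm
    · intro p _ _
      rw [map_zero]
      rfl
  | add x y _ _ hx hy =>
    obtain ⟨Θ, h1, h2, h3⟩ := hx
    obtain ⟨Θ', h1', h2', h3'⟩ := hy
    refine ⟨Θ + Θ', Submodule.add_mem _ h1 h1', ?_, ?_⟩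
    · rw [map_add, h2, h2', ← Finset.sum_add_distrib]
      rfl
    · intro p hp hp'
      rw [map_add, ← h3 p hp hp', ← h3' p hp hp']
      rfl
  | smul a x _ hx =>
    obtain ⟨Θ, h1, h2, h3⟩ := hx
    refine ⟨a • Θ, Submodule.smul_mem _ _ h1, ?_, ?_⟩
    · rw [map_smul, h2, Finset.smul_sum]
      rfl
    · intro p hp hp'
      rw [map_smul, ← h3 p hp hp']
      rfl

/-- representation of rows of the class `LK`, `T` invisible strictly to the right of `c` -/
theorem LK_rep {s : Sq} {T : Submodule ℚ F} {l k c Q : ℕ} (hT : T ≤ P1 ⊓ Fk l)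
    (hvis : ∀ J ∈ T, ∀ p0 p, c < p0 → p ≤ Q → ent s p0 p J = 0) {ψ : ℕ → ℚ}
    (hψ : ψ ∈ LK s T k) (hc : IsMn ψ c) :
    ∃ Θ ∈ EY ⊓ Fk (max l k), ∀ p, c ≤ p → p ≤ Q → ψ p = ent s c p Θ := by
  obtain ⟨Θ, h1, h2, h3⟩ := R1_LK hT hvis hψ
  refine ⟨Θ, h1, fun p hp hp' => ?_⟩
  rcases hp.eq_or_lt with h | h
  · subst h
    rw [ent_self, h2, Finset.sum_range_succ, Finset.sum_eq_zero, zero_add]
    intro p hp
    rw [Finset.mem_range] at hp
    exact hc.2 p hp
  · exact h3 p h hp'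

/-- representation of columns of the class `RK`, `T` invisible between `P` and `c'` -/
theorem RK_rep {s : Sq} {T : Submodule ℚ F} {l k n P c' : ℕ} (hT : T ≤ P1 ⊓ Fk l)
    (hvis : ∀ J ∈ T, ∀ p q, P ≤ p → q ≤ c' → ent s p q J = 0) (hc' : c' ≤ n) {ρ : ℕ → ℚ}
    (hρ : ρ ∈ RK s n T k) :
    ∃ Λ ∈ SX ⊓ Fk (max l k), ∀ q, P ≤ q → q ≤ c' → ρ q = pair (W s q c') Λ := by
  unfold RK at hρ
  induction hρ using Submodule.span_induction with
  | mem x hx =>
    rcases hx with ⟨J, hJ, ρ0, rfl⟩ | ⟨Z, hZ, rfl⟩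
    · obtain ⟨h1, h2⟩ := hT hJ
      refine ⟨∑ r ∈ Finset.Ioc c' n, ρ0 r • rcon (W s c' r - W s c' (r - 1)) J, ?_, ?_⟩
      · exact Submodule.sum_mem _ fun r _ => Submodule.smul_mem _ _
          ⟨rcon_mem_SX (P1_le_SX h1) _, rcon_mem_Fk (Fk_mono (le_max_left l k) h2) _⟩
      · intro q hq hq'
        rw [map_sum]
        unfold coact
        have hsub : Finset.Ioc c' n ⊆ Finset.Icc q n := by
          intro r hr
          rw [Finset.mem_Ioc] at hr
          rw [Finset.mem_Icc]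
          omega
        rw [← Finset.sum_subset hsub]
        · refine Finset.sum_congr rfl fun r hr => ?_
          rw [Finset.mem_Ioc] at hr
          rw [map_smul, smul_eq_mul, ent_rcut s hq' hr.1, mul_comm]
        · intro r hr hr'
          rw [Finset.mem_Icc] at hr
          rw [Finset.mem_Ioc] at hr'
          rw [hvis J hJ q r hq (by omega), zero_mul]
    · refine ⟨rcon (W s c' n) Z, ⟨rcon_mem_SX (P1_le_SX hZ.1) _,
        rcon_mem_Fk (Fk_mono (le_max_right l k) hZ.2) _⟩, ?_⟩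
      intro q _ hq'
      rw [coact_one_n s (by omega), pair_rcut s hq' hc']
  | zero =>
    refine ⟨0, Submodule.zero_mem _, ?_⟩
    intro q _ _
    rw [map_zero]
    rfl
  | add x y _ _ hx hy =>
    obtain ⟨Λ, h1, h3⟩ := hx
    obtain ⟨Λ', h1', h3'⟩ := hy
    refine ⟨Λ + Λ', Submodule.add_mem _ h1 h1', ?_⟩
    intro p hp hp'
    rw [map_add, ← h3 p hp hp', ← h3' p hp hp']
    rfl
  | smul a x _ hx =>
    obtain ⟨Λ, h1, h3⟩ := hx
    refine ⟨a • Λ, Submodule.smul_mem _ _ h1, ?_⟩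
    intro p hp hp'
    rw [map_smul, ← h3 p hp hp']
    rfl

end NF
end

section

/-! MP_24a659_al, job R2: the classes `Lft`, `Rgt`, `LK`, `RK`. -/

set_option autoImplicit false

namespace NF

/-- the rows `ψ Z` for `Z` in a product -/
theorem R2_act {s : Sq} {U : Submodule ℚ F} (hU : U ≤ P1) (M : Submodule ℚ (ℕ → ℚ))
    (hM : ∀ u ∈ U, ∀ ψ, act s u ψ ∈ M) {Z : F} (hZ : Z ∈ P1 * U) (ψ : ℕ → ℚ) :
    act s Z ψ ∈ M := by
  induction hZ using Submodule.mul_induction_on' with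
  | mem_mul_mem a ha u hu =>
    rw [act_mul s (P1_le_EY ha) (P1_le_SX (hU hu))]
    exact hM u hu _
  | add x _ y _ hx hy =>
    rw [act_add]
    exact M.add_mem hx hy

/-- the columns `Z ρ` for `Z` in a product -/
theorem R2_coact {s : Sq} {n : ℕ} {U : Submodule ℚ F} (hU : U ≤ P1) (M : Submodule ℚ (ℕ → ℚ))
    (hM : ∀ u ∈ U, ∀ ρ, coact s n u ρ ∈ M) {Z : F} (hZ : Z ∈ U * P1) (ρ : ℕ → ℚ) :
    coact s n Z ρ ∈ M := by
  induction hZ using Submodule.mul_induction_on' with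
  | mem_mul_mem u hu a ha =>
    rw [coact_mul s n (P1_le_EY (hU hu)) (P1_le_SX ha)]
    exact hM u hu _
  | add x _ y _ hx hy =>
    rw [coact_add]
    exact M.add_mem hx hy

theorem act_mem_Lft {s : Sq} {U : Submodule ℚ F} (hU : U ≤ P1) {Z : F} (hZ : Z ∈ P1 * U)
    (ψ : ℕ → ℚ) : act s Z ψ ∈ Lft s U :=
  R2_act hU _ (fun u hu ψ0 => Submodule.subset_span (Or.inl ⟨u, hu, ψ0, rfl⟩)) hZ ψ

theorem coact_mem_Rgt {s : Sq} {n : ℕ} {U : Submodule ℚ F} (hU : U ≤ P1) {Z : F}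
    (hZ : Z ∈ U * P1) (ρ : ℕ → ℚ) : coact s n Z ρ ∈ Rgt s n U :=
  R2_coact hU _ (fun u hu ρ0 => Submodule.subset_span (Or.inl ⟨u, hu, ρ0, rfl⟩)) hZ ρ

theorem dl_mem_Lft (s : Sq) (U : Submodule ℚ F) : dl 0 ∈ Lft s U :=
  Submodule.subset_span (Or.inr rfl)

theorem one_mem_Rgt (s : Sq) (n : ℕ) (U : Submodule ℚ F) : one n ∈ Rgt s n U :=
  Submodule.subset_span (Or.inr rfl)

theorem act_mem_LK {s : Sq} {V : Submodule ℚ F} (hV : V ≤ P1) (k : ℕ) {Z : F}
    (hZ : Z ∈ P1 * V) (ψ : ℕ → ℚ) : act s Z ψ ∈ LK s V k :=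
  R2_act hV _ (fun u hu ψ0 => Submodule.subset_span (Or.inl ⟨u, hu, ψ0, rfl⟩)) hZ ψ

theorem coact_mem_RK {s : Sq} {n : ℕ} {V : Submodule ℚ F} (hV : V ≤ P1) (k : ℕ) {Z : F}
    (hZ : Z ∈ V * P1) (ρ : ℕ → ℚ) : coact s n Z ρ ∈ RK s n V k :=
  R2_coact hV _ (fun u hu ρ0 => Submodule.subset_span (Or.inl ⟨u, hu, ρ0, rfl⟩)) hZ ρ

/-- `δ Z`, `|Z| ≤ k` -/
theorem act_dl_mem_LK (s : Sq) (V : Submodule ℚ F) {k : ℕ} {Z : F} (hZ : Z ∈ P1 ⊓ Fk k) :
    act s Z (dl 0) ∈ LK s V k :=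
  Submodule.subset_span (Or.inr ⟨Z, hZ, rfl⟩)

theorem coact_one_mem_RK (s : Sq) (n : ℕ) (V : Submodule ℚ F) {k : ℕ} {Z : F}
    (hZ : Z ∈ P1 ⊓ Fk k) : coact s n Z (one n) ∈ RK s n V k :=
  Submodule.subset_span (Or.inr ⟨Z, hZ, rfl⟩)

theorem dl_mem_LK (s : Sq) (V : Submodule ℚ F) (k : ℕ) : dl 0 ∈ LK s V k := by
  have h := act_dl_mem_LK s V (k := k) (Z := 1) ⟨one_mem_P1, one_mem_Fk k⟩
  rwa [act_one] at h

theorem R2_coact_one (s : Sq) (n : ℕ) : coact s n 1 (one n) = one n := by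
  funext p
  rcases Nat.lt_or_ge n p with h | h
  · rw [B5_coact, Finset.Icc_eq_empty (by omega), Finset.sum_empty]
    exact (if_neg (by omega)).symm
  · exact coact_one s n (one n) p h

theorem one_mem_RK (s : Sq) (n : ℕ) (V : Submodule ℚ F) (k : ℕ) : one n ∈ RK s n V k := by
  have h := coact_one_mem_RK s n V (k := k) (Z := 1) ⟨one_mem_P1, one_mem_Fk k⟩
  rwa [R2_coact_one] at h

theorem LK_mono {s : Sq} {V V' : Submodule ℚ F} {k k' : ℕ} (hV : V ≤ P1) (hV' : V' ≤ P1 * V)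
    (hk : k' ≤ k) : LK s V' k' ≤ LK s V k := by
  refine Submodule.span_le.2 ?_
  rintro _ (⟨J, hJ, ψ0, rfl⟩ | ⟨Z, hZ, rfl⟩)
  · exact act_mem_LK hV k (hV' hJ) ψ0
  · exact act_dl_mem_LK s V ⟨hZ.1, Fk_mono hk hZ.2⟩

theorem RK_mono {s : Sq} {n : ℕ} {V V' : Submodule ℚ F} {k k' : ℕ} (hV : V ≤ P1)
    (hV' : V' ≤ V * P1) (hk : k' ≤ k) : RK s n V' k' ≤ RK s n V k := by
  refine Submodule.span_le.2 ?_
  rintro _ (⟨J, hJ, ρ0, rfl⟩ | ⟨Z, hZ, rfl⟩)
  · exact coact_mem_RK hV k (hV' hJ) ρ0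
  · exact coact_one_mem_RK s n V ⟨hZ.1, Fk_mono hk hZ.2⟩

theorem Lft_mono {s : Sq} {U U' : Submodule ℚ F} (hU : U ≤ P1) (hU' : U' ≤ P1 * U) :
    Lft s U' ≤ Lft s U := by
  refine Submodule.span_le.2 ?_
  rintro _ (⟨J, hJ, ψ0, rfl⟩ | rfl)
  · exact act_mem_Lft hU (hU' hJ) ψ0
  · exact dl_mem_Lft s U

theorem Rgt_mono {s : Sq} {n : ℕ} {U U' : Submodule ℚ F} (hU : U ≤ P1) (hU' : U' ≤ U * P1) :
    Rgt s n U' ≤ Rgt s n U := by
  refine Submodule.span_le.2 ?_
  rintro _ (⟨J, hJ, ρ0, rfl⟩ | rfl)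
  · exact coact_mem_Rgt hU (hU' hJ) ρ0
  · exact one_mem_Rgt s n U

/-- the rows of the class `LK` are moved to rows of the class of `V C V`: first move -/
theorem LK_act {s : Sq} {V C : Submodule ℚ F} (hV : V ≤ P1) (hC : C ≤ P1) {l b k : ℕ}
    (hVl : V ≤ Fk l) {ψ : ℕ → ℚ} (hψ : ψ ∈ LK s V k) {X J : F} (hX : X ∈ C ⊓ Fk b) (hJ : J ∈ V) :
    act s (X * J) ψ ∈ LK s (V * (C ⊓ Fk b) * V) (k + b + l) := by
  have hXJ : X * J ∈ P1 := mul_mem_P1 (hC hX.1) (hV hJ)
  refine Submodule.span_induction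
    (p := fun ψ _ => act s (X * J) ψ ∈ LK s (V * (C ⊓ Fk b) * V) (k + b + l)) ?_ ?_ ?_ ?_ hψ
  · rintro _ (⟨J0, hJ0, ψ0, rfl⟩ | ⟨Z, hZ, rfl⟩)
    · rw [← act_mul s (P1_le_EY (hV hJ0)) (P1_le_SX hXJ), ← mul_assoc]
      exact Submodule.subset_span (Or.inl ⟨J0 * X * J,
        Submodule.mul_mem_mul (Submodule.mul_mem_mul hJ0 hX) hJ, ψ0, rfl⟩)
    · rw [← act_mul s (P1_le_EY hZ.1) (P1_le_SX hXJ), ← mul_assoc]
      refine Submodule.subset_span (Or.inr ⟨Z * X * J, ⟨?_, ?_⟩, rfl⟩)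
      · exact mul_mem_P1 (mul_mem_P1 hZ.1 (hC hX.1)) (hV hJ)
      · exact Fk_mul _ _ (Submodule.mul_mem_mul (Fk_mul _ _ (Submodule.mul_mem_mul hZ.2 hX.2))
          (hVl hJ))
  · rw [act_zero']
    exact Submodule.zero_mem _
  · intro x y _ _ hx hy
    rw [act_add']
    exact Submodule.add_mem _ hx hy
  · intro c x _ hx
    rw [act_smul']
    exact Submodule.smul_mem _ _ hx

theorem RK_coact {s : Sq} {n : ℕ} {V C : Submodule ℚ F} (hV : V ≤ P1) (hC : C ≤ P1) {l b k : ℕ}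
    (hVl : V ≤ Fk l) {ρ : ℕ → ℚ} (hρ : ρ ∈ RK s n V k) {X J : F} (hX : X ∈ C ⊓ Fk b)
    (hJ : J ∈ V) : coact s n (J * X) ρ ∈ RK s n (V * (C ⊓ Fk b) * V) (k + b + l) := by
  have hJX : J * X ∈ P1 := mul_mem_P1 (hV hJ) (hC hX.1)
  refine Submodule.span_induction
    (p := fun ρ _ => coact s n (J * X) ρ ∈ RK s n (V * (C ⊓ Fk b) * V) (k + b + l))
    ?_ ?_ ?_ ?_ hρ
  · rintro _ (⟨J0, hJ0, ρ0, rfl⟩ | ⟨Z, hZ, rfl⟩)
    · rw [← coact_mul s n (P1_le_EY hJX) (P1_le_SX (hV hJ0))]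
      exact Submodule.subset_span (Or.inl ⟨J * X * J0,
        Submodule.mul_mem_mul (Submodule.mul_mem_mul hJ hX) hJ0, ρ0, rfl⟩)
    · rw [← coact_mul s n (P1_le_EY hJX) (P1_le_SX hZ.1)]
      refine Submodule.subset_span (Or.inr ⟨J * X * Z, ⟨?_, ?_⟩, rfl⟩)
      · exact mul_mem_P1 hJX hZ.1
      · have h : J * X * Z ∈ Fk (l + b + k) :=
          Fk_mul _ _ (Submodule.mul_mem_mul (Fk_mul _ _ (Submodule.mul_mem_mul (hVl hJ) hX.2))
            hZ.2)
        exact Fk_mono (by omega) h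
  · rw [coact_zero']
    exact Submodule.zero_mem _
  · intro x y _ _ hx hy
    rw [coact_add']
    exact Submodule.add_mem _ hx hy
  · intro c x _ hx
    rw [coact_smul']
    exact Submodule.smul_mem _ _ hx

end NF
end

section

/-! MP_24a659_al, job N3: decomposition of a product with `M + 3 K + 5` killers. -/

set_option autoImplicit false

namespace NF

theorem N3_swap (C V : Submodule ℚ F) (j : ℕ) : C * (V * C) ^ j = (C * V) ^ j * C := by
  induction j with
  | zero => rw [pow_zero, pow_zero, mul_one, one_mul]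
  | succ j ih => rw [pow_succ, ← mul_assoc, ih, pow_succ]; simp only [mul_assoc]

theorem Gp_decomp (C V : Submodule ℚ F) (M K : ℕ) : Gp C V (M + 3 * K + 5) =
    C * (V * C) * V * C * V * ((C * V) ^ 3) ^ K * Gp C V M * V * (C * V * C) := by
  unfold Gp
  rw [N3_swap, N3_swap, show M + 3 * K + 5 = 3 + 3 * K + M + 2 by ring, pow_add, pow_add,
    pow_add, pow_mul]
  generalize ((C * V) ^ 3) ^ K = T
  generalize (C * V) ^ M = S
  rw [pow_succ, pow_two]
  simp only [mul_assoc]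

end NF
end
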