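import Mathlib
import Pool.Agent.Lib.MP_24a659_al.Defs

/-! MP_24a659_al: the theorem of Nagata and Higman, in a graded form. -/

set_option autoImplicit false
set_option linter.unusedSectionVars false

namespace NF

section

variable {A : Type} [Ring A] [Algebra ℚ A]

theorem symF_empty (c : ℕ → A) : symF c ∅ = 1 := rfl

/-- the first factor -/
theorem symF_eq (c : ℕ → A) {s : Finset ℕ} (hs : s.Nonempty) :
    symF c s = ∑ i ∈ s, c i * symF c (s.erase i) := by
  unfold symF
  obtain ⟨k, hk⟩ : ∃ k, s.card = k + 1 := ⟨s.card - 1, by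
    have := hs.card_pos
    omega⟩
  rw [hk]
  show ∑ i ∈ s, c i * symN c k (s.erase i) = _
  refine Finset.sum_congr rfl fun i hi => ?_
  rw [Finset.card_erase_of_mem hi, hk, Nat.add_sub_cancel]

theorem symF_insert_aux (c : ℕ → A) {s : Finset ℕ} {t : ℕ} (ht : t ∉ s) :
    symF c (insert t s) = c t * symF c s + ∑ i ∈ s, c i * symF c (insert t (s.erase i)) := by
  rw [symF_eq c (Finset.insert_nonempty t s), Finset.sum_insert ht, Finset.erase_insert ht]
  congr 1
  refine Finset.sum_congr rfl fun i hi => ?_
  congr 2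
  have hne : i ≠ t := by
    rintro rfl
    exact ht hi
  rw [Finset.erase_insert_of_ne hne.symm]

theorem symF_congr {c c' : ℕ → A} {s : Finset ℕ} (h : ∀ i ∈ s, c i = c' i) :
    symF c s = symF c' s := by
  induction hn : s.card generalizing s with
  | zero =>
    rw [Finset.card_eq_zero.1 hn]
    rfl
  | succ n ih =>
    have hs : s.Nonempty := by
      rw [← Finset.card_pos]
      omega
    rw [symF_eq c hs, symF_eq c' hs]
    refine Finset.sum_congr rfl fun i hi => ?_
    rw [h i hi, ih (fun j hj => h j (Finset.mem_of_mem_erase hj)) (by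
      rw [Finset.card_erase_of_mem hi]
      omega)]

/-- one distinguished factor -/
theorem symF_insert (c : ℕ → A) {s : Finset ℕ} {t : ℕ} (ht : t ∉ s) :
    symF c (insert t s) = ∑ B ∈ s.powerset, symF c B * c t * symF c (s \ B) := by
  induction hn : s.card generalizing s with
  | zero =>
    rw [Finset.card_eq_zero.1 hn]
    rw [symF_insert_aux c (by simp)]
    simp [symF_empty]
  | succ n ih =>
    rw [symF_insert_aux c ht]
    have h1 : ∀ i ∈ s, c i * symF c (insert t (s.erase i)) =
        ∑ B ∈ (s.erase i).powerset, c i * symF c B * c t * symF c ((s.erase i) \ B) := by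
      intro i hi
      rw [ih (fun h => ht (Finset.mem_of_mem_erase h)) (by
        rw [Finset.card_erase_of_mem hi]
        omega), Finset.mul_sum]
      refine Finset.sum_congr rfl fun B _ => ?_
      simp only [mul_assoc]
    rw [Finset.sum_congr rfl h1]
    have h2 : ∑ B ∈ s.powerset, symF c B * c t * symF c (s \ B) =
        c t * symF c s + ∑ B ∈ s.powerset.erase ∅, ∑ i ∈ B,
          c i * symF c (B.erase i) * c t * symF c (s \ B) := by
      rw [← Finset.add_sum_erase _ _ (Finset.empty_mem_powerset s), symF_empty, one_mul,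
        Finset.sdiff_empty]
      congr 1
      refine Finset.sum_congr rfl fun B hB => ?_
      rw [Finset.mem_erase] at hB
      rw [symF_eq c (Finset.nonempty_iff_ne_empty.2 hB.1), Finset.sum_mul, Finset.sum_mul]
    rw [h2]
    congr 1
    rw [Finset.sum_sigma', Finset.sum_sigma']
    refine Finset.sum_bij' (fun q _ => ⟨insert q.1 q.2, q.1⟩) (fun q _ => ⟨q.2, q.1.erase q.2⟩)
      ?_ ?_ ?_ ?_ ?_
    · rintro ⟨i, B⟩ hq
      simp only [Finset.mem_sigma, Finset.mem_powerset, Finset.mem_erase] at hq ⊢
      refine ⟨⟨Finset.insert_ne_empty _ _, ?_⟩, Finset.mem_insert_self _ _⟩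
      refine Finset.insert_subset hq.1 (hq.2.trans (Finset.erase_subset _ _))
    · rintro ⟨B, i⟩ hq
      simp only [Finset.mem_sigma, Finset.mem_powerset, Finset.mem_erase] at hq ⊢
      exact ⟨hq.1.2 hq.2, Finset.erase_subset_erase _ hq.1.2⟩
    · rintro ⟨i, B⟩ hq
      simp only [Finset.mem_sigma, Finset.mem_powerset] at hq
      have hiB : i ∉ B := fun h => by
        have := hq.2 h
        simp at this
      simp only [Sigma.mk.injEq, heq_eq_eq, true_and]
      exact Finset.erase_insert hiB
    · rintro ⟨B, i⟩ hq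
      simp only [Finset.mem_sigma, Finset.mem_powerset, Finset.mem_erase] at hq
      simp only [Sigma.mk.injEq, heq_eq_eq, and_true]
      exact Finset.insert_erase hq.2
    · rintro ⟨i, B⟩ hq
      simp only [Finset.mem_sigma, Finset.mem_powerset] at hq
      have hiB : i ∉ B := fun h => by
        have := hq.2 h
        simp at this
      show c i * symF c B * c t * symF c (s.erase i \ B) =
        c i * symF c ((insert i B).erase i) * c t * symF c (s \ insert i B)
      rw [Finset.erase_insert hiB]
      congr 2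
      ext j
      simp only [Finset.mem_sdiff, Finset.mem_erase, Finset.mem_insert, not_or]
      tauto

/-- one factor equal to one -/
theorem symF_insert_one (c : ℕ → A) {s : Finset ℕ} {t : ℕ} (ht : t ∉ s) (h1 : c t = 1) :
    symF c (insert t s) = ((s.card + 1 : ℕ) : ℚ) • symF c s := by
  induction hn : s.card generalizing s with
  | zero =>
    rw [Finset.card_eq_zero.1 hn, symF_insert_aux c (by simp), h1]
    simp
  | succ n ih =>
    have hs : s.Nonempty := by
      rw [← Finset.card_pos]
      omega
    rw [symF_insert_aux c ht, h1, one_mul]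
    have h2 : ∀ i ∈ s, c i * symF c (insert t (s.erase i)) =
        ((n + 1 : ℕ) : ℚ) • (c i * symF c (s.erase i)) := by
      intro i hi
      rw [ih (fun h => ht (Finset.mem_of_mem_erase h)) (by
        rw [Finset.card_erase_of_mem hi]
        omega), mul_smul_comm]
    rw [Finset.sum_congr rfl h2, ← Finset.smul_sum, ← symF_eq c hs]
    have h3 : ((n + 1 + 1 : ℕ) : ℚ) = 1 + ((n + 1 : ℕ) : ℚ) := by
      push_cast
      ring
    rw [h3, add_smul, one_smul]

/-- the symmetric sum with one more factor -/
theorem symF_update (c : ℕ → A) (w : A) {s : Finset ℕ} {t : ℕ} (ht : t ∉ s) :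
    symF (Function.update c t w) (insert t s) =
      ∑ B ∈ s.powerset, symF c B * w * symF c (s \ B) := by
  rw [symF_insert _ ht, Function.update_self]
  refine Finset.sum_congr rfl fun B hB => ?_
  rw [Finset.mem_powerset] at hB
  have h1 : ∀ B' ⊆ s, symF (Function.update c t w) B' = symF c B' := fun B' hB' =>
    symF_congr fun i hi => Function.update_of_ne (by
      rintro rfl
      exact ht (hB' hi)) _ _
  rw [h1 B hB, h1 _ Finset.sdiff_subset]

/-- **Higman's identity**, multilinear form -/
theorem higman (a b : ℕ → A) (z : A) {s s' : Finset ℕ} {t : ℕ} (ht : t ∉ s) (ht' : t ∉ s') :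
    ((s'.card + 1 : ℕ) : ℚ) • (symF a s * z * symF b s') =
      ∑ T ∈ s'.powerset, symF (Function.update a t (z * symF b T)) (insert t s) *
        symF b (s' \ T) -
      ∑ B ∈ s.powerset.erase s, symF a B * z *
        symF (Function.update b t (symF a (s \ B))) (insert t s') := by
  have h1 : ∑ T ∈ s'.powerset, symF (Function.update a t (z * symF b T)) (insert t s) *
        symF b (s' \ T) = ∑ B ∈ s.powerset, symF a B * z *
        symF (Function.update b t (symF a (s \ B))) (insert t s') := by
    have h2 : ∀ T ∈ s'.powerset, symF (Function.update a t (z * symF b T)) (insert t s) *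
        symF b (s' \ T) = ∑ B ∈ s.powerset, symF a B * z * (symF b T * symF a (s \ B) *
          symF b (s' \ T)) := by
      intro T _
      rw [symF_update _ _ ht, Finset.sum_mul]
      refine Finset.sum_congr rfl fun B _ => ?_
      simp only [mul_assoc]
    rw [Finset.sum_congr rfl h2, Finset.sum_comm]
    refine Finset.sum_congr rfl fun B _ => ?_
    rw [symF_update _ _ ht', Finset.mul_sum]
  have h5 : symF (Function.update b t (1 : A)) s' = symF b s' := by
    apply symF_congr
    intro i hi
    apply Function.update_of_ne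
    rintro rfl
    exact ht' hi
  rw [h1, ← Finset.add_sum_erase _ _ (Finset.mem_powerset_self s), add_sub_cancel_right,
    Finset.sdiff_self, symF_empty, symF_insert_one _ ht' (Function.update_self _ _ _), h5,
    mul_smul_comm]

/-! ### degrees -/

theorem symF_mem (S : Submodule ℚ A) {c : ℕ → A} {k : ℕ → ℕ} {s : Finset ℕ}
    (h : ∀ j ∈ s, c j ∈ S ^ (k j)) : symF c s ∈ S ^ (∑ j ∈ s, k j) := by
  induction hn : s.card generalizing s with
  | zero =>
    rw [Finset.card_eq_zero.1 hn, symF_empty, Finset.sum_empty, pow_zero]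
    exact Submodule.one_le.1 le_rfl
  | succ n ih =>
    have hs : s.Nonempty := by
      rw [← Finset.card_pos]
      omega
    rw [symF_eq c hs]
    refine Submodule.sum_mem _ fun i hi => ?_
    rw [← Finset.add_sum_erase s k hi, pow_add]
    exact Submodule.mul_mem_mul (h i hi) (ih (fun j hj => h j (Finset.mem_of_mem_erase hj)) (by
      rw [Finset.card_erase_of_mem hi]
      omega))

theorem mem_SymSpan (S : Submodule ℚ A) {m : ℕ} {b d : A} {i l : ℕ} {k : ℕ → ℕ} {c : ℕ → A}
    {s : Finset ℕ} (hs : s.card = m) (hb : b ∈ S ^ i) (hd : d ∈ S ^ l)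
    (hc : ∀ j ∈ s, 1 ≤ k j ∧ c j ∈ S ^ (k j)) :
    b * symF c s * d ∈ SymSpan S m (i + ∑ j ∈ s, k j + l) :=
  Submodule.subset_span ⟨i, l, k, s, c, b, d, hs, hb, hd, hc, rfl, rfl⟩

theorem SymSpan_mul (S : Submodule ℚ A) {m n i l : ℕ} {b d x : A} (hb : b ∈ S ^ i)
    (hd : d ∈ S ^ l) (hx : x ∈ SymSpan S m n) : b * x * d ∈ SymSpan S m (i + n + l) := by
  unfold SymSpan at hx
  induction hx using Submodule.span_induction with
  | mem x hx =>
    obtain ⟨i', l', k, s, c, b', d', hs, hb', hd', hc, rfl, rfl⟩ := hx
    have h1 : b * (b' * symF c s * d') * d = (b * b') * symF c s * (d' * d) := by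
      simp only [mul_assoc]
    rw [h1, show i + (i' + ∑ j ∈ s, k j + l') + l = (i + i') + ∑ j ∈ s, k j + (l' + l) by ring]
    refine mem_SymSpan S hs ?_ ?_ hc
    · rw [pow_add]
      exact Submodule.mul_mem_mul hb hb'
    · rw [pow_add]
      exact Submodule.mul_mem_mul hd' hd
  | zero => rw [mul_zero, zero_mul]; exact zero_mem _
  | add x y _ _ hx hy => rw [mul_add, add_mul]; exact add_mem hx hy
  | smul r x _ hx => rw [mul_smul_comm, smul_mul_assoc]; exact Submodule.smul_mem _ _ hx

theorem higman_mem (S : Submodule ℚ A) {m : ℕ} {a b : ℕ → A} {k l : ℕ → ℕ} {s s' : Finset ℕ}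
    {z : A} {kz : ℕ} (hkz : 1 ≤ kz) (hz : z ∈ S ^ kz) (hs : s.card = m) (hs' : s'.card = m)
    (ha : ∀ j ∈ s, 1 ≤ k j ∧ a j ∈ S ^ (k j)) (hb : ∀ j ∈ s', 1 ≤ l j ∧ b j ∈ S ^ (l j)) :
    symF a s * z * symF b s' ∈ SymSpan S (m + 1) (∑ j ∈ s, k j + kz + ∑ j ∈ s', l j) := by
  obtain ⟨t, ht⟩ := Infinite.exists_notMem_finset (s ∪ s')
  rw [Finset.mem_union, not_or] at ht
  have hid := higman a b z ht.1 ht.2
  have hne : ((s'.card + 1 : ℕ) : ℚ) ≠ 0 := by
    rw [Nat.cast_ne_zero]
    omega
  have h1 : symF a s * z * symF b s' = ((s'.card + 1 : ℕ) : ℚ)⁻¹ •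
      (((s'.card + 1 : ℕ) : ℚ) • (symF a s * z * symF b s')) := by
    rw [smul_smul, inv_mul_cancel₀ hne, one_smul]
  rw [h1, hid]
  refine Submodule.smul_mem _ _ (sub_mem (Submodule.sum_mem _ fun T hT => ?_)
    (Submodule.sum_mem _ fun B hB => ?_))
  · rw [Finset.mem_powerset] at hT
    have h2 : symF (Function.update a t (z * symF b T)) (insert t s) * symF b (s' \ T) =
        1 * symF (Function.update a t (z * symF b T)) (insert t s) * symF b (s' \ T) := by
      rw [one_mul]
    have h3 : ∑ j ∈ s, k j + kz + ∑ j ∈ s', l j = 0 +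
        ∑ j ∈ insert t s, Function.update k t (kz + ∑ j ∈ T, l j) j + ∑ j ∈ s' \ T, l j := by
      rw [Finset.sum_insert ht.1, Function.update_self, Finset.sum_update_of_notMem ht.1,
        ← Finset.sum_sdiff hT]
      ring
    rw [h2, h3]
    refine mem_SymSpan S (by rw [Finset.card_insert_of_notMem ht.1, hs])
      (by rw [pow_zero]; exact Submodule.one_le.1 le_rfl)
      (symF_mem S fun j hj => (hb j (Finset.mem_sdiff.1 hj).1).2) ?_
    intro j hj
    rw [Finset.mem_insert] at hj
    rcases hj with rfl | hj
    · rw [Function.update_self, Function.update_self]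
      refine ⟨by omega, ?_⟩
      rw [pow_add]
      exact Submodule.mul_mem_mul hz (symF_mem S fun j hj => (hb j (hT hj)).2)
    · have hne : j ≠ t := by
        rintro rfl
        exact ht.1 hj
      rw [Function.update_of_ne hne, Function.update_of_ne hne]
      exact ha j hj
  · rw [Finset.mem_erase, Finset.mem_powerset] at hB
    have h2 : symF a B * z * symF (Function.update b t (symF a (s \ B))) (insert t s') =
        symF a B * z * symF (Function.update b t (symF a (s \ B))) (insert t s') * 1 := by
      rw [mul_one]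
    have h3 : ∑ j ∈ s, k j + kz + ∑ j ∈ s', l j = (∑ j ∈ B, k j + kz) +
        ∑ j ∈ insert t s', Function.update l t (∑ j ∈ s \ B, k j) j + 0 := by
      rw [Finset.sum_insert ht.2, Function.update_self, Finset.sum_update_of_notMem ht.2,
        ← Finset.sum_sdiff hB.2]
      ring
    rw [h2, h3]
    refine mem_SymSpan S (by rw [Finset.card_insert_of_notMem ht.2, hs']) ?_
      (by rw [pow_zero]; exact Submodule.one_le.1 le_rfl) ?_
    · rw [pow_add]
      exact Submodule.mul_mem_mul (symF_mem S fun j hj => (ha j (hB.2 hj)).2) hz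
    intro j hj
    rw [Finset.mem_insert] at hj
    rcases hj with rfl | hj
    · rw [Function.update_self, Function.update_self]
      refine ⟨?_, symF_mem S fun j hj => (ha j (Finset.mem_sdiff.1 hj).1).2⟩
      have h4 : (s \ B).Nonempty := by
        rw [Finset.sdiff_nonempty]
        intro h5
        exact hB.1 (Finset.Subset.antisymm hB.2 h5)
      obtain ⟨j₀, hj₀⟩ := h4
      exact (ha j₀ (Finset.mem_sdiff.1 hj₀).1).1.trans
        (Finset.single_le_sum (f := k) (fun _ _ => Nat.zero_le _) hj₀)
    · have hne : j ≠ t := by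
        rintro rfl
        exact ht.2 hj
      rw [Function.update_of_ne hne, Function.update_of_ne hne]
      exact hb j hj

theorem SymSpan_step (S : Submodule ℚ A) {m n n' kz : ℕ} (hkz : 1 ≤ kz) {x y z : A}
    (hx : x ∈ SymSpan S m n) (hz : z ∈ S ^ kz) (hy : y ∈ SymSpan S m n') :
    x * z * y ∈ SymSpan S (m + 1) (n + kz + n') := by
  unfold SymSpan at hx hy
  induction hx using Submodule.span_induction with
  | mem x hx =>
    obtain ⟨i, l, k, s, c, b, d, hs, hb, hd, hc, rfl, rfl⟩ := hx
    induction hy using Submodule.span_induction with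
    | mem y hy =>
      obtain ⟨i', l', k', s', c', b', d', hs', hb', hd', hc', rfl, rfl⟩ := hy
      have h1 : b * symF c s * d * z * (b' * symF c' s' * d') =
          b * (symF c s * (d * z * b') * symF c' s') * d' := by
        simp only [mul_assoc]
      have h2 : d * z * b' ∈ S ^ (l + kz + i') := by
        rw [pow_add, pow_add]
        exact Submodule.mul_mem_mul (Submodule.mul_mem_mul hd hz) hb'
      have h3 := SymSpan_mul S hb hd' (higman_mem S (by omega) h2 hs hs' hc hc')
      rw [h1]
      convert h3 using 2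
      ring
    | zero => rw [mul_zero]; exact zero_mem _
    | add x y _ _ hx hy => rw [mul_add]; exact add_mem hx hy
    | smul r x _ hx => rw [mul_smul_comm]; exact Submodule.smul_mem _ _ hx
  | zero => rw [zero_mul, zero_mul]; exact zero_mem _
  | add x y _ _ hx hy => rw [add_mul, add_mul]; exact add_mem hx hy
  | smul r x _ hx => rw [smul_mul_assoc, smul_mul_assoc]; exact Submodule.smul_mem _ _ hx

/-- **The theorem of Nagata and Higman.** -/
theorem nh (S : Submodule ℚ A) (m : ℕ) (hm : 1 ≤ m) :
    S ^ (2 ^ m - 1) ≤ SymSpan S m (2 ^ m - 1) := by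
  induction m, hm using Nat.le_induction with
  | base =>
    intro x hx
    rw [show 2 ^ 1 - 1 = 1 by norm_num] at hx ⊢
    have h1 : x = 1 * symF (fun _ => x) {0} * 1 := by
      rw [symF_eq _ (Finset.singleton_nonempty 0), Finset.sum_singleton]
      simp [symF_empty]
    rw [h1]
    have h2 := mem_SymSpan S (m := 1) (b := 1) (d := 1) (i := 0) (l := 0) (k := fun _ => 1)
      (c := fun _ => x) (s := {0}) (Finset.card_singleton 0)
      (by rw [pow_zero]; exact Submodule.one_le.1 le_rfl)
      (by rw [pow_zero]; exact Submodule.one_le.1 le_rfl) (fun j _ => ⟨le_rfl, hx⟩)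
    simpa using h2
  | succ m hm ih =>
    obtain ⟨N, hN⟩ : ∃ N, N = 2 ^ m - 1 := ⟨_, rfl⟩
    have hpos : 1 ≤ 2 ^ m := Nat.one_le_two_pow
    have h1 : 2 ^ (m + 1) - 1 = N + 1 + N := by
      rw [pow_succ]
      omega
    rw [← hN] at ih
    rw [h1, pow_add, pow_add, Submodule.mul_le]
    intro x hx y hy
    have hy' := ih hy
    refine Submodule.mul_induction_on hx (fun a ha z hz => ?_) (fun a b ha hb => ?_)
    · exact SymSpan_step S le_rfl (ih ha) hz hy'
    · rw [add_mul]
      exact add_mem ha hb

end

end NF
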