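import Mathlib

section

/-!
MP_24a659_al, paper 716, Section 6 in abstract form, part 1:
context relations, the operators `Dop`, exchange `EX`.
-/

set_option autoImplicit false

namespace Pool.MP_24a659_al.Cap

open Function

/-- The data of Section 6: filtered spaces `C`, `D`, killers `V`, the space `null` of elements
all of whose matrix entries vanish on the word considered, and the subalgebra `P`. -/
structure Base (A : Type*) [Ring A] [Algebra ℚ A] where
  P : Subalgebra ℚ A
  C : ℕ → Submodule ℚ A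
  D : ℕ → Submodule ℚ A
  V : Set A
  null : Submodule ℚ A
  monoC : ∀ {i j : ℕ}, i ≤ j → C i ≤ C j
  monoD : ∀ {i j : ℕ}, i ≤ j → D i ≤ D j
  D_le_C : ∀ i : ℕ, D i ≤ C i
  C_le_P : ∀ i : ℕ, ∀ x ∈ C i, x ∈ P
  V_le_P : ∀ x ∈ V, x ∈ P
  one_mem : (1 : A) ∈ C 0
  CDC : ∀ {i j k : ℕ} {x y z : A}, x ∈ C i → y ∈ D j → z ∈ C k → x * y * z ∈ C (i + j + k)
  DCD : ∀ {i j k : ℕ} {x y z : A}, x ∈ D i → y ∈ C j → z ∈ D k → x * y * z ∈ D (i + j + k)
  null_mul : ∀ x ∈ null, ∀ a ∈ P, x * a ∈ null
  mul_null : ∀ x ∈ null, ∀ a ∈ P, a * x ∈ null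

variable {A : Type*} [Ring A] [Algebra ℚ A]

/-- Elements vanishing in all contexts of parameter `l`. -/
def Base.Ctx (S : Base A) (l : ℕ) : Submodule ℚ A where
  carrier := {X | ∀ J ∈ S.V, ∀ J' ∈ S.V, ∀ c ∈ S.C l, ∀ c' ∈ S.C l,
    J * c * X * c' * J' ∈ S.null}
  add_mem' := by
    intro a b ha hb J hJ J' hJ' c hc c' hc'
    have := S.null.add_mem (ha J hJ J' hJ' c hc c' hc') (hb J hJ J' hJ' c hc c' hc')
    simpa [mul_add, add_mul] using this
  zero_mem' := by
    intro J hJ J' hJ' c hc c' hc'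
    simp
  smul_mem' := by
    intro r x hx J hJ J' hJ' c hc c' hc'
    have := S.null.smul_mem r (hx J hJ J' hJ' c hc c' hc')
    simpa using this

theorem Base.Ctx_anti (S : Base A) {l l' : ℕ} (h : l ≤ l') : S.Ctx l' ≤ S.Ctx l := by
  intro X hX J hJ J' hJ' c hc c' hc'
  exact hX J hJ J' hJ' c (S.monoC h hc) c' (S.monoC h hc')

/-- `P` can be put on the left of an element in a context. -/
def Base.SL (S : Base A) (b : ℕ) (p : A) : Prop := ∀ l : ℕ, ∀ c ∈ S.C l, c * p ∈ S.C (l + b)

def Base.SR (S : Base A) (b : ℕ) (q : A) : Prop := ∀ l : ℕ, ∀ c ∈ S.C l, q * c ∈ S.C (l + b)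

/-- Elements of type `a` (a product gap, killer, gap, killer ...). -/
def Base.Mul (S : Base A) (b : ℕ) (a : A) : Prop :=
  (∀ l : ℕ, ∀ c ∈ S.C l, a * c ∈ S.C (l + b)) ∧ (∀ l : ℕ, ∀ d ∈ S.D l, d * a ∈ S.D (l + b))

theorem Base.SL_mono (S : Base A) {b b' : ℕ} {p : A} (h : b ≤ b') (hp : S.SL b p) : S.SL b' p :=
  fun l c hc => S.monoC (by omega) (hp l c hc)

theorem Base.SR_mono (S : Base A) {b b' : ℕ} {p : A} (h : b ≤ b') (hp : S.SR b p) : S.SR b' p :=
  fun l c hc => S.monoC (by omega) (hp l c hc)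

theorem Base.SL_one (S : Base A) (b : ℕ) : S.SL b 1 := fun l c hc => by
  simpa using S.monoC (by omega) hc

theorem Base.SR_one (S : Base A) (b : ℕ) : S.SR b 1 := fun l c hc => by
  simpa using S.monoC (by omega) hc

theorem Base.mul_left_Ctx (S : Base A) {l b : ℕ} {p X : A} (hp : S.SL b p)
    (hX : X ∈ S.Ctx (l + b)) : p * X ∈ S.Ctx l := by
  intro J hJ J' hJ' c hc c' hc'
  have := hX J hJ J' hJ' (c * p) (hp l c hc) c' (S.monoC (by omega) hc')
  simpa [mul_assoc] using this

theorem Base.mul_right_Ctx (S : Base A) {l b : ℕ} {q X : A} (hq : S.SR b q)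
    (hX : X ∈ S.Ctx (l + b)) : X * q ∈ S.Ctx l := by
  intro J hJ J' hJ' c hc c' hc'
  have := hX J hJ J' hJ' c (S.monoC (by omega) hc) (q * c') (hq l c' hc')
  simpa [mul_assoc] using this

theorem Base.SR_of_Mul (S : Base A) {b : ℕ} {a : A} (ha : S.Mul b a) : S.SR b a := ha.1

theorem Base.Mul_mono (S : Base A) {b b' : ℕ} {p : A} (h : b ≤ b') (hp : S.Mul b p) :
    S.Mul b' p :=
  ⟨fun l c hc => S.monoC (by omega) (hp.1 l c hc), fun l c hc => S.monoD (by omega) (hp.2 l c hc)⟩

theorem Base.Mul_mul (S : Base A) {b b' : ℕ} {p q : A} (hp : S.Mul b p) (hq : S.Mul b' q) :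
    S.Mul (b + b') (p * q) := by
  constructor
  · intro l c hc
    have := hp.1 _ _ (hq.1 l c hc)
    rw [mul_assoc]
    exact S.monoC (by omega) this
  · intro l c hc
    have := hq.2 _ _ (hp.2 l c hc)
    rw [← mul_assoc]
    exact S.monoD (by omega) this

theorem Base.SR_mul (S : Base A) {b b' : ℕ} {p q : A} (hp : S.SR b p) (hq : S.SR b' q) :
    S.SR (b + b') (p * q) := by
  intro l c hc
  have := hp _ _ (hq l c hc)
  rw [mul_assoc]
  exact S.monoC (by omega) this

theorem Base.SL_mul (S : Base A) {b b' : ℕ} {p q : A} (hp : S.SL b p) (hq : S.SL b' q) :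
    S.SL (b + b') (p * q) := by
  intro l c hc
  have := hq _ _ (hp l c hc)
  rw [← mul_assoc]
  exact S.monoC (by omega) this

/-- The defect of the relation `Rel`. -/
def RR {m : ℕ} (f : (Fin m → A) → A) (u : Fin m → A) (Y z : A) : A :=
  f u * Y * z - ∑ k, f (update u k z) * Y * u k

/-- The defect of the relation `Rel'`. -/
def LL {m : ℕ} (g : (Fin m → A) → A) (u : Fin m → A) (Y z : A) : A :=
  z * Y * g u - ∑ k, u k * Y * g (update u k z)

/-- The operator `D_a`. -/
def Dop {m : ℕ} (a : A) (f : (Fin m → A) → A) (u : Fin m → A) : A :=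
  ∑ k, f (update u k (u k * a))

omit [Algebra ℚ A] in
theorem RR_Dop {m : ℕ} (a : A) (f : (Fin m → A) → A) (u : Fin m → A) (Y z : A) :
    RR (Dop a f) u Y z
      = ∑ l, RR f (update u l (u l * a)) Y z - RR f u Y z * a + RR f u Y (z * a) := by
  have key : ∀ k l : Fin m,
      f (update (update u k z) l ((update u k z) l * a)) * Y * u k
        = f (update (update u l (u l * a)) k z) * Y * (update u l (u l * a)) k
          + if k = l then (f (update u k (z * a)) * Y * u k - f (update u k z) * Y * u k * a)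
            else 0 := by
    intro k l
    by_cases h : k = l
    · subst h
      simp [mul_assoc]
    · have h1 : (update u k z) l = u l := by
        rw [update_of_ne (Ne.symm h)]
      have h2 : (update u l (u l * a)) k = u k := by
        rw [update_of_ne h]
      rw [h1, h2, update_comm h, if_neg h, add_zero]
  simp only [RR, Dop]
  simp_rw [Finset.sum_mul, key]
  simp only [Finset.sum_add_distrib, Finset.sum_sub_distrib, Finset.sum_ite_eq, Finset.mem_univ,
    if_true]
  rw [Finset.sum_comm (s := (Finset.univ : Finset (Fin m)))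
    (f := fun k l => f (update (update u l (u l * a)) k z) * Y * (update u l (u l * a)) k)]
  simp only [sub_mul, Finset.sum_mul, mul_assoc]
  abel

/-- `Rel` with bound `l`. -/
def Base.RelR (S : Base A) (l : ℕ) {m : ℕ} (f : (Fin m → A) → A) : Prop :=
  ∀ u : Fin m → A, (∀ k, u k ∈ S.D l) → ∀ Y ∈ S.C l, ∀ z ∈ S.D l, RR f u Y z ∈ S.Ctx l

/-- `Rel'` with bound `l`. -/
def Base.RelL (S : Base A) (l : ℕ) {m : ℕ} (f : (Fin m → A) → A) : Prop :=
  ∀ u : Fin m → A, (∀ k, u k ∈ S.D l) → ∀ Y ∈ S.C l, ∀ z ∈ S.D l, LL f u Y z ∈ S.Ctx l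

theorem Base.RelR_mono (S : Base A) {l l' : ℕ} (h : l ≤ l') {m : ℕ} {f : (Fin m → A) → A}
    (hf : S.RelR l' f) : S.RelR l f := fun u hu Y hY z hz =>
  S.Ctx_anti h (hf u (fun k => S.monoD h (hu k)) Y (S.monoC h hY) z (S.monoD h hz))

theorem Base.RelL_mono (S : Base A) {l l' : ℕ} (h : l ≤ l') {m : ℕ} {f : (Fin m → A) → A}
    (hf : S.RelL l' f) : S.RelL l f := fun u hu Y hY z hz =>
  S.Ctx_anti h (hf u (fun k => S.monoD h (hu k)) Y (S.monoC h hY) z (S.monoD h hz))

theorem Base.RelR_Dop (S : Base A) {l α : ℕ} {a : A} (ha : S.Mul α a) {m : ℕ}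
    {f : (Fin m → A) → A} (hf : S.RelR (l + α) f) : S.RelR l (Dop a f) := by
  intro u hu Y hY z hz
  have hu' : ∀ k, u k ∈ S.D (l + α) := fun k => S.monoD (by omega) (hu k)
  have hY' : Y ∈ S.C (l + α) := S.monoC (by omega) hY
  have hz' : z ∈ S.D (l + α) := S.monoD (by omega) hz
  rw [RR_Dop]
  refine Submodule.add_mem _ (Submodule.sub_mem _ (Submodule.sum_mem _ ?_) ?_) ?_
  · intro k _
    refine S.Ctx_anti (by omega) (hf _ ?_ Y hY' z hz')
    intro j
    by_cases h : j = k
    · subst h
      rw [update_self]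
      exact ha.2 l _ (hu j)
    · rw [update_of_ne h]
      exact hu' j
  · exact S.mul_right_Ctx ha.1 (hf u hu' Y hY' z hz')
  · exact S.Ctx_anti (by omega) (hf u hu' Y hY' (z * a) (ha.2 l _ hz))

/-- Word form of a multilinear expression. -/
def Base.WF (S : Base A) (l b : ℕ) {m : ℕ} (f : (Fin m → A) → A) : Prop :=
  ∀ u : Fin m → A, (∀ k, u k ∈ S.D l) → ∀ k : Fin m, ∃ (n : ℕ) (p q : Fin n → A),
    (∀ i, S.SL b (p i)) ∧ (∀ i, S.SR b (q i)) ∧
      ∀ v : A, f (update u k v) = ∑ i, p i * v * q i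

theorem Base.WF_mono (S : Base A) {l l' b b' : ℕ} (h : l ≤ l') (hb : b ≤ b') {m : ℕ}
    {f : (Fin m → A) → A} (hf : S.WF l' b f) : S.WF l b' f := by
  intro u hu k
  obtain ⟨n, p, q, hp, hq, h1⟩ := hf u (fun k => S.monoD h (hu k)) k
  exact ⟨n, p, q, fun i => S.SL_mono hb (hp i), fun i => S.SR_mono hb (hq i), h1⟩

/-- closure of word forms under sums -/
def Base.WFk (S : Base A) (b : ℕ) (F : A → A) : Prop :=
  ∃ (n : ℕ) (p q : Fin n → A), (∀ i, S.SL b (p i)) ∧ (∀ i, S.SR b (q i)) ∧
      ∀ v : A, F v = ∑ i, p i * v * q i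

theorem Base.WFk_add (S : Base A) {b : ℕ} {F G : A → A} (hF : S.WFk b F) (hG : S.WFk b G) :
    S.WFk b (fun v => F v + G v) := by
  obtain ⟨n, p, q, hp, hq, h1⟩ := hF
  obtain ⟨n', p', q', hp', hq', h1'⟩ := hG
  refine ⟨n + n', Fin.append p p', Fin.append q q', ?_, ?_, ?_⟩
  · intro i
    refine Fin.addCases (fun j => ?_) (fun j => ?_) i
    · simpa using hp j
    · simpa using hp' j
  · intro i
    refine Fin.addCases (fun j => ?_) (fun j => ?_) i
    · simpa using hq j
    · simpa using hq' j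
  · intro v
    rw [Fin.sum_univ_add]
    simp [h1, h1']

theorem Base.WFk_zero (S : Base A) {b : ℕ} : S.WFk b (fun _ => (0 : A)) :=
  ⟨0, Fin.elim0, Fin.elim0, fun i => i.elim0, fun i => i.elim0, fun v => by simp⟩

theorem Base.WFk_sum (S : Base A) {b : ℕ} {ι : Type*} (s : Finset ι) (F : ι → A → A)
    (hF : ∀ i ∈ s, S.WFk b (F i)) : S.WFk b (fun v => ∑ i ∈ s, F i v) := by
  classical
  induction s using Finset.induction_on with
  | empty => simpa using S.WFk_zero
  | insert a s ha ih =>
    have h1 := S.WFk_add (hF a (Finset.mem_insert_self a s))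
      (ih (fun i hi => hF i (Finset.mem_insert_of_mem hi)))
    simpa [Finset.sum_insert ha] using h1

theorem Base.WF_Dop (S : Base A) {l α b : ℕ} {a : A} (ha : S.Mul α a) {m : ℕ}
    {f : (Fin m → A) → A} (hf : S.WF (l + α) b f) : S.WF l (b + α) (Dop a f) := by
  intro u hu k
  have hu' : ∀ k, u k ∈ S.D (l + α) := fun k => S.monoD (by omega) (hu k)
  change S.WFk (b + α) (fun v => Dop a f (update u k v))
  unfold Dop
  apply S.WFk_sum
  intro j _
  by_cases h : j = k
  · subst h
    obtain ⟨n, p, q, hp, hq, h1⟩ := hf u hu' j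
    refine ⟨n, p, fun i => a * q i, fun i => S.SL_mono (by omega) (hp i), fun i => ?_, fun v => ?_⟩
    · have := S.SR_mul ha.1 (hq i)
      exact S.SR_mono (by omega) this
    · show f (update (update u j v) j (update u j v j * a)) = ∑ i, p i * v * (a * q i)
      rw [update_self, update_idem, h1]
      exact Finset.sum_congr rfl (fun i _ => by simp only [mul_assoc])
  · have h3 : ∀ i, (update u j (u j * a)) i ∈ S.D (l + α) := by
      intro i
      by_cases h' : i = j
      · subst h'
        rw [update_self]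
        exact ha.2 l _ (hu i)
      · rw [update_of_ne h']
        exact hu' i
    obtain ⟨n, p, q, hp, hq, h1⟩ := hf (update u j (u j * a)) h3 k
    refine ⟨n, p, q, fun i => S.SL_mono (by omega) (hp i), fun i => S.SR_mono (by omega) (hq i),
      fun v => ?_⟩
    show f (update (update u k v) j (update u k v j * a)) = _
    rw [update_of_ne h, update_comm (Ne.symm h), h1]

/-- EXCHANGE. -/
theorem Base.EX (S : Base A) {l b α : ℕ} {a : A} (ha : S.Mul α a) {m m' : ℕ}
    {f : (Fin m → A) → A} {g : (Fin m' → A) → A}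
    (hfR : S.RelR (l + b + α) f) (hfW : S.WF l b f)
    (hgL : S.RelL (l + b + α) g) (hgW : S.WF l b g)
    (u : Fin m → A) (hu : ∀ k, u k ∈ S.D l) (u' : Fin m' → A) (hu' : ∀ k, u' k ∈ S.D l)
    (Y : A) (hY : Y ∈ S.C l) :
    Dop a f u * Y * g u' - f u * Y * Dop a g u' ∈ S.Ctx l := by
  have e1 : ∀ i : Fin m', f u * Y * g (update u' i (u' i * a))
      - ∑ k, f (update u k (u' i)) * Y * g (update u' i (u k * a)) ∈ S.Ctx l := by
    intro i
    obtain ⟨n, p, q, hp, hq, h1⟩ := hgW u' hu' i
    have h2 : f u * Y * g (update u' i (u' i * a))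
        - ∑ k, f (update u k (u' i)) * Y * g (update u' i (u k * a))
        = ∑ j, RR f u (Y * p j) (u' i) * (a * q j) := by
      simp only [RR, h1, Finset.mul_sum, sub_mul, Finset.sum_mul, Finset.sum_sub_distrib, mul_assoc]
      rw [Finset.sum_comm]
    rw [h2]
    refine Submodule.sum_mem _ (fun j _ => ?_)
    have h3 : RR f u (Y * p j) (u' i) ∈ S.Ctx (l + b + α) := by
      refine hfR u (fun k => S.monoD (by omega) (hu k)) _ ?_ _ (S.monoD (by omega) (hu' i))
      exact S.monoC (by omega) (hp j l Y hY)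
    refine S.mul_right_Ctx (b := b + α) ?_ (by rwa [← add_assoc])
    exact S.SR_mono (by omega) (S.SR_mul ha.1 (hq j))
  have e2 : ∀ k : Fin m, f (update u k (u k * a)) * Y * g u'
      - ∑ i, f (update u k (u' i)) * Y * g (update u' i (u k * a)) ∈ S.Ctx l := by
    intro k
    obtain ⟨n, p, q, hp, hq, h1⟩ := hfW u hu k
    have h2 : f (update u k (u k * a)) * Y * g u'
        - ∑ i, f (update u k (u' i)) * Y * g (update u' i (u k * a))
        = ∑ j, p j * LL g u' (q j * Y) (u k * a) := by
      simp only [LL, h1, Finset.mul_sum, mul_sub, Finset.sum_mul, Finset.sum_sub_distrib, mul_assoc]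
      rw [Finset.sum_comm (s := (Finset.univ : Finset (Fin m')))]
    rw [h2]
    refine Submodule.sum_mem _ (fun j _ => ?_)
    have h3 : LL g u' (q j * Y) (u k * a) ∈ S.Ctx (l + b + α) := by
      refine hgL u' (fun k => S.monoD (by omega) (hu' k)) _ ?_ _
        (S.monoD (by omega) (ha.2 l _ (hu k)))
      exact S.monoC (by omega) (hq j l Y hY)
    exact S.mul_left_Ctx (b := b + α) (S.SL_mono (by omega) (hp j)) (by rwa [← add_assoc])
  have e3 := Submodule.sum_mem (S.Ctx l) (fun i (_ : i ∈ (Finset.univ : Finset (Fin m'))) => e1 i)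
  have e4 := Submodule.sum_mem (S.Ctx l) (fun i (_ : i ∈ (Finset.univ : Finset (Fin m))) => e2 i)
  have e5 := Submodule.sub_mem _ e4 e3
  have e6 : Dop a f u * Y * g u' - f u * Y * Dop a g u'
      = (∑ k, (f (update u k (u k * a)) * Y * g u'
          - ∑ i, f (update u k (u' i)) * Y * g (update u' i (u k * a))))
        - ∑ i, (f u * Y * g (update u' i (u' i * a))
          - ∑ k, f (update u k (u' i)) * Y * g (update u' i (u k * a))) := by
    simp only [Dop, Finset.mul_sum, Finset.sum_mul, Finset.sum_sub_distrib]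
    rw [Finset.sum_comm (s := (Finset.univ : Finset (Fin m)))]
    abel
  rw [e6]
  exact e5

end Pool.MP_24a659_al.Cap
end

section

/-!
MP_24a659_al, paper 716, Section 9: the part on the free group.
-/

set_option autoImplicit false

namespace Pool.MP_24a659_al.Nine

/-- All the exponents of the list of pairs are nonzero. -/
def Good (w : List (ℤ × ℤ)) : Prop := ∀ g ∈ w, g.1 ≠ 0 ∧ g.2 ≠ 0

/-- the product `x ^ a₁ * y ^ b₁ * ... * x ^ aₙ * y ^ bₙ` -/
def P {G : Type*} [Group G] (x y : G) (w : List (ℤ × ℤ)) : G :=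
  (w.map fun g => x ^ g.1 * y ^ g.2).prod

section P
variable {G : Type*} [Group G] (x y : G)

@[simp] theorem P_nil : P x y [] = 1 := rfl

theorem P_cons (g : ℤ × ℤ) (w : List (ℤ × ℤ)) : P x y (g :: w) = x ^ g.1 * y ^ g.2 * P x y w := by
  simp [P]

theorem P_append (v w : List (ℤ × ℤ)) : P x y (v ++ w) = P x y v * P x y w := by
  simp [P]

theorem map_P {H : Type*} [Group H] (h : G →* H) (w : List (ℤ × ℤ)) :
    h (P x y w) = P (h x) (h y) w := by
  induction w with
  | nil => simp
  | cons g w ih => simp [P_cons, ih]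

theorem good_nil : Good [] := by intro g hg; simp at hg

theorem good_cons {g : ℤ × ℤ} {w : List (ℤ × ℤ)} :
    Good (g :: w) ↔ (g.1 ≠ 0 ∧ g.2 ≠ 0) ∧ Good w := by
  simp [Good]

theorem good_append {v w : List (ℤ × ℤ)} : Good (v ++ w) ↔ Good v ∧ Good w := by
  constructor
  · intro h
    exact ⟨fun g hg => h g (List.mem_append_left _ hg), fun g hg => h g (List.mem_append_right _ hg)⟩
  · rintro ⟨h1, h2⟩ g hg
    rcases List.mem_append.1 hg with hg | hg
    · exact h1 g hg
    · exact h2 g hg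

theorem P_inv_form (w : List (ℤ × ℤ)) (hw : Good w) (c d : ℤ) (hc : c ≠ 0) (hd : d ≠ 0) :
    ∃ w' : List (ℤ × ℤ), w' ≠ [] ∧ Good w' ∧ x ^ c * (P x y w)⁻¹ * y ^ d = P x y w' := by
  induction w generalizing d with
  | nil =>
      refine ⟨[(c, d)], by simp, good_cons.2 ⟨⟨hc, hd⟩, good_nil⟩, ?_⟩
      simp [P_cons]
  | cons g v ih =>
      rw [good_cons] at hw
      obtain ⟨w', h1, h2, h3⟩ := ih hw.2 (-g.2) (by simpa using hw.1.2)
      refine ⟨w' ++ [(-g.1, d)], by simp, ?_, ?_⟩
      · rw [good_append]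
        refine ⟨h2, good_cons.2 ⟨⟨by simpa using hw.1.1, hd⟩, good_nil⟩⟩
      · rw [P_append, ← h3, P_cons, P_cons, P_nil]
        simp only [mul_inv_rev, zpow_neg, mul_assoc, mul_one]

end P

theorem normal_form (g : FreeGroup Bool) :
    ∃ (b c : ℤ) (w : List (ℤ × ℤ)), Good w ∧
      g = (FreeGroup.of false) ^ b * P (FreeGroup.of true) (FreeGroup.of false) w *
        (FreeGroup.of true) ^ c := by
  have key : ∀ (a : ℤ) (g : FreeGroup Bool),
      (∃ (b c : ℤ) (w : List (ℤ × ℤ)), Good w ∧
      g = (FreeGroup.of false) ^ b * P (FreeGroup.of true) (FreeGroup.of false) w *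
        (FreeGroup.of true) ^ c) → 
      (∃ (b c : ℤ) (w : List (ℤ × ℤ)), Good w ∧
      FreeGroup.of true ^ a * g =
        (FreeGroup.of false) ^ b * P (FreeGroup.of true) (FreeGroup.of false) w *
        (FreeGroup.of true) ^ c) := by
    rintro a g ⟨b, c, w, hw, rfl⟩
    by_cases ha : a = 0
    · subst ha
      exact ⟨b, c, w, hw, by simp⟩
    by_cases hb : b = 0
    · subst hb
      cases w with
      | nil => exact ⟨0, a + c, [], good_nil, by simp [zpow_add]⟩
      | cons p v =>
          rw [good_cons] at hw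
          by_cases h : a + p.1 = 0
          · refine ⟨p.2, c, v, hw.2, ?_⟩
            have hp : p.1 = -a := by omega
            simp [P_cons, hp, mul_assoc]
          · refine ⟨0, c, (a + p.1, p.2) :: v, good_cons.2 ⟨⟨h, hw.1.2⟩, hw.2⟩, ?_⟩
            simp [P_cons, zpow_add, mul_assoc]
    · refine ⟨0, c, (a, b) :: w, good_cons.2 ⟨⟨ha, hb⟩, hw⟩, ?_⟩
      simp [P_cons, mul_assoc]
  have key2 : ∀ (a : ℤ) (g : FreeGroup Bool),
      (∃ (b c : ℤ) (w : List (ℤ × ℤ)), Good w ∧
      g = (FreeGroup.of false) ^ b * P (FreeGroup.of true) (FreeGroup.of false) w *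
        (FreeGroup.of true) ^ c) → 
      (∃ (b c : ℤ) (w : List (ℤ × ℤ)), Good w ∧
      FreeGroup.of false ^ a * g =
        (FreeGroup.of false) ^ b * P (FreeGroup.of true) (FreeGroup.of false) w *
        (FreeGroup.of true) ^ c) := by
    rintro a g ⟨b, c, w, hw, rfl⟩
    exact ⟨a + b, c, w, hw, by simp [zpow_add, mul_assoc]⟩
  induction g using Quot.inductionOn with
  | h L =>
    change ∃ (b c : ℤ) (w : List (ℤ × ℤ)), Good w ∧ FreeGroup.mk L = _
    induction L with
    | nil => exact ⟨0, 0, [], good_nil, by simp [← FreeGroup.one_eq_mk]⟩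
    | cons p L ih =>
        obtain ⟨a, e⟩ := p
        have h1 : FreeGroup.mk ((a, e) :: L) = FreeGroup.mk [(a, e)] * FreeGroup.mk L := by
          rw [FreeGroup.mul_mk]; rfl
        have h2 : FreeGroup.mk [(a, e)] = FreeGroup.of a ^ (if e then (1 : ℤ) else -1) := by
          cases e
          · simp [FreeGroup.of, FreeGroup.inv_mk, FreeGroup.invRev]
          · simp [FreeGroup.of]
        rw [h1, h2]
        cases a
        · exact key2 _ _ ih
        · exact key _ _ ih

theorem inj_of_P {M : Type*} [Group M] (h : FreeGroup Bool →* M)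
    (H : ∀ w : List (ℤ × ℤ), w ≠ [] → Good w →
      P (h (FreeGroup.of true)) (h (FreeGroup.of false)) w ≠ 1) :
    Function.Injective h := by
  have H' : ∀ w : List (ℤ × ℤ), w ≠ [] → Good w →
      h (P (FreeGroup.of true) (FreeGroup.of false) w) ≠ 1 := by
    intro w h1 h2
    rw [map_P]
    exact H w h1 h2
  rw [injective_iff_map_eq_one]
  intro g hg
  by_contra hne
  obtain ⟨b, c, w, hw, rfl⟩ := normal_form g
  set x : FreeGroup Bool := FreeGroup.of true with hx
  set y : FreeGroup Bool := FreeGroup.of false with hy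
  by_cases hb : b = 0
  · subst hb
    by_cases hc : c = 0
    · subst hc
      cases w with
      | nil => simp at hne
      | cons p v => exact H' (p :: v) (by simp) hw (by simpa using hg)
    · -- head x, last x
      obtain ⟨w', h1, h2, h3⟩ := P_inv_form x y w hw (-c) (-1) (by simpa using hc) (by simp)
      refine H' (w ++ [(c, 1)] ++ w') (by simp) ?_ ?_
      · rw [good_append, good_append]
        exact ⟨⟨hw, good_cons.2 ⟨⟨hc, by simp⟩, good_nil⟩⟩, h2⟩
      · have : P x y (w ++ [(c, 1)] ++ w') =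
            (y ^ (0 : ℤ) * P x y w * x ^ c) * y * (y ^ (0 : ℤ) * P x y w * x ^ c)⁻¹ * y⁻¹ := by
          rw [P_append, P_append, ← h3, P_cons, P_nil]
          simp [mul_assoc]
        rw [this]
        simp only [map_mul, map_inv] at hg ⊢
        rw [hg]
        simp
  · by_cases hc : c = 0
    · subst hc
      -- head y, last y
      obtain ⟨w', h1, h2, h3⟩ := P_inv_form x y w hw (-1) (-b) (by simp) (by simpa using hb)
      refine H' ((1, b) :: w ++ w') (by simp) ?_ ?_
      · rw [good_append, good_cons]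
        exact ⟨⟨⟨by simp, hb⟩, hw⟩, h2⟩
      · have : P x y ((1, b) :: w ++ w') =
            x * (y ^ b * P x y w * x ^ (0 : ℤ)) * x⁻¹ * (y ^ b * P x y w * x ^ (0 : ℤ))⁻¹ := by
          rw [P_append, P_cons, ← h3]
          simp [mul_assoc]
        rw [this]
        simp only [map_mul, map_inv] at hg ⊢
        rw [hg]
        simp
    · -- conjugate
      refine H' ((c, b) :: w) (by simp) (good_cons.2 ⟨⟨hc, hb⟩, hw⟩) ?_
      have : P x y ((c, b) :: w) = x ^ c * (y ^ b * P x y w * x ^ c) * (x ^ c)⁻¹ := by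
        rw [P_cons]
        simp [mul_assoc]
      rw [this]
      simp only [map_mul, map_inv] at hg ⊢
      rw [hg]
      simp

end Pool.MP_24a659_al.Nine
end

section

/-!
MP_24a659_al, paper 716, Section 9: from a free group of units `1 + r` to the frozen statement.
-/

set_option autoImplicit false

namespace Pool.MP_24a659_al.Nine

theorem cyclic_of_free_comm (L : Type*) [Group L] [IsFreeGroup L] (hc : ∀ a b : L, a * b = b * a) :
    ∃ t : L, ∀ a : L, ∃ n : ℤ, t ^ n = a := by
  classical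
  obtain ⟨ι, ⟨b⟩⟩ := IsFreeGroup.nonempty_basis (G := L)
  have hs : ∀ i j : ι, i = j := by
    intro i j
    by_contra hij
    let f : ι → Equiv.Perm (Fin 3) := fun k => if k = i then Equiv.swap 0 1 else Equiv.swap 1 2
    let φ : L →* Equiv.Perm (Fin 3) := (FreeGroup.lift f).comp b.repr.toMonoidHom
    have h1 : φ (b i) = Equiv.swap 0 1 := by
      simp [φ, f]
    have h2 : φ (b j) = Equiv.swap 1 2 := by
      simp [φ, f, Ne.symm hij]
    have h3 := congrArg φ (hc (b i) (b j))
    rw [map_mul, map_mul, h1, h2] at h3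
    exact absurd h3 (by decide)
  by_cases hι : Nonempty ι
  · obtain ⟨i⟩ := hι
    refine ⟨b i, fun a => ?_⟩
    have key : ∀ g : FreeGroup ι, ∃ n : ℤ, (FreeGroup.of i) ^ n = g := by
      intro g
      induction g using FreeGroup.induction_on with
      | C1 => exact ⟨0, by simp⟩
      | of k => exact ⟨1, by rw [hs k i]; simp⟩
      | inv_of k _ => exact ⟨-1, by rw [hs k i]; simp⟩
      | mul g g' hg hg' =>
          obtain ⟨n, hn⟩ := hg
          obtain ⟨m, hm⟩ := hg'
          exact ⟨n + m, by rw [zpow_add, hn, hm]⟩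
    obtain ⟨n, hn⟩ := key (b.repr a)
    refine ⟨n, b.repr.injective ?_⟩
    rw [map_zpow, FreeGroupBasis.repr_apply_coe, hn]
  · refine ⟨1, fun a => ⟨0, b.repr.injective ?_⟩⟩
    have : IsEmpty ι := not_nonempty_iff.1 hι
    exact Subsingleton.elim _ _

theorem not_nilpotent : ¬ Group.IsNilpotent (FreeGroup Bool) := by
  intro h
  let f : Bool → Equiv.Perm (Fin 3) := fun k => if k then Equiv.swap 0 1 else Equiv.swap 1 2
  let φ : FreeGroup Bool →* Equiv.Perm (Fin 3) := FreeGroup.lift f
  have h0 : ∀ σ : Equiv.Perm (Fin 3), ∃ w : List Bool, (w.map f).prod = σ := by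
    intro σ
    have : ∀ σ : Equiv.Perm (Fin 3), ∃ w ∈ ([[], [true], [false], [true, false], [false, true],
        [true, false, true]] : List (List Bool)), (w.map f).prod = σ := by decide
    obtain ⟨w, _, hw⟩ := this σ
    exact ⟨w, hw⟩
  have hsurj : Function.Surjective φ := by
    intro σ
    obtain ⟨w, hw⟩ := h0 σ
    refine ⟨(w.map FreeGroup.of).prod, ?_⟩
    rw [map_list_prod, List.map_map, ← hw]
    congr 1
  have : Group.IsNilpotent (Equiv.Perm (Fin 3)) := Group.nilpotent_of_surjective φ hsurj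
  have hcen : Subgroup.center (Equiv.Perm (Fin 3)) = ⊥ := by
    rw [eq_bot_iff]
    intro σ hσ
    rw [Subgroup.mem_center_iff] at hσ
    have : ∀ σ : Equiv.Perm (Fin 3), (∀ τ, τ * σ = σ * τ) → σ = 1 := by decide
    exact Subgroup.mem_bot.2 (this σ hσ)
  have hall : ∀ n : ℕ, Subgroup.upperCentralSeries (Equiv.Perm (Fin 3)) n = ⊥ := by
    intro n
    induction n with
    | zero => exact Subgroup.upperCentralSeries_zero _
    | succ n ih =>
        rw [← Subgroup.upperCentralSeries_one] at hcen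
        rw [eq_bot_iff, ← hcen]
        intro σ hσ
        rw [Subgroup.mem_upperCentralSeries_succ_iff] at hσ
        rw [← zero_add 1, Subgroup.mem_upperCentralSeries_succ_iff,
          Subgroup.upperCentralSeries_zero, ← ih]
        exact hσ
  obtain ⟨n, hn⟩ := Group.IsNilpotent.nilpotent (Equiv.Perm (Fin 3))
  rw [hall n] at hn
  exact bot_ne_top hn

section general

variable {S : Type} [CommRing S] {R : Type} [NonUnitalRing R] [Module S R] [IsScalarTower S R R]
  [SMulCommClass S R R]

theorem frozen_core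
    (h : FreeGroup Bool →* (Unitization S R)ˣ) (hinj : Function.Injective h)
    (hform : ∀ b : Bool, ∃ x : R,
      (h (FreeGroup.of b) : Unitization S R) = 1 + Unitization.inr x) :
      ∃ G : Subgroup (Unitization S R)ˣ,
        (∀ g ∈ G, ∃ x : R, (g : Unitization S R) = 1 + Unitization.inr x) ∧
        Group.FG G ∧ ¬ Group.IsNilpotent G ∧
        ∀ H : Subgroup (Unitization S R)ˣ, H ≤ G →
          (∀ a ∈ H, ∀ b ∈ H, a * b = b * a) →
          ∃ r : ℕ, ∀ K : Subgroup (Unitization S R)ˣ, K ≤ H → K.FG →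
            ∃ s : Finset (Unitization S R)ˣ, s.card ≤ r ∧
              Subgroup.closure (s : Set (Unitization S R)ˣ) = K := by
  refine ⟨h.range, ?_, ?_, ?_, ?_⟩
  · have hfst : ∀ g : FreeGroup Bool, ((h g : Unitization S R)).fst = 1 := by
      let ψ : FreeGroup Bool →* Sˣ := (Units.map (Unitization.fstHom S R : Unitization S R →* S)).comp h
      have h1 : ψ = 1 := by
        apply FreeGroup.ext_hom
        intro b
        obtain ⟨x, hx⟩ := hform b
        apply Units.ext
        simp [ψ, hx]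
      intro g
      have := congrArg (fun χ : FreeGroup Bool →* Sˣ => ((χ g : Sˣ) : S)) h1
      simpa [ψ] using this
    rintro _ ⟨g, rfl⟩
    refine ⟨(h g : Unitization S R).snd, ?_⟩
    apply Unitization.ext
    · simp [hfst g]
    · simp
  · exact Group.fg_range h
  · intro hn
    have e : FreeGroup Bool ≃* h.range := MonoidHom.ofInjective hinj
    exact not_nilpotent ((Group.isNilpotent_congr e).2 hn)
  · intro H hH hcomm
    refine ⟨1, fun K hK _ => ?_⟩
    have hc : ∀ a b : K.comap h, a * b = b * a := by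
      rintro ⟨a, ha⟩ ⟨b, hb⟩
      apply Subtype.ext
      apply hinj
      simp only [Subgroup.coe_mul, map_mul]
      exact hcomm _ (hK ha) _ (hK hb)
    obtain ⟨t, ht⟩ := cyclic_of_free_comm (K.comap h) hc
    refine ⟨{h t}, by simp, ?_⟩
    rw [Finset.coe_singleton, ← Subgroup.zpowers_eq_closure]
    apply le_antisymm
    · rw [Subgroup.zpowers_le]
      exact t.2
    · intro k hk
      obtain ⟨g, rfl⟩ := hH (hK hk)
      obtain ⟨n, hn⟩ := ht ⟨g, hk⟩
      rw [Subgroup.mem_zpowers_iff]
      refine ⟨n, ?_⟩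
      rw [← map_zpow]
      have := congrArg (fun z : K.comap h => h (z : FreeGroup Bool)) hn
      simpa using this

/-- From a ring `A` with a nil non-unital subring containing `x` and `y` such that `1 + x`, `1 + y`
generate a free group to the frozen statement. -/
theorem frozen_general (A : Type) [Ring A] [Algebra S A] (ι : R →ₙₐ[S] A)
    (hι : Function.Injective ι)
    (hnil : ∀ x : R, IsNilpotent (ι x)) (X Y : Aˣ)
    (hX : ∃ x : R, (X : A) = 1 + ι x) (hY : ∃ y : R, (Y : A) = 1 + ι y)
    (H : ∀ w : List (ℤ × ℤ), w ≠ [] → Good w → P X Y w ≠ 1) :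
      (∀ x : R, IsNilpotent (Unitization.inr x : Unitization S R)) ∧
      ∃ G : Subgroup (Unitization S R)ˣ,
        (∀ g ∈ G, ∃ x : R, (g : Unitization S R) = 1 + Unitization.inr x) ∧
        Group.FG G ∧ ¬ Group.IsNilpotent G ∧
        ∀ H : Subgroup (Unitization S R)ˣ, H ≤ G →
          (∀ a ∈ H, ∀ b ∈ H, a * b = b * a) →
          ∃ r : ℕ, ∀ K : Subgroup (Unitization S R)ˣ, K ≤ H → K.FG →
            ∃ s : Finset (Unitization S R)ˣ, s.card ≤ r ∧
              Subgroup.closure (s : Set (Unitization S R)ˣ) = K := by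
  let φ : Unitization S R →ₐ[S] A := Unitization.lift ι
  have hφ : ∀ r : R, φ (Unitization.inr r) = ι r := by
    intro r
    simp [φ]
  have hinrpow : ∀ (r : R) (n : ℕ), ∃ s : R,
      (Unitization.inr r : Unitization S R) ^ (n + 1) = Unitization.inr s := by
    intro r n
    induction n with
    | zero => exact ⟨r, by simp⟩
    | succ n ih =>
        obtain ⟨s, hs⟩ := ih
        exact ⟨s * r, by rw [pow_succ, hs, Unitization.inr_mul]⟩
  have hnil' : ∀ x : R, IsNilpotent (Unitization.inr x : Unitization S R) := by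
    intro x
    obtain ⟨n, hn⟩ := hnil x
    refine ⟨n + 1, ?_⟩
    obtain ⟨s, hs⟩ := hinrpow x n
    have h1 : φ ((Unitization.inr x : Unitization S R) ^ (n + 1)) = 0 := by
      rw [map_pow, hφ, pow_succ, hn, zero_mul]
    rw [hs, hφ] at h1
    have hs0 : s = 0 := hι (by rw [h1, map_zero])
    rw [hs, hs0]; simp
  obtain ⟨x, hx⟩ := hX
  obtain ⟨y, hy⟩ := hY
  let z : Bool → R := fun b => if b then x else y
  have hu : ∀ b : Bool, IsUnit (1 + Unitization.inr (z b) : Unitization S R) := fun b =>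
    (hnil' (z b)).isUnit_one_add
  let h : FreeGroup Bool →* (Unitization S R)ˣ := FreeGroup.lift fun b => (hu b).unit
  have hh : ∀ b : Bool, ((h (FreeGroup.of b) : (Unitization S R)ˣ) : Unitization S R) =
      1 + Unitization.inr (z b) := by
    intro b
    simp [h]
  let k : FreeGroup Bool →* Aˣ := (Units.map (φ : Unitization S R →* A)).comp h
  have hkX : k (FreeGroup.of true) = X := by
    apply Units.ext
    simp [k, hh, hφ, z, hx]
  have hkY : k (FreeGroup.of false) = Y := by
    apply Units.ext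
    simp [k, hh, hφ, z, hy]
  have hk : Function.Injective k := by
    apply inj_of_P
    rw [hkX, hkY]
    exact H
  have hinj : Function.Injective h := by
    intro a b hab
    apply hk
    simp only [k, MonoidHom.comp_apply, hab]
  exact ⟨hnil', frozen_core h hinj (fun b => ⟨z b, hh b⟩)⟩

end general

/-- From a ring `A` with a nil non-unital subring containing `x` and `y` such that `1 + x`, `1 + y`
generate a free group to the frozen statement. -/
theorem frozen_of_hom (A : Type) [Ring A] (R : Type) [NonUnitalRing R] (ι₀ : R →ₙ+* A)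
    (hι : Function.Injective ι₀)
    (hnil : ∀ x : R, IsNilpotent (ι₀ x)) (X Y : Aˣ)
    (hX : ∃ x : R, (X : A) = 1 + ι₀ x) (hY : ∃ y : R, (Y : A) = 1 + ι₀ y)
    (H : ∀ w : List (ℤ × ℤ), w ≠ [] → Good w → P X Y w ≠ 1) :
    ∃ (R : Type) (_ : NonUnitalRing R),
      (∀ x : R, IsNilpotent (Unitization.inr x : Unitization ℤ R)) ∧
      ∃ G : Subgroup (Unitization ℤ R)ˣ,
        (∀ g ∈ G, ∃ x : R, (g : Unitization ℤ R) = 1 + Unitization.inr x) ∧
        Group.FG G ∧ ¬ Group.IsNilpotent G ∧
        ∀ H : Subgroup (Unitization ℤ R)ˣ, H ≤ G →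
          (∀ a ∈ H, ∀ b ∈ H, a * b = b * a) →
          ∃ r : ℕ, ∀ K : Subgroup (Unitization ℤ R)ˣ, K ≤ H → K.FG →
            ∃ s : Finset (Unitization ℤ R)ˣ, s.card ≤ r ∧
              Subgroup.closure (s : Set (Unitization ℤ R)ˣ) = K := by
  let ι : R →ₙₐ[ℤ] A :=
    { toFun := ι₀
      map_smul' := by intro n r; simp
      map_zero' := by simp
      map_add' := by intro a b; simp
      map_mul' := by intro a b; simp }
  exact ⟨R, inferInstance, frozen_general (S := ℤ) A ι hι hnil X Y hX hY H⟩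

end Pool.MP_24a659_al.Nine
end
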