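import Mathlib

/-!
MP_24a659_al, paper 716, Section 9: division of functionals by words, chains of killers.
-/

set_option autoImplicit false

namespace Pool.MP_24a659_al.Nine

open MonoidAlgebra

/-- the free associative algebra -/
abbrev F := MonoidAlgebra ℚ (FreeMonoid Bool)

/-- pairing of two elements of `F` -/
noncomputable def pair (X Z : F) : ℚ := X.coeff.sum fun m c => c * Z.coeff m

theorem pair_eq_sum (X Z : F) (s : Finset (FreeMonoid Bool)) (h : X.coeff.support ⊆ s) :
    pair X Z = ∑ m ∈ s, X.coeff m * Z.coeff m := by
  unfold pair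
  rw [Finsupp.sum_of_support_subset _ h]
  intro i _
  simp

theorem pair_single_left (m : FreeMonoid Bool) (r : ℚ) (Z : F) :
    pair (single m r) Z = r * Z.coeff m := by
  unfold pair
  simp

theorem pair_add_left (X Y Z : F) : pair (X + Y) Z = pair X Z + pair Y Z := by
  unfold pair
  rw [coeff_add, Finsupp.sum_add_index']
  · intro a; simp
  · intro a b c; ring

theorem pair_smul_left (r : ℚ) (X Z : F) : pair (r • X) Z = r * pair X Z := by
  unfold pair
  rw [coeff_smul, Finsupp.sum_smul_index (by intro i; simp), Finsupp.mul_sum]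
  simp only [mul_assoc]

theorem pair_zero_left (Z : F) : pair 0 Z = 0 := by
  simp [pair]

theorem pair_add_right (X Y Z : F) : pair X (Y + Z) = pair X Y + pair X Z := by
  unfold pair
  simp [mul_add, Finsupp.sum_add]

theorem pair_smul_right (r : ℚ) (X Z : F) : pair X (r • Z) = r * pair X Z := by
  unfold pair
  rw [Finsupp.mul_sum]
  congr 1
  ext m c
  simp
  ring

theorem pair_zero_right (X : F) : pair X 0 = 0 := by
  simp [pair]

theorem pair_neg_right (X Z : F) : pair X (-Z) = - pair X Z := by
  have := pair_smul_right (-1) X Z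
  simpa using this

theorem pair_sub_right (X Y Z : F) : pair X (Y - Z) = pair X Y - pair X Z := by
  rw [sub_eq_add_neg, pair_add_right, pair_neg_right, sub_eq_add_neg]

theorem pair_single_right (X : F) (m : FreeMonoid Bool) (r : ℚ) :
    pair X (single m r) = X.coeff m * r := by
  induction X using MonoidAlgebra.induction_linear with
  | zero => simp [pair_zero_left]
  | add X Y hX hY => rw [pair_add_left, hX, hY, coeff_add, Finsupp.add_apply, add_mul]
  | single n s =>
      rw [pair_single_left]
      simp only [coeff_single, Finsupp.single_apply]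
      by_cases h : m = n
      · subst h; simp
      · have h' : n ≠ m := fun e => h e.symm
        simp [h, h']

theorem pair_one_right (X : F) : pair X 1 = X.coeff 1 := by
  rw [one_def, pair_single_right, mul_one]

/-- cancellation in the free monoid -/
theorem of_mul_inj (a b : Bool) (m n : FreeMonoid Bool) :
    FreeMonoid.of a * m = FreeMonoid.of b * n ↔ a = b ∧ m = n := by
  constructor
  · intro h
    have h' := congrArg FreeMonoid.toList h
    simp only [FreeMonoid.toList_mul, FreeMonoid.toList_of, List.singleton_append,
      List.cons.injEq] at h'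
    exact ⟨h'.1, FreeMonoid.toList.injective h'.2⟩
  · rintro ⟨rfl, rfl⟩; rfl

theorem mul_of_inj (a b : Bool) (m n : FreeMonoid Bool) :
    m * FreeMonoid.of a = n * FreeMonoid.of b ↔ m = n ∧ a = b := by
  constructor
  · intro h
    have h' := congrArg FreeMonoid.toList h
    simp only [FreeMonoid.toList_mul, FreeMonoid.toList_of] at h'
    have h2 := List.append_inj' h' rfl
    exact ⟨FreeMonoid.toList.injective h2.1, by simpa using h2.2⟩
  · rintro ⟨rfl, rfl⟩; rfl

theorem of_mul_ne_one (a : Bool) (m : FreeMonoid Bool) : FreeMonoid.of a * m ≠ 1 := by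
  intro h
  have h' := congrArg FreeMonoid.toList h
  simp at h'

theorem mul_of_ne_one (a : Bool) (m : FreeMonoid Bool) : m * FreeMonoid.of a ≠ 1 := by
  intro h
  have h' := congrArg FreeMonoid.toList h
  simp at h'

/-- left division by a word: `(dl u X) m = X (u m)` -/
noncomputable def dl (u : FreeMonoid Bool) : F →ₗ[ℚ] F where
  toFun X := ofCoeff (X.coeff.comapDomain (fun m => u * m)
    (fun _ _ _ _ h => mul_left_cancel h))
  map_add' X Y := by
    ext m
    simp
  map_smul' r X := by
    ext m
    simp

/-- right division by a word: `(dr v X) m = X (m v)` -/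
noncomputable def dr (v : FreeMonoid Bool) : F →ₗ[ℚ] F where
  toFun X := ofCoeff (X.coeff.comapDomain (fun m => m * v)
    (fun _ _ _ _ h => mul_right_cancel h))
  map_add' X Y := by
    ext m
    simp
  map_smul' r X := by
    ext m
    simp

@[simp] theorem coeff_dl (u : FreeMonoid Bool) (X : F) (m : FreeMonoid Bool) :
    (dl u X).coeff m = X.coeff (u * m) := by
  simp [dl]

@[simp] theorem coeff_dr (v : FreeMonoid Bool) (X : F) (m : FreeMonoid Bool) :
    (dr v X).coeff m = X.coeff (m * v) := by
  simp [dr]

theorem dl_mul (u v : FreeMonoid Bool) (X : F) : dl (u * v) X = dl v (dl u X) := by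
  ext m
  simp [mul_assoc]

theorem dr_mul (u v : FreeMonoid Bool) (X : F) : dr (u * v) X = dr u (dr v X) := by
  ext m
  simp [mul_assoc]

theorem dl_one (X : F) : dl 1 X = X := by
  ext m; simp

theorem dr_one (X : F) : dr 1 X = X := by
  ext m; simp

/-- pairing with `u Z v` -/
theorem pair_mul_mul (X Z : F) (u v : FreeMonoid Bool) :
    pair X (single u 1 * Z * single v 1) = pair (dl u (dr v X)) Z := by
  induction Z using MonoidAlgebra.induction_linear with
  | zero => simp [pair_zero_right]
  | add Y Z hY hZ => rw [mul_add, add_mul, pair_add_right, hY, hZ, pair_add_right]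
  | single n s =>
      rw [single_mul_single, single_mul_single, pair_single_right, pair_single_right]
      simp

theorem coeff_one_mul (X Y : F) : (X * Y).coeff 1 = X.coeff 1 * Y.coeff 1 := by
  rw [coeff_mul_antidiag X Y 1 {(1, 1)}]
  · simp
  · rintro ⟨a, b⟩
    simp only [Finset.mem_singleton, Prod.mk.injEq]
    constructor
    · rintro ⟨rfl, rfl⟩; simp
    · intro h
      have h' := congrArg FreeMonoid.toList h
      simp only [FreeMonoid.toList_mul, FreeMonoid.toList_one, List.append_eq_nil_iff] at h'
      exact ⟨FreeMonoid.toList.injective h'.1, FreeMonoid.toList.injective h'.2⟩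

theorem dl_of_mul (a : Bool) (X Y : F) :
    dl (FreeMonoid.of a) (X * Y) =
      dl (FreeMonoid.of a) X * Y + X.coeff 1 • dl (FreeMonoid.of a) Y := by
  classical
  induction X using MonoidAlgebra.induction_linear with
  | zero => simp
  | add X X' hX hX' =>
      rw [add_mul, map_add, hX, hX', map_add, add_mul, coeff_add, Finsupp.add_apply, add_smul]
      abel
  | single m r =>
    induction Y using MonoidAlgebra.induction_linear with
    | zero => simp
    | add Y Y' hY hY' =>
        rw [mul_add, map_add, hY, hY', map_add, mul_add, smul_add]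
        abel
    | single n s =>
      induction m using FreeMonoid.casesOn with
      | one =>
          have h1 : dl (FreeMonoid.of a) (single (1 : FreeMonoid Bool) r) = 0 := by
            ext k
            simp [Finsupp.single_apply, (of_mul_ne_one a k).symm]
          rw [h1, single_mul_single]
          ext k
          simp only [one_mul, zero_mul, zero_add, coeff_dl, coeff_single, coeff_smul,
            Finsupp.smul_apply, Finsupp.single_apply, smul_eq_mul, if_true]
          split_ifs <;> simp
      | of_mul b m =>
          have h1 : dl (FreeMonoid.of a) (single (FreeMonoid.of b * m) r) =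
              if a = b then single m r else 0 := by
            ext k
            by_cases hab : a = b
            · subst hab
              simp only [coeff_dl, coeff_single, if_true]
              simp only [Finsupp.single_apply, of_mul_inj, true_and]
            · have hba : b ≠ a := fun e => hab e.symm
              simp [Finsupp.single_apply, of_mul_inj, hab, hba]
          have h2 : (single (FreeMonoid.of b * m) r : F).coeff 1 = 0 := by
            simp [Finsupp.single_apply, of_mul_ne_one b m]
          rw [h1, h2, zero_smul, add_zero, single_mul_single]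
          by_cases hab : a = b
          · subst hab
            rw [if_pos rfl, single_mul_single]
            ext k
            simp only [coeff_dl, coeff_single, Finsupp.single_apply, mul_assoc, of_mul_inj,
              true_and]
          · rw [if_neg hab, zero_mul]
            ext k
            have hba : b ≠ a := fun e => hab e.symm
            simp [Finsupp.single_apply, mul_assoc, of_mul_inj, hba]

theorem dr_of_mul (a : Bool) (X Y : F) :
    dr (FreeMonoid.of a) (X * Y) =
      X * dr (FreeMonoid.of a) Y + Y.coeff 1 • dr (FreeMonoid.of a) X := by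
  classical
  induction Y using MonoidAlgebra.induction_linear with
  | zero => simp
  | add X X' hX hX' =>
      rw [mul_add, map_add, hX, hX', map_add, mul_add, coeff_add, Finsupp.add_apply, add_smul]
      abel
  | single m r =>
    induction X using MonoidAlgebra.induction_linear with
    | zero => simp
    | add Y Y' hY hY' =>
        rw [add_mul, map_add, hY, hY', map_add, add_mul, smul_add]
        abel
    | single n s =>
      have hm : m = 1 ∨ ∃ m' b, m = m' * FreeMonoid.of b := by
        rcases List.eq_nil_or_concat' (FreeMonoid.toList m) with h | ⟨L, b, h⟩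
        · left; exact FreeMonoid.toList.injective h
        · right
          refine ⟨FreeMonoid.ofList L, b, FreeMonoid.toList.injective ?_⟩
          rw [h, FreeMonoid.toList_mul]; rfl
      rcases hm with rfl | ⟨m, b, rfl⟩
      · have h1 : dr (FreeMonoid.of a) (single (1 : FreeMonoid Bool) r) = 0 := by
          ext k
          simp [Finsupp.single_apply, (mul_of_ne_one a k).symm]
        rw [h1, single_mul_single]
        ext k
        simp only [mul_one, coeff_dr, coeff_single, Finsupp.single_apply, mul_zero, zero_add,
          coeff_smul, Finsupp.smul_apply, smul_eq_mul, if_true]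
        split_ifs
        · ring
        · ring
      · have h1 : dr (FreeMonoid.of a) (single (m * FreeMonoid.of b) r) =
            if a = b then single m r else 0 := by
          ext k
          by_cases hab : a = b
          · subst hab
            simp only [coeff_dr, coeff_single, if_true]
            simp only [Finsupp.single_apply, mul_of_inj, and_true]
          · have hba : b ≠ a := fun e => hab e.symm
            simp [Finsupp.single_apply, mul_of_inj, hab, hba]
        have h2 : (single (m * FreeMonoid.of b) r : F).coeff 1 = 0 := by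
          simp [Finsupp.single_apply, mul_of_ne_one b m]
        rw [h1, h2, zero_smul, add_zero, single_mul_single]
        by_cases hab : a = b
        · subst hab
          rw [if_pos rfl, single_mul_single]
          ext k
          simp only [coeff_dr, coeff_single, Finsupp.single_apply, ← mul_assoc, mul_of_inj,
            and_true]
        · rw [if_neg hab, mul_zero]
          ext k
          have hba : b ≠ a := fun e => hab e.symm
          simp [Finsupp.single_apply, ← mul_assoc, mul_of_inj, hba]

/-- elements with monomials of length at most `B` -/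
def Len (B : ℕ) : Submodule ℚ F where
  carrier := {X | ∀ m, X.coeff m ≠ 0 → m.length ≤ B}
  zero_mem' := by intro m hm; simp at hm
  add_mem' := by
    intro X Y hX hY m hm
    by_contra hlt
    have h1 : X.coeff m = 0 := by
      by_contra h; exact hlt (hX m h)
    have h2 : Y.coeff m = 0 := by
      by_contra h; exact hlt (hY m h)
    simp [h1, h2] at hm
  smul_mem' := by
    intro r X hX m hm
    by_contra hlt
    have h1 : X.coeff m = 0 := by
      by_contra h; exact hlt (hX m h)
    simp [h1] at hm

theorem mem_Len {B : ℕ} {X : F} : X ∈ Len B ↔ ∀ m, X.coeff m ≠ 0 → m.length ≤ B := Iff.rfl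

theorem Len_mono {B C : ℕ} (h : B ≤ C) {X : F} (hX : X ∈ Len B) : X ∈ Len C :=
  fun m hm => (hX m hm).trans h

theorem Len_mul {B C : ℕ} {X Y : F} (hX : X ∈ Len B) (hY : Y ∈ Len C) : X * Y ∈ Len (B + C) := by
  classical
  intro m hm
  rw [coeff_mul] at hm
  obtain ⟨a, ha, h1⟩ := Finset.exists_ne_zero_of_sum_ne_zero hm
  obtain ⟨b, hb, h2⟩ := Finset.exists_ne_zero_of_sum_ne_zero h1
  rw [Finsupp.mem_support_iff] at ha hb
  by_cases hab : a * b = m
  · rw [← hab, FreeMonoid.length_mul]
    exact Nat.add_le_add (hX a ha) (hY b hb)
  · simp [hab] at h2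

theorem Len_dl {B : ℕ} {X : F} (u : FreeMonoid Bool) (hX : X ∈ Len B) : dl u X ∈ Len B := by
  intro m hm
  rw [coeff_dl] at hm
  have := hX _ hm
  rw [FreeMonoid.length_mul] at this
  omega

theorem Len_dr {B : ℕ} {X : F} (u : FreeMonoid Bool) (hX : X ∈ Len B) : dr u X ∈ Len B := by
  intro m hm
  rw [coeff_dr] at hm
  have := hX _ hm
  rw [FreeMonoid.length_mul] at this
  omega

section chains

variable (T : Set F) (B : ℕ)

/-- chains `J₁ X₁ J₂ ... X_{s-1} J_s` -/
inductive Ch : F → Prop
  | one (J : F) : J ∈ T → J ∈ Len B → Ch J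
  | cons (J X c : F) : J ∈ T → J ∈ Len B → X ∈ Len B → Ch c → Ch (J * X * c)

/-- products `X₀ J₁ X₁ ... J_t X_t` -/
inductive KCh : F → Prop
  | base (X : F) : X ∈ Len B → KCh X
  | step (X J Y : F) : X ∈ Len B → J ∈ T → J ∈ Len B → KCh Y → KCh (X * J * Y)

/-- the span of the products `X₀ J₁ X₁ ... J_t X_t` -/
noncomputable def K : Submodule ℚ F := Submodule.span ℚ {X | KCh T B X}

/-- the class used for the division -/
noncomputable def Q : Submodule ℚ F :=
  Submodule.span ℚ ({X | ∃ A c A', A ∈ Len (2 * B) ∧ Ch T B c ∧ A' ∈ Len (2 * B) ∧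
    X = A * c * A'} ∪ (Len (3 * B) : Set F))

variable {T B}

theorem Len_sub_Q {X : F} (h : X ∈ Len (3 * B)) : X ∈ Q T B :=
  Submodule.subset_span (Or.inr h)

theorem chain_mem_Q {A c A' : F} (hA : A ∈ Len (2 * B)) (hc : Ch T B c) (hA' : A' ∈ Len (2 * B)) :
    A * c * A' ∈ Q T B :=
  Submodule.subset_span (Or.inl ⟨A, c, A', hA, hc, hA', rfl⟩)

theorem KCh_form {X : F} (h : KCh T B X) :
    X ∈ Len B ∨ ∃ A c A', A ∈ Len B ∧ Ch T B c ∧ A' ∈ Len B ∧ X = A * c * A' := by
  induction h with
  | base X hX => exact Or.inl hX
  | step X J Y hX hJ hJB _ ih =>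
      right
      rcases ih with ih | ⟨A, c, A', hA, hc, hA', rfl⟩
      · exact ⟨X, J, Y, hX, Ch.one J hJ hJB, ih, rfl⟩
      · exact ⟨X, J * A * c, A', hX, Ch.cons J A c hJ hJB hA hc, hA', by simp only [mul_assoc]⟩

theorem K_le_Q : K T B ≤ Q T B := by
  rw [K, Submodule.span_le]
  intro X hX
  rcases KCh_form hX with h | ⟨A, c, A', hA, hc, hA', rfl⟩
  · exact Len_sub_Q (Len_mono (by omega) h)
  · exact chain_mem_Q (Len_mono (by omega) hA) hc (Len_mono (by omega) hA')

theorem dl_chain (a : Bool) {c : F} (hc : Ch T B c) {A' : F} (hA' : A' ∈ Len (2 * B)) :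
    dl (FreeMonoid.of a) c * A' ∈ Q T B := by
  induction hc with
  | one J hJ hJB =>
      exact Len_sub_Q (Len_mono (by omega) (Len_mul (Len_dl _ hJB) hA'))
  | cons J X c hJ hJB hX hc ih =>
      rw [dl_of_mul, add_mul]
      refine add_mem (chain_mem_Q (Len_mono (by omega) (Len_dl _ (Len_mul hJB hX))) hc hA') ?_
      rw [smul_mul_assoc]
      exact Submodule.smul_mem _ _ ih

/-- For a chain `c` the element `c / a` is a sum of products chain times bounded and of a
bounded element. -/
theorem dr_chain_form (a : Bool) {c : F} (hc : Ch T B c) :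
    dr (FreeMonoid.of a) c ∈ Submodule.span ℚ ({X | ∃ c A', Ch T B c ∧ A' ∈ Len (2 * B) ∧
      X = c * A'} ∪ (Len B : Set F)) := by
  set S : Submodule ℚ F := Submodule.span ℚ ({X | ∃ c A', Ch T B c ∧ A' ∈ Len (2 * B) ∧
      X = c * A'} ∪ (Len B : Set F)) with hS
  have hS1 : ∀ c A', Ch T B c → A' ∈ Len (2 * B) → c * A' ∈ S := fun c A' h1 h2 =>
    Submodule.subset_span (Or.inl ⟨c, A', h1, h2, rfl⟩)
  have hS2 : ∀ X, X ∈ Len B → X ∈ S := fun X h => Submodule.subset_span (Or.inr h)
  induction hc with
  | one J hJ hJB => exact hS2 _ (Len_dr _ hJB)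
  | cons J X c hJ hJB hX hc ih =>
      rw [dr_of_mul]
      refine add_mem ?_ (Submodule.smul_mem _ _ ?_)
      · -- `J X * (c / a)`
        have hmap : S ≤ S.comap (LinearMap.mulLeft ℚ (J * X)) := by
          conv_lhs => rw [hS]
          rw [Submodule.span_le]
          rintro Z (⟨c', A', hc', hA', rfl⟩ | hZ)
          · change J * X * (c' * A') ∈ S
            rw [← mul_assoc]
            exact hS1 _ _ (Ch.cons J X c' hJ hJB hX hc') hA'
          · change J * X * Z ∈ S
            rw [mul_assoc]
            refine hS1 _ _ (Ch.one J hJ hJB) ?_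
            have := Len_mul hX hZ
            exact Len_mono (by omega) this
        exact hmap ih
      · rw [dr_of_mul]
        refine add_mem (hS1 _ _ (Ch.one J hJ hJB) (Len_mono (by omega) (Len_dr _ hX)))
          (Submodule.smul_mem _ _ (hS2 _ (Len_dr _ hJB)))

theorem dr_chain (a : Bool) {c : F} (hc : Ch T B c) {A : F} (hA : A ∈ Len (2 * B)) :
    A * dr (FreeMonoid.of a) c ∈ Q T B := by
  have hmap : Submodule.span ℚ ({X | ∃ c A', Ch T B c ∧ A' ∈ Len (2 * B) ∧
      X = c * A'} ∪ (Len B : Set F)) ≤ (Q T B).comap (LinearMap.mulLeft ℚ A) := by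
    rw [Submodule.span_le]
    rintro Z (⟨c', A', hc', hA', rfl⟩ | hZ)
    · change A * (c' * A') ∈ Q T B
      rw [← mul_assoc]
      exact chain_mem_Q hA hc' hA'
    · change A * Z ∈ Q T B
      refine Len_sub_Q ?_
      have := Len_mul hA hZ
      exact Len_mono (by omega) this
  exact hmap (dr_chain_form a hc)

theorem dl_Q (a : Bool) {X : F} (hX : X ∈ Q T B) : dl (FreeMonoid.of a) X ∈ Q T B := by
  have hmap : Q T B ≤ (Q T B).comap (dl (FreeMonoid.of a)) := by
    conv_lhs => rw [Q]
    rw [Submodule.span_le]
    rintro Z (⟨A, c, A', hA, hc, hA', rfl⟩ | hZ)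
    · change dl (FreeMonoid.of a) (A * c * A') ∈ Q T B
      rw [mul_assoc, dl_of_mul, dl_of_mul, ← mul_assoc]
      refine add_mem (chain_mem_Q (Len_dl _ hA) hc hA') (Submodule.smul_mem _ _
        (add_mem (dl_chain a hc hA') (Submodule.smul_mem _ _ ?_)))
      exact Len_sub_Q (Len_mono (by omega) (Len_dl _ hA'))
    · exact Len_sub_Q (Len_dl _ hZ)
  exact hmap hX

theorem dr_Q (a : Bool) {X : F} (hX : X ∈ Q T B) : dr (FreeMonoid.of a) X ∈ Q T B := by
  have hmap : Q T B ≤ (Q T B).comap (dr (FreeMonoid.of a)) := by
    conv_lhs => rw [Q]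
    rw [Submodule.span_le]
    rintro Z (⟨A, c, A', hA, hc, hA', rfl⟩ | hZ)
    · change dr (FreeMonoid.of a) (A * c * A') ∈ Q T B
      rw [dr_of_mul, dr_of_mul]
      refine add_mem (chain_mem_Q hA hc (Len_dr _ hA')) (Submodule.smul_mem _ _
        (add_mem (dr_chain a hc hA) (Submodule.smul_mem _ _ ?_)))
      exact Len_sub_Q (Len_mono (by omega) (Len_dr _ hA))
    · exact Len_sub_Q (Len_dr _ hZ)
  exact hmap hX

theorem dl_Q_word (u : FreeMonoid Bool) {X : F} (hX : X ∈ Q T B) : dl u X ∈ Q T B := by
  induction u using FreeMonoid.recOn generalizing X with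
  | one => rw [dl_one]; exact hX
  | of_mul a u ih =>
      rw [dl_mul]
      exact ih (dl_Q a hX)

theorem dr_Q_word (u : FreeMonoid Bool) {X : F} (hX : X ∈ Q T B) : dr u X ∈ Q T B := by
  induction u using FreeMonoid.recOn generalizing X with
  | one => rw [dr_one]; exact hX
  | of_mul a u ih =>
      rw [dr_mul]
      exact dr_Q a (ih hX)

/-- Everything in `Q` is a sum of an element of the two-sided ideal generated by `T` and of a
bounded element. -/
theorem pair_Q {X : F} (hX : X ∈ Q T B) (Z : F)
    (hT : ∀ J ∈ T, ∀ Y Y' : F, pair (Y * J * Y') Z = 0)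
    (hZ : ∀ m, Z.coeff m ≠ 0 → 3 * B < m.length) : pair X Z = 0 := by
  let f : F →ₗ[ℚ] ℚ :=
    { toFun := fun X => pair X Z
      map_add' := fun X Y => pair_add_left X Y Z
      map_smul' := fun r X => by simp [pair_smul_left] }
  have hmap : Q T B ≤ LinearMap.ker f := by
    rw [Q, Submodule.span_le]
    rintro X (⟨A, c, A', hA, hc, hA', rfl⟩ | hX)
    · change pair (A * c * A') Z = 0
      cases hc with
      | one J hJ hJB => exact hT _ hJ A A'
      | cons J X c hJ hJB hX hc =>
          have := hT _ hJ A (X * c * A')
          simpa only [mul_assoc] using this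
    · change pair X Z = 0
      unfold pair
      apply Finset.sum_eq_zero
      intro m hm
      rw [Finsupp.mem_support_iff] at hm
      by_cases h : Z.coeff m = 0
      · simp [h]
      · have h1 := hX m hm
        have h2 := hZ m h
        omega
  exact hmap hX

end chains

end Pool.MP_24a659_al.Nine
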