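import Mathlib

/-!
# The reduction of S00967: a nil ring whose adjoint group contains a free group of rank two
-/

namespace Pool.Agent.Lib.MP_24a659_al

/-- the product of the powers which belong to a list of pairs -/
def prodL {G : Type*} [Group G] (u v : G) (l : List (ℤ × ℤ)) : G :=
  (l.map fun g => u ^ g.1 * v ^ g.2).prod

section

variable {G : Type*} [Group G] {u v : G}

theorem prodL_nil : prodL u v [] = 1 := rfl

theorem prodL_cons (g : ℤ × ℤ) (l : List (ℤ × ℤ)) :
    prodL u v (g :: l) = u ^ g.1 * v ^ g.2 * prodL u v l := by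
  unfold prodL
  rw [List.map_cons, List.prod_cons]

theorem prodL_append (l l' : List (ℤ × ℤ)) :
    prodL u v (l ++ l') = prodL u v l * prodL u v l' := by
  unfold prodL
  rw [List.map_append, List.prod_append]

/-- the elements of the group generated by `u` and `v` -/
theorem exists_list {g : G} (hg : g ∈ Subgroup.closure {u, v}) :
    ∃ (b : ℤ) (l : List (ℤ × ℤ)) (a : ℤ), (∀ q ∈ l, q.1 ≠ 0 ∧ q.2 ≠ 0) ∧
      g = v ^ b * prodL u v l * u ^ a := by
  have key : ∀ g ∈ Subgroup.closure {u, v}, ∀ h : G, (∃ (b : ℤ) (l : List (ℤ × ℤ)) (a : ℤ),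
      (∀ q ∈ l, q.1 ≠ 0 ∧ q.2 ≠ 0) ∧ h = v ^ b * prodL u v l * u ^ a) →
      ∃ (b : ℤ) (l : List (ℤ × ℤ)) (a : ℤ),
      (∀ q ∈ l, q.1 ≠ 0 ∧ q.2 ≠ 0) ∧ h * g = v ^ b * prodL u v l * u ^ a := by
    have hu : ∀ (c : ℤ) (h : G), (∃ (b : ℤ) (l : List (ℤ × ℤ)) (a : ℤ),
        (∀ q ∈ l, q.1 ≠ 0 ∧ q.2 ≠ 0) ∧ h = v ^ b * prodL u v l * u ^ a) →
        ∃ (b : ℤ) (l : List (ℤ × ℤ)) (a : ℤ),
        (∀ q ∈ l, q.1 ≠ 0 ∧ q.2 ≠ 0) ∧ h * u ^ c = v ^ b * prodL u v l * u ^ a := by
      rintro c h ⟨b, l, a, hl, rfl⟩
      exact ⟨b, l, a + c, hl, by rw [zpow_add]; simp only [mul_assoc]⟩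
    have hv : ∀ (c : ℤ) (h : G), (∃ (b : ℤ) (l : List (ℤ × ℤ)) (a : ℤ),
        (∀ q ∈ l, q.1 ≠ 0 ∧ q.2 ≠ 0) ∧ h = v ^ b * prodL u v l * u ^ a) →
        ∃ (b : ℤ) (l : List (ℤ × ℤ)) (a : ℤ),
        (∀ q ∈ l, q.1 ≠ 0 ∧ q.2 ≠ 0) ∧ h * v ^ c = v ^ b * prodL u v l * u ^ a := by
      rintro c h ⟨b, l, a, hl, rfl⟩
      by_cases hc : c = 0
      · exact ⟨b, l, a, hl, by rw [hc, zpow_zero, mul_one]⟩
      by_cases ha : a = 0
      · rcases List.eq_nil_or_concat l with rfl | ⟨l', q, rfl⟩
        · exact ⟨b + c, [], 0, hl, by rw [ha, prodL_nil]; group⟩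
        · have hq := hl q (by simp)
          have hl' : ∀ q ∈ l', q.1 ≠ 0 ∧ q.2 ≠ 0 := fun q' hq' => hl q' (by simp [hq'])
          by_cases hqc : q.2 + c = 0
          · refine ⟨b, l', q.1, hl', ?_⟩
            rw [ha, List.concat_eq_append, prodL_append, prodL_cons, prodL_nil, zpow_zero, mul_one,
              mul_one, mul_assoc, mul_assoc, mul_assoc, ← zpow_add, hqc, zpow_zero, mul_one,
              mul_assoc]
          · refine ⟨b, l' ++ [(q.1, q.2 + c)], 0, ?_, ?_⟩
            · intro q' hq'
              rw [List.mem_append, List.mem_singleton] at hq'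
              rcases hq' with hq' | rfl
              · exact hl' _ hq'
              · exact ⟨hq.1, hqc⟩
            · rw [ha, List.concat_eq_append, prodL_append, prodL_append, prodL_cons, prodL_cons,
                prodL_nil, zpow_zero, mul_one, mul_one, mul_one, mul_one, zpow_add]
              group
      · refine ⟨b, l ++ [(a, c)], 0, ?_, ?_⟩
        · intro q' hq'
          rw [List.mem_append, List.mem_singleton] at hq'
          rcases hq' with hq' | rfl
          · exact hl _ hq'
          · exact ⟨ha, hc⟩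
        · rw [prodL_append, prodL_cons, prodL_nil, zpow_zero, mul_one, mul_one]
          simp only [mul_assoc]
    intro g hg
    induction hg using Subgroup.closure_induction_right with
    | one => intro h hh; rwa [mul_one]
    | mul_right x hx y hy ih =>
      intro h hh
      rw [← mul_assoc]
      rcases hy with rfl | hy
      · have := hu 1 (h * x) (ih h hh)
        rwa [zpow_one] at this
      · rw [Set.mem_singleton_iff] at hy
        subst hy
        have := hv 1 (h * x) (ih h hh)
        rwa [zpow_one] at this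
    | mul_inv_cancel x hx y hy ih =>
      intro h hh
      rw [← mul_assoc]
      rcases hy with rfl | hy
      · have := hu (-1) (h * x) (ih h hh)
        rwa [zpow_neg, zpow_one] at this
      · rw [Set.mem_singleton_iff] at hy
        subst hy
        have := hv (-1) (h * x) (ih h hh)
        rwa [zpow_neg, zpow_one] at this
  have h1 := key g hg 1 ⟨0, [], 0, by simp, by simp [prodL_nil]⟩
  rwa [one_mul] at h1

end

/-- the homomorphism from the free group is injective -/
theorem lift_injective {G : Type*} [Group G] {u v : G}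
    (hfree : ∀ l : List (ℤ × ℤ), l ≠ [] → (∀ q ∈ l, q.1 ≠ 0 ∧ q.2 ≠ 0) → prodL u v l ≠ 1) :
    Function.Injective (FreeGroup.lift (fun b : Bool => cond b u v)) := by
  rw [injective_iff_map_eq_one]
  intro g hg
  set x : FreeGroup Bool := FreeGroup.of true
  set y : FreeGroup Bool := FreeGroup.of false
  have hx : FreeGroup.lift (fun b : Bool => cond b u v) x = u := by simp [x]
  have hy : FreeGroup.lift (fun b : Bool => cond b u v) y = v := by simp [y]
  have htop : g ∈ Subgroup.closure {x, y} := by
    have h1 : Set.range (FreeGroup.of : Bool → FreeGroup Bool) = {x, y} := by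
      ext z
      simp only [Set.mem_range, Bool.exists_bool, Set.mem_insert_iff, Set.mem_singleton_iff]
      tauto
    rw [← h1, FreeGroup.closure_range_of]
    trivial
  obtain ⟨b, l, a, hl, hgl⟩ := exists_list htop
  have hmap : ∀ l : List (ℤ × ℤ), FreeGroup.lift (fun b : Bool => cond b u v) (prodL x y l) =
      prodL u v l := by
    intro l
    induction l with
    | nil => exact map_one _
    | cons q l ih => rw [prodL_cons, prodL_cons, map_mul, map_mul, map_zpow, map_zpow, ih, hx, hy]
  rw [hgl, map_mul, map_mul, map_zpow, map_zpow, hmap, hx, hy] at hg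
  by_cases ha : a = 0
  · by_cases hb : b = 0
    · rw [ha, hb, zpow_zero, zpow_zero, one_mul, mul_one] at hg
      have h1 : l = [] := by
        by_contra h
        exact hfree l h hl hg
      rw [hgl, ha, hb, h1, prodL_nil, zpow_zero, zpow_zero, one_mul, mul_one]
    · exfalso
      rw [ha, zpow_zero, mul_one] at hg
      refine hfree ((1, b) :: (l ++ (-1, b) :: l)) (by simp) ?_ ?_
      · intro q hq
        rw [List.mem_cons, List.mem_append, List.mem_cons] at hq
        rcases hq with rfl | hq | rfl | hq
        · exact ⟨one_ne_zero, hb⟩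
        · exact hl q hq
        · exact ⟨by norm_num, hb⟩
        · exact hl q hq
      · rw [prodL_cons, prodL_append, prodL_cons]
        have h1 : u ^ (1 : ℤ) * v ^ b * (prodL u v l * (u ^ (-1 : ℤ) * v ^ b * prodL u v l)) =
            u * (v ^ b * prodL u v l) * u⁻¹ * (v ^ b * prodL u v l) := by
          rw [zpow_neg, zpow_one]
          simp only [mul_assoc]
        rw [h1, hg]
        group
  · exfalso
    by_cases hb : b = 0
    · rw [hb, zpow_zero, one_mul] at hg
      refine hfree (l ++ (a, 1) :: (l ++ [(a, -1)])) (by simp) ?_ ?_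
      · intro q hq
        rw [List.mem_append, List.mem_cons, List.mem_append, List.mem_singleton] at hq
        rcases hq with hq | rfl | hq | rfl
        · exact hl q hq
        · exact ⟨ha, one_ne_zero⟩
        · exact hl q hq
        · exact ⟨ha, by norm_num⟩
      · rw [prodL_append, prodL_cons, prodL_append, prodL_cons, prodL_nil]
        have h1 : prodL u v l * (u ^ a * v ^ (1 : ℤ) * (prodL u v l *
            (u ^ a * v ^ (-1 : ℤ) * 1))) =
            (prodL u v l * u ^ a) * v * (prodL u v l * u ^ a) * v⁻¹ := by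
          rw [zpow_neg, zpow_one]
          simp only [mul_assoc, mul_one]
        rw [h1, hg]
        group
    · refine hfree (l ++ [(a, b)]) (by simp) ?_ ?_
      · intro q hq
        rw [List.mem_append, List.mem_singleton] at hq
        rcases hq with hq | rfl
        · exact hl q hq
        · exact ⟨ha, hb⟩
      · rw [prodL_append, prodL_cons, prodL_nil, mul_one, ← mul_assoc]
        have h1 : prodL u v l * u ^ a = (v ^ b)⁻¹ := by
          rw [mul_assoc] at hg
          exact eq_inv_of_mul_eq_one_right hg
        rw [h1, inv_mul_cancel]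

/-- a commutative free group is cyclic -/
theorem cyclic_of_comm_free {K : Type*} [Group K] [IsFreeGroup K] (hc : ∀ a b : K, a * b = b * a) :
    ∃ g : K, ∀ k : K, k ∈ Subgroup.zpowers g := by
  classical
  let e := IsFreeGroup.toFreeGroup K
  set X := IsFreeGroup.Generators K
  have hX : Subsingleton X := by
    refine ⟨fun a b => ?_⟩
    by_contra hab
    let f : FreeGroup X →* Equiv.Perm (Fin 3) := FreeGroup.lift fun x =>
      if x = a then Equiv.swap 0 1 else Equiv.swap 1 2
    have h1 : FreeGroup.of a * FreeGroup.of b = FreeGroup.of b * FreeGroup.of a := by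
      have h2 := congrArg e (hc (e.symm (FreeGroup.of a)) (e.symm (FreeGroup.of b)))
      simpa using h2
    have h2 := congrArg f h1
    simp only [f, map_mul, FreeGroup.lift_apply_of, if_true, if_neg (Ne.symm hab)] at h2
    exact absurd h2 (by decide)
  rcases isEmpty_or_nonempty X with hE | ⟨⟨a⟩⟩
  · refine ⟨1, fun k => ?_⟩
    have h1 : e k = 1 := Subsingleton.elim _ _
    have h2 : k = 1 := by
      rw [← e.symm_apply_apply k, h1, map_one]
    rw [h2]
    exact one_mem _
  · refine ⟨e.symm (FreeGroup.of a), fun k => ?_⟩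
    have h1 : e k ∈ Subgroup.closure (Set.range (FreeGroup.of : X → FreeGroup X)) := by
      rw [FreeGroup.closure_range_of]
      trivial
    have h2 : Set.range (FreeGroup.of : X → FreeGroup X) = {FreeGroup.of a} := by
      ext z
      simp only [Set.mem_range, Set.mem_singleton_iff]
      constructor
      · rintro ⟨b, rfl⟩
        rw [Subsingleton.elim b a]
      · rintro rfl
        exact ⟨a, rfl⟩
    rw [h2, ← Subgroup.zpowers_eq_closure, Subgroup.mem_zpowers_iff] at h1
    obtain ⟨n, hn⟩ := h1
    rw [Subgroup.mem_zpowers_iff]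
    refine ⟨n, ?_⟩
    rw [← map_zpow, hn, e.symm_apply_apply]

/-- **The reduction of S00967.** -/
theorem main_of_free (R : Type) [NonUnitalRing R]
    (hnil : ∀ x : R, IsNilpotent (Unitization.inr x : Unitization ℤ R)) (x y : R)
    (u v : (Unitization ℤ R)ˣ) (hu : (u : Unitization ℤ R) = 1 + Unitization.inr x)
    (hv : (v : Unitization ℤ R) = 1 + Unitization.inr y)
    (hfree : ∀ l : List (ℤ × ℤ), l ≠ [] → (∀ q ∈ l, q.1 ≠ 0 ∧ q.2 ≠ 0) → prodL u v l ≠ 1) :
    ∃ (R : Type) (_ : NonUnitalRing R),
      (∀ x : R, IsNilpotent (Unitization.inr x : Unitization ℤ R)) ∧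
      ∃ G : Subgroup (Unitization ℤ R)ˣ,
        (∀ g ∈ G, ∃ x : R, (g : Unitization ℤ R) = 1 + Unitization.inr x) ∧
        Group.FG G ∧ ¬ Group.IsNilpotent G ∧
        ∀ H : Subgroup (Unitization ℤ R)ˣ, H ≤ G →
          (∀ a ∈ H, ∀ b ∈ H, a * b = b * a) →
          ∃ r : ℕ, ∀ K : Subgroup (Unitization ℤ R)ˣ, K ≤ H → K.FG →
            ∃ s : Finset (Unitization ℤ R)ˣ, s.card ≤ r ∧
              Subgroup.closure (s : Set (Unitization ℤ R)ˣ) = K := by
  classical
  set φ : FreeGroup Bool →* (Unitization ℤ R)ˣ := FreeGroup.lift (fun b : Bool => cond b u v)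
    with hφ
  have hinj : Function.Injective φ := lift_injective hfree
  have hG : φ.range = Subgroup.closure {u, v} := by
    rw [hφ, FreeGroup.range_lift_eq_closure]
    congr 1
    ext z
    simp only [Set.mem_range, Bool.exists_bool, cond_true, cond_false, Set.mem_insert_iff,
      Set.mem_singleton_iff]
    tauto
  refine ⟨R, inferInstance, hnil, φ.range, ?_, ?_, ?_, ?_⟩
  · intro g hg
    rw [hG] at hg
    have h1 : ∀ z : Unitization ℤ R, z.fst = 1 → ∃ x : R, z = 1 + Unitization.inr x := by
      intro z hz
      refine ⟨z.snd, ?_⟩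
      apply Unitization.ext
      · simp [hz]
      · simp
    apply h1
    let ψ : Unitization ℤ R →* ℤ :=
      { toFun := fun z => z.fst
        map_one' := Unitization.fst_one
        map_mul' := Unitization.fst_mul }
    have h2 : g ∈ (Units.map ψ).ker := by
      refine (Subgroup.closure_le _).2 ?_ hg
      intro z hz
      rw [SetLike.mem_coe, MonoidHom.mem_ker]
      apply Units.ext
      show (z : Unitization ℤ R).fst = 1
      rcases hz with rfl | hz
      · rw [hu]
        simp
      · rw [Set.mem_singleton_iff] at hz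
        rw [hz, hv]
        simp
    rw [MonoidHom.mem_ker] at h2
    exact congrArg Units.val h2
  · rw [hG]
    exact (Group.fg_iff_subgroup_fg _).2 ⟨{u, v}, by simp⟩
  · intro hnilp
    -- the group maps onto the symmetric group of degree 5
    have hsolv : Group.IsSolvable φ.range := IsNilpotent.to_isSolvable
    let e : FreeGroup Bool ≃* φ.range := MonoidHom.ofInjective hinj
    have hs2 : Group.IsSolvable (FreeGroup Bool) :=
      Group.isSolvable_of_surjective (f := e.symm.toMonoidHom) e.symm.surjective
    let σ : Equiv.Perm (Fin 5) := finRotate 5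
    let τ : Equiv.Perm (Fin 5) := Equiv.swap 0 1
    let f : FreeGroup Bool →* Equiv.Perm (Fin 5) := FreeGroup.lift (fun b : Bool => cond b σ τ)
    have hf : Function.Surjective f := by
      rw [← MonoidHom.range_eq_top, FreeGroup.range_lift_eq_closure]
      have h1 : Set.range (fun b : Bool => cond b σ τ) = {σ, τ} := by
        ext z
        simp only [Set.mem_range, Bool.exists_bool, cond_true, cond_false, Set.mem_insert_iff,
          Set.mem_singleton_iff]
        tauto
      rw [h1]
      exact Equiv.Perm.closure_prime_cycle_swap (by norm_num) (isCycle_finRotate)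
        support_finRotate (Equiv.Perm.swap_isSwap_iff.2 (by decide))
    exact Equiv.Perm.not_isSolvable_fin_5 (Group.isSolvable_of_surjective hf)
  · intro H hH hHc
    refine ⟨1, fun K hK _ => ?_⟩
    have hKc : ∀ a b : (K.comap φ), a * b = b * a := by
      intro a b
      apply Subtype.ext
      apply hinj
      rw [Subgroup.coe_mul, Subgroup.coe_mul, map_mul, map_mul]
      exact hHc _ (hK a.2) _ (hK b.2)
    obtain ⟨g, hg⟩ := cyclic_of_comm_free hKc
    refine ⟨{φ g}, by simp, ?_⟩
    rw [Finset.coe_singleton, ← Subgroup.zpowers_eq_closure]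
    apply le_antisymm
    · rw [Subgroup.zpowers_le]
      exact g.2
    · intro k hk
      obtain ⟨z, rfl⟩ := hH (hK hk)
      have h1 := hg ⟨z, hk⟩
      rw [Subgroup.mem_zpowers_iff] at h1 ⊢
      obtain ⟨m, hm⟩ := h1
      refine ⟨m, ?_⟩
      rw [← map_zpow]
      have h2 := congrArg Subtype.val hm
      have h3 : ((g ^ m : K.comap φ) : FreeGroup Bool) = z := h2
      rw [← h3]
      rfl

end Pool.Agent.Lib.MP_24a659_al
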