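import Mathlib
import Pool.Agent.Lib.MP_24a659_al.Red

/-!
# The reduction of S00967, inside of a ring with one
-/

namespace Pool.Agent.Lib.MP_24a659_al

/-- the homomorphism from the unitization of a subring without one -/
def unitHom {A : Type} [Ring A] (R : NonUnitalSubring A) : Unitization ℤ R →+* A where
  toFun z := (z.fst : A) + (z.snd : A)
  map_one' := by simp
  map_mul' a b := by
    have h1 : ∀ (m : ℤ) (r : R), ((m • r : R) : A) = (m : A) * (r : A) := fun m r => by
      rw [← zsmul_eq_mul]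
      rfl
    have h2 : ∀ (m : ℤ) (r : A), r * (m : A) = (m : A) * r := fun m r => (Int.cast_commute m r).symm
    have h3 : (((a * b).snd : R) : A) = ((a.fst • b.snd : R) : A) + ((b.fst • a.snd : R) : A) +
        (a.snd : A) * (b.snd : A) := by
      rw [Unitization.snd_mul]
      rfl
    rw [h3, h1, h1, Unitization.fst_mul, Int.cast_mul, add_mul, mul_add, mul_add,
      h2 b.fst (a.snd : A)]
    abel
  map_zero' := by simp
  map_add' a b := by
    have h3 : (((a + b).snd : R) : A) = (a.snd : A) + (b.snd : A) := by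
      rw [Unitization.snd_add]
      rfl
    rw [h3, Unitization.fst_add, Int.cast_add]
    abel

theorem unitHom_inr {A : Type} [Ring A] (R : NonUnitalSubring A) (r : R) :
    unitHom R (Unitization.inr r) = (r : A) := by
  show (((Unitization.inr r : Unitization ℤ R).fst : ℤ) : A) + _ = _
  simp

theorem isNilpotent_inr {A : Type} [Ring A] (R : NonUnitalSubring A) {r : R}
    (hr : IsNilpotent (r : A)) : IsNilpotent (Unitization.inr r : Unitization ℤ R) := by
  obtain ⟨n, hn⟩ := hr
  have key : ∀ n : ℕ, ∃ s : R, (Unitization.inr r : Unitization ℤ R) ^ (n + 1) =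
      Unitization.inr s ∧ (s : A) = (r : A) ^ (n + 1) := by
    intro n
    induction n with
    | zero => exact ⟨r, by rw [zero_add, pow_one], by rw [zero_add, pow_one]⟩
    | succ n ih =>
      obtain ⟨s, h1, h2⟩ := ih
      refine ⟨s * r, ?_, ?_⟩
      · rw [pow_succ, h1, ← Unitization.inr_mul]
      · rw [pow_succ, ← h2]
        rfl
  obtain ⟨s, h1, h2⟩ := key n
  refine ⟨n + 1, ?_⟩
  have h3 : s = 0 := by
    apply Subtype.ext
    rw [h2, pow_succ, hn, zero_mul]
    rfl
  rw [h1, h3, Unitization.inr_zero]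

/-- **The reduction of S00967**: it is enough to have a ring `A` with one and a subring `R` of
nilpotent elements such that `1 + x` and `1 + y` (`x`, `y` in `R`) generate a free group. -/
theorem main_of_ring (A : Type) [Ring A] (R : NonUnitalSubring A)
    (hnil : ∀ r ∈ R, IsNilpotent r) (u v : Aˣ) (hu : (u : A) - 1 ∈ R) (hv : (v : A) - 1 ∈ R)
    (hfree : ∀ l : List (ℤ × ℤ), l ≠ [] → (∀ q ∈ l, q.1 ≠ 0 ∧ q.2 ≠ 0) → prodL u v l ≠ 1) :
    ∃ (R : Type) (_ : NonUnitalRing R),
      (∀ x : R, IsNilpotent (Unitization.inr x : Unitization ℤ R)) ∧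
      ∃ G : Subgroup (Unitization ℤ R)ˣ,
        (∀ g ∈ G, ∃ x : R, (g : Unitization ℤ R) = 1 + Unitization.inr x) ∧
        Group.FG G ∧ ¬ Group.IsNilpotent G ∧
        ∀ H : Subgroup (Unitization ℤ R)ˣ, H ≤ G →
          (∀ a ∈ H, ∀ b ∈ H, a * b = b * a) →
          ∃ r : ℕ, ∀ K : Subgroup (Unitization ℤ R)ˣ, K ≤ H → K.FG →
            ∃ s : Finset (Unitization ℤ R)ˣ, s.card ≤ r ∧
              Subgroup.closure (s : Set (Unitization ℤ R)ˣ) = K := by
  have hN : ∀ x : R, IsNilpotent (Unitization.inr x : Unitization ℤ R) := fun x =>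
    isNilpotent_inr R (hnil _ x.2)
  obtain ⟨u', hu'⟩ := IsNilpotent.isUnit_one_add (R := Unitization ℤ R) (hN ⟨_, hu⟩)
  obtain ⟨v', hv'⟩ := IsNilpotent.isUnit_one_add (R := Unitization ℤ R) (hN ⟨_, hv⟩)
  refine main_of_free R hN ⟨_, hu⟩ ⟨_, hv⟩ u' v' hu' hv' fun l hl hq h => hfree l hl hq ?_
  have h1 : Units.map (unitHom R : Unitization ℤ R →* A) u' = u := by
    apply Units.ext
    show unitHom R (u' : Unitization ℤ R) = u
    rw [hu', map_add, map_one, unitHom_inr]
    simp
  have h2 : Units.map (unitHom R : Unitization ℤ R →* A) v' = v := by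
    apply Units.ext
    show unitHom R (v' : Unitization ℤ R) = v
    rw [hv', map_add, map_one, unitHom_inr]
    simp
  have h3 : ∀ l : List (ℤ × ℤ), Units.map (unitHom R : Unitization ℤ R →* A) (prodL u' v' l) =
      prodL u v l := by
    intro l
    induction l with
    | nil => exact map_one _
    | cons q l ih => rw [prodL_cons, prodL_cons, map_mul, map_mul, map_zpow, map_zpow, ih, h1, h2]
  rw [← h3, h, map_one]

end Pool.Agent.Lib.MP_24a659_al
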