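import Pool.Agent.Lib.MP_24a659_al.N3
import Pool.Agent.Lib.MP_24a659_al.B4M
import Pool.Agent.Lib.MP_24a659_al.G1
import Pool.Agent.Lib.MP_24a659_al.Abs

section

/-! MP_24a659_al, job N2: the relations on a `W+`-null word. -/

set_option autoImplicit false

namespace NF

theorem N2_update {m : ℕ} {S : Submodule ℚ F} {v : Fin m → F} (hv : ∀ k, v k ∈ S) {z : F}
    (hz : z ∈ S) (j k : Fin m) : Function.update v j z k ∈ S := by
  by_cases h : k = j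
  · rw [h, Function.update_self]
    exact hz
  · rw [Function.update_of_ne h]
    exact hv k

theorem N2_mem_Zn {Cb Db V : Submodule ℚ F} {m L : ℕ} {R : Set ((Fin m → F) → F)}
    {s : Sq} {n : ℕ} (hnull : ¬ Fits (Wp Cb Db V R L) s 1 0 n) {x : F} (hx : x ∈ P1)
    (hw : x ∈ Wp Cb Db V R L) : x ∈ Zn s n := by
  refine ⟨hx, fun p q hq => ?_⟩
  by_contra h
  exact hnull (Fits_one.2 ⟨p, q, Nat.zero_le p, ⟨x, hw, h⟩, hq⟩)

theorem rel_word {Cb Db U V : Submodule ℚ F} {m l L : ℕ} {R : Set ((Fin m → F) → F)}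
    (hb : Base Cb Db) (hR : Rk m l Cb Db U V R) {s : Sq} {n : ℕ}
    (hnull : ¬ Fits (Wp Cb Db V R L) s 1 0 n) :
    ∀ f ∈ R, RelP Cb Db V (Zn s n) Fk L f ∧ RelQ Cb Db V (Zn s n) Fk L f := by
  intro f hf
  have hDP : Db ≤ P1 := hb.D_le.trans hb.C_le
  have hVP : V ≤ P1 := hR.V_le.trans hDP
  constructor
  · intro J hJ c hc v hv Y hY z hz c' hc' J' hJ'
    refine N2_mem_Zn hnull ?_ ?_
    · refine mul_mem_P1 (mul_mem_P1 (mul_mem_P1 (hVP hJ) (hb.C_le hc.1)) ?_)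
        (mul_mem_P1 (hb.C_le hc'.1) (hVP hJ'))
      unfold brR
      refine P1.sub_mem (mul_mem_P1 (mul_mem_P1 (hDP (hR.val f hf L v hv).1) (hb.C_le hY.1))
        (hDP hz.1)) (P1.sum_mem fun k _ => ?_)
      refine mul_mem_P1 (mul_mem_P1 (hDP (hR.val f hf L _ (fun j => ?_)).1) (hb.C_le hY.1))
        (hDP (hv k).1)
      exact N2_update hv hz k j
    · exact Submodule.subset_span ⟨J, hJ, J', hJ', f, hf, c, hc, c', hc', Y, hY, z, hz, v, hv,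
        Or.inl rfl⟩
  · intro J hJ c hc v hv Y hY z hz c' hc' J' hJ'
    refine N2_mem_Zn hnull ?_ ?_
    · refine mul_mem_P1 (mul_mem_P1 (mul_mem_P1 (hVP hJ) (hb.C_le hc.1)) ?_)
        (mul_mem_P1 (hb.C_le hc'.1) (hVP hJ'))
      unfold brL
      refine P1.sub_mem (mul_mem_P1 (mul_mem_P1 (hDP hz.1) (hb.C_le hY.1))
        (hDP (hR.val f hf L v hv).1)) (P1.sum_mem fun k _ => ?_)
      refine mul_mem_P1 (mul_mem_P1 (hDP (hv k).1) (hb.C_le hY.1))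
        (hDP (hR.val f hf L _ (fun j => ?_)).1)
      exact N2_update hv hz k j
    · exact Submodule.subset_span ⟨J, hJ, J', hJ', f, hf, c, hc, c', hc', Y, hY, z, hz, v, hv,
        Or.inr rfl⟩

end NF
end

section

/-! MP_24a659_al, job M1: the MOVE (Section 4). -/

set_option autoImplicit false

namespace NF

theorem move {C U V : Submodule ℚ F} (pk : Pkg C U V) {l k B : ℕ} (hl : V ≤ Fk l)
    (hB : Repl (thinE V 0) C (max l k) B) {s : Sq} (hs : nz s) {ψ : ℕ → ℚ}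
    (hψ : ψ ∈ Lft s U) (hψ' : ψ ∈ LK s V k) {c q : ℕ} (hc : IsMn ψ c) (hq : Fits V s 1 c q)
    (hq' : ∀ q', q' < q → ¬ Fits V s 1 c q') :
    ∃ X ∈ C ⊓ Fk B, ∃ J ∈ V, IsMn (act s (X * J) ψ) q := by
  classical
  obtain ⟨p1, q1, h1, h2, h3⟩ := Fits_one.1 hq
  have hq1 : q1 = q := by
    by_contra hne
    exact hq' q1 (by omega) (Fits_one.2 ⟨p1, q1, h1, h2, le_rfl⟩)
  subst hq1
  have hp1q : p1 < q1 := vis_lt pk.V_eps h2
  -- the last position from which `V` is visible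
  set p' : ℕ := Nat.findGreatest (fun p => Vis V s p q1) q1 with hp'
  have hvis' : Vis V s p' q1 := Nat.findGreatest_spec (P := fun p => Vis V s p q1) hp1q.le h2
  have hp1p' : p1 ≤ p' := Nat.le_findGreatest hp1q.le h2
  have hmax : ∀ r, p' < r → r ≤ q1 → ¬ Vis V s r q1 := fun r hr hr' =>
    Nat.findGreatest_is_greatest (P := fun p => Vis V s p q1) hr hr'
  have hp'q : p' < q1 := vis_lt pk.V_eps hvis'
  obtain ⟨J, hJ, hJ0⟩ := hvis'
  have hJP : J ∈ P1 := pk.V_le hJ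
  set ρ : ℕ → ℚ := coact s q1 J (dl q1) with hρdef
  have hρ : ∀ p, ρ p = ent s p q1 J := fun p => coact_dl s le_rfl p J
  have hρR : ρ ∈ Rgt s q1 U := coact_mem_Rgt pk.U_le (pk.V_UP hJ) (dl q1)
  have hρmx : IsMx q1 ρ p' := by
    refine ⟨hp'q.le, ?_, ?_⟩
    · rw [hρ]; exact hJ0
    · intro r hr hr'
      rw [hρ]
      by_contra hne
      exact hmax r hr hr' ⟨J, hJ, hne⟩
  obtain ⟨X, hX, hX0⟩ := pk.A s q1 hs ψ hψ ρ hρR c p' hc hρmx (by omega)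
  -- representations
  have hnf : ¬ Fits V s 1 c (q1 - 1) := hq' _ (by omega)
  obtain ⟨Θ, hΘ, hΘ'⟩ := LK_rep (s := s) (T := V) (l := l) (k := k) (c := c) (Q := q1 - 1)
    (le_inf pk.V_le hl) (by
      intro J' hJ' p0 p h h'
      by_contra hne
      exact hnf (Fits_one.2 ⟨p0, p, by omega, ⟨J', hJ', hne⟩, h'⟩)) hψ' hc
  set Λ : F := rcon (W s (q1 - 1) q1 - W s (q1 - 1) (q1 - 1)) J with hΛ
  have hΛS : Λ ∈ SX := rcon_mem_SX (P1_le_SX hJP) _
  have hΛF : Λ ∈ Fk (max l k) := rcon_mem_Fk (Fk_mono (le_max_left l k) (hl hJ)) _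
  have hrep : ∀ X' ∈ C, bil q1 (act s X' ψ) ρ = pair (W s c (q1 - 1)) (Θ * X' * Λ) := by
    intro X' hX'
    refine bil_rep s (by omega) (by omega) (pk.C_le hX') hΘ.1 hΛS hc.2 ?_ hΘ' ?_
    · intro r hr hr'
      have : r = q1 := by omega
      rw [this, hρ, ent_self]
      exact pk.V_eps J hJ
    · intro r hr hr'
      rw [hρ, hΛ]
      exact ent_rcut s hr' (by omega) J
  obtain ⟨X', hX', hrel⟩ := Repl_one hB (mem_thinE hs (show c ≤ q1 - 1 by omega) hnf) hX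
  have hne : bil q1 (act s X' ψ) ρ ≠ 0 := by
    rw [hrep X' hX'.1, hrel Θ hΘ.2 Λ hΛF, ← hrep X hX]
    exact hX0
  refine ⟨X', hX', J, hJ, ?_, ?_⟩
  · have e : act s (X' * J) ψ q1 = bil q1 (act s X' ψ) ρ := by
      rw [act_mul s (P1_le_EY (pk.C_le hX'.1)) (P1_le_SX hJP)]
      unfold bil
      rw [B5_act]
      refine Finset.sum_congr rfl fun p _ => ?_
      rw [hρ]
    rw [e]
    exact hne
  · intro q' hlt
    by_contra hne'
    rw [act_mul s (P1_le_EY (pk.C_le hX'.1)) (P1_le_SX hJP)] at hne'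
    obtain ⟨p, hp, h4, h5⟩ := act_ne_zero s J _ q' hne'
    obtain ⟨p0, hp0, h6, -⟩ := act_ne_zero s X' ψ p h4
    have h7 := mn_le hc h6
    exact hq' q' hlt (Fits_one.2 ⟨p, q', by omega, ⟨J, hJ, h5⟩, le_rfl⟩)

end NF
end

section

/-! MP_24a659_al, job M2: the DUAL MOVE (Section 4). -/

set_option autoImplicit false

namespace NF

/-- a visible killer which ends before `q` fits -/
theorem M2_fits {V : Submodule ℚ F} {s : Sq} {p r q : ℕ} {J : F} (hJ : J ∈ V)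
    (h : ent s p r J ≠ 0) (hr : r ≤ q) : Fits V s 1 p q :=
  Fits_one.2 ⟨p, r, le_refl p, ⟨J, hJ, h⟩, hr⟩

/-- the row `δ_p J` as a row of entries from `p + 1` -/
theorem M2_row (s : Sq) {p q : ℕ} {J : F} (hJ : eps J = 0) (h : p + 1 ≤ q) :
    ent s p q J = ent s (p + 1) q (lcon (W s p (p + 1)) J) := by
  rcases Nat.lt_or_ge (p + 1) q with h1 | h1
  · exact ent_lcut s (Nat.le_succ p) h1 J
  · have h2 : q = p + 1 := le_antisymm h1 h
    subst h2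
    rw [ent_self, eps_lcon, ent_step, hJ, sub_zero, W_one]

theorem dmove {C U V : Submodule ℚ F} (pk : Pkg C U V) {l k B : ℕ} (hl : V ≤ Fk l)
    (hB : Repl (thinE V 0) C (max l k) B) {s : Sq} (hs : nz s) {n : ℕ} {ρ : ℕ → ℚ}
    (hρ : ρ ∈ Rgt s n U) (hρ' : ρ ∈ RK s n V k) {c' p : ℕ} (hc : IsMx n ρ c')
    (hp : Fits V s 1 p c') (hp' : ∀ p', p < p' → ¬ Fits V s 1 p' c') :
    ∃ J ∈ V, ∃ X ∈ C ⊓ Fk B, IsMx n (coact s n (J * X) ρ) p := by
  classical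
  -- a killer is visible from `p`
  obtain ⟨p1, q1, hp1, hv, hq1⟩ := Fits_one.1 hp
  have hpp : p1 = p := by
    rcases Nat.lt_or_ge p p1 with h | h
    · exact absurd (Fits_one.2 ⟨p1, q1, le_refl p1, hv, hq1⟩) (hp' p1 h)
    · exact le_antisymm h hp1
  subst hpp
  -- the first end
  have hex : ∃ q, Vis V s p1 q := ⟨q1, hv⟩
  obtain ⟨q', hq', hmin⟩ : ∃ q', Vis V s p1 q' ∧ ∀ q, q < q' → ¬ Vis V s p1 q :=
    ⟨Nat.find hex, Nat.find_spec hex, fun q hq => Nat.find_min hex hq⟩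
  have hq'1 : q' ≤ q1 := by
    by_contra h
    exact hmin q1 (not_le.1 h) hv
  have hlt : p1 < q' := vis_lt pk.V_eps hq'
  obtain ⟨J, hJ, hJne⟩ := hq'
  have hJP : J ∈ P1 := pk.V_le hJ
  have hcn : c' ≤ n := hc.1
  -- the row `δ_p J`
  have hψe : ∀ q, act s J (dl p1) q = ent s p1 q J := fun q => act_dl s p1 q J
  have hmn : IsMn (act s J (dl p1)) q' := by
    refine ⟨by rw [hψe]; exact hJne, fun q hq => ?_⟩
    rw [hψe]
    by_contra h
    exact hmin q hq ⟨J, hJ, h⟩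
  have hψL : act s J (dl p1) ∈ Lft s U := act_mem_Lft pk.U_le (pk.V_PU hJ) (dl p1)
  obtain ⟨X, hX, hXne⟩ := pk.A s n hs _ hψL ρ hρ q' c' hmn hc (le_trans hq'1 hq1)
  have hpc : p1 + 1 ≤ c' := le_trans hlt (le_trans hq'1 hq1)
  -- the representations
  have hVT : V ≤ P1 ⊓ Fk l := le_inf pk.V_le hl
  obtain ⟨Λ, hΛ, hΛe⟩ := RK_rep (P := p1 + 1) (c' := c') hVT
    (fun T hT p2 q2 h1 h2 => by
      by_contra h
      exact hp' p2 h1 (M2_fits hT h h2)) hcn hρ'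
  have hΘE : lcon (W s p1 (p1 + 1)) J ∈ EY := lcon_mem_EY (P1_le_EY hJP) _
  have hΘF : lcon (W s p1 (p1 + 1)) J ∈ Fk (max l k) :=
    Fk_mono (le_max_left l k) (lcon_mem_Fk (hl hJ) _)
  have hrep : ∀ Z ∈ C, bil n (act s Z (act s J (dl p1))) ρ =
      pair (W s (p1 + 1) c') (lcon (W s p1 (p1 + 1)) J * Z * Λ) := by
    intro Z hZ
    refine bil_rep s hpc hcn (pk.C_le hZ) hΘE hΛ.1 ?_ ?_ ?_ ?_
    · intro p2 hp2
      exact hmn.2 p2 (lt_of_lt_of_le hp2 hlt)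
    · intro q h1 h2
      exact hc.2.2 q h1 h2
    · intro q h1 _
      rw [hψe]
      exact M2_row s (pk.V_eps J hJ) h1
    · intro q h1 h2
      exact hΛe q h1 h2
  -- the short element
  obtain ⟨X', hX', hX'e⟩ := Repl_one hB
    (mem_thinE hs hpc (hp' (p1 + 1) (Nat.lt_succ_self p1))) hX
  have hX'C : X' ∈ C := hX'.1
  have hX'P : X' ∈ P1 := pk.C_le hX'C
  have hne : bil n (act s X' (act s J (dl p1))) ρ ≠ 0 := by
    rw [hrep X' hX'C, hX'e _ hΘF _ hΛ.2, ← hrep X hX]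
    exact hXne
  refine ⟨J, hJ, X', hX', le_trans (le_trans (Nat.le_succ p1) hpc) hcn, ?_, ?_⟩
  · rw [← act_mul s (P1_le_EY hJP) (P1_le_SX hX'P), bil_act,
      bil_dl n p1 (le_trans (le_trans (Nat.le_succ p1) hpc) hcn)] at hne
    exact hne
  · intro q h1 h2
    by_contra h
    rw [coact_mul s n (P1_le_EY hJP) (P1_le_SX hX'P)] at h
    obtain ⟨r, _, hrn, hr, hr'⟩ := coact_ne_zero s n J _ q h
    obtain ⟨r', hrr', hr'n, _, hr'ρ⟩ := coact_ne_zero s n X' ρ r hr'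
    exact hp' q h1 (M2_fits hJ hr (le_trans hrr' (le_mx hc hr'n hr'ρ)))

end NF
end

section

/-! MP_24a659_al, job M4: chains of moves. -/

set_option autoImplicit false

namespace NF

theorem M4_PPU {U : Submodule ℚ F} {X J : F} (hX : X ∈ P1) (hJ : J ∈ P1 * U) :
    X * J ∈ P1 * U := by
  induction hJ using Submodule.mul_induction_on' with
  | mem_mul_mem a ha u hu =>
    rw [← mul_assoc]
    exact Submodule.mul_mem_mul (mul_mem_P1 hX ha) hu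
  | add x _ y _ hx hy =>
    rw [mul_add]
    exact Submodule.add_mem _ hx hy

theorem M4_UPP {U : Submodule ℚ F} {X J : F} (hX : X ∈ P1) (hJ : J ∈ U * P1) :
    J * X ∈ U * P1 := by
  induction hJ using Submodule.mul_induction_on' with
  | mem_mul_mem a ha u hu =>
    rw [mul_assoc]
    exact Submodule.mul_mem_mul ha (mul_mem_P1 hu hX)
  | add x _ y _ hx hy =>
    rw [add_mul]
    exact Submodule.add_mem _ hx hy

theorem M4_zero {s : Sq} {n : ℕ} {U : Submodule ℚ F} {ρ : ℕ → ℚ} (hρ : ρ ∈ Rgt s n U) :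
    ∀ p, n < p → ρ p = 0 := by
  intro p hp
  unfold Rgt at hρ
  induction hρ using Submodule.span_induction with
  | mem x hx =>
    rcases hx with ⟨u, _, ρ0, rfl⟩ | rfl
    · rw [B5_coact, Finset.Icc_eq_empty (by omega), Finset.sum_empty]
    · exact if_neg (by omega)
  | zero => rfl
  | add x y _ _ hx hy => rw [Pi.add_apply, hx, hy, add_zero]
  | smul r x _ hx => rw [Pi.smul_apply, hx, smul_zero]

theorem M4_coact_one {s : Sq} {n : ℕ} {U : Submodule ℚ F} {ρ : ℕ → ℚ} (hρ : ρ ∈ Rgt s n U) :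
    coact s n 1 ρ = ρ := by
  funext p
  rcases Nat.lt_or_ge n p with h | h
  · rw [B5_coact, Finset.Icc_eq_empty (by omega), Finset.sum_empty, M4_zero hρ p h]
  · exact coact_one s n ρ p h

theorem M4_l {C U V : Submodule ℚ F} (pk : Pkg C U V) {l k b : ℕ} (hl : V ≤ Fk l)
    (hb : Repl (thinE V 0) C (max l k) b) {s : Sq} (hs : nz s) {ψ : ℕ → ℚ}
    (hψ : ψ ∈ Lft s U) (hψ' : ψ ∈ LK s V k) {a : ℕ} (ha : IsMn ψ a) {N q0 : ℕ}
    (hN : Fits V s N a q0) :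
    ∃ (L : ℕ → F) (ap : ℕ → ℕ), L 0 = 1 ∧ ap 0 = a ∧
      (∀ i, i < N → ∃ X ∈ C ⊓ Fk b, ∃ J ∈ V, L (i + 1) = L i * (X * J)) ∧
      (∀ i, i ≤ N → L i ∈ P1 ∧ act s (L i) ψ ∈ Lft s U ∧ act s (L i) ψ ∈ LK s V k ∧
        IsMn (act s (L i) ψ) (ap i) ∧ ∀ q, Fits V s i a q ↔ ap i ≤ q) := by
  classical
  induction N generalizing q0 with
  | zero =>
    refine ⟨fun _ => 1, fun _ => a, rfl, rfl, fun i hi => absurd hi (Nat.not_lt_zero i), ?_⟩
    intro i hi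
    have hi0 : i = 0 := Nat.le_zero.1 hi
    subst hi0
    rw [act_one]
    exact ⟨one_mem_P1, hψ, hψ', ha, fun q => Iff.rfl⟩
  | succ N ih =>
    obtain ⟨r, h1, h2⟩ := Fits_split (k := N) (l := 1) hN
    obtain ⟨L, ap, hL0, hap0, hL, hI⟩ := ih h1
    obtain ⟨hP, hLf, hLK, hmn, hfit⟩ := hI N le_rfl
    have h3 : ∃ q, Fits V s 1 (ap N) q := ⟨q0, Fits_mono h2 ((hfit r).1 h1) le_rfl⟩
    obtain ⟨X, hX, J, hJ, hXJ⟩ := move pk hl hb hs hLf hLK hmn (Nat.find_spec h3)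
      (fun q' hq' => Nat.find_min h3 hq')
    have hXJP : X * J ∈ P1 := mul_mem_P1 (pk.C_le hX.1) (pk.V_le hJ)
    have hact : act s (L N * (X * J)) ψ = act s (X * J) (act s (L N) ψ) :=
      act_mul s (P1_le_EY hP) (P1_le_SX hXJP) ψ
    refine ⟨Function.update L (N + 1) (L N * (X * J)),
      Function.update ap (N + 1) (Nat.find h3), ?_, ?_, ?_, ?_⟩
    · rw [Function.update_of_ne (by omega)]
      exact hL0
    · rw [Function.update_of_ne (by omega)]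
      exact hap0
    · intro i hi
      rcases Nat.lt_or_ge i N with hiN | hiN
      · rw [Function.update_of_ne (by omega), Function.update_of_ne (by omega)]
        exact hL i hiN
      · have hiN' : i = N := by omega
        subst hiN'
        rw [Function.update_self, Function.update_of_ne (by omega)]
        exact ⟨X, hX, J, hJ, rfl⟩
    · intro i hi
      rcases Nat.lt_or_ge i (N + 1) with hiN | hiN
      · rw [Function.update_of_ne (by omega), Function.update_of_ne (by omega)]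
        exact hI i (by omega)
      · have hiN' : i = N + 1 := by omega
        subst hiN'
        rw [Function.update_self, Function.update_self, hact]
        refine ⟨mul_mem_P1 hP hXJP, ?_, ?_, hXJ, ?_⟩
        · exact act_mem_Lft pk.U_le (M4_PPU (pk.C_le hX.1) (pk.V_PU hJ)) _
        · exact act_mem_LK pk.V_le k (Submodule.mul_mem_mul (pk.C_le hX.1) hJ) _
        · intro q
          constructor
          · intro hq
            obtain ⟨r', h4, h5⟩ := Fits_split (k := N) (l := 1) hq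
            exact Nat.find_min' h3 (Fits_mono h5 ((hfit r').1 h4) le_rfl)
          · intro hq
            exact Fits_mono (Fits_add ((hfit (ap N)).2 le_rfl) (Nat.find_spec h3)) le_rfl hq

theorem M4_r {C U V : Submodule ℚ F} (pk : Pkg C U V) {l k b : ℕ} (hl : V ≤ Fk l)
    (hb : Repl (thinE V 0) C (max l k) b) {s : Sq} (hs : nz s) {n : ℕ} {ρ : ℕ → ℚ}
    (hρ : ρ ∈ Rgt s n U) (hρ' : ρ ∈ RK s n V k) {a' : ℕ} (ha : IsMx n ρ a') {N p0 : ℕ}
    (hN : Fits V s N p0 a') :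
    ∃ (R : ℕ → F) (bp : ℕ → ℕ), R 0 = 1 ∧ bp 0 = a' ∧
      (∀ i, i < N → ∃ X ∈ C ⊓ Fk b, ∃ J ∈ V, R (i + 1) = J * X * R i) ∧
      (∀ i, i ≤ N → R i ∈ P1 ∧ coact s n (R i) ρ ∈ Rgt s n U ∧ coact s n (R i) ρ ∈ RK s n V k ∧
        IsMx n (coact s n (R i) ρ) (bp i) ∧ ∀ p, Fits V s i p a' ↔ p ≤ bp i) := by
  classical
  induction N generalizing p0 with
  | zero =>
    refine ⟨fun _ => 1, fun _ => a', rfl, rfl, fun i hi => absurd hi (Nat.not_lt_zero i), ?_⟩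
    intro i hi
    have hi0 : i = 0 := Nat.le_zero.1 hi
    subst hi0
    rw [M4_coact_one hρ]
    exact ⟨one_mem_P1, hρ, hρ', ha, fun q => Iff.rfl⟩
  | succ N ih =>
    obtain ⟨r, h1, h2⟩ := Fits_split (k := 1) (l := N) (by rw [Nat.add_comm]; exact hN)
    obtain ⟨R, bp, hR0, hbp0, hR, hI⟩ := ih h2
    obtain ⟨hP, hRf, hRK, hmx, hfit⟩ := hI N le_rfl
    have h3 : Fits V s 1 p0 (bp N) := Fits_mono h1 le_rfl ((hfit r).1 h2)
    have h3' : p0 ≤ bp N := Fits_le h3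
    set p : ℕ := Nat.findGreatest (fun p => Fits V s 1 p (bp N)) (bp N) with hp
    have hpf : Fits V s 1 p (bp N) :=
      Nat.findGreatest_spec (P := fun p => Fits V s 1 p (bp N)) h3' h3
    have hpm : ∀ p', Fits V s 1 p' (bp N) → p' ≤ p := fun p' hp' =>
      Nat.le_findGreatest (Fits_le hp') hp'
    obtain ⟨J, hJ, X, hX, hXJ⟩ := dmove pk hl hb hs hRf hRK hmx hpf
      (fun p' hp' hf => absurd (hpm p' hf) (by omega))
    have hXJP : J * X ∈ P1 := mul_mem_P1 (pk.V_le hJ) (pk.C_le hX.1)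
    have hact : coact s n (J * X * R N) ρ = coact s n (J * X) (coact s n (R N) ρ) :=
      coact_mul s n (P1_le_EY hXJP) (P1_le_SX hP) ρ
    refine ⟨Function.update R (N + 1) (J * X * R N),
      Function.update bp (N + 1) p, ?_, ?_, ?_, ?_⟩
    · rw [Function.update_of_ne (by omega)]
      exact hR0
    · rw [Function.update_of_ne (by omega)]
      exact hbp0
    · intro i hi
      rcases Nat.lt_or_ge i N with hiN | hiN
      · rw [Function.update_of_ne (by omega), Function.update_of_ne (by omega)]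
        exact hR i hiN
      · have hiN' : i = N := by omega
        subst hiN'
        rw [Function.update_self, Function.update_of_ne (by omega)]
        exact ⟨X, hX, J, hJ, rfl⟩
    · intro i hi
      rcases Nat.lt_or_ge i (N + 1) with hiN | hiN
      · rw [Function.update_of_ne (by omega), Function.update_of_ne (by omega)]
        exact hI i (by omega)
      · have hiN' : i = N + 1 := by omega
        subst hiN'
        rw [Function.update_self, Function.update_self, hact]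
        refine ⟨mul_mem_P1 hXJP hP, ?_, ?_, hXJ, ?_⟩
        · exact coact_mem_Rgt pk.U_le (M4_UPP (pk.C_le hX.1) (pk.V_UP hJ)) _
        · exact coact_mem_RK pk.V_le k (Submodule.mul_mem_mul hJ (pk.C_le hX.1)) _
        · intro q
          constructor
          · intro hq
            obtain ⟨r', h4, h5⟩ := Fits_split (k := 1) (l := N) (by rw [Nat.add_comm]; exact hq)
            exact hpm q (Fits_mono h4 le_rfl ((hfit r').1 h5))
          · intro hq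
            have h6 := Fits_add hpf ((hfit (bp N)).2 le_rfl)
            rw [Nat.add_comm] at h6
            exact Fits_mono h6 hq le_rfl

/-- successive moves; `ap i` is the first position `q` with `Fits i a q` -/
theorem lchain {C U V : Submodule ℚ F} (pk : Pkg C U V) {l k b : ℕ} (hl : V ≤ Fk l)
    (hb : Repl (thinE V 0) C (max l k) b) {s : Sq} (hs : nz s) {ψ : ℕ → ℚ}
    (hψ : ψ ∈ Lft s U) (hψ' : ψ ∈ LK s V k) {a : ℕ} (ha : IsMn ψ a) {N q0 : ℕ}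
    (hN : Fits V s N a q0) :
    ∃ (L : ℕ → F) (ap : ℕ → ℕ), L 0 = 1 ∧ ap 0 = a ∧
      (∀ i, i < N → ∃ X ∈ C ⊓ Fk b, ∃ J ∈ V, L (i + 1) = L i * (X * J)) ∧
      (∀ i, i ≤ N → IsMn (act s (L i) ψ) (ap i)) ∧
      (∀ i, i ≤ N → ∀ q, Fits V s i a q ↔ ap i ≤ q) := by
  obtain ⟨L, ap, h0, h1, h2, h3⟩ := M4_l pk hl hb hs hψ hψ' ha hN
  exact ⟨L, ap, h0, h1, h2, fun i hi => (h3 i hi).2.2.2.1, fun i hi => (h3 i hi).2.2.2.2⟩

/-- successive dual moves; `bp i` is the last position `p` with `Fits i p a'` -/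
theorem rchain {C U V : Submodule ℚ F} (pk : Pkg C U V) {l k b : ℕ} (hl : V ≤ Fk l)
    (hb : Repl (thinE V 0) C (max l k) b) {s : Sq} (hs : nz s) {n : ℕ} {ρ : ℕ → ℚ}
    (hρ : ρ ∈ Rgt s n U) (hρ' : ρ ∈ RK s n V k) {a' : ℕ} (ha : IsMx n ρ a') {N p0 : ℕ}
    (hN : Fits V s N p0 a') :
    ∃ (R : ℕ → F) (bp : ℕ → ℕ), R 0 = 1 ∧ bp 0 = a' ∧
      (∀ i, i < N → ∃ X ∈ C ⊓ Fk b, ∃ J ∈ V, R (i + 1) = J * X * R i) ∧
      (∀ i, i ≤ N → IsMx n (coact s n (R i) ρ) (bp i)) ∧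
      (∀ i, i ≤ N → ∀ p, Fits V s i p a' ↔ p ≤ bp i) := by
  obtain ⟨R, bp, h0, h1, h2, h3⟩ := M4_r pk hl hb hs hρ hρ' ha hN
  exact ⟨R, bp, h0, h1, h2, fun i hi => (h3 i hi).2.2.2.1, fun i hi => (h3 i hi).2.2.2.2⟩

end NF
end

section

/-! MP_24a659_al, job N6: exchange on the word (Section 7). -/

set_option autoImplicit false

namespace NF

theorem N6_Sb_le {C Cb Db V : Submodule ℚ F} {b B : ℕ} (hbB : b ≤ B) (hb : Base Cb Db)
    (hV : V ≤ Db) (hCB : C ⊓ Fk B ≤ Cb) : Sb C V b ≤ Cb * Db := by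
  have h1 : C ⊓ Fk b ≤ Cb := le_trans (inf_le_inf_left _ (Fk_mono hbB)) hCB
  have h2 : (C ⊓ Fk b) * V ≤ Cb * Db := mul_le_mul' h1 hV
  have h3 : (Cb * Db) * (Cb * Db) ≤ Cb * Db := by
    have e1 : (Cb * Db) * (Cb * Db) = Cb * (Db * Cb * Db) := by simp only [mul_assoc]
    rw [e1]
    exact mul_le_mul' le_rfl hb.DCD
  unfold Sb
  rw [pow_succ, pow_two]
  exact le_trans (mul_le_mul' (le_trans (mul_le_mul' h2 h2) h3) h2) h3

theorem N6_Sb_len {C V : Submodule ℚ F} {b l : ℕ} (hV : V ≤ Fk l) :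
    Sb C V b ≤ Fk (3 * (b + l)) := by
  have h2 : (C ⊓ Fk b) * V ≤ Fk (b + l) :=
    le_trans (mul_le_mul' inf_le_right hV) (Fk_mul b l)
  unfold Sb
  rw [pow_succ, pow_two]
  refine le_trans (mul_le_mul' (mul_le_mul' h2 h2) h2) ?_
  refine le_trans (mul_le_mul' (Fk_mul _ _) le_rfl) ?_
  refine le_trans (Fk_mul _ _) (Fk_mono (by omega))

/-- `L0` is given by `exchain`; it depends only on the numbers -/
theorem ns_exch (m l b B : ℕ) (hbB : b ≤ B) : ∃ L0 : ℕ, ∀ (C Cb Db U V : Submodule ℚ F)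
    (R : Set ((Fin m → F) → F)), C ≤ P1 → Base Cb Db → Rk m l Cb Db U V R → C ⊓ Fk B ≤ Cb →
    ∀ (s : Sq) (n : ℕ),
    (∀ f ∈ R, RelP Cb Db V (Zn s n) Fk L0 f ∧ RelQ Cb Db V (Zn s n) Fk L0 f) →
    ∀ (M e r j : ℕ) (x J c : F) (f f' : (Fin m → F) → F) (u : Fin m → F) (Y0 z t μ T : F)
      (g : (Fin m → F) → F) (u' : Fin m → F) (c' J' x' : F),
    NSd C V Db R l b M e r j s n x J c f f' u Y0 z t μ T g u' c' J' x' →
    ∀ Y ∈ Gap C V B,
      pair (W s 0 n) (x * (J * c) * Dop t f' u * Y * g u' * (c' * J' * x')) =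
      pair (W s 0 n) (x * (J * c) * f' u * Y * Dop t g u' * (c' * J' * x')) := by
  obtain ⟨L0, hL0⟩ := exchain (A := F) m l B (3 * (b + l)) (2 ^ m - 1)
  refine ⟨L0, ?_⟩
  intro C Cb Db U V R hCP hb hR hCB s n hrel M e r j x J c f f' u Y0 z t μ T g u' c' J' x' hN
  have hctx : Ctx P1 Cb Db V (Zn s n) Fk := ctx_word hb hR.V_le s n
  have hS : Sb C V b ≤ Cb * Db := N6_Sb_le hbB hb hR.V_le hCB
  have hSl : Sb C V b ≤ Fk (3 * (b + l)) := N6_Sb_len hR.V_len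
  have hcb : C ⊓ Fk b ≤ Cb ⊓ Fk B :=
    le_inf (le_trans (inf_le_inf_left _ (Fk_mono hbB)) hCB) (le_trans inf_le_right (Fk_mono hbB))
  have hCBB : C ⊓ Fk B ≤ Cb ⊓ Fk B := le_inf hCB inf_le_right
  have hxP : x ∈ P1 := hCP hN.hx.1
  have hxP' : x' ∈ P1 := hCP hN.hx'.1
  have key : ∀ i, ∀ Y ∈ Gp (C ⊓ Fk B) V i,
      pair (W s 0 n) (x * (J * c) * Dop t f' u * Y * g u' * (c' * J' * x')) =
      pair (W s 0 n) (x * (J * c) * f' u * Y * Dop t g u' * (c' * J' * x')) := by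
    intro i Y hY
    have h1 := hL0 P1 Cb Db V (Zn s n) Fk hctx hR.V_len R hR.slot hR.val hrel hR.gen
      (Sb C V b) hS hSl (C ⊓ Fk B) hCBB f hN.hf e r f' t hN.hder hN.ht
      (by have := hN.hdeg; omega) u hN.hu g hN.hg u' hN.hu' hN.hgV i Y hY J hN.hJ c
      (hcb hN.hc) c' (hcb hN.hc') J' hN.hJ'
    have h2 := P1_mul_Zn s n (Submodule.mul_mem_mul hxP h1)
    have h3 := Zn_mul_P1 s n (Submodule.mul_mem_mul h2 hxP')
    have h4 := pair_Zn s n h3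
    have e1 : x * (J * c * (Dop t f' u * Y * g u' - f' u * Y * Dop t g u') * (c' * J')) * x'
        = x * (J * c) * Dop t f' u * Y * g u' * (c' * J' * x')
          - x * (J * c) * f' u * Y * Dop t g u' * (c' * J' * x') := by
      simp only [mul_assoc, mul_sub, sub_mul]
    rw [e1, map_sub] at h4
    exact sub_eq_zero.1 h4
  intro Y hY
  let φ : F →ₗ[ℚ] ℚ := (pair (W s 0 n)) ∘ₗ (LinearMap.mulRight ℚ (c' * J' * x')) ∘ₗ
    (LinearMap.mulRight ℚ (g u')) ∘ₗ (LinearMap.mulLeft ℚ (x * (J * c) * Dop t f' u))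
  let φ' : F →ₗ[ℚ] ℚ := (pair (W s 0 n)) ∘ₗ (LinearMap.mulRight ℚ (c' * J' * x')) ∘ₗ
    (LinearMap.mulRight ℚ (Dop t g u')) ∘ₗ (LinearMap.mulLeft ℚ (x * (J * c) * f' u))
  have hle : Gap C V B ≤ LinearMap.eqLocus φ φ' := Gap_induction (fun i Y hY => by
    rw [LinearMap.mem_eqLocus]
    exact key i Y hY)
  have h5 := hle hY
  rw [LinearMap.mem_eqLocus] at h5
  exact h5

end NF
end

section

/-! MP_24a659_al, job I1: extension of an interior visible element by killers (NICE KILLERS, Section 7). -/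

set_option autoImplicit false

namespace NF

/-- the first step on the left -/
theorem I1_left {C U V : Submodule ℚ F} (pk : Pkg C U V) {l b : ℕ} (hl : V ≤ Fk l)
    (hb : Repl (thinE V 0) C l b) {s : Sq} (hs : nz s) {p q : ℕ} {T : F}
    (hT : T ∈ V * P1) (hv : ent s p q T ≠ 0) (hp : Fits V s 1 0 p) :
    ∃ J1 ∈ V, ∃ X1 ∈ C ⊓ Fk b, ∃ p0, ent s p0 q (J1 * X1 * T) ≠ 0 := by
  classical
  have hB : Repl (thinE V 0) C (max l 0) b := by rwa [Nat.max_zero]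
  have hTP : T ∈ P1 := P1_mul (mul_le_mul' pk.V_le le_rfl hT)
  have hTU : T ∈ U * P1 := by
    have h1 : V * P1 ≤ U * P1 := by
      refine le_trans (mul_le_mul' pk.V_UP (le_refl P1)) ?_
      rw [mul_assoc]
      exact mul_le_mul' (le_refl U) P1_mul
    exact h1 hT
  have hpq : p ≤ q := by
    by_contra h
    exact hv (ent_of_lt s (by omega) T)
  set ρ : ℕ → ℚ := coact s q T (dl q) with hρ
  have hρe : ∀ r, ρ r = ent s r q T := fun r => coact_dl s le_rfl r T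
  have hρR : ρ ∈ Rgt s q U := coact_mem_Rgt pk.U_le hTU (dl q)
  have hρK : ρ ∈ RK s q V 0 := coact_mem_RK pk.V_le 0 hT (dl q)
  obtain ⟨c', hpc, hmx⟩ := exists_mx q ρ p hpq (by rw [hρe]; exact hv)
  have hfit : Fits V s 1 0 c' := Fits_mono hp (le_refl 0) hpc
  set p1 : ℕ := Nat.findGreatest (fun r => Fits V s 1 r c') c' with hp1
  have hf1 : Fits V s 1 p1 c' :=
    Nat.findGreatest_spec (P := fun r => Fits V s 1 r c') (Nat.zero_le c') hfit
  have hf1' : ∀ p', p1 < p' → ¬ Fits V s 1 p' c' := fun p' h hF =>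
    Nat.findGreatest_is_greatest (P := fun r => Fits V s 1 r c') h (Fits_le hF) hF
  obtain ⟨J1, hJ1, X1, hX1, hmx1⟩ := dmove pk hl hB hs hρR hρK hmx hf1 hf1'
  refine ⟨J1, hJ1, X1, hX1, p1, ?_⟩
  have h := hmx1.2.1
  rw [hρ, ← coact_mul s q (P1_le_EY (mul_mem_P1 (pk.V_le hJ1) (pk.C_le hX1.1))) (P1_le_SX hTP),
    coact_dl s le_rfl] at h
  exact h

/-- the second step on the right -/
theorem I1_right {C U V : Submodule ℚ F} (pk : Pkg C U V) {l b : ℕ} (hl : V ≤ Fk l)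
    (hb : Repl (thinE V 0) C l b) {s : Sq} (hs : nz s) {n p q : ℕ} {T : F}
    (hT : T ∈ P1 * V) (hv : ent s p q T ≠ 0) (hq : Fits V s 1 q n) :
    ∃ X2 ∈ C ⊓ Fk b, ∃ J2 ∈ V, ∃ q0, q0 ≤ n ∧ ent s p q0 (T * (X2 * J2)) ≠ 0 := by
  classical
  have hB : Repl (thinE V 0) C (max l 0) b := by rwa [Nat.max_zero]
  have hTP : T ∈ P1 := P1_mul (mul_le_mul' le_rfl pk.V_le hT)
  have hTU : T ∈ P1 * U := by
    have h1 : P1 * V ≤ P1 * U := by
      refine le_trans (mul_le_mul' (le_refl P1) pk.V_PU) ?_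
      rw [← mul_assoc]
      exact mul_le_mul' P1_mul (le_refl U)
    exact h1 hT
  set ψ : ℕ → ℚ := act s T (dl p) with hψ
  have hψe : ∀ r, ψ r = ent s p r T := fun r => act_dl s p r T
  have hψL : ψ ∈ Lft s U := act_mem_Lft pk.U_le hTU (dl p)
  have hψK : ψ ∈ LK s V 0 := act_mem_LK pk.V_le 0 hT (dl p)
  obtain ⟨c0, hcq, hmn⟩ := exists_mn ψ q (by rw [hψe]; exact hv)
  have hfit : Fits V s 1 c0 n := Fits_mono hq hcq (le_refl n)
  have hex : ∃ r, Fits V s 1 c0 r := ⟨n, hfit⟩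
  obtain ⟨X2, hX2, J2, hJ2, hmn2⟩ := move pk hl hB hs hψL hψK hmn (Nat.find_spec hex)
    (fun q' hq' => Nat.find_min hex hq')
  refine ⟨X2, hX2, J2, hJ2, Nat.find hex, Nat.find_min' hex hfit, ?_⟩
  have h := hmn2.1
  rw [hψ, ← act_mul s (P1_le_EY hTP) (P1_le_SX (mul_mem_P1 (pk.C_le hX2.1) (pk.V_le hJ2))),
    act_dl] at h
  exact h

theorem interior {C U V : Submodule ℚ F} (pk : Pkg C U V) {l b : ℕ} (hl : V ≤ Fk l)
    (hb : Repl (thinE V 0) C l b) {s : Sq} (hs : nz s) {n p q : ℕ} {T : F}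
    (hT : T ∈ V * P1) (hT' : T ∈ P1 * V) (hv : ent s p q T ≠ 0) (hp : Fits V s 1 0 p)
    (hq : Fits V s 1 q n) :
    ∃ J1 ∈ V, ∃ X1 ∈ C ⊓ Fk b, ∃ X2 ∈ C ⊓ Fk b, ∃ J2 ∈ V, ∃ p0 q0, q0 ≤ n ∧
      ent s p0 q0 (J1 * X1 * T * (X2 * J2)) ≠ 0 := by
  obtain ⟨J1, hJ1, X1, hX1, p0, h1⟩ := I1_left pk hl hb hs hT hv hp
  have hZ : J1 * X1 * T ∈ P1 * V := by
    have h2 : J1 * X1 ∈ P1 := mul_mem_P1 (pk.V_le hJ1) (pk.C_le hX1.1)
    have h3 : J1 * X1 * T ∈ P1 * (P1 * V) := Submodule.mul_mem_mul h2 hT'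
    rw [← mul_assoc] at h3
    exact mul_le_mul' P1_mul (le_refl V) h3
  obtain ⟨X2, hX2, J2, hJ2, q0, hq0, h4⟩ := I1_right pk hl hb hs hZ h1 hq
  exact ⟨J1, hJ1, X1, hX1, X2, hX2, J2, hJ2, p0, q0, hq0, h4⟩

end NF
end

section

/-! MP_24a659_al, job N5: expansion (Section 7, use of Cayley-Hamilton and Nagata-Higman). -/

set_option autoImplicit false

namespace NF

/-- a functional which is not zero on an element of a product of submodules -/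
theorem N5_mul {A B : Submodule ℚ F} (φ : F →ₗ[ℚ] ℚ) {Y : F} (hY : Y ∈ A * B) (h : φ Y ≠ 0) :
    ∃ a ∈ A, ∃ b ∈ B, φ (a * b) ≠ 0 := by
  by_contra hc
  push Not at hc
  have h1 : A * B ≤ LinearMap.ker φ :=
    Submodule.mul_le.2 fun a ha b hb => LinearMap.mem_ker.2 (hc a ha b hb)
  exact h (LinearMap.mem_ker.1 (h1 hY))

/-- a functional which is not zero on an element of a span -/
theorem N5_span {S : Set F} (φ : F →ₗ[ℚ] ℚ) {Y : F} (hY : Y ∈ Submodule.span ℚ S)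
    (h : φ Y ≠ 0) : ∃ a ∈ S, φ a ≠ 0 := by
  by_contra hc
  push Not at hc
  have h1 : Submodule.span ℚ S ≤ LinearMap.ker φ :=
    Submodule.span_le.2 fun a ha => LinearMap.mem_ker.2 (hc a ha)
  exact h (LinearMap.mem_ker.1 (h1 hY))

/-- the functional `X ↦ φ (A * X * B)` -/
noncomputable def N5_fn (φ : F →ₗ[ℚ] ℚ) (A B : F) : F →ₗ[ℚ] ℚ :=
  φ ∘ₗ (LinearMap.mulRight ℚ B) ∘ₗ (LinearMap.mulLeft ℚ A)

theorem N5_fn_apply (φ : F →ₗ[ℚ] ℚ) (A B X : F) : N5_fn φ A B X = φ (A * X * B) := rfl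

theorem N5_relP_mono {C D V Z : Submodule ℚ F} {L L' m : ℕ} (h : L ≤ L')
    {f : (Fin m → F) → F} (hf : RelP C D V Z Fk L' f) : RelP C D V Z Fk L f :=
  fun J hJ c hc v hv Y hY z hz c' hc' J' hJ' =>
    hf J hJ c ⟨hc.1, Fk_mono h hc.2⟩ v (fun k => ⟨(hv k).1, Fk_mono h (hv k).2⟩) Y
      ⟨hY.1, Fk_mono h hY.2⟩ z ⟨hz.1, Fk_mono h hz.2⟩ c' ⟨hc'.1, Fk_mono h hc'.2⟩ J' hJ'

/-- the product of three killers with gaps is in `Cb * Db` -/
theorem N5_Sb_le {C Cb Db V : Submodule ℚ F} {b : ℕ} (hb : Base Cb Db) (hCb : C ⊓ Fk b ≤ Cb)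
    (hV : V ≤ Db) : Sb C V b ≤ Cb * Db := by
  have h1 : (C ⊓ Fk b) * V ≤ Cb * Db := G1_mul_mono hCb hV
  have h2 : (Cb * Db) * (Cb * Db) ≤ Cb * Db := by
    rw [← mul_assoc]
    exact G1_mul_mono hb.CDC le_rfl
  unfold Sb
  rw [pow_succ, pow_succ, pow_one]
  exact (G1_mul_mono ((G1_mul_mono h1 h1).trans h2) h1).trans h2

theorem N5_Sb_len {C V : Submodule ℚ F} {b l : ℕ} (hV : V ≤ Fk l) :
    Sb C V b ≤ Fk (3 * (b + l)) := by
  have h1 : (C ⊓ Fk b) * V ≤ Fk (b + l) := (G1_mul_mono inf_le_right hV).trans (Fk_mul b l)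
  unfold Sb
  rw [pow_succ, pow_succ, pow_one]
  refine ((G1_mul_mono ((G1_mul_mono h1 h1).trans (Fk_mul _ _)) h1).trans (Fk_mul _ _)).trans ?_
  exact Fk_mono (by omega)

theorem ns_expand {C Cb Db U V : Submodule ℚ F} {m l b M L : ℕ} {R : Set ((Fin m → F) → F)}
    (hC : C ≤ P1) (hb : Base Cb Db) (hR : Rk m l Cb Db U V R) (hCb : C ⊓ Fk b ≤ Cb)
    (hL : max l b + 2 ^ m * (3 * (b + l)) ≤ L) (hM : 1 ≤ M) {s : Sq} {n : ℕ}
    (hrel : ∀ f ∈ R, RelP Cb Db V (Zn s n) Fk L f) {Y : F}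
    (hY : Y ∈ Gp (C ⊓ Fk b) V (M + 3 * (2 ^ m - 1) + 5)) (hne : pair (W s 0 n) Y ≠ 0) :
    ∃ e r j x J c f f' u Y0 z t μ T g u' c' J' x',
      NSd C V Db R l b M e r j s n x J c f f' u Y0 z t μ T g u' c' J' x' := by
  rw [Gp_decomp] at hY
  obtain ⟨φ, hφ⟩ : ∃ φ, φ = pair (W s 0 n) := ⟨_, rfl⟩
  rw [← hφ] at hne
  -- the factors
  obtain ⟨Y1, hY1, E1, hE1, h1⟩ := N5_mul φ hY hne
  obtain ⟨E2, hE2, x', hx', h2⟩ := N5_mul (N5_fn φ Y1 1) hE1 (by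
    rw [N5_fn_apply, mul_one]; exact h1)
  obtain ⟨c', hc', J', hJ', h3⟩ := N5_mul (N5_fn φ Y1 x') hE2 (by
    rw [N5_fn_apply] at h2 ⊢
    simpa only [mul_assoc, mul_one] using h2)
  rw [N5_fn_apply] at h3
  have h3' : φ (Y1 * (c' * J' * x')) ≠ 0 := by
    simpa only [mul_assoc] using h3
  obtain ⟨Y2, hY2, v2, hv2, h4⟩ := N5_mul (N5_fn φ 1 (c' * J' * x')) hY1 (by
    rw [N5_fn_apply, one_mul]; exact h3')
  rw [N5_fn_apply, one_mul] at h4
  -- the second killer as a value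
  obtain ⟨w2, ⟨hgV, g, hg, u', hu', hw2⟩, h5⟩ := N5_span (N5_fn φ Y2 (c' * J' * x'))
    (hR.gen hv2) (by rw [N5_fn_apply]; exact h4)
  rw [N5_fn_apply] at h5
  subst hw2
  obtain ⟨Y3, hY3, T, hT, h6⟩ := N5_mul (N5_fn φ 1 (g u' * (c' * J' * x'))) hY2 (by
    rw [N5_fn_apply, one_mul, ← mul_assoc]; exact h5)
  rw [N5_fn_apply, one_mul] at h6
  obtain ⟨Y4, hY4, a, ha, h7⟩ := N5_mul (N5_fn φ 1 (T * (g u' * (c' * J' * x')))) hY3 (by
    rw [N5_fn_apply, one_mul, ← mul_assoc]; exact h6)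
  rw [N5_fn_apply, one_mul] at h7
  obtain ⟨Y5, hY5, z, hz, h8⟩ := N5_mul (N5_fn φ 1 (a * (T * (g u' * (c' * J' * x'))))) hY4 (by
    rw [N5_fn_apply, one_mul, ← mul_assoc]; exact h7)
  rw [N5_fn_apply, one_mul] at h8
  obtain ⟨Y6, hY6, Y0, hY0, h9⟩ := N5_mul
    (N5_fn φ 1 (z * (a * (T * (g u' * (c' * J' * x')))))) hY5 (by
    rw [N5_fn_apply, one_mul, ← mul_assoc]; exact h8)
  rw [N5_fn_apply, one_mul] at h9
  obtain ⟨Y7, hY7, v1, hv1, h10⟩ := N5_mul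
    (N5_fn φ 1 (Y0 * (z * (a * (T * (g u' * (c' * J' * x'))))))) hY6 (by
    rw [N5_fn_apply, one_mul, ← mul_assoc]; exact h9)
  rw [N5_fn_apply, one_mul] at h10
  obtain ⟨w1, ⟨_, f, hf, u, hu, hw1⟩, h11⟩ := N5_span
    (N5_fn φ Y7 (Y0 * (z * (a * (T * (g u' * (c' * J' * x')))))))
    (hR.gen hv1) (by rw [N5_fn_apply]; exact h10)
  rw [N5_fn_apply] at h11
  subst hw1
  obtain ⟨x, hx, E3, hE3, h12⟩ := N5_mul
    (N5_fn φ 1 (f u * (Y0 * (z * (a * (T * (g u' * (c' * J' * x')))))))) hY7 (by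
    rw [N5_fn_apply, one_mul, ← mul_assoc]; exact h11)
  rw [N5_fn_apply, one_mul] at h12
  obtain ⟨J, hJ, c, hc, h13⟩ := N5_mul
    (N5_fn φ x (f u * (Y0 * (z * (a * (T * (g u' * (c' * J' * x')))))))) hE3 (by
    rw [N5_fn_apply]; exact h12)
  rw [N5_fn_apply] at h13
  -- Cayley-Hamilton and Nagata-Higman
  have hVl : V ≤ Fk (max l b) := hR.V_len.trans (Fk_mono (le_max_left l b))
  have hCl : C ⊓ Fk b ≤ Cb ⊓ Fk (max l b) :=
    le_inf hCb (inf_le_right.trans (Fk_mono (le_max_right l b)))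
  obtain ⟨τ, hτ, hτZ⟩ := chnh (ctx_word hb hR.V_le s n) (m := m) (l := max l b)
    (κ := 3 * (b + l)) (S := Sb C V b) (N5_Sb_le hb hCb hR.V_le) (N5_Sb_len hR.V_len)
    (f := f) (N5_relP_mono hL (hrel f hf)) (u := u)
    (fun k => ⟨(hu k).1, Fk_mono (le_max_left l b) (hu k).2⟩) (Y := Y0) (z := z) (a := a)
    (hCl hY0) ⟨hR.V_le hz, hVl hz⟩ ha
  have hP : C ⊓ Fk b ≤ P1 := inf_le_left.trans hC
  have hVP : V ≤ P1 := (hR.V_le.trans hb.D_le).trans hb.C_le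
  have hGP : ∀ i, Gp (C ⊓ Fk b) V i ≤ P1 := fun i =>
    (Gp_le_Gap (le_refl b) i).trans (Gap_le_P1 hC hVP b)
  have hTZ : J * c * (f u * Y0 * z * a - τ) * T ∈ Zn s n := by
    obtain ⟨M', rfl⟩ : ∃ M', M = M' + 1 := ⟨M - 1, by omega⟩
    rw [Gp_succ'] at hT
    have h14 : (C ⊓ Fk b) * V * Gp (C ⊓ Fk b) V M' ≤
        (Zn s n).comap (LinearMap.mulLeft ℚ (J * c * (f u * Y0 * z * a - τ))) := by
      refine Submodule.mul_le.2 fun p hp q hq => ?_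
      have h15 : (C ⊓ Fk b) * V ≤
          (Zn s n).comap (LinearMap.mulLeft ℚ (J * c * (f u * Y0 * z * a - τ))) := by
        refine Submodule.mul_le.2 fun p hp q hq => ?_
        exact hτZ J hJ c (hCl hc) p (hCl hp) q hq
      have h16 : J * c * (f u * Y0 * z * a - τ) * p ∈ Zn s n := h15 hp
      change J * c * (f u * Y0 * z * a - τ) * (p * q) ∈ Zn s n
      rw [← mul_assoc]
      exact Zn_mul_P1 s n (Submodule.mul_mem_mul h16 (hGP _ hq))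
    exact h14 hT
  have hgP : g u' * (c' * J' * x') ∈ P1 :=
    mul_mem_P1 (hVP hgV) (mul_mem_P1 (mul_mem_P1 (hP hc') (hVP hJ')) (hP hx'))
  have hZ1 : x * (J * c * (f u * Y0 * z * a - τ) * T) * (g u' * (c' * J' * x')) ∈ Zn s n :=
    Zn_mul_P1 s n (Submodule.mul_mem_mul
      (P1_mul_Zn s n (Submodule.mul_mem_mul (hP hx) hTZ)) hgP)
  have h17 : φ (x * (J * c * (f u * Y0 * z * a - τ) * T) * (g u' * (c' * J' * x'))) = 0 := by
    rw [hφ]
    exact pair_Zn s n hZ1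
  have h18 : φ (x * (J * c) * τ * (T * (g u' * (c' * J' * x')))) ≠ 0 := by
    intro h19
    apply h13
    have h20 : x * (J * c) * (f u * (Y0 * (z * (a * (T * (g u' * (c' * J' * x')))))))
        = x * (J * c * (f u * Y0 * z * a - τ) * T) * (g u' * (c' * J' * x'))
          + x * (J * c) * τ * (T * (g u' * (c' * J' * x'))) := by
      simp only [mul_assoc, mul_sub, sub_mul]
      abel
    rw [h20, map_add, h17, h19, add_zero]
  obtain ⟨τ', ⟨e, r, j, f', t, μ, hder, ht, hμ, hdeg, hτ'⟩, h21⟩ := N5_span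
    (N5_fn φ (x * (J * c)) (T * (g u' * (c' * J' * x')))) hτ (by
    rw [N5_fn_apply]; exact h18)
  rw [N5_fn_apply] at h21
  subst hτ'
  refine ⟨e, r, j, x, J, c, f, f', u, Y0, z, t, μ, T, g, u', c', J', x', ?_⟩
  exact
    { hx := hx
      hJ := hJ
      hc := hc
      hf := hf
      hu := hu
      hder := hder
      hY0 := hY0
      hz := hz
      ht := ht
      hμ := hμ
      hdeg := hdeg
      hT := hT
      hg := hg
      hu' := hu'
      hgV := hgV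
      hc' := hc'
      hJ' := hJ'
      hx' := hx'
      hne := by
        rw [hφ] at h21
        simpa only [mul_assoc] using h21 }

end NF
end

section

/-! MP_24a659_al, job M3: property (A) for the gap space. -/

set_option autoImplicit false

namespace NF

theorem M3_pow_le {C V : Submodule ℚ F} (hC : C ≤ P1) (hV : V ≤ P1) (i : ℕ) :
    (C * V) ^ i ≤ P1 := by
  induction i with
  | zero =>
    rw [pow_zero, Submodule.one_le]
    exact one_mem_P1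
  | succ i ih =>
    rw [pow_succ]
    exact (G1_mul_mono ih ((G1_mul_mono hC hV).trans P1_mul)).trans P1_mul

theorem aprime {C U V : Submodule ℚ F} (pk : Pkg C U V) {l k b : ℕ} (hl : V ≤ Fk l)
    (hb : Repl (thinE V 0) C (max l k) b) {s : Sq} (hs : nz s) {n : ℕ} {ψ ρ : ℕ → ℚ}
    (hψ : ψ ∈ Lft s U) (hψ' : ψ ∈ LK s V k) (hρ : ρ ∈ Rgt s n U) (hρ' : ρ ∈ RK s n V k)
    {a a' : ℕ} (ha : IsMn ψ a) (ha' : IsMx n ρ a') (h : a ≤ a') :
    ∃ N, Fits V s N a a' ∧ ¬ Fits V s (N + 1) a a' ∧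
      ∃ Y ∈ Gp (C ⊓ Fk b) V N, bil n (act s Y ψ) ρ ≠ 0 := by
  classical
  obtain ⟨N, hN, hN'⟩ := Fits_max pk.V_eps h
  refine ⟨N, hN, hN', ?_⟩
  obtain ⟨L, ap, hL0, -, hL, hmn, hfit⟩ := lchain pk hl hb hs hψ hψ' ha hN
  have hapN : ap N ≤ a' := (hfit N le_rfl a').1 hN
  have hnf : ¬ Fits V s 1 (ap N) a' := fun hF =>
    hN' (Fits_add ((hfit N le_rfl (ap N)).2 le_rfl) hF)
  have hCb : C ⊓ Fk b ≤ P1 := inf_le_left.trans pk.C_le
  have hLm : ∀ i, i ≤ N → L i ∈ ((C ⊓ Fk b) * V) ^ i := by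
    intro i
    induction i with
    | zero =>
      intro _
      rw [hL0, pow_zero]
      exact Submodule.one_le.1 le_rfl
    | succ i ih =>
      intro hi
      obtain ⟨X, hX, J, hJ, e⟩ := hL i (by omega)
      rw [e, pow_succ]
      exact Submodule.mul_mem_mul (ih (by omega)) (Submodule.mul_mem_mul hX hJ)
  have hLP : ∀ i, i ≤ N → L i ∈ P1 := fun i hi => M3_pow_le hCb pk.V_le i (hLm i hi)
  -- the row `ψ L_N`
  have hrow : act s (L N) ψ ∈ Lft s U ∧ act s (L N) ψ ∈ LK s V k := by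
    rcases Nat.eq_zero_or_pos N with hz | hpos
    · rw [hz, hL0, act_one]
      exact ⟨hψ, hψ'⟩
    · obtain ⟨M, rfl⟩ : ∃ M, N = M + 1 := ⟨N - 1, by omega⟩
      obtain ⟨X, hX, J, hJ, e⟩ := hL M (by omega)
      have hZ : L M * X ∈ P1 := mul_mem_P1 (hLP M (by omega)) (hCb hX)
      rw [e, ← mul_assoc]
      constructor
      · refine act_mem_Lft pk.U_le ?_ ψ
        have h1 : L M * X * J ∈ P1 * (P1 * U) := Submodule.mul_mem_mul hZ (pk.V_PU hJ)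
        rw [← mul_assoc] at h1
        exact G1_mul_mono P1_mul (le_refl U) h1
      · exact act_mem_LK pk.V_le k (Submodule.mul_mem_mul hZ hJ) ψ
  obtain ⟨hrow1, hrow2⟩ := hrow
  have hmnN : IsMn (act s (L N) ψ) (ap N) := hmn N le_rfl
  obtain ⟨X, hX, hX0⟩ := pk.A s n hs _ hrow1 ρ hρ (ap N) a' hmnN ha' hapN
  -- the representations
  have hVT : V ≤ P1 ⊓ Fk l := le_inf pk.V_le hl
  obtain ⟨Θ, hΘ, hΘ'⟩ := LK_rep (s := s) (T := V) (l := l) (k := k) (c := ap N) (Q := a')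
    hVT (by
      intro J' hJ' p0 p h1 h2
      by_contra hne
      exact hnf (Fits_one.2 ⟨p0, p, by omega, ⟨J', hJ', hne⟩, h2⟩)) hrow2 hmnN
  obtain ⟨Λ, hΛ, hΛe⟩ := RK_rep (s := s) (T := V) (l := l) (k := k) (n := n) (P := ap N)
    (c' := a') hVT (by
      intro J' hJ' p q h1 h2
      by_contra hne
      exact hnf (Fits_one.2 ⟨p, q, h1, ⟨J', hJ', hne⟩, h2⟩)) ha'.1 hρ'
  have hrep : ∀ Z ∈ C, bil n (act s Z (act s (L N) ψ)) ρ =
      pair (W s (ap N) a') (Θ * Z * Λ) := by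
    intro Z hZ
    exact bil_rep s hapN ha'.1 (pk.C_le hZ) hΘ.1 hΛ.1 hmnN.2 ha'.2.2 hΘ' hΛe
  obtain ⟨X', hX', hrel⟩ := Repl_one hb (mem_thinE hs hapN hnf) hX
  have hne : bil n (act s X' (act s (L N) ψ)) ρ ≠ 0 := by
    rw [hrep X' hX'.1, hrel Θ hΘ.2 Λ hΛ.2, ← hrep X hX]
    exact hX0
  refine ⟨L N * X', ?_, ?_⟩
  · rw [Gp_alt]
    exact Submodule.mul_mem_mul (hLm N le_rfl) hX'
  · rw [act_mul s (P1_le_EY (hLP N le_rfl)) (P1_le_SX (hCb hX'))]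
    exact hne

end NF
end

section

/-! MP_24a659_al, job I2: `V+`-null words are tame. -/

set_option autoImplicit false

namespace NF

/-- a word with room for two killers is cut at the first and at the last killer -/
theorem I2_cut {V : Submodule ℚ F} (hV : ∀ J ∈ V, eps J = 0) {s : Sq} (hs : nz s) {n : ℕ}
    (h2 : Fits V s 2 0 n) :
    ∃ a b : ℕ, Fits V s 1 0 (a + 1) ∧ Fits V s 1 b n ∧ a + 1 ≤ b ∧ b + 1 ≤ n ∧
      W s 0 a ∈ thinE V 0 ∧ W s (b + 1) n ∈ thinE V 0 ∧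
      W s 0 n = W s 0 a * E (s a) * W s (a + 1) b * E (s b) * W s (b + 1) n := by
  classical
  obtain ⟨c, hc1, hc2⟩ := Fits_split (k := 1) (l := 1) h2
  have hex : ∃ r, Fits V s 1 0 r := ⟨c, hc1⟩
  have hf1 : Fits V s 1 0 (Nat.find hex) := Nat.find_spec hex
  have hle1 : Nat.find hex ≤ c := Nat.find_min' hex hc1
  have hlen1 : 0 + 1 ≤ Nat.find hex := Fits_len hV hf1
  obtain ⟨a, ha⟩ : ∃ a, Nat.find hex = a + 1 := ⟨Nat.find hex - 1, by omega⟩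
  have hn1 : ¬ Fits V s (0 + 1) 0 a := Nat.find_min hex (by omega)
  have hcn : c ≤ n := Fits_le hc2
  set b : ℕ := Nat.findGreatest (fun r => Fits V s 1 r n) n with hb
  have hf2 : Fits V s 1 b n :=
    Nat.findGreatest_spec (P := fun r => Fits V s 1 r n) hcn hc2
  have hle2 : c ≤ b := Nat.le_findGreatest hcn hc2
  have hlen2 : b + 1 ≤ n := Fits_len hV hf2
  have hn2 : ¬ Fits V s (0 + 1) (b + 1) n :=
    Nat.findGreatest_is_greatest (P := fun r => Fits V s 1 r n) (Nat.lt_succ_self b) hlen2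
  rw [ha] at hf1 hle1
  refine ⟨a, b, hf1, hf2, by omega, hlen2, mem_thinE hs (Nat.zero_le a) hn1,
    mem_thinE hs hlen2 hn2, ?_⟩
  rw [← W_succ s (Nat.zero_le a), W_mul s (Nat.zero_le (a + 1)) (show a + 1 ≤ b by omega),
    ← W_succ s (Nat.zero_le b), W_mul s (Nat.zero_le (b + 1)) hlen2]

/-- `T` plays the role of `W+`, `V'` the role of `V+` -/
theorem vplus_tame {C U V T V' : Submodule ℚ F} (pk : Pkg C U V) {l b : ℕ} (hl : V ≤ Fk l)
    (hb : Repl (thinE V 0) C l b) (hT : T ≤ V * P1) (hT' : T ≤ P1 * V)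
    (hns : Tame (thinE T 0))
    (hincl : ∀ J1 ∈ V, ∀ X1 ∈ C ⊓ Fk b, ∀ x ∈ T, ∀ X2 ∈ C ⊓ Fk b, ∀ J2 ∈ V,
      J1 * X1 * x * (X2 * J2) ∈ V') : Tame (thinE V' 0) := by
  classical
  refine Tame_sub ?_ (Tame_union (Tame_thin pk.V_eps pk.N 1)
    (Tame_mul (Tame_mul (Tame_mul (Tame_mul pk.N Tame_pairs) hns) Tame_pairs) pk.N))
  rintro Z ⟨s0, p, q, hs0, hpq, hf0, rfl⟩
  obtain ⟨n, rfl⟩ : ∃ n, q = p + n := ⟨q - p, by omega⟩
  set s : Sq := fun i => s0 (p + i) with hsdef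
  have hs : nz s := fun i => hs0 (p + i)
  have hf : ¬ Fits V' s 1 0 n := by
    intro h
    exact hf0 ((Fits_shift V' s0 p 1 0 n).1 h)
  have hW : W s0 p (p + n) = W s 0 n := (W_shift s0 p 0 n).symm
  rw [hW]
  by_cases h2 : Fits V s 2 0 n
  · right
    obtain ⟨a, c, h3, h4, hac, hcn, h5, h6, h7⟩ := I2_cut pk.V_eps hs h2
    have h8 : ¬ Fits T s (0 + 1) (a + 1) c := by
      intro hF
      obtain ⟨p1, q1, hp1, ⟨x, hx, hne⟩, hq1⟩ := Fits_one.1 hF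
      obtain ⟨J1, hJ1, X1, hX1, X2, hX2, J2, hJ2, p0, q0, hq0, hv⟩ :=
        interior pk hl hb hs (hT hx) (hT' hx) hne (Fits_mono h3 (le_refl 0) hp1)
          (Fits_mono h4 hq1 (le_refl n))
      exact hf (Fits_one.2 ⟨p0, q0, Nat.zero_le p0,
        ⟨_, hincl J1 hJ1 X1 hX1 x hx X2 hX2 J2 hJ2, hv⟩, hq0⟩)
    refine ⟨_, ⟨_, ⟨_, ⟨W s 0 a, h5, E (s a), ⟨s a, rfl⟩, rfl⟩, W s (a + 1) c,
      mem_thinE hs hac h8, rfl⟩, E (s c), ⟨s c, rfl⟩, rfl⟩, W s (c + 1) n, h6, ?_⟩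
    exact h7
  · left
    exact mem_thinE hs (Nat.zero_le n) h2

end NF
end

section

/-! MP_24a659_al, job M5: one slot (Section 5). -/

set_option autoImplicit false

namespace NF

/-- the representation of a slot by one word -/
theorem M5_rep {C U V : Submodule ℚ F} (pk : Pkg C U V) {l b1 k1 : ℕ} (hl : V ≤ Fk l)
    (hk1 : 2 * l + b1 ≤ k1) {s : Sq} (hs : nz s) {n : ℕ} {ψ ρ : ℕ → ℚ}
    (hψ' : ψ ∈ LK s (V * (C ⊓ Fk b1) * V) k1)
    (hρ' : ρ ∈ RK s n (V * (C ⊓ Fk b1) * V) k1)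
    {a a' : ℕ} (ha : IsMn ψ a) (ha' : IsMx n ρ a') (h : a ≤ a') (hthin : ¬ Fits V s 2 a a') :
    ∃ Θ ∈ Fk k1, ∃ Λ ∈ Fk k1, ∀ Z ∈ C,
      bil n (act s Z ψ) ρ = pair (W s a a') (Θ * Z * Λ) := by
  have hCP : C ⊓ Fk b1 ≤ P1 := inf_le_left.trans pk.C_le
  have hT1 : V * (C ⊓ Fk b1) * V ≤ P1 :=
    (G1_mul_mono ((G1_mul_mono pk.V_le hCP).trans P1_mul) pk.V_le).trans P1_mul
  have hT2 : V * (C ⊓ Fk b1) * V ≤ Fk (2 * l + b1) := by
    refine (G1_mul_mono ((G1_mul_mono hl inf_le_right).trans (Fk_mul l b1)) hl).trans ?_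
    refine (Fk_mul (l + b1) l).trans (Fk_mono (by omega))
  have hT3 : V * (C ⊓ Fk b1) * V ≤ KS V 2 := by
    have h1 : V * (C ⊓ Fk b1) ≤ KS V 1 :=
      (G1_mul_mono (V_le_KS pk.V_le) (hCP.trans (P1_le_KS V))).trans (KS_mul V 1 0)
    exact (G1_mul_mono h1 (V_le_KS pk.V_le)).trans (KS_mul V 1 1)
  have hmax : max (2 * l + b1) k1 = k1 := max_eq_right hk1
  have hinv : ∀ J ∈ V * (C ⊓ Fk b1) * V, ∀ p q, a ≤ p → q ≤ a' → ent s p q J = 0 := by
    intro J hJ p q h1 h2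
    by_contra hne
    exact hthin (Fits_mono ((hT3 hJ).2 s hs p q hne) h1 h2)
  obtain ⟨Θ, hΘ, hΘ'⟩ := LK_rep (s := s) (l := 2 * l + b1) (k := k1) (c := a) (Q := a')
    (le_inf hT1 hT2) (fun J hJ p0 p h1 h2 => hinv J hJ p0 p h1.le h2) hψ' ha
  obtain ⟨Λ, hΛ, hΛ'⟩ := RK_rep (s := s) (l := 2 * l + b1) (k := k1) (n := n) (P := a)
    (c' := a') (le_inf hT1 hT2) hinv ha'.1 hρ'
  rw [hmax] at hΘ hΛ
  exact ⟨Θ, hΘ.2, Λ, hΛ.2, fun Z hZ =>
    bil_rep s h ha'.1 (pk.C_le hZ) hΘ.1 hΛ.1 ha.2 ha'.2.2 hΘ' hΛ'⟩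

theorem slotl {C U V : Submodule ℚ F} (pk : Pkg C U V) {l b1 k1 B : ℕ} (hl : V ≤ Fk l)
    (hk1 : 2 * l + b1 ≤ k1) (hB : Repl (thinE V 1) C k1 B)
    {s : Sq} (hs : nz s) {n : ℕ} {ψ ρ : ℕ → ℚ}
    (hψ : ψ ∈ Lft s U) (hψ' : ψ ∈ LK s (V * (C ⊓ Fk b1) * V) k1)
    (hρ : ρ ∈ Rgt s n U) (hρ' : ρ ∈ RK s n (V * (C ⊓ Fk b1) * V) k1)
    {a a' : ℕ} (ha : IsMn ψ a) (ha' : IsMx n ρ a') (h : a ≤ a') (hthin : ¬ Fits V s 2 a a')
    {s' : Sq} (hs' : nz s') {n' : ℕ} {φ σ : ℕ → ℚ}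
    (hφ : φ ∈ Lft s' U) (hφ' : φ ∈ LK s' (V * (C ⊓ Fk b1) * V) k1)
    (hσ : σ ∈ Rgt s' n' U) (hσ' : σ ∈ RK s' n' (V * (C ⊓ Fk b1) * V) k1)
    (hthin' : ∀ c c', IsMn φ c → IsMx n' σ c' → ¬ Fits V s' 2 c c')
    (heq : ∀ X ∈ C ⊓ Fk B, bil n (act s X ψ) ρ = bil n' (act s' X φ) σ) :
    ∃ c c', IsMn φ c ∧ IsMx n' σ c' ∧ c' = c + (a' - a) ∧
      ∀ j, j < a' - a → s (a + j) = s' (c + j) := by
  obtain ⟨Θ, hΘ, Λ, hΛ, hrep⟩ := M5_rep pk hl hk1 hs hψ' hρ' ha ha' h hthin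
  have hZ1 : W s a a' ∈ thinE V 1 := mem_thinE hs h hthin
  -- a short element which is not zero on the side `s`
  obtain ⟨X, hX, hX0⟩ := pk.A s n hs ψ hψ ρ hρ a a' ha ha' h
  obtain ⟨X0, hX0C, hX0e⟩ := Repl_one hB hZ1 hX
  have hne : bil n (act s X0 ψ) ρ ≠ 0 := by
    rw [hrep X0 hX0C.1, hX0e Θ hΘ Λ hΛ, ← hrep X hX]
    exact hX0
  have hne' : bil n' (act s' X0 φ) σ ≠ 0 := by
    rw [← heq X0 hX0C]
    exact hne
  obtain ⟨p, q, hpq, hqn, h1, -, h2⟩ := bil_act_ne_zero s' n' X0 φ σ hne'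
  obtain ⟨c, hcp, hc⟩ := exists_mn φ p h1
  obtain ⟨c', hqc, hc'⟩ := exists_mx n' σ q hqn h2
  have hcc : c ≤ c' := hcp.trans (hpq.trans hqc)
  have hthin2 := hthin' c c' hc hc'
  obtain ⟨Θ', hΘ', Λ', hΛ', hrep'⟩ := M5_rep pk hl hk1 hs' hφ' hσ' hc hc' hcc hthin2
  have hZ2 : W s' c c' ∈ thinE V 1 := mem_thinE hs' hcc hthin2
  have hall : ∀ Y ∈ C, bil n (act s Y ψ) ρ = bil n' (act s' Y φ) σ := by
    intro Y hY
    obtain ⟨Y', hY', hYe⟩ := hB _ hZ1 _ hZ2 Y hY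
    rw [hrep Y hY, ← (hYe Θ hΘ Λ hΛ).1, ← hrep Y' hY'.1, heq Y' hY', hrep' Y' hY'.1,
      (hYe Θ' hΘ' Λ' hΛ').2, ← hrep' Y hY]
  obtain ⟨e1, e2⟩ := pk.RG s n hs ψ hψ ρ hρ a a' ha ha' h s' n' hs' φ hφ σ hσ c c' hc hc' hall
  exact ⟨c, c', hc, hc', e1, e2⟩

end NF
end

section

/-! MP_24a659_al, job M7: property (E) for the gap space. -/

set_option autoImplicit false

namespace NF

theorem eprime {C U V : Submodule ℚ F} (pk : Pkg C U V) {l b B B0 : ℕ} (hl : V ≤ Fk l)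
    (hb : Repl (thinE V 0) C l b) (hbB : b ≤ B)
    (hB0 : Repl (thinE V 0) (C ⊓ LinearMap.ker eps) 0 B0) (hB0B : B0 ≤ B) {s : Sq} (hs : nz s)
    {p q : ℕ} (h : p < q) : ∃ X ∈ Gap C V B, eps X = 0 ∧ pair (W s p q) X ≠ 0 := by
  by_cases hf : Fits V s 1 p q
  · -- a killer is visible: property (A) of the gap space
    obtain ⟨n, rfl⟩ := Nat.exists_eq_add_of_lt h
    have hs' : nz (fun i => s (p + i)) := fun i => hs (p + i)
    have hf' : Fits V (fun i => s (p + i)) 1 0 (n + 1) := by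
      rw [Fits_shift, Nat.add_zero]
      exact hf
    obtain ⟨N, hN, hN', Y, hY, hne⟩ := aprime (l := l) (k := 0) (b := b) pk hl
      (by rw [Nat.max_zero]; exact hb) hs' (n := n + 1) (ψ := dl 0) (ρ := one (n + 1))
      (dl_mem_Lft _ U) (dl_mem_LK _ V 0) (one_mem_Rgt _ _ U) (one_mem_RK _ _ V 0)
      (a := 0) (a' := n + 1) ⟨by rw [dl, if_pos rfl]; exact one_ne_zero,
        fun p hp => absurd hp (Nat.not_lt_zero p)⟩
      ⟨le_rfl, by rw [one, if_pos le_rfl]; exact one_ne_zero, fun q hq hq' => by omega⟩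
      (Nat.zero_le _)
    have hN1 : 1 ≤ N := by
      by_contra hc
      have hN0 : N = 0 := by omega
      subst hN0
      exact hN' hf'
    refine ⟨Y, Gp_le_Gap hbB N hY, ?_, ?_⟩
    · exact KS_eps pk.V_eps hN1 (Gp_le_KS (inf_le_left.trans pk.C_le) pk.V_le N hY)
    · rw [← pair_eq_bil, W_shift, Nat.add_zero] at hne
      exact hne
  · obtain ⟨X, hX, hX0, hX1⟩ := pk.E s hs p q h
    obtain ⟨X', hX', hrel⟩ := Repl_one hB0 (mem_thinE hs h.le hf) (X := X)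
      ⟨hX, LinearMap.mem_ker.2 hX0⟩
    have h1 := hrel 1 (one_mem_Fk 0) 1 (one_mem_Fk 0)
    simp only [one_mul, mul_one] at h1
    refine ⟨X', CB_le_Gap C V B ⟨hX'.1.1, Fk_mono hB0B hX'.2⟩, LinearMap.mem_ker.1 hX'.1.2, ?_⟩
    rw [h1]
    exact hX1

end NF
end

section

/-! MP_24a659_al, job M6: (RG) for the gap space (Section 5). -/

set_option autoImplicit false

namespace NF

theorem M6_one_le {T : Submodule ℚ F} (h : (1 : F) ∈ T) : (1 : Submodule ℚ F) ≤ T :=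
  Submodule.one_le.2 h

theorem M6_mm {A A' B B' : Submodule ℚ F} (h : A ≤ A') (h' : B ≤ B') : A * B ≤ A' * B' :=
  Submodule.mul_le.2 fun _ ha _ hb => Submodule.mul_mem_mul (h ha) (h' hb)

/-- the left products of a chain -/
theorem M6_L_mem {D V : Submodule ℚ F} {L : ℕ → F} {N : ℕ} (h0 : L 0 = 1)
    (hL : ∀ i, i < N → ∃ X ∈ D, ∃ J ∈ V, L (i + 1) = L i * (X * J)) :
    ∀ i, i ≤ N → L i ∈ (D * V) ^ i := by
  intro i
  induction i with
  | zero =>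
    intro _
    rw [h0, pow_zero]
    exact Submodule.one_le.1 le_rfl
  | succ i ih =>
    intro hi
    obtain ⟨X, hX, J, hJ, e⟩ := hL i (by omega)
    rw [e, pow_succ]
    exact Submodule.mul_mem_mul (ih (by omega)) (Submodule.mul_mem_mul hX hJ)

/-- the right products of a chain -/
theorem M6_R_mem {D V : Submodule ℚ F} {R : ℕ → F} {N : ℕ} (h0 : R 0 = 1)
    (hR : ∀ i, i < N → ∃ X ∈ D, ∃ J ∈ V, R (i + 1) = J * X * R i) :
    ∀ i, i ≤ N → R i ∈ (V * D) ^ i := by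
  intro i
  induction i with
  | zero =>
    intro _
    rw [h0, pow_zero]
    exact Submodule.one_le.1 le_rfl
  | succ i ih =>
    intro hi
    obtain ⟨X, hX, J, hJ, e⟩ := hR i (by omega)
    rw [e, pow_succ']
    exact Submodule.mul_mem_mul (Submodule.mul_mem_mul hJ hX) (ih (by omega))

theorem M6_DV_KS {D V : Submodule ℚ F} (hD : D ≤ P1) (hV : V ≤ P1) (i : ℕ) :
    (D * V) ^ i ≤ KS V i := by
  induction i with
  | zero =>
    rw [pow_zero]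
    exact M6_one_le (P1_le_KS V one_mem_P1)
  | succ i ih =>
    rw [pow_succ]
    have h1 : D * V ≤ KS V 1 := by
      have h2 := KS_mul V 0 1
      rw [Nat.zero_add] at h2
      exact (M6_mm (hD.trans (P1_le_KS V)) (V_le_KS hV)).trans h2
    exact (M6_mm ih h1).trans (KS_mul V i 1)

theorem M6_VD_KS {D V : Submodule ℚ F} (hD : D ≤ P1) (hV : V ≤ P1) (i : ℕ) :
    (V * D) ^ i ≤ KS V i := by
  induction i with
  | zero =>
    rw [pow_zero]
    exact M6_one_le (P1_le_KS V one_mem_P1)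
  | succ i ih =>
    rw [pow_succ]
    have h1 : V * D ≤ KS V 1 := by
      have h2 := KS_mul V 1 0
      rw [Nat.add_zero] at h2
      exact (M6_mm (V_le_KS hV) (hD.trans (P1_le_KS V))).trans h2
    exact (M6_mm ih h1).trans (KS_mul V i 1)

/-- a non zero pairing leaves room for the killers -/
theorem M6_fits_bil {V : Submodule ℚ F} {s : Sq} (hs : nz s) {n N : ℕ} {Z : F}
    (hZ : Z ∈ KS V N) {ψ ρ : ℕ → ℚ} {c c' : ℕ} (hc : IsMn ψ c) (hc' : IsMx n ρ c')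
    (h : bil n (act s Z ψ) ρ ≠ 0) : Fits V s N c c' := by
  obtain ⟨p, q, _, hq, h1, h2, h3⟩ := bil_act_ne_zero s n Z ψ ρ h
  exact Fits_mono (hZ.2 s hs p q h2) (mn_le hc h1) (le_mx hc' hq h3)

theorem M6_fits_act {V : Submodule ℚ F} {s : Sq} (hs : nz s) {i : ℕ} {Z : F}
    (hZ : Z ∈ KS V i) {ψ : ℕ → ℚ} {c c1 : ℕ} (hc : IsMn ψ c) (hc1 : IsMn (act s Z ψ) c1) :
    Fits V s i c c1 := by
  obtain ⟨p, _, h1, h2⟩ := act_ne_zero s Z ψ c1 hc1.1
  exact Fits_mono (hZ.2 s hs p c1 h2) (mn_le hc h1) le_rfl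

theorem M6_fits_coact {V : Submodule ℚ F} {s : Sq} (hs : nz s) {n i : ℕ} {Z : F}
    (hZ : Z ∈ KS V i) {ρ : ℕ → ℚ} {c' c1 : ℕ} (hc : IsMx n ρ c')
    (hc1 : IsMx n (coact s n Z ρ) c1) : Fits V s i c1 c' := by
  obtain ⟨q, _, h1, h2, h3⟩ := coact_ne_zero s n Z ρ c1 hc1.2.1
  exact Fits_mono (hZ.2 s hs c1 q h2) le_rfl (le_mx hc h1 h3)

/-- the slots cover the interval -/
theorem M6_cover {ap bp : ℕ → ℕ} {N a a' : ℕ} (h0 : ap 0 = a) (h0' : bp 0 = a')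
    (h : ∀ i j, i + j ≤ N → ap i ≤ bp j) {x : ℕ} (hx : a ≤ x) (hx' : x < a') :
    ∃ i j, i ≤ N ∧ j ≤ N ∧ (i + j = N ∨ i + j + 1 = N) ∧ ap i ≤ x ∧ x < bp j := by
  rcases Nat.eq_zero_or_pos N with hN | hN
  · exact ⟨0, 0, by omega, by omega, by omega, by rw [h0]; exact hx, by rw [h0']; exact hx'⟩
  · by_contra hc
    push Not at hc
    have key : ∀ i, i + 1 ≤ N → ap i ≤ x := by
      intro i
      induction i with
      | zero => intro _; rw [h0]; exact hx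
      | succ i ih =>
        intro hi
        have h1 := hc i (N - 1 - i) (by omega) (by omega) (by omega) (ih (by omega))
        exact le_trans (h (i + 1) (N - 1 - i) (by omega)) h1
    have h2 := hc (N - 1) 0 (by omega) (by omega) (by omega) (key (N - 1) (by omega))
    rw [h0'] at h2
    omega

/-- the rows of a chain -/
theorem M6_left {C U V : Submodule ℚ F} (pk : Pkg C U V) {l k b1 k1 : ℕ} (hl : V ≤ Fk l)
    (hk1' : k + b1 + l ≤ k1) {s : Sq} {ψ : ℕ → ℚ}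
    (hψ : ψ ∈ Lft s U) (hψ' : ψ ∈ LK s (V * (C ⊓ Fk b1) * V) k) {L : ℕ → F} {N : ℕ}
    (h0 : L 0 = 1)
    (hL : ∀ i, i < N → ∃ X ∈ C ⊓ Fk b1, ∃ J ∈ V, L (i + 1) = L i * (X * J)) :
    ∀ i, i ≤ N → act s (L i) ψ ∈ Lft s U ∧ act s (L i) ψ ∈ LK s V k ∧
      act s (L i) ψ ∈ LK s (V * (C ⊓ Fk b1) * V) k1 := by
  have hCb : C ⊓ Fk b1 ≤ P1 := inf_le_left.trans pk.C_le
  have hVC : V * (C ⊓ Fk b1) ≤ P1 := (M6_mm pk.V_le hCb).trans P1_mul
  have hU1 : V * (C ⊓ Fk b1) * V ≤ P1 := (M6_mm hVC pk.V_le).trans P1_mul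
  have hmem := M6_L_mem h0 hL
  have hP : ∀ i, i ≤ N → L i ∈ P1 := fun i hi =>
    KS_le_P1 V i (M6_DV_KS hCb pk.V_le i (hmem i hi))
  have hPV : ∀ i, i < N → ∃ X ∈ C ⊓ Fk b1, ∃ J ∈ V, L (i + 1) = L i * (X * J) ∧
      L (i + 1) ∈ P1 * V := by
    intro i hi
    obtain ⟨X, hX, J, hJ, e⟩ := hL i hi
    refine ⟨X, hX, J, hJ, e, ?_⟩
    rw [e, ← mul_assoc]
    exact Submodule.mul_mem_mul (mul_mem_P1 (hP i (by omega)) (hCb hX)) hJ
  have hLKV : ∀ i, i ≤ N → act s (L i) ψ ∈ LK s V k := by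
    intro i hi
    rcases i with _ | i
    · rw [h0, act_one]
      exact LK_mono pk.V_le (M6_mm hVC le_rfl) le_rfl hψ'
    · obtain ⟨X, hX, J, hJ, _, h1⟩ := hPV i hi
      exact act_mem_LK pk.V_le k h1 ψ
  intro i hi
  refine ⟨?_, hLKV i hi, ?_⟩
  · rcases i with _ | i
    · rw [h0, act_one]; exact hψ
    · obtain ⟨X, hX, J, hJ, _, h1⟩ := hPV i hi
      refine act_mem_Lft pk.U_le ?_ ψ
      have h2 : P1 * V ≤ P1 * U := by
        refine (M6_mm le_rfl pk.V_PU).trans ?_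
        rw [← mul_assoc]
        exact M6_mm P1_mul le_rfl
      exact h2 h1
  · rcases i with _ | i
    · rw [h0, act_one]
      refine LK_mono hU1 ?_ (by omega) hψ'
      intro x hx
      have := Submodule.mul_mem_mul one_mem_P1 hx
      rwa [one_mul] at this
    · obtain ⟨X, hX, J, hJ, e, _⟩ := hPV i hi
      rw [e, act_mul s (P1_le_EY (hP i (by omega)))
        (P1_le_SX (mul_mem_P1 (hCb hX) (pk.V_le hJ)))]
      have h3 := LK_act pk.V_le pk.C_le hl (hLKV i (by omega)) hX hJ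
      refine LK_mono hU1 ?_ hk1' h3
      intro x hx
      have := Submodule.mul_mem_mul one_mem_P1 hx
      rwa [one_mul] at this

theorem M6_Rgt_zero {s : Sq} {n : ℕ} {U : Submodule ℚ F} {ρ : ℕ → ℚ} (h : ρ ∈ Rgt s n U) :
    ∀ p, n < p → ρ p = 0 := by
  refine Submodule.span_induction (p := fun ρ _ => ∀ p, n < p → ρ p = 0) ?_ ?_ ?_ ?_ h
  · rintro x (⟨u, _, ρ0, rfl⟩ | hx) p hp
    · rw [B5_coact]
      refine Finset.sum_eq_zero fun q hq => ?_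
      rw [Finset.mem_Icc] at hq
      omega
    · rw [Set.mem_singleton_iff] at hx
      rw [hx, one, if_neg (by omega)]
  · intro p _
    rfl
  · intro x y _ _ hx hy p hp
    rw [Pi.add_apply, hx p hp, hy p hp, add_zero]
  · intro c x _ hx p hp
    rw [Pi.smul_apply, hx p hp, smul_zero]

theorem M6_coact_one {s : Sq} {n : ℕ} {U : Submodule ℚ F} {ρ : ℕ → ℚ} (h : ρ ∈ Rgt s n U) :
    coact s n 1 ρ = ρ := by
  funext p
  rcases Nat.lt_or_ge n p with hp | hp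
  · rw [M6_Rgt_zero h p hp, B5_coact]
    refine Finset.sum_eq_zero fun q hq => ?_
    rw [Finset.mem_Icc] at hq
    omega
  · exact coact_one s n ρ p hp

/-- the columns of a chain -/
theorem M6_right {C U V : Submodule ℚ F} (pk : Pkg C U V) {l k b1 k1 : ℕ} (hl : V ≤ Fk l)
    (hk1' : k + b1 + l ≤ k1) {s : Sq} {n : ℕ} {ρ : ℕ → ℚ}
    (hρ : ρ ∈ Rgt s n U) (hρ' : ρ ∈ RK s n (V * (C ⊓ Fk b1) * V) k) {R : ℕ → F} {N : ℕ}
    (h0 : R 0 = 1)
    (hR : ∀ i, i < N → ∃ X ∈ C ⊓ Fk b1, ∃ J ∈ V, R (i + 1) = J * X * R i) :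
    ∀ i, i ≤ N → coact s n (R i) ρ ∈ Rgt s n U ∧ coact s n (R i) ρ ∈ RK s n V k ∧
      coact s n (R i) ρ ∈ RK s n (V * (C ⊓ Fk b1) * V) k1 := by
  have hCb : C ⊓ Fk b1 ≤ P1 := inf_le_left.trans pk.C_le
  have hCV : (C ⊓ Fk b1) * V ≤ P1 := (M6_mm hCb pk.V_le).trans P1_mul
  have hU1 : V * (C ⊓ Fk b1) * V ≤ P1 := by
    rw [mul_assoc]
    exact (M6_mm pk.V_le hCV).trans P1_mul
  have hmem := M6_R_mem h0 hR
  have hP : ∀ i, i ≤ N → R i ∈ P1 := fun i hi =>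
    KS_le_P1 V i (M6_VD_KS hCb pk.V_le i (hmem i hi))
  have hPV : ∀ i, i < N → ∃ X ∈ C ⊓ Fk b1, ∃ J ∈ V, R (i + 1) = J * X * R i ∧
      R (i + 1) ∈ V * P1 := by
    intro i hi
    obtain ⟨X, hX, J, hJ, e⟩ := hR i hi
    refine ⟨X, hX, J, hJ, e, ?_⟩
    rw [e, mul_assoc]
    exact Submodule.mul_mem_mul hJ (mul_mem_P1 (hCb hX) (hP i (by omega)))
  have hRKV : ∀ i, i ≤ N → coact s n (R i) ρ ∈ RK s n V k := by
    intro i hi
    rcases i with _ | i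
    · rw [h0, M6_coact_one hρ]
      refine RK_mono pk.V_le ?_ le_rfl hρ'
      rw [mul_assoc]
      exact M6_mm le_rfl hCV
    · obtain ⟨X, hX, J, hJ, _, h1⟩ := hPV i hi
      exact coact_mem_RK pk.V_le k h1 ρ
  intro i hi
  refine ⟨?_, hRKV i hi, ?_⟩
  · rcases i with _ | i
    · rw [h0, M6_coact_one hρ]; exact hρ
    · obtain ⟨X, hX, J, hJ, _, h1⟩ := hPV i hi
      refine coact_mem_Rgt pk.U_le ?_ ρ
      have h2 : V * P1 ≤ U * P1 := by
        refine (M6_mm pk.V_UP le_rfl).trans ?_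
        rw [mul_assoc]
        exact M6_mm le_rfl P1_mul
      exact h2 h1
  · rcases i with _ | i
    · rw [h0, M6_coact_one hρ]
      refine RK_mono hU1 ?_ (by omega) hρ'
      intro x hx
      have := Submodule.mul_mem_mul hx one_mem_P1
      rwa [mul_one] at this
    · obtain ⟨X, hX, J, hJ, e, _⟩ := hPV i hi
      rw [e, coact_mul s n (P1_le_EY (mul_mem_P1 (pk.V_le hJ) (hCb hX)))
        (P1_le_SX (hP i (by omega)))]
      have h3 := RK_coact pk.V_le pk.C_le hl (hRKV i (by omega)) hX hJ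
      refine RK_mono hU1 ?_ hk1' h3
      intro x hx
      have := Submodule.mul_mem_mul hx one_mem_P1
      rwa [mul_one] at this

theorem rgprime {C U V : Submodule ℚ F} (pk : Pkg C U V) {l k b1 k1 B : ℕ} (hl : V ≤ Fk l)
    (hb1 : Repl (thinE V 0) C (max l k) b1) (hk1 : 2 * l + b1 ≤ k1) (hk1' : k + b1 + l ≤ k1)
    (hB : Repl (thinE V 1) C k1 B) (hb1B : b1 ≤ B)
    {s : Sq} (hs : nz s) {n : ℕ} {ψ ρ : ℕ → ℚ}
    (hψ : ψ ∈ Lft s U) (hψ' : ψ ∈ LK s (V * (C ⊓ Fk b1) * V) k)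
    (hρ : ρ ∈ Rgt s n U) (hρ' : ρ ∈ RK s n (V * (C ⊓ Fk b1) * V) k)
    {a a' : ℕ} (ha : IsMn ψ a) (ha' : IsMx n ρ a') (h : a ≤ a')
    {s' : Sq} (hs' : nz s') {n' : ℕ} {φ σ : ℕ → ℚ}
    (hφ : φ ∈ Lft s' U) (hφ' : φ ∈ LK s' (V * (C ⊓ Fk b1) * V) k)
    (hσ : σ ∈ Rgt s' n' U) (hσ' : σ ∈ RK s' n' (V * (C ⊓ Fk b1) * V) k)
    {c c' : ℕ} (hc : IsMn φ c) (hc' : IsMx n' σ c')
    (heq : ∀ Y ∈ Gap C V B, bil n (act s Y ψ) ρ = bil n' (act s' Y φ) σ) :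
    c' = c + (a' - a) ∧ ∀ j, j < a' - a → s (a + j) = s' (c + j) := by
  have hCb : C ⊓ Fk b1 ≤ P1 := inf_le_left.trans pk.C_le
  have hVC : V * (C ⊓ Fk b1) ≤ P1 := (M6_mm pk.V_le hCb).trans P1_mul
  have hCV : (C ⊓ Fk b1) * V ≤ P1 := (M6_mm hCb pk.V_le).trans P1_mul
  have hUL : V * (C ⊓ Fk b1) * V ≤ P1 * V := M6_mm hVC le_rfl
  have hUR : V * (C ⊓ Fk b1) * V ≤ V * P1 := by
    rw [mul_assoc]
    exact M6_mm le_rfl hCV
  have hψ'' : ψ ∈ LK s V k := LK_mono pk.V_le hUL le_rfl hψ'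
  have hρ'' : ρ ∈ RK s n V k := RK_mono pk.V_le hUR le_rfl hρ'
  have hφ'' : φ ∈ LK s' V k := LK_mono pk.V_le hUL le_rfl hφ'
  have hσ'' : σ ∈ RK s' n' V k := RK_mono pk.V_le hUR le_rfl hσ'
  -- the number of killers
  obtain ⟨N, hN, hN1, Y, hY, hY0⟩ := aprime pk hl hb1 hs hψ hψ'' hρ hρ'' ha ha' h
  have hY1 : bil n' (act s' Y φ) σ ≠ 0 := by
    rw [← heq Y (Gp_le_Gap hb1B N hY)]
    exact hY0
  have hNf : Fits V s' N c c' :=
    M6_fits_bil hs' (Gp_le_KS hCb pk.V_le N hY) hc hc' hY1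
  have hcc : c ≤ c' := Fits_le hNf
  obtain ⟨N', hN', hN1', Y', hY', hY0'⟩ := aprime pk hl hb1 hs' hφ hφ'' hσ hσ'' hc hc' hcc
  have hY1' : bil n (act s Y' ψ) ρ ≠ 0 := by
    rw [heq Y' (Gp_le_Gap hb1B N' hY')]
    exact hY0'
  have hNf' : Fits V s N' a a' :=
    M6_fits_bil hs (Gp_le_KS hCb pk.V_le N' hY') ha ha' hY1'
  have hle : N' ≤ N := by
    by_contra hcon
    exact hN1 (Fits_anti (by omega) hNf')
  have hno' : ¬ Fits V s' (N + 1) c c' := fun hf => hN1' (Fits_anti (by omega) hf)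
  -- the chains
  obtain ⟨L, ap, hL0, hap0, hL, hLmn, hLf⟩ := lchain pk hl hb1 hs hψ hψ'' ha hN
  obtain ⟨R, bp, hR0, hbp0, hR, hRmx, hRf⟩ := rchain pk hl hb1 hs hρ hρ'' ha' hN
  have hleft := M6_left pk hl hk1' hψ hψ' hL0 hL
  have hleft' := M6_left pk hl hk1' hφ hφ' hL0 hL
  have hright := M6_right pk hl hk1' hρ hρ' hR0 hR
  have hright' := M6_right pk hl hk1' hσ hσ' hR0 hR
  have hLm := M6_L_mem hL0 hL
  have hRm := M6_R_mem hR0 hR
  have hLKS : ∀ i, i ≤ N → L i ∈ KS V i := fun i hi => M6_DV_KS hCb pk.V_le i (hLm i hi)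
  have hRKS : ∀ i, i ≤ N → R i ∈ KS V i := fun i hi => M6_VD_KS hCb pk.V_le i (hRm i hi)
  have hapbp : ∀ i j, i + j ≤ N → ap i ≤ bp j := by
    intro i j hij
    obtain ⟨q, h1, h2⟩ := Fits_split (Fits_anti hij hN)
    exact le_trans ((hLf i (by omega) q).1 h1) ((hRf j (by omega) q).1 h2)
  -- the slots
  have hslot : ∀ i j, i ≤ N → j ≤ N → (i + j = N ∨ i + j + 1 = N) →
      ∃ c1 c2, IsMn (act s' (L i) φ) c1 ∧ IsMx n' (coact s' n' (R j) σ) c2 ∧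
        c2 = c1 + (bp j - ap i) ∧ ∀ t, t < bp j - ap i → s (ap i + t) = s' (c1 + t) := by
    intro i j hi hj hij
    have hLP : L i ∈ P1 := KS_le_P1 V i (hLKS i hi)
    have hRP : R j ∈ P1 := KS_le_P1 V j (hRKS j hj)
    refine slotl pk hl hk1 hB hs (hleft i hi).1 (hleft i hi).2.2 (hright j hj).1
      (hright j hj).2.2 (hLmn i hi) (hRmx j hj) (hapbp i j (by omega)) ?_ hs'
      (hleft' i hi).1 (hleft' i hi).2.2 (hright' j hj).1 (hright' j hj).2.2 ?_ ?_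
    · intro hf
      have h1 := Fits_add (Fits_add ((hLf i hi (ap i)).2 le_rfl) hf)
        ((hRf j hj (bp j)).2 le_rfl)
      exact hN1 (Fits_anti (by omega) h1)
    · intro c1 c2 hc1 hc2 hf
      have h1 := Fits_add (Fits_add (M6_fits_act hs' (hLKS i hi) hc hc1) hf)
        (M6_fits_coact hs' (hRKS j hj) hc' hc2)
      exact hno' (Fits_anti (by omega) h1)
    · intro X hX
      have hXP : X ∈ P1 := pk.C_le hX.1
      have hmem : L i * X * R j ∈ Gap C V B := by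
        refine Gp_le_Gap le_rfl (i + j) ?_
        rw [← Gp_two]
        have hmono : C ⊓ Fk b1 ≤ C ⊓ Fk B := inf_le_inf le_rfl (Fk_mono hb1B)
        refine Submodule.mul_mem_mul (Submodule.mul_mem_mul ?_ hX) ?_
        · exact pow_le_pow_left' (M6_mm hmono le_rfl) i (hLm i hi)
        · exact pow_le_pow_left' (M6_mm le_rfl hmono) j (hRm j hj)
      have h1 : ∀ (t : Sq) (m : ℕ) (α β : ℕ → ℚ),
          bil m (act t X (act t (L i) α)) (coact t m (R j) β) =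
            bil m (act t (L i * X * R j) α) β := by
        intro t m α β
        rw [act_mul t (P1_le_EY (mul_mem_P1 hLP hXP)) (P1_le_SX hRP),
          act_mul t (P1_le_EY hLP) (P1_le_SX hXP), bil_act t m (R j)]
      rw [h1, h1]
      exact heq _ hmem
  -- the offsets
  have hoff : ∀ i, i ≤ N → ∃ c1, IsMn (act s' (L i) φ) c1 ∧ (c1 : ℤ) - ap i = (c : ℤ) - a := by
    intro i
    induction i with
    | zero =>
      intro _
      refine ⟨c, ?_, ?_⟩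
      · rw [hL0, act_one]; exact hc
      · rw [hap0]
    | succ i ih =>
      intro hi
      obtain ⟨c1, hc1, e1⟩ := ih (by omega)
      obtain ⟨d1, d2, hd1, hd2, e2, _⟩ := hslot i (N - 1 - i) (by omega) (by omega) (by omega)
      obtain ⟨f1, f2, hf1, hf2, e3, _⟩ := hslot (i + 1) (N - 1 - i) (by omega) (by omega)
        (by omega)
      have g1 := mn_unique hc1 hd1
      have g2 := mx_unique hd2 hf2
      have g3 := hapbp i (N - 1 - i) (by omega)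
      have g4 := hapbp (i + 1) (N - 1 - i) (by omega)
      refine ⟨f1, hf1, ?_⟩
      omega
  refine ⟨?_, ?_⟩
  · obtain ⟨c1, hc1, e1⟩ := hoff N le_rfl
    obtain ⟨d1, d2, hd1, hd2, e2, _⟩ := hslot N 0 le_rfl (Nat.zero_le _) (by omega)
    have g1 := mn_unique hc1 hd1
    rw [hR0, M6_coact_one hσ] at hd2
    have g2 := mx_unique hc' hd2
    have g3 := hapbp N 0 (by omega)
    rw [hbp0] at e2 g3
    omega
  · intro j hj
    obtain ⟨i, t, hi, ht, hit, h1, h2⟩ := M6_cover (x := a + j) hap0 hbp0 hapbp (by omega)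
      (by omega)
    obtain ⟨c1, hc1, e1⟩ := hoff i hi
    obtain ⟨d1, d2, hd1, _, _, hd⟩ := hslot i t hi ht hit
    have g1 := mn_unique hc1 hd1
    have h3 := hd (a + j - ap i) (by omega)
    have h4 : ap i + (a + j - ap i) = a + j := by omega
    have h5 : d1 + (a + j - ap i) = c + j := by omega
    rw [h4, h5] at h3
    exact h3

end NF
end

section

/-! MP_24a659_al, job N7: rigidity on the same word and the count of killers (Section 7). -/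

set_option autoImplicit false

namespace NF

theorem N7_KS {V : Submodule ℚ F} {i j k : ℕ} {X Z : F} (hX : X ∈ KS V i) (hZ : Z ∈ KS V j)
    (h : i + j = k) : X * Z ∈ KS V k := by
  rw [← h]
  exact KS_mul V i j (Submodule.mul_mem_mul hX hZ)

theorem N7_Fk {i j k : ℕ} {X Z : F} (hX : X ∈ Fk i) (hZ : Z ∈ Fk j) (h : i + j ≤ k) :
    X * Z ∈ Fk k :=
  Fk_mono h (Fk_mul i j (Submodule.mul_mem_mul hX hZ))

/-- the middle factor `Y*` -/
theorem N7_star {D V : Submodule ℚ F} {j M : ℕ} {Y0 z μ T : F} (hY0 : Y0 ∈ D) (hz : z ∈ V)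
    (hμ : μ ∈ ((D * V) ^ 3) ^ j) (hT : T ∈ Gp D V M) :
    Y0 * z * μ * T ∈ Gp D V (1 + 3 * j + M) := by
  have h1 : Y0 * z * μ ∈ (D * V) ^ (1 + 3 * j) := by
    rw [pow_add, pow_one, pow_mul]
    exact Submodule.mul_mem_mul (Submodule.mul_mem_mul hY0 hz) hμ
  rw [← Gp_two, mul_assoc]
  exact Submodule.mul_mem_mul h1 hT

/-- a column with room for killers on the right -/
theorem N7_col {V : Submodule ℚ F} {s : Sq} (hs : nz s) {n i : ℕ} {Z : F} (hZ : Z ∈ KS V i)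
    {q : ℕ} (h : coact s n Z (one n) q ≠ 0) : Fits V s i q n := by
  obtain ⟨r, _, hr, h1, _⟩ := coact_ne_zero s n Z (one n) q h
  exact Fits_mono (hZ.2 s hs q r h1) le_rfl hr

/-- a row with room for killers on the left -/
theorem N7_row {V : Submodule ℚ F} {s : Sq} (hs : nz s) {i : ℕ} {Z : F} (hZ : Z ∈ KS V i)
    {q : ℕ} (h : act s Z (dl 0) q ≠ 0) : Fits V s i 0 q := by
  rw [act_dl] at h
  exact hZ.2 s hs 0 q h

theorem ns_core {C Cb Db U V : Submodule ℚ F} (pk : Pkg C U V) {m l b k b1 k1 B M : ℕ}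
    {R : Set ((Fin m → F) → F)} (hl : V ≤ Fk l) (hbb1 : b ≤ b1) (hk : kk m l b ≤ k)
    (hb1 : Repl (thinE V 0) C (max l k) b1) (hk1 : 2 * l + b1 ≤ k1) (hk1' : k + b1 + l ≤ k1)
    (hB : Repl (thinE V 1) C k1 B) (hb1B : b1 ≤ B)
    (hb : Base Cb Db) (hCB : C ⊓ Fk B ≤ Cb) (hR : Rk m l Cb Db U V R)
    {s : Sq} (hs : nz s) {n : ℕ}
    (hN : Fits V s (M + 3 * (2 ^ m - 1) + 5) 0 n)
    (hN' : ¬ Fits V s (M + 3 * (2 ^ m - 1) + 5 + 1) 0 n)
    {e r j : ℕ} {x J c : F} {f f' : (Fin m → F) → F} {u : Fin m → F} {Y0 z t μ T : F}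
    {g : (Fin m → F) → F} {u' : Fin m → F} {c' J' x' : F}
    (hd : NSd C V Db R l b M e r j s n x J c f f' u Y0 z t μ T g u' c' J' x')
    (hex : ∀ Y ∈ Gap C V B,
      pair (W s 0 n) (x * (J * c) * Dop t f' u * Y * g u' * (c' * J' * x')) =
      pair (W s 0 n) (x * (J * c) * f' u * Y * Dop t g u' * (c' * J' * x'))) :
    ∃ p q q', p < q ∧ q ≤ q' ∧ q' ≤ n ∧ (∀ i, i < q' - q → s (p + i) = s (q + i)) ∧
      ¬ Fits V s (3 * 2 ^ m) 0 q ∧ ¬ Fits V s 4 q' n := by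
  have hbB : b ≤ B := hbb1.trans hb1B
  have hV : V ≤ P1 := pk.V_le
  have hD : C ⊓ Fk b ≤ P1 := inf_le_left.trans pk.C_le
  have hDC : C ⊓ Fk b ≤ Cb := (inf_le_inf_left C (Fk_mono hbB)).trans hCB
  have hVD : V ≤ Db := hR.V_le
  have hDbP : Db ≤ P1 := hb.D_le.trans hb.C_le
  -- the space of three killers
  have hS : Sb C V b ≤ Cb * Db := N4_pow hb (M6_mm hDC hVD) 2
  have hSl : Sb C V b ≤ Fk (3 * (b + l)) :=
    N4_pow_Fk ((M6_mm inf_le_right hl).trans (Fk_mul b l)) 3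
  have hSK : Sb C V b ≤ KS V 3 := M6_DV_KS hD hV 3
  -- the derivatives
  have hder : Der (Sb C V b) f e f' := hd.hder
  have hder1 : Der (Sb C V b) f (e + (r + 1)) (Dop t f') := Der.step hder hd.ht
  have hder2 : Der (Sb C V b) g (0 + (r + 1)) (Dop t g) := Der.step Der.base hd.ht
  have huD : ∀ k, u k ∈ Db := fun k => (hd.hu k).1
  have hu'D : ∀ k, u' k ∈ Db := fun k => (hd.hu' k).1
  have v0 : f' u ∈ Db ⊓ Fk (m * l + (l + m * (3 * (b + l)) * e)) :=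
    der_val hb (hR.val f hd.hf) hS hSl hder l u hd.hu
  have v1 : Dop t f' u ∈ Db ⊓ Fk (m * l + (l + m * (3 * (b + l)) * (e + (r + 1)))) :=
    der_val hb (hR.val f hd.hf) hS hSl hder1 l u hd.hu
  have v2 : Dop t g u' ∈ Db ⊓ Fk (m * l + (l + m * (3 * (b + l)) * (0 + (r + 1)))) :=
    der_val hb (hR.val g hd.hg) hS hSl hder2 l u' hd.hu'
  -- the values in `P1 * U` and `U * P1`
  have w0 : f' u ∈ P1 * U := der_PU hb (hR.PU f hd.hf) hS hder u huD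
  have w1 : Dop t f' u ∈ P1 * U := der_PU hb (hR.PU f hd.hf) hS hder1 u huD
  have w2 : Dop t g u' ∈ U * P1 := der_UP hb (hR.UP g hd.hg) hS hder2 u' hu'D
  have w3 : g u' ∈ U * P1 := hR.UP g hd.hg u' hu'D
  -- contents
  have hG := KS_mul V
  have h0 := P1_le_KS V
  have hcont := fun f (hf : f ∈ R) => hR.cont f hf (KS V) hG h0
  have c0 : f' u ∈ KS V (3 * e) := by
    have h := der_cont hG h0 (hcont f hd.hf) hSK hder (fun _ => 0) u
      (fun k => h0 (hDbP (huD k)))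
    simpa using h
  have c1 : Dop t f' u ∈ KS V (3 * (e + (r + 1))) := by
    have h := der_cont hG h0 (hcont f hd.hf) hSK hder1 (fun _ => 0) u
      (fun k => h0 (hDbP (huD k)))
    simpa using h
  have c2 : Dop t g u' ∈ KS V (3 * (r + 1)) := by
    have h := der_cont hG h0 (hcont g hd.hg) hSK hder2 (fun _ => 0) u'
      (fun k => h0 (hDbP (hu'D k)))
    simpa using h
  -- the two ends
  have hA : x * (J * c) ∈ P1 :=
    mul_mem_P1 (hD hd.hx) (mul_mem_P1 (hV hd.hJ) (hD hd.hc))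
  have hA' : c' * J' * x' ∈ P1 :=
    mul_mem_P1 (mul_mem_P1 (hD hd.hc') (hV hd.hJ')) (hD hd.hx')
  have hAl : x * (J * c) ∈ Fk (2 * b + l) :=
    N7_Fk hd.hx.2 (N7_Fk (hl hd.hJ) hd.hc.2 le_rfl) (by omega)
  have hAl' : c' * J' * x' ∈ Fk (2 * b + l) :=
    N7_Fk (N7_Fk hd.hc'.2 (hl hd.hJ') le_rfl) hd.hx'.2 (by omega)
  have hAK : x * (J * c) ∈ KS V 1 :=
    N7_KS (h0 (hD hd.hx)) (N7_KS (V_le_KS hV hd.hJ) (h0 (hD hd.hc)) rfl) rfl
  have hAK' : c' * J' * x' ∈ KS V 1 :=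
    N7_KS (N7_KS (h0 (hD hd.hc')) (V_le_KS hV hd.hJ') rfl) (h0 (hD hd.hx')) rfl
  -- lengths
  have hdeg := hd.hdeg
  have hpow : 1 ≤ 2 ^ m := Nat.one_le_two_pow
  have hlen : ∀ a, a ≤ 2 ^ m → m * (3 * (b + l)) * a ≤ m * (3 * (b + l)) * 2 ^ m :=
    fun a ha => Nat.mul_le_mul_left _ ha
  have hl0 := hlen e (by omega)
  have hl1 := hlen (e + (r + 1)) (by omega)
  have hl2 := hlen (0 + (r + 1)) (by omega)
  unfold kk at hk
  have l0 : x * (J * c) * f' u ∈ Fk k := N7_Fk hAl v0.2 (by omega)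
  have l1 : x * (J * c) * Dop t f' u ∈ Fk k := N7_Fk hAl v1.2 (by omega)
  have l2 : Dop t g u' * (c' * J' * x') ∈ Fk k := N7_Fk v2.2 hAl' (by omega)
  have l3 : g u' * (c' * J' * x') ∈ Fk k := N7_Fk (hl hd.hgV) hAl' (by omega)
  -- membership in `P1`
  have p0 : x * (J * c) * f' u ∈ P1 := mul_mem_P1 hA (hDbP v0.1)
  have p1 : x * (J * c) * Dop t f' u ∈ P1 := mul_mem_P1 hA (hDbP v1.1)
  have p2 : Dop t g u' * (c' * J' * x') ∈ P1 := mul_mem_P1 (hDbP v2.1) hA'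
  have p3 : g u' * (c' * J' * x') ∈ P1 := mul_mem_P1 (hV hd.hgV) hA'
  have hPU : ∀ Z ∈ P1 * U, x * (J * c) * Z ∈ P1 * U := fun Z hZ => by
    have h := Submodule.mul_mem_mul hA hZ
    rw [← mul_assoc] at h
    exact M6_mm P1_mul le_rfl h
  have hUP : ∀ Z ∈ U * P1, Z * (c' * J' * x') ∈ U * P1 := fun Z hZ => by
    have h := Submodule.mul_mem_mul hZ hA'
    rw [mul_assoc] at h
    exact M6_mm le_rfl P1_mul h
  -- the vectors
  have hLf := act_mem_Lft (s := s) pk.U_le (hPU _ w0) (dl 0)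
  have hLf1 := act_mem_Lft (s := s) pk.U_le (hPU _ w1) (dl 0)
  have hRg := coact_mem_Rgt (s := s) (n := n) pk.U_le (hUP _ w2) (one n)
  have hRg1 := coact_mem_Rgt (s := s) (n := n) pk.U_le (hUP _ w3) (one n)
  have hLK := act_dl_mem_LK s (V * (C ⊓ Fk b1) * V) (k := k) ⟨p0, l0⟩
  have hLK1 := act_dl_mem_LK s (V * (C ⊓ Fk b1) * V) (k := k) ⟨p1, l1⟩
  have hRK := coact_one_mem_RK s n (V * (C ⊓ Fk b1) * V) (k := k) ⟨p2, l2⟩
  have hRK1 := coact_one_mem_RK s n (V * (C ⊓ Fk b1) * V) (k := k) ⟨p3, l3⟩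
  -- the identity
  have hGP := Gap_le_P1 pk.C_le pk.V_le B
  have heq : ∀ Y ∈ Gap C V B,
      bil n (act s Y (act s (x * (J * c) * f' u) (dl 0)))
        (coact s n (Dop t g u' * (c' * J' * x')) (one n)) =
      bil n (act s Y (act s (x * (J * c) * Dop t f' u) (dl 0)))
        (coact s n (g u' * (c' * J' * x')) (one n)) := by
    intro Y hY
    rw [← pair_mul3 s n p0 (hGP hY) p2, ← pair_mul3 s n p1 (hGP hY) p3]
    have h := hex Y hY
    rw [mul_assoc _ (g u') _, mul_assoc _ (Dop t g u') _] at h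
    exact h.symm
  -- the middle factor
  have hst : Y0 * z * μ * T ∈ Gp (C ⊓ Fk b) V (1 + 3 * j + M) :=
    N7_star hd.hY0 hd.hz hd.hμ hd.hT
  have hstG : Y0 * z * μ * T ∈ Gap C V B := Gp_le_Gap hbB _ hst
  have hstK : Y0 * z * μ * T ∈ KS V (1 + 3 * j + M) := Gp_le_KS hD hV _ hst
  have hne : bil n (act s (Y0 * z * μ * T) (act s (x * (J * c) * Dop t f' u) (dl 0)))
      (coact s n (g u' * (c' * J' * x')) (one n)) ≠ 0 := by
    rw [← pair_mul3 s n p1 (hGP hstG) p3, ← mul_assoc _ (g u') _]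
    exact hd.hne
  have hne' : bil n (act s (Y0 * z * μ * T) (act s (x * (J * c) * f' u) (dl 0)))
      (coact s n (Dop t g u' * (c' * J' * x')) (one n)) ≠ 0 := by
    rw [heq _ hstG]
    exact hne
  obtain ⟨a1, b2, hab, hbn, ha1, hen, hb2⟩ := bil_act_ne_zero s n _ _ _ hne'
  obtain ⟨a3, b4, hab', hbn', ha3, hen', hb4⟩ := bil_act_ne_zero s n _ _ _ hne
  obtain ⟨p, hpa, hp⟩ := exists_mn _ a1 ha1
  obtain ⟨p', hpb, hp'⟩ := exists_mx n _ b2 hbn hb2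
  obtain ⟨q, hqa, hq⟩ := exists_mn _ a3 ha3
  obtain ⟨q', hqb, hq'⟩ := exists_mx n _ b4 hbn' hb4
  obtain ⟨hlen', hper⟩ := rgprime pk hl hb1 hk1 hk1' hB hb1B hs hLf hLK hRg hRK hp hp'
    (hpa.trans (hab.trans hpb)) hs hLf1 hLK1 hRg1 hRK1 hq hq' heq
  -- the count
  have k0 : x * (J * c) * Dop t f' u ∈ KS V (1 + 3 * (e + (r + 1))) := N7_KS hAK c1 rfl
  have k2 : Dop t g u' * (c' * J' * x') ∈ KS V (3 * (r + 1) + 1) := N7_KS c2 hAK' rfl
  have k3 : g u' * (c' * J' * x') ∈ KS V (1 + 1) := N7_KS (V_le_KS hV hd.hgV) hAK' rfl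
  have f1 : Fits V s (1 + 3 * j + M + (3 * (r + 1) + 1)) p n :=
    Fits_mono (Fits_add (hstK.2 s hs a1 b2 hen) (N7_col hs k2 hb2)) hpa le_rfl
  have f2 : Fits V s (1 + 3 * (e + (r + 1))) 0 q := N7_row hs k0 hq.1
  have f3 : Fits V s (1 + 3 * j + M + (1 + 1)) q n :=
    Fits_mono (Fits_add (hstK.2 s hs a3 b4 hen') (N7_col hs k3 hb4)) hqa le_rfl
  have f4 : Fits V s (1 + 3 * (e + (r + 1)) + (1 + 3 * j + M)) 0 q' :=
    Fits_mono (Fits_add (N7_row hs k0 ha3) (hstK.2 s hs a3 b4 hen')) le_rfl hqb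
  have hmax : ∀ i, Fits V s i 0 n → i < M + 3 * (2 ^ m - 1) + 5 + 1 := fun i hi => by
    by_contra h
    exact hN' (Fits_anti (by omega) hi)
  refine ⟨p, q, q', ?_, ?_, hq'.1, ?_, ?_, ?_⟩
  · by_contra h
    have h1 := hmax _ (Fits_add (Fits_mono f2 le_rfl (by omega)) f1)
    omega
  · omega
  · intro i hi
    exact hper i (by omega)
  · intro h
    have h1 := hmax _ (Fits_add h f3)
    omega
  · intro h
    have h1 := hmax _ (Fits_add f4 h)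
    omega

end NF
end

section

/-! MP_24a659_al, job N9: Theorem NS: `W+`-null words are tame. -/

set_option autoImplicit false

namespace NF

theorem N9_relP_mono {C D V Z : Submodule ℚ F} {L L' m : ℕ} (h : L ≤ L')
    {f : (Fin m → F) → F} (hf : RelP C D V Z Fk L' f) : RelP C D V Z Fk L f :=
  fun J hJ c hc v hv Y hY z hz c' hc' J' hJ' =>
    hf J hJ c ⟨hc.1, Fk_mono h hc.2⟩ v (fun k => ⟨(hv k).1, Fk_mono h (hv k).2⟩) Y
      ⟨hY.1, Fk_mono h hY.2⟩ z ⟨hz.1, Fk_mono h hz.2⟩ c' ⟨hc'.1, Fk_mono h hc'.2⟩ J' hJ'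

theorem N9_relQ_mono {C D V Z : Submodule ℚ F} {L L' m : ℕ} (h : L ≤ L')
    {f : (Fin m → F) → F} (hf : RelQ C D V Z Fk L' f) : RelQ C D V Z Fk L f :=
  fun J hJ c hc v hv Y hY z hz c' hc' J' hJ' =>
    hf J hJ c ⟨hc.1, Fk_mono h hc.2⟩ v (fun k => ⟨(hv k).1, Fk_mono h (hv k).2⟩) Y
      ⟨hY.1, Fk_mono h hY.2⟩ z ⟨hz.1, Fk_mono h hz.2⟩ c' ⟨hc'.1, Fk_mono h hc'.2⟩ J' hJ'

/-- the target set for words which start at `0` -/
theorem N9_word {C U V : Submodule ℚ F} (pk : Pkg C U V) {m l b k b1 k1 B L0 L : ℕ}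
    (hl : V ≤ Fk l)
    (hb0 : Repl (thinE V 0) C l b) (hbb1 : b ≤ b1) (hk : kk m l b ≤ k)
    (hb1 : Repl (thinE V 0) C (max l k) b1) (hk1 : 2 * l + b1 ≤ k1) (hk1' : k + b1 + l ≤ k1)
    (hB : Repl (thinE V 1) C k1 B) (hb1B : b1 ≤ B)
    {Cb Db : Submodule ℚ F} {R : Set ((Fin m → F) → F)} (hb : Base Cb Db)
    (hCB : C ⊓ Fk B ≤ Cb) (hR : Rk m l Cb Db U V R)
    (hL0 : ∀ (C Cb Db U V : Submodule ℚ F)
    (R : Set ((Fin m → F) → F)), C ≤ P1 → Base Cb Db → Rk m l Cb Db U V R → C ⊓ Fk B ≤ Cb →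
    ∀ (s : Sq) (n : ℕ),
    (∀ f ∈ R, RelP Cb Db V (Zn s n) Fk L0 f ∧ RelQ Cb Db V (Zn s n) Fk L0 f) →
    ∀ (M e r j : ℕ) (x J c : F) (f f' : (Fin m → F) → F) (u : Fin m → F) (Y0 z t μ T : F)
      (g : (Fin m → F) → F) (u' : Fin m → F) (c' J' x' : F),
    NSd C V Db R l b M e r j s n x J c f f' u Y0 z t μ T g u' c' J' x' →
    ∀ Y ∈ Gap C V B,
      pair (W s 0 n) (x * (J * c) * Dop t f' u * Y * g u' * (c' * J' * x')) =
      pair (W s 0 n) (x * (J * c) * f' u * Y * Dop t g u' * (c' * J' * x')))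
    (h1 : L0 ≤ L) (h2 : max l b + 2 ^ m * (3 * (b + l)) ≤ L)
    {s : Sq} (hs : nz s) {n : ℕ} (hnull : ¬ Fits (Wp Cb Db V R L) s 1 0 n) :
    W s 0 n ∈ thinE V (3 * (2 ^ m - 1) + 5) ∪ {Z | ∃ a ∈ thinE V (3 * 2 ^ m - 1),
      ∃ p ∈ thinE V (3 * 2 ^ m - 1), ∃ r ∈ thinE V (3 * 2 ^ m - 1), ∃ b ∈ thinE V 3,
      ∃ M : ℕ, Z = a * (p * r) ^ M * p * b} := by
  have hb0' : Repl (thinE V 0) C (max l 0) b := by
    rw [Nat.max_zero]
    exact hb0
  obtain ⟨N, hN, hN', Y, hY, hne⟩ := aprime pk hl hb0' hs (dl_mem_Lft s U) (dl_mem_LK s V 0)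
    (one_mem_Rgt s n U) (one_mem_RK s n V 0) (mn_dl 0) (mx_one n) (Nat.zero_le n)
  rw [← pair_eq_bil] at hne
  rcases Nat.lt_or_ge (3 * (2 ^ m - 1) + 5) N with hlt | hge
  · obtain ⟨M, hM⟩ : ∃ M, N = M + 3 * (2 ^ m - 1) + 5 := ⟨N - (3 * (2 ^ m - 1) + 5), by omega⟩
    subst hM
    have hM1 : 1 ≤ M := by omega
    right
    have hrel := rel_word hb hR hnull
    have hbB : b ≤ B := hbb1.trans hb1B
    have hCb : C ⊓ Fk b ≤ Cb := (inf_le_inf_left C (Fk_mono hbB)).trans hCB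
    obtain ⟨e, r, j, x, J, c, f, f', u, Y0, z, t, μ, T, g, u', c', J', x', hd⟩ :=
      ns_expand pk.C_le hb hR hCb h2 hM1 (fun f hf => (hrel f hf).1) hY hne
    have hex := hL0 C Cb Db U V R pk.C_le hb hR hCB s n
      (fun f hf => ⟨N9_relP_mono h1 (hrel f hf).1, N9_relQ_mono h1 (hrel f hf).2⟩)
      M e r j x J c f f' u Y0 z t μ T g u' c' J' x' hd
    obtain ⟨p, q, q', hpq, hqq, hqn, hper, hf1, hf2⟩ :=
      ns_core pk hl hbb1 hk hb1 hk1 hk1' hB hb1B hb hCB hR hs hN hN' hd hex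
    obtain ⟨M', r', hr', hW⟩ := ns_period s hpq hqq hqn hper
    have hpos : 1 ≤ 2 ^ m := Nat.one_le_two_pow
    have e1 : 3 * 2 ^ m - 1 + 1 = 3 * 2 ^ m := by omega
    have hsub : ∀ i i', i ≤ i' → i' ≤ q → W s i i' ∈ thinE V (3 * 2 ^ m - 1) := by
      intro i i' hi hi'
      refine mem_thinE hs hi fun hF => hf1 ?_
      rw [e1] at hF
      exact Fits_mono hF (Nat.zero_le i) hi'
    exact ⟨W s 0 p, hsub 0 p (Nat.zero_le p) hpq.le, W s p (p + r'),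
      hsub p (p + r') (Nat.le_add_right p r') (by omega), W s (p + r') q,
      hsub (p + r') q (by omega) le_rfl, W s q' n, mem_thinE hs hqn hf2, M', hW⟩
  · left
    exact mem_thinE hs (Nat.zero_le n) fun h => hN' (Fits_anti (by omega) h)

theorem ns {C U V : Submodule ℚ F} (pk : Pkg C U V) {m l b k b1 k1 B : ℕ} (hl : V ≤ Fk l)
    (hb0 : Repl (thinE V 0) C l b) (hbb1 : b ≤ b1) (hk : kk m l b ≤ k)
    (hb1 : Repl (thinE V 0) C (max l k) b1) (hk1 : 2 * l + b1 ≤ k1) (hk1' : k + b1 + l ≤ k1)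
    (hB : Repl (thinE V 1) C k1 B) (hb1B : b1 ≤ B)
    {Cb Db : Submodule ℚ F} {R : Set ((Fin m → F) → F)} (hb : Base Cb Db)
    (hCB : C ⊓ Fk B ≤ Cb) (hR : Rk m l Cb Db U V R) :
    ∃ L, Tame (thinE (Wp Cb Db V R L) 0) := by
  obtain ⟨L0, hL0⟩ := ns_exch m l b B (hbb1.trans hb1B)
  refine ⟨max L0 (max l b + 2 ^ m * (3 * (b + l))), ?_⟩
  have heps : ∀ (c : ℕ), ∀ Z ∈ thinE V c, eps Z = 1 := by
    rintro c Z ⟨s, p, q, _, _, _, rfl⟩
    exact eps_W s p q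
  refine Tame_sub ?_ (Tame_union (Tame_thin pk.V_eps pk.N (3 * (2 ^ m - 1) + 5))
    (Tame_periodic (Tame_thin pk.V_eps pk.N (3 * 2 ^ m - 1))
      (Tame_thin pk.V_eps pk.N (3 * 2 ^ m - 1)) (Tame_thin pk.V_eps pk.N (3 * 2 ^ m - 1))
      (Tame_thin pk.V_eps pk.N 3) (heps _) (heps _)))
  rintro Z ⟨s, p, q, hs, hpq, hf, rfl⟩
  have hn : p + (q - p) = q := by omega
  have hW : W s p q = W (fun i => s (p + i)) 0 (q - p) := by
    rw [W_shift, Nat.add_zero, hn]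
  have hF : ¬ Fits (Wp Cb Db V R (max L0 (max l b + 2 ^ m * (3 * (b + l)))))
      (fun i => s (p + i)) 1 0 (q - p) := by
    rw [Fits_shift, Nat.add_zero, hn]
    exact hf
  rw [hW]
  exact N9_word pk hl hb0 hbb1 hk hb1 hk1 hk1' hB hb1B hb hCB hR hL0 (le_max_left _ _)
    (le_max_right _ _) (fun i => hs (p + i)) hF

end NF
end

section

/-! MP_24a659_al, job S1: the STEP. -/

set_option autoImplicit false

namespace NF

/-- rows of `Lft s U'` belong to `LK s V k` if `U' ≤ P1 * V` -/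
theorem S1_Lft_LK {s : Sq} {U' V : Submodule ℚ F} (hV : V ≤ P1) (h : U' ≤ P1 * V) (k : ℕ) :
    Lft s U' ≤ LK s V k := by
  unfold Lft
  refine Submodule.span_le.2 ?_
  rintro ψ (⟨u, hu, ψ0, rfl⟩ | hψ)
  · exact act_mem_LK hV k (h hu) ψ0
  · rw [Set.mem_singleton_iff] at hψ
    subst hψ
    exact dl_mem_LK s V k

/-- columns of `Rgt s n U'` belong to `RK s n V k` if `U' ≤ V * P1` -/
theorem S1_Rgt_RK {s : Sq} {n : ℕ} {U' V : Submodule ℚ F} (hV : V ≤ P1) (h : U' ≤ V * P1)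
    (k : ℕ) : Rgt s n U' ≤ RK s n V k := by
  unfold Rgt
  refine Submodule.span_le.2 ?_
  rintro ρ (⟨u, hu, ρ0, rfl⟩ | hρ)
  · exact coact_mem_RK hV k (h hu) ρ0
  · rw [Set.mem_singleton_iff] at hρ
    subst hρ
    exact one_mem_RK s n V k

/-- the new package, all constants fixed -/
theorem S1_pkg {C U V : Submodule ℚ F} (pk : Pkg C U V) {m l b k b1 k1 B0 B : ℕ}
    (hl : V ≤ Fk l) (hb0 : Repl (thinE V 0) C l b) (hbb1 : b ≤ b1) (hk : kk m l b ≤ k)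
    (hb1 : Repl (thinE V 0) C (max l k) b1) (hk1 : 2 * l + b1 ≤ k1) (hk1' : k + b1 + l ≤ k1)
    (hB : Repl (thinE V 1) C k1 B) (hb1B : b1 ≤ B)
    (hB0 : Repl (thinE V 0) (C ⊓ LinearMap.ker eps) 0 B0) (hB0B : B0 ≤ B)
    {Cb Db : Submodule ℚ F} {R : Set ((Fin m → F) → F)} (hb : Base Cb Db)
    (hR : Rk m l Cb Db U V R) (hCB : C ⊓ Fk B ≤ Cb) :
    ∃ (U' V' : Submodule ℚ F) (R' : Set ((Fin (m + 1) → F) → F)) (l' : ℕ),
      Pkg (Gap C V B) U' V' ∧ Rk (m + 1) l' Cb Db U' V' R' ∧ V' ≤ V * P1 * V := by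
  obtain ⟨L, hns⟩ := ns pk hl hb0 hbb1 hk hb1 hk1 hk1' hB hb1B hb hCB hR
  have hC1 : C ⊓ Fk b1 ≤ P1 := inf_le_left.trans pk.C_le
  have hCb1 : C ⊓ Fk b1 ≤ Cb := le_trans (inf_le_inf_left C (Fk_mono hb1B)) hCB
  obtain ⟨l', hRk⟩ := rk_plus (L := L) pk.C_le hb hR hCb1
  have hU'1 : V * (C ⊓ Fk b1) * V ≤ V * P1 := by
    rw [mul_assoc]
    exact M6_mm le_rfl ((M6_mm hC1 pk.V_le).trans P1_mul)
  have hU'2 : V * (C ⊓ Fk b1) * V ≤ P1 * V :=
    M6_mm ((M6_mm pk.V_le hC1).trans P1_mul) le_rfl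
  have hU'P : V * (C ⊓ Fk b1) * V ≤ P1 := hU'1.trans ((M6_mm pk.V_le le_rfl).trans P1_mul)
  have hU'3 : V * (C ⊓ Fk b1) * V ≤ P1 * U := by
    refine hU'2.trans ((M6_mm le_rfl pk.V_PU).trans ?_)
    rw [← mul_assoc]
    exact M6_mm P1_mul le_rfl
  have hU'4 : V * (C ⊓ Fk b1) * V ≤ U * P1 := by
    refine hU'1.trans ((M6_mm pk.V_UP le_rfl).trans ?_)
    rw [mul_assoc]
    exact M6_mm le_rfl P1_mul
  have h1U' : V * (C ⊓ Fk b1) * V ≤ P1 * (V * (C ⊓ Fk b1) * V) := by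
    have h := M6_mm (M6_one_le one_mem_P1) (le_refl (V * (C ⊓ Fk b1) * V))
    rwa [one_mul] at h
  have hU'1' : V * (C ⊓ Fk b1) * V ≤ V * (C ⊓ Fk b1) * V * P1 := by
    have h := M6_mm (le_refl (V * (C ⊓ Fk b1) * V)) (M6_one_le one_mem_P1)
    rwa [mul_one] at h
  have hleft : Wp Cb Db (V * (C ⊓ Fk b1) * V) R L ≤ V * (C ⊓ Fk b1) * V * P1 :=
    Wp_le_left hb pk.V_le hR.val hU'P
  have hright : Wp Cb Db (V * (C ⊓ Fk b1) * V) R L ≤ P1 * (V * (C ⊓ Fk b1) * V) :=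
    Wp_le_right hb hR.val hU'P
  have hboth : Wp Cb Db (V * (C ⊓ Fk b1) * V) R L ≤
      V * (C ⊓ Fk b1) * V * P1 * (V * (C ⊓ Fk b1) * V) := Wp_le_both hb hR.val hU'P
  have hWP : Wp Cb Db (V * (C ⊓ Fk b1) * V) R L ≤ P1 :=
    hleft.trans ((M6_mm hU'P le_rfl).trans P1_mul)
  have hWVP : Wp Cb Db (V * (C ⊓ Fk b1) * V) R L ≤ V * P1 := by
    refine hleft.trans ((M6_mm hU'1 le_rfl).trans ?_)
    rw [mul_assoc]
    exact M6_mm le_rfl P1_mul
  have hKS : V * P1 ≤ KS V 1 := by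
    have h := KS_mul V 1 0
    rw [Nat.add_zero] at h
    exact (M6_mm (V_le_KS pk.V_le) (P1_le_KS V)).trans h
  refine ⟨V * (C ⊓ Fk b1) * V, Wp Cb Db (V * (C ⊓ Fk b1) * V) R L,
    Rp Cb (V * (C ⊓ Fk b1) * V) R L, l', ?_, hRk, ?_⟩
  · refine
      { C_le := Gap_le_P1 pk.C_le pk.V_le B
        U_le := hU'P
        V_le := hWP
        one_mem := one_mem_Gap pk.one_mem B
        V_bdd := ⟨l', hRk.V_len⟩
        V_eps := fun J hJ => KS_eps pk.V_eps le_rfl (hKS (hWVP hJ))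
        V_PU := hright
        V_UP := hleft
        A := ?_
        RG := ?_
        E := ?_
        N := ?_ }
    · intro s n hs ψ hψ ρ hρ a a' ha ha' haa
      have hb' : Repl (thinE V 0) C (max l 0) b := by rwa [Nat.max_zero]
      obtain ⟨N, _, _, Y, hY, hne⟩ := aprime pk hl hb' hs (Lft_mono pk.U_le hU'3 hψ)
        (S1_Lft_LK pk.V_le hU'2 0 hψ) (Rgt_mono pk.U_le hU'4 hρ)
        (S1_Rgt_RK pk.V_le hU'1 0 hρ) ha ha' haa
      exact ⟨Y, Gp_le_Gap (hbb1.trans hb1B) N hY, hne⟩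
    · intro s n hs ψ hψ ρ hρ a a' ha ha' haa s' n' hs' φ hφ σ hσ c c' hc hc' heq
      exact rgprime pk hl hb1 hk1 hk1' hB hb1B hs (Lft_mono pk.U_le hU'3 hψ)
        (S1_Lft_LK hU'P h1U' k hψ) (Rgt_mono pk.U_le hU'4 hρ)
        (S1_Rgt_RK hU'P hU'1' k hρ) ha ha' haa hs' (Lft_mono pk.U_le hU'3 hφ)
        (S1_Lft_LK hU'P h1U' k hφ) (Rgt_mono pk.U_le hU'4 hσ)
        (S1_Rgt_RK hU'P hU'1' k hσ) hc hc' heq
    · intro s hs p q hpq
      exact eprime pk hl hb0 (hbb1.trans hb1B) hB0 hB0B hs hpq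
    · exact vplus_tame pk hl hb0 (Wp_le_left hb pk.V_le hR.val pk.V_le)
        (Wp_le_right hb hR.val pk.V_le) hns (Wp_incl hbb1)
  · refine hboth.trans ?_
    have h1 : V * (C ⊓ Fk b1) * V * P1 * (V * (C ⊓ Fk b1) * V) ≤ V * P1 * P1 * (P1 * V) :=
      M6_mm (M6_mm hU'1 le_rfl) hU'2
    refine h1.trans ?_
    have h2 : V * P1 * P1 * (P1 * V) = V * (P1 * P1 * P1) * V := by
      simp only [mul_assoc]
    rw [h2]
    exact M6_mm (M6_mm le_rfl ((M6_mm P1_mul le_rfl).trans P1_mul)) le_rfl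

theorem step {C U V : Submodule ℚ F} (pk : Pkg C U V) (m l : ℕ) : ∃ B : ℕ,
    ∀ (Cb Db : Submodule ℚ F) (R : Set ((Fin m → F) → F)), Base Cb Db →
    Rk m l Cb Db U V R → C ⊓ Fk B ≤ Cb →
    ∃ (U' V' : Submodule ℚ F) (R' : Set ((Fin (m + 1) → F) → F)) (l' : ℕ),
      Pkg (Gap C V B) U' V' ∧ Rk (m + 1) l' Cb Db U' V' R' ∧ V' ≤ V * P1 * V := by
  by_cases hl : V ≤ Fk l
  · have ht1 : Tame (thinE V 1) := Tame_thin pk.V_eps pk.N 1
    have hsub : thinE V 0 ⊆ thinE V 1 := thinE_mono (Nat.zero_le 1)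
    obtain ⟨b, hb⟩ := exists_Repl pk.N C l
    obtain ⟨x1, hx1⟩ := exists_Repl pk.N C (max l (kk m l b))
    obtain ⟨B0, hB0⟩ := exists_Repl pk.N (C ⊓ LinearMap.ker eps) 0
    have hb1 : Repl (thinE V 0) C (max l (kk m l b)) (max b x1) :=
      Repl_mono (Set.Subset.refl _) le_rfl (le_max_right b x1) hx1
    obtain ⟨x2, hx2⟩ := exists_Repl ht1 C
      (max (2 * l + max b x1) (kk m l b + max b x1 + l))
    have hB : Repl (thinE V 1) C (max (2 * l + max b x1) (kk m l b + max b x1 + l))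
        (max (max (max b x1) B0) x2) :=
      Repl_mono (Set.Subset.refl _) le_rfl (le_max_right _ x2) hx2
    refine ⟨max (max (max b x1) B0) x2, fun Cb Db R hbase hR hCB => ?_⟩
    exact S1_pkg pk hl hb (le_max_left b x1) le_rfl hb1 (le_max_left _ _) (le_max_right _ _) hB
      ((le_max_left _ _).trans (le_max_left _ _)) hB0
      ((le_max_right _ _).trans (le_max_left _ _)) hbase hR hCB
  · exact ⟨0, fun Cb Db R _ hR _ => absurd hR.V_len hl⟩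

end NF
end
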